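import Pool.Agent.Lib.MP_028aa5_nt.U.St1

/-! Changing decidability instances. -/

namespace Pool.Agent.Lib.MP_028aa5_nt.U

open Finset

theorem cimg {ι β : Type} {s : Finset ι} {q : ι → Prop} {d d' : DecidablePred q}
    {i i' : DecidableEq β} {f : ι → β} {c : ℝ}
    (h : (#(@image _ _ i' f (@filter _ q d' s)) : ℝ) ≤ c) :
    (#(@image _ _ i f (@filter _ q d s)) : ℝ) ≤ c := by
  cases Subsingleton.elim d d'
  cases Subsingleton.elim i i'
  exact h

theorem cimg' {ι β : Type} {s : Finset ι} {i i' : DecidableEq β} {f : ι → β} {κ c : ℝ}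
    (h : κ * (#(@image _ _ i' f s) : ℝ) ≤ c) : κ * (#(@image _ _ i f s) : ℝ) ≤ c := by
  cases Subsingleton.elim i i'
  exact h

end Pool.Agent.Lib.MP_028aa5_nt.U
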