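import Pool.Agent.Lib.MP_028aa5_nt.U.St4
import Pool.Agent.Lib.MP_028aa5_nt.U.Inst
import Pool.Agent.Lib.MP_028aa5_nt.T.Main

/-! The last two steps of the assembly. -/

namespace Pool.Agent.Lib.MP_028aa5_nt.U

open Finset T MainJ
open scoped Classical

theorem st_Core2 (hB : BasSt) (hV : VASt) (hF : FtSt) (hR : Reg2St) (hT : TowXSt)
    (hRe : RealSt) (hA : CoreA2St) (hC : CoreB2St) : Core2St := by
  intro k η a hk hη hη1 ha
  obtain ⟨ε1, ε2, ρ2, G0, c, A1, h1, h2, h3, hc, a1, hC⟩ :=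
    hC k (η / 2) a hk (by positivity) (by linarith) ha
  obtain ⟨ε0, c1, A2, e0, c10, a2, hA⟩ := hA k ε1 ρ2 c hk h1 h3 hc
  obtain ⟨er, r0, r1, r2⟩ : ∃ er : ℝ, 0 < er ∧ er ≤ η / 2 ∧ er ≤ ε2 / 2 :=
    ⟨min (η / 2) (ε2 / 2), by positivity, min_le_left _ _, min_le_right _ _⟩
  obtain ⟨ε, f0, f1, f2⟩ : ∃ ε : ℝ, 0 < ε ∧ ε ≤ 1 / 64 ∧ ε ≤ ε0 / 64 :=
    ⟨min (1 / 64) (ε0 / 64), by positivity, min_le_left _ _, min_le_right _ _⟩
  obtain ⟨ρ, A3, p0, p1, a3, hT⟩ := hT k ε (er / 84) c1 hk f0 f1 (by positivity) c10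
  refine ⟨ε, ε2 / 2, ρ, max G0 ⌈120 / er⌉₊, max A1 (max A2 A3), f0, by positivity, p0, p1,
    le_max_of_le_left a1, fun G M C D hG hD0 => ?_⟩
  obtain ⟨X1, hA⟩ := hA C D hD0
  obtain ⟨X2, hC⟩ := hC C D hD0
  obtain ⟨X3, hT⟩ := hT G M C D hD0
  obtain ⟨X4, hb⟩ := hR.base C D (2 + 120 / er) hD0
  refine ⟨max (max X1 X2) (max X3 X4), fun X hX π i0 i1 B cL cU Nc N E φ pk pM pG hReg b0 b1 aB hI
    hL hRay hRl cLU hNc y0 y1 y2 => ?_⟩
  simp only [ge_iff_le, max_le_iff] at hX hG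
  obtain ⟨⟨x1, x2⟩, x3, x4⟩ := hX
  have q0 : 0 < 120 / er := by positivity
  obtain ⟨s1, s2, -, s4, -, -, -, -, s9⟩ := hb X x4 π _ (le_max_of_le_left a1) hReg
  have ok := hReg.ok
  have l1 : 1 ≤ Real.log X := by linarith
  have g1 := hR.mono π X _ A1 C D l1 (le_max_left _ _) hReg
  have g2 := hR.mono π X _ A2 C D l1 ((le_max_left _ _).trans (le_max_right _ _)) hReg
  have g3 := hR.mono π X _ A3 C D l1 ((le_max_right _ _).trans (le_max_right _ _)) hReg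
  have k1 := (hB.κ1_pos π ok).le
  have κ0 : 0 < π.κ := (hB.κ1_pos π ok).trans_le (hB.κ1_le π ok)
  have l4 : Real.exp (Nc * π.κ1) ≤ 4 := by
    rw [← Real.exp_log (show (0 : ℝ) < 4 by norm_num)]
    exact Real.exp_le_exp.2 hNc
  have l2 : Real.log 4 ≤ 2 := by
    have := Real.log_two_lt_d9
    rw [show (4 : ℝ) = 2 ^ 2 by norm_num, Real.log_pow]
    push_cast
    linarith
  obtain ⟨R, hRX, N', E', φ', cls, hO⟩ :=
    hT X x3 π N E φ cL cU Nc pk pG pM g3 hI hL hRay hRl.cu hRl.cl cLU (hNc.trans l2) y2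
  have P1 : (1 : ℝ) ≤ π.P := by linarith
  have P2 : 2 * π.P * π.P ≤ π.P ^ 9 := by
    have h : π.P ^ 3 ≤ π.P ^ 9 := pow_le_pow_right₀ P1 (by norm_num)
    nlinarith [mul_le_mul_of_nonneg_right (show 2 ≤ π.P by linarith) (mul_self_nonneg π.P)]
  have κ2 : 2 * π.κ ≤ 1 := by
    refine le_trans ?_ s9
    exact mul_le_mul_of_nonneg_right (by nlinarith) κ0.le
  have G1 : 120 / er ≤ (π.G : ℝ) := by
    rw [pG]
    exact (Nat.le_ceil _).trans (by exact_mod_cast hG.2)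
  have hreal := hRe π (fw (SS i0 i1) B) η (ε2 / 2) (er / 84) _ _ π.P er cL cU Nc R N E φ N' E' φ' cls
    ok hI (hF.fw_bd _ _) hRl cLU κ2 P1 (P2.trans y2) (by
      have u1 : 40 / (π.G : ℝ) ≤ er / 3 := by
        rw [div_le_iff₀ (q0.trans_le G1)]
        rw [div_le_iff₀ r0] at G1
        linarith
      have u2 : 40 / π.P ≤ er / 3 := by
        have G2 : 120 / er ≤ π.P := by linarith
        rw [div_le_iff₀ (by linarith)]
        rw [div_le_iff₀ r0] at G2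
        linarith
      linarith) hO
  set π' := vA π (Fintype.card N'.W) with hπ'
  have ok' : π'.Ok := hV.ok π _ ok
  have k1' := (hB.κ1_pos π' ok').le
  have eκ : π'.κ = π.κ := hV.κ π _
  have eL : π'.ps (cL * π.Nf) = π.ps cL := hV.ps' π _ cL
  have cLU' : cL * π.Nf ≤ cU * π.Nf := Nat.mul_le_mul_right _ cLU
  have cell : ∀ x, cL * π.Nf ≤ N'.cell x ∧ N'.cell x < cU * π.Nf + Nc * π.Nf := fun x => by
    cases h : N'.isU x
    · have := mem_Ico.1 (hreal.cl x h)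
      omega
    · have := mem_Ico.1 (hreal.cu x h)
      omega
  have hpos : ∀ x, π.ps cL ≤ N'.pos π' x ∧ N'.pos π' x ≤ 4 * X := fun x => by
    refine ⟨eL.symm.trans_le (ps_mono k1' (cell x).1), (ps_mono k1' (cell x).2.le).trans ?_⟩
    rw [← add_mul, hV.ps', ps_add]
    have : 0 < π.ps cU := Real.exp_pos _
    nlinarith
  have hJ : ∀ x, (N'.cell x + 1) * π'.Nf ≤ cU * π.Nf + Nc * π.Nf := fun x => by
    have := (cell x).2
    show (N'.cell x + 1) * 1 ≤ _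
    omega
  have hray : N'.Ray π'.ν E' (1 - ε0) := by
    obtain ⟨u, u0, u1⟩ := hO.ray
    exact ⟨u, u0, le_trans (mul_le_mul_of_nonneg_right (by linarith) u0.le) u1⟩
  have P3 : π.P ≤ π.κ * π.ps cL := (le_self_pow₀ P1 (by norm_num)).trans y2
  obtain ⟨E'', γ, τ, q, _, γ0, t, vU, vL, Gd, hE, hφ, hq, ht, hBl⟩ :=
    hA X x1 π' N' E' φ' _ cls (π.ps cL) R (cU * π.Nf + Nc * π.Nf) pk rfl (hV.reg π _ X _ C D g2) hO.is
      hO.lv hray hRX (by rw [eκ]; exact cimg' hO.num) (by rw [eκ]; exact hO.cla)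
      (by rw [eκ]; exact P1.trans P3) hpos hJ
  refine hC X x2 π' i0 i1 B (cL * π.Nf) (cU * π.Nf) (Nc * π.Nf) _ N' E'' φ' γ τ q γ0 t vU vL Gd pk ?_
    (hV.reg π _ X _ C D g1) b0 b1 aB (hB.mono π' N' E' E'' hO.is hE)
    ⟨hreal.card, hreal.cu, hreal.cl, fun e he => (hreal.tk e (hE he)).trans (by linarith),
      fun e he => le_trans (by linarith) (hreal.big e (hE he))⟩
    cLU' ?_ (y0.trans_eq eL.symm) (eL.trans_le ((ps_mono k1 cLU).trans y1)) (by rw [eL, eκ]; exact P3) hJ hφ hq ht hBl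
  · show G0 ≤ π.G * π.Nf
    exact (pG ▸ hG.1 : G0 ≤ π.G).trans (Nat.le_mul_of_pos_right _ ok.Nf)
  · rw [hV.κ1, Nat.cast_mul, mul_assoc]
    exact hNc

theorem st_Main2 (hF : FtSt) (hS : RegSt) (h0 : A0St) (h2 : A2St) (hC : Core2St)
    (hU : Setup2St) : Main2St := by
  suffices h : ∀ (k : ℕ) (η : ℝ), 1 ≤ k → 0 < η → η ≤ 1 → ∃ C X0 : ℝ, ∀ X ≥ X0, 1 ≤ Real.log X →
      ∀ H : ℝ, Real.log X ^ C ≤ H → H ≤ X → ∫ x in X..2 * X, supS k H x ≤ η * (H * X) by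
    intro k η hk hη
    obtain ⟨C, X0, h⟩ := h k (min η 1) hk (lt_min hη one_pos) (min_le_right _ _)
    refine ⟨C, max X0 (Real.exp 1), fun X hX H h1 h2 => ?_⟩
    have x1 : Real.exp 1 ≤ X := (le_max_right _ _).trans hX
    have l1 : 1 ≤ Real.log X := (Real.le_log_iff_exp_le ((Real.exp_pos 1).trans_le x1)).2 x1
    refine (h X ((le_max_left _ _).trans hX) l1 H h1 h2).trans ?_
    have H0 : 0 < H := (Real.rpow_pos_of_pos (by linarith) _).trans_le h1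
    exact mul_le_mul_of_nonneg_right (min_le_left _ _) (mul_nonneg H0.le (H0.le.trans h2))
  intro k η hk hη hη1
  obtain ⟨a, ha, hU⟩ := hU ((300 / η) ^ 2)
  set B : ℕ := ⌈2 / a⌉₊ with hBd
  have aB : 2 ≤ a * B := by
    have := Nat.le_ceil (2 / a)
    rw [div_le_iff₀ ha] at this
    linarith
  have B0 : (0 : ℝ) < B := by
    by_contra h
    nlinarith [mul_nonneg ha.le (show (0 : ℝ) ≤ -B by linarith)]
  have B1 : 1 ≤ B := by exact_mod_cast B0
  set η1 : ℝ := min (η * (300 / η) ^ 2 / (100 * B)) 1 with hη1d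
  have e1 : 0 < η1 := lt_min (by positivity) one_pos
  have e2 : η1 ≤ 1 := min_le_right _ _
  obtain ⟨ε, ε2, ρ, G0, A, p1, p2, p3, p4, A1, hC⟩ :=
    hC k (η1 / 2) a hk (by positivity) (by linarith) ha
  obtain ⟨G, M, D, K0, g0, g1, m1, d1, h2⟩ :=
    h2 k 9 G0 η1 (η / 200) ρ ε ε2 hk e1 (by positivity) p3 p4 p1 p2
  have C0 : 0 < A * D := by positivity
  obtain ⟨X1, hC⟩ := hC G M (A * D) D g0 (by linarith)
  obtain ⟨X2, hU⟩ := hU k G (A * D) (max K0 1) g1 C0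
  obtain ⟨X3, s1⟩ := hS.poly 1 (min a (1 / 20)) ⌈A * D⌉₊ (lt_min ha (by norm_num))
  obtain ⟨X4, s2⟩ := hS.poly 2 (1 / 20) 0 (by norm_num)
  set T : ℝ := max (max (|K0| + 1) (800 / η)) 1 with hT
  refine ⟨A * D + 1, max (max (max X1 X2) (max X3 X4)) (max 9 (Real.exp T)),
    fun X hX l2 H hH hHX => ?_⟩
  simp only [ge_iff_le, max_le_iff] at hX
  obtain ⟨⟨⟨x1, x2⟩, x3, x4⟩, x5, x6⟩ := hX
  have X0 : 0 < X := by linarith
  have u1 : T ≤ Real.log X := (Real.le_log_iff_exp_le X0).2 x6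
  set u : ℝ := Real.log X with hu
  have u0 : 0 < u := by linarith
  set P1 : ℝ := u ^ A with hP1
  have PD : P1 ^ D = u ^ (A * D) := by rw [hP1, ← Real.rpow_mul u0.le]
  have PX : P1 ^ D ≤ X ^ min a (1 / 20) := by
    rw [PD]
    refine le_trans ?_ (s1 X x3)
    rw [one_mul, ← Real.rpow_natCast]
    exact Real.rpow_le_rpow_of_exponent_le l2 (Nat.le_ceil _)
  have PXa : P1 ^ D ≤ X ^ a := PX.trans (Real.rpow_le_rpow_of_exponent_le (by linarith)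
    (min_le_left _ _))
  have PXb : P1 ^ D ≤ X ^ (1 / 20 : ℝ) := PX.trans (Real.rpow_le_rpow_of_exponent_le (by linarith)
    (min_le_right _ _))
  have PD1 : 1 ≤ P1 ^ D := by
    rw [PD]
    exact Real.one_le_rpow l2 C0.le
  obtain ⟨Nf, c0, Nc, i0, i1, n1, a0, a1, hL, hπ⟩ := hU X x2
  set π : Par := ⟨k, X ^ (-(7 * k + 4 : ℝ)), Nf, G, 2, ∅, M⟩ with hπd
  obtain ⟨q1, q2, q3, q4, q5, q6, q7, q8, q9, q10⟩ := hπ π rfl rfl rfl rfl
  rw [← hu, ← PD] at q1 q2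
  have κ00 : 0 < π.κ0 := Real.rpow_pos_of_pos X0 _
  have κ10 : 0 ≤ π.κ1 := mul_nonneg (Nat.cast_nonneg _) κ00.le
  have ps0 : 0 < π.ps c0 := Real.exp_pos _
  have κp : 0 < π.κ := (mul_pos_iff_of_pos_right ps0).1 (one_pos.trans_le (PD1.trans q1))
  have κ1 : π.κ ≤ 1 := (le_mul_of_one_le_right κp.le (le_max_right K0 1)).trans q3
  have κX : 1 ≤ π.κ * X := PD1.trans (q1.trans (mul_le_mul_of_nonneg_left q6 κp.le))
  have hpr : ∀ p ∈ SS i0 i1, p.Prime ∧ X ^ a < p ∧ p ≤ 2 ^ i1 := fun p hp => by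
    obtain ⟨h1, h2⟩ := mem_filter.1 hp
    rw [mem_Ioc] at h1
    exact ⟨h2, a0.trans_lt (by exact_mod_cast h1.1), h1.2⟩
  by_contra hcon
  rw [not_le] at hcon
  have hgood := h0 π η X H (SS i0 i1) B c0 Nc hη hη1 κ00 n1 g1 κ1 κX ?_ hHX
    (fun p hp => (hpr p hp).1) ?_ hL B1 ?_ q5 q6 q7 q8 hcon
  rotate_left
  · have h1 : 800 / η ≤ u := ((le_max_right _ _).trans (le_max_left _ _)).trans u1
    rw [Real.rpow_add u0, Real.rpow_one, ← PD] at hH
    rw [div_le_iff₀ hη] at h1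
    have h3 := mul_le_mul_of_nonneg_left hH hη.le
    have h4 := mul_le_mul_of_nonneg_left h1 (zero_le_one.trans PD1)
    clear * - h3 h4 q2
    nlinarith
  · have h1 : #(SS i0 i1) ≤ 2 ^ i1 := (card_filter_le _ _).trans (by simp)
    have h2 : (#(SS i0 i1) : ℝ) ≤ 2 ^ i1 := by exact_mod_cast h1
    refine h2.trans (a1.trans ?_)
    simpa using Real.rpow_le_rpow_of_exponent_le (show 1 ≤ X by linarith)
      (show (1 / 10 : ℝ) ≤ 1 by norm_num)
  · intro n n0 hn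
    refine hF.cnt _ B n (X ^ a) (Real.one_le_rpow (by linarith) ha.le)
      (fun p hp => ⟨(hpr p hp).1, (hpr p hp).2.1.le⟩) n0 ?_
    rw [← Real.rpow_natCast, ← Real.rpow_mul X0.le]
    have := Real.rpow_le_rpow_of_exponent_le (show 1 ≤ X by linarith) aB
    rw [Real.rpow_two] at this
    clear * - this hn x5
    nlinarith
  have KP : K0 ≤ P1 := by
    have h1 : |K0| + 1 ≤ T := (le_max_left _ _).trans (le_max_left _ _)
    have h2 : u ≤ P1 := Real.self_le_rpow_of_one_le l2 A1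
    linarith [le_abs_self K0]
  obtain ⟨P, PP, cL, cU, N, E, φ, r1, r2, r3, r4, r5, r6, r7, r8, r9, r10, r11, r12⟩ :=
    h2 π (fw (SS i0 i1) B) P1 c0 Nc rfl rfl rfl κ00 n1
      ((mul_le_mul_of_nonneg_left (le_max_left K0 1) κp.le).trans q3) KP q9 q1 (hF.fw_bd _ _)
      (fun p hp h m hm => hF.fw_mul _ B p m (fun r hr => (hpr r hr).1) hp
        (fun h' => by linarith [(hpr p h').2.1]) hm)
      (hgood.trans (by
        refine Nat.cast_le.2 (card_le_card (monotone_filter_right _ fun c _ ⟨α, h⟩ => ⟨α, ?_⟩))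
        refine le_trans ((min_le_left _ _).trans ?_) h
        gcongr))
  refine hC X x1 { π with P := P, PP := PP } i0 i1 B cL cU Nc N E φ rfl rfl rfl
    ⟨r1, r2, r3.trans_eq PD, r4, rfl, ?_, q4⟩ a0 a1 aB r9 r10 r12 r11 r5 q10 ?_
    ((ps_mono κ10 r6).trans q6) r8
  · rw [div_le_iff₀ X0]
    exact κX
  · have h1 := s2 X x4
    rw [pow_zero, mul_one] at h1
    have h3 : X = X ^ (9 / 10 : ℝ) * (X ^ (1 / 20 : ℝ) * X ^ (1 / 20 : ℝ)) := by
      rw [← Real.rpow_add X0, ← Real.rpow_add X0]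
      norm_num
    have h4 : 0 < π.ps cL := Real.exp_pos _
    have h5 : 0 < X ^ (1 / 20 : ℝ) := by linarith
    have h6 : 0 < X ^ (9 / 10 : ℝ) := Real.rpow_pos_of_pos X0 _
    have h7 : X / 2 ≤ X ^ (1 / 20 : ℝ) * π.ps cL :=
      q5.trans (r7.trans (mul_le_mul_of_nonneg_right PXb h4.le))
    show X ^ (9 / 10 : ℝ) ≤ π.ps cL
    refine le_of_mul_le_mul_left (le_trans ?_ h7) h5
    have h8 := mul_le_mul_of_nonneg_left h1 (mul_pos h5 h6).le
    clear * - h8 h3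
    nlinarith

end Pool.Agent.Lib.MP_028aa5_nt.U
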