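import Pool.Agent.Lib.MP_028aa5_nt.U.St2

/-! Exact points. -/

namespace Pool.Agent.Lib.MP_028aa5_nt.U

open Finset T
open scoped Classical

namespace PtJ

theorem mkp (k : ℕ) (J : ℤ) (y : ℝ) (α : Ph) : EqZ k (mkP k J y α).ph α :=
  Quotient.exact (s := eqv k) (Quotient.out_eq _)

theorem ext (k : ℕ) (t t' : Pt k) (h1 : t.J = t'.J) (h2 : t.y = t'.y) (h3 : EqZ k t.ph t'.ph) :
    t = t' := by
  obtain ⟨J, y, b⟩ := t
  obtain ⟨J', y', b'⟩ := t'
  have h4 : b = b' := (Quotient.out_equiv_out (s := eqv k)).1 h3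
  cases h1
  cases h2
  cases h4
  rfl

theorem ch (π : Par) (p : ℕ) (t : Pt π.k) : EqZ π.k (chd π p t).ph (dil p t.ph) := mkp _ _ _ _

theorem ch_eq (hD : DenSt) {π : Par} {p r : ℕ} {y z : Pt π.k} (h : chd π p y = chd π r z) :
    EqZ π.k (dil p y.ph) (dil r z.ph) :=
  hD.trans _ _ _ _ (hD.symm _ _ _ (ch π p y)) (h ▸ ch π r z)

theorem comm (hD : DenSt) (π : Par) (p r : ℕ) (t : Pt π.k) :
    chd π p (chd π r t) = chd π r (chd π p t) := by
  refine ext _ _ _ (sub_right_comm _ _ _) (div_right_comm _ _ _) ?_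
  refine hD.trans _ _ _ _ (hD.trans _ _ _ _ (ch π p _) (hD.dil _ _ _ p (ch π r t))) ?_
  refine hD.symm _ _ _ (hD.trans _ _ _ _ (ch π r _) ?_)
  rw [hD.dil_dil, mul_comm, ← hD.dil_dil]
  exact hD.dil _ _ _ r (ch π p t)

theorem bez {p r : ℕ} (hp : p.Prime) (hr : r.Prime) (h : p ≠ r) (j : ℕ) :
    ∃ u v : ℤ, (u : ℝ) * (p : ℝ) ^ j + (v : ℝ) * (r : ℝ) ^ j = 1 := by
  obtain ⟨u, v, e⟩ := Nat.isCoprime_iff_coprime.2
    (Nat.Coprime.pow j j ((Nat.coprime_primes hp hr).2 h))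
  exact ⟨u, v, by exact_mod_cast e⟩

theorem pull (hD : DenSt) (π : Par) (p r : ℕ) (y z : Pt π.k) (hp : p.Prime) (hr : r.Prime)
    (h : p ≠ r) (e : chd π p y = chd π r z) : ∃ t, chd π r t = y ∧ chd π p t = z := by
  choose u v huv using bez hp hr h
  have e1 : y.J - π.lg p = z.J - π.lg r := congrArg Pt.J e
  have e2 : y.y / p = z.y / r := congrArg Pt.y e
  have e3 := ch_eq hD e
  have hp0 : (p : ℝ) ≠ 0 := by exact_mod_cast hp.ne_zero
  have hr0 : (r : ℝ) ≠ 0 := by exact_mod_cast hr.ne_zero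
  refine ⟨mkP π.k (y.J + π.lg r) (y.y * r) fun j => u j * z.ph j + v j * y.ph j, ?_, ?_⟩
  · refine ext _ _ _ (add_sub_cancel_right _ _) (mul_div_cancel_right₀ _ hr0) ?_
    refine hD.trans _ _ _ _ (hD.trans _ _ _ _ (ch π r _) (hD.dil _ _ _ r (mkp _ _ _ _))) ?_
    intro j hj
    obtain ⟨n, hn⟩ := e3 j hj
    refine ⟨-(u j * n), ?_⟩
    simp only [dil] at hn ⊢
    push_cast
    linear_combination y.ph j * huv j - u j * hn
  · refine ext _ _ _ ?_ ?_ ?_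
    · change y.J + π.lg r - π.lg p = z.J
      omega
    · change y.y * r / p = z.y
      rw [mul_div_right_comm, e2, div_mul_cancel₀ _ hr0]
    refine hD.trans _ _ _ _ (hD.trans _ _ _ _ (ch π p _) (hD.dil _ _ _ p (mkp _ _ _ _))) ?_
    intro j hj
    obtain ⟨n, hn⟩ := e3 j hj
    refine ⟨v j * n, ?_⟩
    simp only [dil] at hn ⊢
    push_cast
    linear_combination z.ph j * huv j + v j * hn

theorem uniq (hD : DenSt) (π : Par) (p r : ℕ) (t t' : Pt π.k) (hp : p.Prime) (hr : r.Prime)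
    (h : p ≠ r) (e : chd π r t = chd π r t') (e' : chd π p t = chd π p t') : t = t' := by
  have e1 : t.J - π.lg r = t'.J - π.lg r := congrArg Pt.J e
  have e2 : t.y / r = t'.y / r := congrArg Pt.y e
  have hr0 : (r : ℝ) ≠ 0 := by exact_mod_cast hr.ne_zero
  refine ext _ _ _ (by omega) ((div_left_inj' hr0).1 e2) fun j hj => ?_
  obtain ⟨u, v, huv⟩ := bez hp hr h j
  obtain ⟨n, hn⟩ := ch_eq hD e j hj
  obtain ⟨m, hm⟩ := ch_eq hD e' j hj
  refine ⟨u * m + v * n, ?_⟩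
  simp only [dil] at hn hm
  push_cast
  linear_combination (t'.ph j - t.ph j) * huv + u * hm + v * hn

theorem root (k p : ℕ) (α β : Ph) (hp : 0 < p) (h : EqZ k (dil p α) (dil p β)) :
    ∃ i : ℕ → ℤ, ∀ j ∈ Icc 1 k, α j - β j = lat (1 / p) i j := by
  choose! i hi using h
  refine ⟨i, fun j hj => ?_⟩
  have h1 := hi j hj
  have hp0 : (p : ℝ) ^ j ≠ 0 := by positivity
  simp only [dil] at h1
  rw [lat, one_div, inv_pow, eq_inv_mul_iff_mul_eq₀ hp0]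
  linear_combination h1

theorem chL_y (π : Par) (Y : ℝ) (S : Pt π.k → ℤ × Ph) (R : List ℕ) (t : Pt π.k) :
    Pt.y ((geo π Y S).chL R t) = t.y / R.prod := by
  induction R generalizing t with
  | nil => simp [Sys.chL]
  | cons r R ih =>
    refine (ih (chd π r t)).trans ?_
    change t.y / r / _ = _
    rw [div_div, List.prod_cons, Nat.cast_mul]

theorem chL_ph (hD : DenSt) (π : Par) (Y : ℝ) (S : Pt π.k → ℤ × Ph) (R : List ℕ) (t : Pt π.k) :
    EqZ π.k (Pt.ph ((geo π Y S).chL R t)) (dil (R.prod : ℕ) t.ph) := by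
  induction R generalizing t with
  | nil =>
    rw [List.prod_nil, Nat.cast_one, hD.dil_one]
    exact hD.refl _ _
  | cons r R ih =>
    refine hD.trans _ _ _ _ (ih (chd π r t)) ?_
    rw [List.prod_cons, Nat.cast_mul, mul_comm, ← hD.dil_dil]
    exact hD.dil _ _ _ _ (ch π r t)

theorem chL_ch (hD : DenSt) (π : Par) (Y : ℝ) (S : Pt π.k → ℤ × Ph) (R : List ℕ) (p : ℕ)
    (t : Pt π.k) : (geo π Y S).chL R (chd π p t) = chd π p ((geo π Y S).chL R t) := by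
  induction R generalizing t with
  | nil => rfl
  | cons r R ih =>
    exact (congrArg ((geo π Y S).chL R) (comm hD π r p t)).trans (ih (chd π r t))

theorem cl_congr (hN : NSt) (k : ℕ) (κ y r : ℝ) (α β : Ph) (h : EqZ k α β) (hc : Cl k κ 1 y r α) :
    Cl k κ 1 y r β := by
  choose! n hn using h
  obtain ⟨z, hz⟩ := hc
  refine ⟨z - n, (hN.nm_congr k κ y _ _ fun j hj => ?_).trans_le hz⟩
  simp only [lat, Pi.sub_apply, hn j hj]
  push_cast
  ring

theorem cell (κ v : ℝ) (h : 0 < κ) : 0 ≤ v - ⌊v / κ⌋ * κ ∧ v - ⌊v / κ⌋ * κ ≤ κ := by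
  have h1 := (le_div_iff₀ h).1 (Int.floor_le (v / κ))
  have h2 := (div_lt_iff₀ h).1 (Int.lt_floor_add_one (v / κ))
  constructor <;> linarith

theorem cells (κ s l : ℝ) (h : 0 < κ) (hl : 0 ≤ l) : ∃ I : Finset ℤ, (#I : ℝ) ≤ 2 * l / κ + 2 ∧
    ∀ v : ℝ, |v - s| ≤ l → ⌊v / κ⌋ ∈ I := by
  refine ⟨Icc ⌊(s - l) / κ⌋ ⌊(s + l) / κ⌋, ?_, fun v hv => ?_⟩
  · have h1 : ⌊(s - l) / κ⌋ ≤ ⌊(s + l) / κ⌋ + 1 :=
      (Int.floor_mono (by gcongr; linarith)).trans (Int.le_add_one le_rfl)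
    have h2 : ((#(Icc ⌊(s - l) / κ⌋ ⌊(s + l) / κ⌋) : ℤ) : ℝ) =
        ((⌊(s + l) / κ⌋ + 1 - ⌊(s - l) / κ⌋ : ℤ) : ℝ) := by rw [Int.card_Icc_of_le _ _ h1]
    push_cast at h2
    have h3 := Int.floor_le ((s + l) / κ)
    have h4 := Int.lt_floor_add_one ((s - l) / κ)
    have h5 : (s + l) / κ - (s - l) / κ = 2 * l / κ := by ring
    linarith
  · obtain ⟨h1, h2⟩ := abs_le.1 hv
    exact mem_Icc.2 ⟨Int.floor_mono (by gcongr; linarith), Int.floor_mono (by gcongr; linarith)⟩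

theorem five {κ : ℝ} (h : 0 < κ) : 1 + 4 * κ / κ = 5 := by
  field_simp
  norm_num

theorem nine {κ : ℝ} (h : 0 < κ) : 1 + 4 * (2 * κ) / κ = 9 := by
  field_simp
  norm_num

end PtJ

theorem st_Pt (hN : NSt) (hN2 : N2St) (hD : DenSt) : PtSt where
  mkp := PtJ.mkp
  ext := PtJ.ext
  ch := PtJ.ch
  comm := PtJ.comm hD
  pull := PtJ.pull hD
  uniq := PtJ.uniq hD
  root := PtJ.root
  chL_y := PtJ.chL_y
  chL_ph := PtJ.chL_ph hD
  chL_ch := PtJ.chL_ch hD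
  cl_congr := PtJ.cl_congr hN
  cl_sub k κ c y r r' α β h h1 h2 := by
    rw [sub_eq_add_neg]
    exact hN.cl_add _ _ _ _ _ _ _ _ h h1 (hN.cl_neg _ _ _ _ _ _ h2)
  eqz_sub k α β α' β' h h' j hj := by
    obtain ⟨n, hn⟩ := h j hj
    obtain ⟨m, hm⟩ := h' j hj
    refine ⟨n - m, ?_⟩
    simp only [Pi.sub_apply, hn, hm]
    push_cast
    ring
  eqz_lat k α z j _ := ⟨z j, by simp [lat]⟩
  cl_lift k κ y r α R h := by
    obtain ⟨z, hz⟩ := h
    refine ⟨z, ?_⟩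
    rwa [← hN.nm_dil, hD.dil_sub, hN.lat_dil, mul_one] at hz
  cell κ y h := by
    obtain ⟨h1, h2⟩ := PtJ.cell κ (Real.log y) h
    rwa [abs_of_nonneg h1]
  cell2 κ y y' h e := by
    obtain ⟨h1, h2⟩ := PtJ.cell κ (Real.log y) h
    obtain ⟨h3, h4⟩ := PtJ.cell κ (Real.log y') h
    rw [e] at h1 h2
    exact abs_le.2 ⟨by linarith, by linarith⟩
  cells := PtJ.cells
  nm5 k κ y y' α h h1 hy hy' hu := by
    simpa only [PtJ.five h] using hN2.shift k κ y y' κ α h h1 hy hy' hu h1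
  nm9 k κ y y' α h h1 hy hy' hu := by
    simpa only [PtJ.nine h] using hN2.shift k κ y y' _ α h (by linarith) hy hy' hu h1
  cl5 k κ c y y' r α h h1 hy hy' hu hc := by
    simpa only [PtJ.five h] using hN2.cl_shift k κ c y y' κ r α h h1 hy hy' hu h1 hc
  cl9 k κ c y y' r α h h1 hy hy' hu hc := by
    simpa only [PtJ.nine h] using hN2.cl_shift k κ c y y' _ r α h (by linarith) hy hy' hu h1 hc

end Pool.Agent.Lib.MP_028aa5_nt.U
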