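import Pool.Agent.Lib.MP_028aa5_nt.U.St3

/-! The exact graph at the bottom of the tower. -/

namespace Pool.Agent.Lib.MP_028aa5_nt.U

open Finset T
open scoped Classical

namespace InitJ

theorem ray_mono {N : Net} {ν lam lam' : ℝ} {E : Finset N.Ed} (h : N.Ray ν E lam)
    (hl : lam' ≤ lam) : N.Ray ν E lam' := by
  obtain ⟨u, h1, h2⟩ := h
  exact ⟨u, h1, (mul_le_mul_of_nonneg_right hl h1.le).trans h2⟩

theorem cl_of_nm {k : ℕ} {κ y r : ℝ} {α : Ph} (h : nm k κ y α ≤ r) : Cl k κ 1 y r α :=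
  ⟨0, by rwa [show α - lat 1 0 = α from funext fun j => by simp [lat]]⟩

theorem log_yy (π : Par) (j : ℕ) : Real.log (π.yy j) = j * π.κ0 := Real.log_exp _

theorem near (hB : BasSt) {π : Par} (ok : π.Ok) {y : ℝ} {j : ℕ}
    (h : |Real.log y - j * π.κ0| ≤ π.κ) :
    |Real.log y - Real.log (π.ps (j / π.Nf))| ≤ 2 * π.κ := by
  have a := hB.fine π j ok
  have b := hB.κ1_le π ok
  rw [log_yy] at a
  rw [abs_le] at *
  constructor <;> linarith [a.1, a.2, h.1, h.2]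

/-- the data of an exact edge over an edge `b` of the graph -/
structure Ov (π : Par) (N : Net) (φ : N.W → Ph) (δ : ℝ) (b : N.Ed) (p Ju Jl : ℕ) (yu yl : ℝ)
    (ψu ψl : Ph) : Prop where
  pr : N.pr b = p
  ju : Ju = N.fj b
  jl : Jl = N.fj b - π.lg p
  y : yu = p * yl
  pos : 0 < yl
  lu : |Real.log yu - Ju * π.κ0| ≤ π.κ
  ll : |Real.log yl - Jl * π.κ0| ≤ π.κ
  eq : EqZ π.k ψl (dil p ψu)
  nu : nm π.k π.κ yu (ψu - φ (N.up b)) ≤ δ
  nl : nm π.k π.κ yl (ψl - φ (N.lo b)) ≤ δ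

variable {π : Par} {N : Net} {E : Finset N.Ed} {φ : N.W → Ph} {δ : ℝ}

theorem child (hD : DenSt) (hP : PtSt) (ok : π.Ok) (is : N.Is π E) {b : N.Ed} (hb : b ∈ E)
    {p Ju Jl : ℕ} {yu yl : ℝ} {ψu ψl : Ph} (h : Ov π N φ δ b p Ju Jl yu yl ψu ψl) :
    mkP π.k Jl yl ψl = chd π p (mkP π.k Ju yu ψu) := by
  have hp : (0 : ℝ) < p := by
    have := (ok.pr _ (is.pr b hb)).1.pos
    rw [h.pr] at this
    exact_mod_cast this
  refine hP.ext _ _ _ ?_ ?_ ?_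
  · have := is.le b hb
    rw [h.pr] at this
    change (Jl : ℤ) = (Ju : ℤ) - π.lg p
    rw [h.jl, h.ju, Nat.cast_sub this]
  · change yl = yu / p
    rw [h.y, mul_div_cancel_left₀ _ hp.ne']
  · exact hD.trans _ _ _ _ (hP.mkp _ _ _ _) (hD.trans _ _ _ _ h.eq (hD.symm _ _ _
      (hD.trans _ _ _ _ (hP.ch π p _) (hD.dil _ _ _ p (hP.mkp _ _ _ _)))))

theorem lnk (hD : DenSt) (hP : PtSt) (ok : π.Ok) (is : N.Is π E) {b : N.Ed} (hb : b ∈ E)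
    {p Ju Jl : ℕ} {yu yl : ℝ} {ψu ψl : Ph} (h : Ov π N φ δ b p Ju Jl yu yl ψu ψl) :
    Lnk π N E φ δ (mkP π.k Ju yu ψu) p := by
  have hp : (0 : ℝ) < p := by
    have := (ok.pr _ (is.pr b hb)).1.pos
    rw [h.pr] at this
    exact_mod_cast this
  have e : yu / p = yl := by rw [h.y, mul_div_cancel_left₀ _ hp.ne']
  refine ⟨b, hb, h.pr, ?_, ?_, ?_, ?_, ?_, ?_⟩
  · change (Ju : ℤ) = _
    rw [h.ju]
  · change 0 < yu
    rw [h.y]
    exact mul_pos hp h.pos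
  · change |Real.log yu - _| ≤ _
    rw [← h.ju]
    exact h.lu
  · change |Real.log (yu / p) - _| ≤ _
    rw [← h.jl, e]
    exact h.ll
  · exact hP.cl_congr _ _ _ _ _ _ (hP.eqz_sub _ _ _ _ _ (hD.symm _ _ _ (hP.mkp _ _ _ _))
      (hD.refl _ _)) (cl_of_nm h.nu)
  · rw [← child hD hP ok is hb h]
    change Cl _ _ _ (yu / p) _ _
    rw [e]
    exact hP.cl_congr _ _ _ _ _ _ (hP.eqz_sub _ _ _ _ _ (hD.symm _ _ _ (hP.mkp _ _ _ _))
      (hD.refl _ _)) (cl_of_nm h.nl)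

theorem parent (hN : NSt) (hB : BasSt) (hD : DenSt) (hP : PtSt) (ok : π.Ok) (is : N.Is π E)
    (hκ : 2 * π.κ ≤ 1) (hδ : δ ≤ 1) {b b' : N.Ed} (hb : b ∈ E) (hb' : b' ∈ E)
    {p Ju Jl Ju' Jl' : ℕ} {yu yl yu' yl' : ℝ} {ψu ψl ψu' ψl' : Ph}
    (h : Ov π N φ δ b p Ju Jl yu yl ψu ψl) (h' : Ov π N φ δ b' p Ju' Jl' yu' yl' ψu' ψl')
    (col : ∀ x', ∀ z : ℕ → ℤ, N.isU (N.up b) = N.isU x' → N.cell (N.up b) = N.cell x' →
      nm π.k π.κ (N.pos π (N.up b)) (φ (N.up b) - φ x' - lat (1 / p) z) ≤ 2 * 9 ^ π.k →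
      ∀ j ∈ Icc 1 π.k, (p : ℤ) ^ j ∣ z j)
    (e : mkP π.k Jl yl ψl = mkP π.k Jl' yl' ψl') :
    mkP π.k Ju yu ψu = mkP π.k Ju' yu' ψu' := by
  have hp0 : 0 < p := by
    have := (ok.pr _ (is.pr b hb)).1.pos
    rwa [h.pr] at this
  have hp : (0 : ℝ) < p := by exact_mod_cast hp0
  have κ0 : 0 < π.κ := (hB.κ1_pos π ok).trans_le (hB.κ1_le π ok)
  have eJ : Jl = Jl' := by exact_mod_cast (show (Jl : ℤ) = Jl' from congrArg Pt.J e)
  have ey : yl = yl' := congrArg Pt.y e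
  have l1 := is.le b hb
  have l2 := is.le b' hb'
  rw [h.pr] at l1
  rw [h'.pr] at l2
  have ef : N.fj b = N.fj b' := by
    have := h.jl
    have := h'.jl
    omega
  have eu : yu = yu' := by rw [h.y, h'.y, ey]
  have el : EqZ π.k ψl ψl' := hD.trans _ _ _ _ (hD.symm _ _ _ (hP.mkp _ Jl yl ψl))
    (by rw [e]; exact hP.mkp _ _ _ _)
  obtain ⟨i, hi⟩ := hP.root π.k p ψu ψu' hp0
    (hD.trans _ _ _ _ (hD.symm _ _ _ h.eq) (hD.trans _ _ _ _ el h'.eq))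
  have y0 : 0 < yu := by rw [h.y]; exact mul_pos hp h.pos
  have n1 : nm π.k π.κ yu (φ (N.up b) - φ (N.up b') - lat (1 / p) i) ≤ 2 := by
    rw [hN.nm_congr _ _ _ _ ((ψu' - φ (N.up b')) - (ψu - φ (N.up b))) fun j hj => by
      simp only [Pi.sub_apply, ← hi j hj]
      ring]
    have a := hN.nm_sub π.k π.κ yu (ψu' - φ (N.up b')) (ψu - φ (N.up b)) κ0.le
    have a1 := h.nu
    have a2 := h'.nu
    rw [← eu] at a2
    linarith
  have n2 := hP.nm9 π.k π.κ yu (N.pos π (N.up b)) (φ (N.up b) - φ (N.up b') - lat (1 / p) i) κ0 hκ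
    y0 (hB.pos_pos π N _) (by
      have := near hB ok h.lu
      rw [h.ju, is.cu b hb] at this
      rw [abs_sub_comm]
      exact this)
  have dv := col (N.up b') i (by rw [is.up b hb, is.up b' hb'])
    (by rw [← is.cu b hb, ← is.cu b' hb', ef]) (n2.trans (by
      rw [mul_comm 2]
      exact mul_le_mul_of_nonneg_left n1 (by positivity)))
  have eq : EqZ π.k ψu ψu' := fun j hj => by
    obtain ⟨n, hn⟩ := dv j hj
    refine ⟨n, ?_⟩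
    have := hi j hj
    rw [lat, hn] at this
    push_cast at this
    rw [← mul_assoc, ← mul_pow, one_div_mul_cancel hp.ne', one_pow, one_mul] at this
    linarith
  refine hP.ext _ _ _ ?_ eu (hD.trans _ _ _ _ (hP.mkp _ _ _ _)
    (hD.trans _ _ _ _ eq (hD.symm _ _ _ (hP.mkp _ _ _ _))))
  change (Ju : ℤ) = Ju'
  rw [h.ju, h'.ju, ef]

end InitJ

open InitJ

theorem st_Init (hN : NSt) (_hN2 : N2St) (hB : BasSt) (hD : DenSt) (hP : PtSt) (hDrop : DropSt)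
    (hCol : ColSt) (hBlow : BlowSt) (hOff : OffSt) (hMerge : MergeSt) : InitSt := by
  intro k ε δ hk hε hε' hδ hδ'
  obtain ⟨Nn, hNn, off⟩ := hOff k ε hk hε (by linarith)
  have h9 : (1 : ℝ) ≤ 9 ^ k := one_le_pow₀ (by norm_num)
  have hq : 1 ≤ Nn * 9 ^ k := one_le_mul_of_one_le_of_one_le hNn h9
  have hρ : 0 < δ / (Nn * 9 ^ k) := by positivity
  refine ⟨δ / (Nn * 9 ^ k), hρ, (div_le_one (by positivity)).mpr (hδ'.trans hq), ?_⟩
  intro π N E φ Y S hπ ok is lv ray hY hκ hP1 hP4 hM hL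
  subst hπ
  have κ0 : 0 < π.κ := (hB.κ1_pos π ok).trans_le (hB.κ1_le π ok)
  have P2 := ok.P
  have P0 : 0 < π.P ^ 2 := by positivity
  obtain ⟨Col, c1, c2⟩ := hCol π N E φ (2 * 9 ^ π.k) Y ok is hY
    (by
      have a : 16 * 9 ^ π.k * π.P ^ 2 ≤ π.P * π.P ^ 2 := mul_le_mul_of_nonneg_right hP1 P0.le
      have b : π.P * π.P ^ 2 < π.P ^ 2 * π.P ^ 2 := mul_lt_mul_of_pos_right (by nlinarith) P0
      nlinarith)
    (by
      have b : 4 * π.P ^ 2 ≤ π.P ^ 2 * π.P ^ 2 := mul_le_mul_of_nonneg_right (by nlinarith) P0.le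
      nlinarith)
  have ray1 := ray_mono (hDrop π N E (1 - ε) π.M Col ok is (fun x => by exact_mod_cast c1 x) ray)
    (lam' := 1 - 2 * ε) (by linarith)
  have sub : {e ∈ E | N.pr e ∉ Col (N.up e)} ⊆ E := filter_subset _ _
  obtain ⟨N1, E1, bx, be, nn, γ, hγ, fi1, ray2, h1⟩ :=
    hBlow π N _ _ ⌈1 / ε⌉₊ ok (hB.mono π N E _ is sub) ray1
  have hu : (⌈1 / ε⌉₊ : ℝ) * #π.PP * π.κ0 ≤ π.κ := by
    refine le_trans ?_ hL
    have := (Nat.ceil_lt_add_one (show 0 ≤ 1 / ε by positivity)).le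
    have := ok.κ0
    gcongr
  have pp : ∀ e ∈ E1, 0 < N1.pr e := fun e he => by
    rw [← (h1 e he).2.1]
    exact (ok.pr _ (is.pr _ (sub (h1 e he).1))).1.pos
  obtain ⟨N2, E2, bx2, be2, ψ, fi2, ray3, h2⟩ := off π.κ γ (9 ^ π.k * (δ / (Nn * 9 ^ π.k))) _ _
    N1 E1 (fun v => φ (bx v)) nn κ0 ok.κ hγ (by positivity) (by positivity) fi1 ray2 fun e he => by
      obtain ⟨a1, a2, a3, a4, a5, a6, a7, a8, a9, a10⟩ := h1 e he
      refine ⟨pp e he, a7, a8, ?_⟩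
      rw [a3, a4, ← a2]
      refine hP.cl9 _ _ _ _ _ _ _ κ0 hκ (hB.pos_pos π N _) (by positivity) ?_ (lv _ (sub a1))
      have := near hB ok (a10.trans hu)
      rwa [a6, ← a2, is.cl _ (sub a1)] at this
  have eδ : Nn * (9 ^ π.k * (δ / (Nn * 9 ^ π.k))) = δ := by field_simp
  rw [eδ] at h2
  have ov : ∀ e ∈ E2, be (be2 e) ∈ {e ∈ E | N.pr e ∉ Col (N.up e)} ∧
      Ov π N φ δ (be (be2 e)) (N2.pr e) (N1.cell (bx2 (N2.up e))) (N1.cell (bx2 (N2.lo e)))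
        (γ * nn (bx2 (N2.up e))) (γ * nn (bx2 (N2.lo e))) (ψ (N2.up e)) (ψ (N2.lo e)) := by
    intro e he
    obtain ⟨b1, b2, b3, b4, b5, b6, b7⟩ := h2 e he
    obtain ⟨a1, a2, a3, a4, a5, a6, a7, a8, a9, a10⟩ := h1 _ b1
    rw [b3, b4]
    refine ⟨a1, a2.trans b2, a5, b2 ▸ a6, ?_, by positivity, a9.trans hu, a10.trans hu, b5,
      a3 ▸ b6, a4 ▸ b7⟩
    rw [a7, b2]
    push_cast
    ring
  have hl : 1 - ε ≤ (⌈1 / ε⌉₊ : ℝ) / (⌈1 / ε⌉₊ + 1) := by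
    have a := Nat.le_ceil (1 / ε)
    rw [div_le_iff₀ hε] at a
    rw [le_div_iff₀ (by positivity)]
    nlinarith
  have hl2 : 1 - 4 * ε ≤ (1 - 2 * ε) * ((⌈1 / ε⌉₊ : ℝ) / (⌈1 / ε⌉₊ + 1)) * (1 - ε) := by
    have a : (1 - 2 * ε) * (1 - ε) * (1 - ε) ≤
        (1 - 2 * ε) * ((⌈1 / ε⌉₊ : ℝ) / (⌈1 / ε⌉₊ + 1)) * (1 - ε) :=
      mul_le_mul_of_nonneg_right (mul_le_mul_of_nonneg_left hl (by linarith)) (by linarith)
    nlinarith [mul_nonneg (mul_nonneg hε.le hε.le) (show 0 ≤ 5 - 2 * ε by linarith)]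
  obtain ⟨F, F', gr⟩ := hMerge (geo π Y S) N2 E2
    (fun v => mkP π.k (N1.cell (bx2 v)) (γ * nn (bx2 v)) (ψ v)) (1 - 4 * ε) fi2
    (ray_mono ray3 hl2) (by linarith)
    (fun e he => ⟨(ov e he).2.pr ▸ is.pr _ (sub (ov e he).1),
      child hD hP ok is (sub (ov e he).1) (ov e he).2⟩)
    fun e he e' he' q1 q2 => by
      have o := (ov e he).2
      have o' := (ov e' he').2
      rw [← q1] at o'
      refine parent hN hB hD hP ok is hκ hδ' (sub (ov e he).1) (sub (ov e' he').1) o o'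
        (fun x' z s1 s2 => c2 _ x' _ ?_ z s1 s2 ?_) q2
      · exact o.pr ▸ is.pr _ (sub (ov e he).1)
      · exact o.pr ▸ (mem_filter.mp (ov e he).1).2
  refine ⟨_, F, F', gr, fun e he => ?_⟩
  obtain ⟨e2, he2, rfl⟩ := mem_image.mp he
  exact lnk hD hP ok is (sub (ov e2 he2).1) (ov e2 he2).2

end Pool.Agent.Lib.MP_028aa5_nt.U
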