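import Pool.Agent.Lib.MP_028aa5_nt.U.St3

/-! The graph at the top of the tower. -/

namespace Pool.Agent.Lib.MP_028aa5_nt.U

open Finset T
open scoped Classical

namespace NetJ

section Abs

variable (T : Sys) (E1 : Finset (T.Ω × ℕ)) (c : T.Ω → ℕ)

/-- the vertices -/
noncomputable def vs : Finset (Bool × T.Ω) :=
  (E1.image Prod.fst).image (Prod.mk true) ∪ (E1.image T.lw).image (Prod.mk false)

/-- the graph of an exact graph -/
noncomputable def nt : Net where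
  W := vs T E1
  Ed := E1
  up e := ⟨(true, e.1.1), mem_union_left _ (mem_image_of_mem _ (mem_image_of_mem _ e.2))⟩
  lo e := ⟨(false, T.lw e.1), mem_union_right _ (mem_image_of_mem _ (mem_image_of_mem _ e.2))⟩
  pr e := e.1.2
  fj e := c e.1.1
  isU v := v.1.1
  cell v := c v.1.2

theorem ends (v : (nt T E1 c).W) :
    ∃ e ∈ E1.attach, v = (nt T E1 c).up e ∨ v = (nt T E1 c).lo e := by
  obtain ⟨v, hv⟩ := v
  rcases mem_union.1 hv with h | h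
  · obtain ⟨y, hy, rfl⟩ := mem_image.1 h
    obtain ⟨e, he, rfl⟩ := mem_image.1 hy
    exact ⟨⟨e, he⟩, mem_attach _ _, Or.inl rfl⟩
  · obtain ⟨y, hy, rfl⟩ := mem_image.1 h
    obtain ⟨e, he, rfl⟩ := mem_image.1 hy
    exact ⟨⟨e, he⟩, mem_attach _ _, Or.inr rfl⟩

theorem ray {F F' : T.Ω → ℝ} {lam : ℝ} (h : T.Gr E1 F F' lam) :
    (nt T E1 c).Ray (1 / #T.PP) E1.attach lam := by
  have e1 : ∑ v : vs T E1, (if v.1.1 = true then F v.1.2 else F' v.1.2) ^ 2 =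
      ∑ y ∈ E1.image Prod.fst, F y ^ 2 + ∑ z ∈ E1.image T.lw, F' z ^ 2 := by
    rw [sum_coe_sort (vs T E1) fun v => (if v.1 = true then F v.2 else F' v.2) ^ 2, vs, sum_union,
      sum_image fun _ _ _ _ h => (Prod.ext_iff.1 h).2,
      sum_image fun _ _ _ _ h => (Prod.ext_iff.1 h).2]
    · simp
    · refine disjoint_left.2 fun v h1 h2 => ?_
      obtain ⟨y, -, rfl⟩ := mem_image.1 h1
      obtain ⟨z, -, hz⟩ := mem_image.1 h2
      exact absurd (Prod.ext_iff.1 hz).1 (by simp)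
  refine ⟨fun v => if v.1.1 = true then F v.1.2 else F' v.1.2, e1 ▸ h.pos, ?_⟩
  have e2 : (nt T E1 c).Qf (1 / #T.PP) E1.attach
      (fun v => if v.1.1 = true then F v.1.2 else F' v.1.2) =
      2 / #T.PP * ∑ e ∈ E1, F e.1 * F' (T.lw e) := by
    rw [← sum_attach E1, Net.Qf, mul_one_div]
    rfl
  rw [e2]
  exact e1 ▸ h.ray

theorem num {Λ : Type} [DecidableEq (Bool × Λ)] (S : T.Ω → Λ) (A1 A2 : Finset Λ)
    (h1 : ∀ e ∈ E1, S e.1 ∈ A1) (h2 : ∀ e ∈ E1, S (T.lw e) ∈ A2) :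
    #(univ.image fun v : (nt T E1 c).W => (v.1.1, S v.1.2)) ≤ #A1 + #A2 := by
  refine (card_le_card (t := A1.image (Prod.mk true) ∪ A2.image (Prod.mk false))
    fun b hb => ?_).trans ((card_union_le _ _).trans (add_le_add card_image_le card_image_le))
  obtain ⟨v, -, rfl⟩ := mem_image.1 hb
  obtain ⟨e, -, rfl | rfl⟩ := ends T E1 c v
  · exact mem_union_left _ (mem_image_of_mem _ (h1 _ e.2))
  · exact mem_union_right _ (mem_image_of_mem _ (h2 _ e.2))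

end Abs

theorem win {π : Par} (ok : π.Ok) {j c Nc : ℕ} (h : j / π.Nf ∈ Ico c (c + Nc))
    (h2 : Nc * π.κ1 ≤ 2) : |j * π.κ0 - (c * π.κ1 + 1)| ≤ 1 := by
  have hN : 0 < π.Nf := ok.Nf
  have h3 : ((c * π.Nf : ℕ) : ℝ) ≤ j := Nat.cast_le.2 ((Nat.le_div_iff_mul_le hN).1 (mem_Ico.1 h).1)
  have h4 : (j : ℝ) ≤ (((c + Nc) * π.Nf : ℕ) : ℝ) :=
    Nat.cast_le.2 ((Nat.div_lt_iff_lt_mul hN).1 (mem_Ico.1 h).2).le
  have h5 := mul_le_mul_of_nonneg_right h3 ok.κ0.le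
  have h6 := mul_le_mul_of_nonneg_right h4 ok.κ0.le
  rw [Par.κ1] at h2 ⊢
  push_cast at h5 h6
  rw [abs_le]
  constructor <;> nlinarith

theorem refl (k : ℕ) (α : Ph) : EqZ k α α := fun _ _ => ⟨0, by simp⟩

end NetJ

open NetJ in
theorem st_Net (hN : NSt) (hB : BasSt) (_hD : DenSt) (hP : PtSt) (hV : VASt) (hC : ClsSt) :
    NetSt := by
  intro π N E φ Y δ lam Mb S R E1 F F' cL cU Nc ok is hS h2 gr hR lnk c1 c2 hU hL hNc
  have hκ : 0 < π.κ := (hB.κ1_pos π ok).trans_le (hB.κ1_le π ok)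
  have hR0 : 0 < R.prod := List.prod_pos fun r hr => (ok.pr r (hR r hr)).1.pos
  have hR1 : (0 : ℝ) < (R.prod : ℕ) := Nat.cast_pos.2 hR0
  obtain ⟨b, hb⟩ : ∃ b : Pt π.k → Pt π.k, b = (geo π Y S).chL R := ⟨_, rfl⟩
  have by_ : ∀ t, (b t).y = t.y / (R.prod : ℕ) := fun t => hb ▸ hP.chL_y π Y S R t
  have bph : ∀ t, EqZ π.k (b t).ph (dil (R.prod : ℕ) t.ph) := fun t => hb ▸ hP.chL_ph π Y S R t
  have bch : ∀ p t, b (chd π p t) = chd π p (b t) := fun p t => hb ▸ hP.chL_ch π Y S R p t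
  rw [← hb] at lnk
  choose e0 h0 h1 hJ hy hu hl cu cl using lnk
  have jU : ∀ e (he : e ∈ E1), (b e.1).J.toNat = N.fj (e0 e he) := fun e he => by
    rw [hJ e he, Int.toNat_natCast]
  have le : ∀ e (he : e ∈ E1), π.lg e.2 ≤ N.fj (e0 e he) := fun e he =>
    h1 e he ▸ is.le _ (h0 e he)
  have jL : ∀ e (he : e ∈ E1),
      (b (chd π e.2 e.1)).J.toNat = N.fj (e0 e he) - π.lg e.2 := fun e he => by
    rw [bch]
    change ((b e.1).J - π.lg e.2).toNat = _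
    rw [hJ e he, Int.toNat_sub]
  have yL : ∀ e : Pt π.k × ℕ, (b (chd π e.2 e.1)).y = (b e.1).y / e.2 := fun e => by
    rw [bch]
    rfl
  have pp : ∀ e ∈ E1, (0 : ℝ) < e.2 := fun e he => Nat.cast_pos.2 (ok.pr _ (gr.pr e he)).1.pos
  have lgb : ∀ t, 0 < (b t).y → 0 < t.y ∧
      Real.log t.y = Real.log (R.prod : ℕ) + Real.log (b t).y := fun t ht => by
    rw [by_] at ht ⊢
    have h3 : 0 < t.y := (div_pos_iff_of_pos_right hR1).1 ht
    exact ⟨h3, by rw [Real.log_div h3.ne' hR1.ne']; ring⟩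
  let N' := nt (geo π Y S) E1 fun t => (b t).J.toNat
  have pf : ∀ v : N'.W, 0 < (b v.1.2).y ∧
      |Real.log (b v.1.2).y - (b v.1.2).J.toNat * π.κ0| ≤ π.κ := by
    intro v
    obtain ⟨e, -, rfl | rfl⟩ := ends _ _ _ v
    · change 0 < (b e.1.1).y ∧ |Real.log (b e.1.1).y - (b e.1.1).J.toNat * π.κ0| ≤ π.κ
      rw [jU _ e.2]
      exact ⟨hy _ e.2, hu _ e.2⟩
    · change 0 < (b (chd π e.1.2 e.1.1)).y ∧ |Real.log (b (chd π e.1.2 e.1.1)).y -
        (b (chd π e.1.2 e.1.1)).J.toNat * π.κ0| ≤ π.κ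
      rw [jL _ e.2, yL]
      exact ⟨div_pos (hy _ e.2) (pp _ e.2), hl _ e.2⟩
  refine ⟨N', E1.attach, fun v => dil (R.prod : ℕ) (Pt.ph v.1.2), fun v => (v.1.1, S v.1.2),
    ⟨fun _ _ => rfl, fun _ _ => rfl, fun e _ => gr.pr _ e.2, fun _ _ => Nat.div_one _,
      fun e _ => ?_, fun e _ => ?_, fun e _ e' _ _ h3 h4 => ?_, fun e _ e' _ _ h3 h4 => ?_,
      fun _ _ => card_le_univ _⟩, fun e _ => ?_, ?_, ends _ _ _, ?_, fun x x' h => ?_,
    fun e _ => ⟨e0 _ e.2, h0 _ e.2, h1 _ e.2, (jU _ e.2).symm, ?_, ?_⟩⟩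
  · exact (le _ e.2).trans_eq (jU _ e.2).symm
  · change ((b e.1.1).J.toNat - π.lg e.1.2) / 1 = (b (chd π e.1.2 e.1.1)).J.toNat
    rw [Nat.div_one, jU _ e.2, jL _ e.2]
  · exact Subtype.ext (Prod.ext (congrArg (fun v : N'.W => v.1.2) h4) h3)
  · exact Subtype.ext (Prod.ext
      (gr.pu _ e.2 _ e'.2 h3 (congrArg (fun v : N'.W => v.1.2) h4)) h3)
  · choose! z hz using hP.ch π e.1.2 e.1.1
    refine ⟨z, ((hN.nm_congr _ _ _ _ 0 fun j hj => ?_).trans (hN.nm_zero _ _ _)).le⟩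
    change ((R.prod : ℕ) : ℝ) ^ j * (chd π e.1.2 e.1.1).ph j -
      (e.1.2 : ℝ) ^ j * (((R.prod : ℕ) : ℝ) ^ j * e.1.1.ph j) - ((R.prod : ℕ) : ℝ) ^ j * z j = 0
    rw [hz j hj, dil]
    ring
  · rw [hV.ν]
    exact ray _ _ _ gr
  · have a1 := hC π Y Mb (Real.log (R.prod : ℕ) + (cU * π.κ1 + 1)) S _ ok hS c1 fun t ht => by
      obtain ⟨e, he, rfl⟩ := mem_image.1 ht
      have w := win ok (is.cu _ (h0 e he) ▸ hU _ (is.up _ (h0 e he))) hNc
      have w' := hu e he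
      rw [(lgb _ (hy e he)).2]
      rw [abs_le] at w w' ⊢
      constructor <;> linarith [w.1, w.2, w'.1, w'.2]
    have a2 := hC π Y Mb (Real.log (R.prod : ℕ) + (cL * π.κ1 + 1)) S _ ok hS c2 fun t ht => by
      obtain ⟨e, he, rfl⟩ := mem_image.1 ht
      have w := win ok (is.cl _ (h0 e he) ▸ hL _ (is.lo _ (h0 e he))) hNc
      have w' := hl e he
      rw [h1 e he] at w
      rw [← yL] at w'
      change |Real.log (chd π e.2 e.1).y - _| ≤ _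
      rw [(lgb (chd π e.2 e.1) (yL e ▸ div_pos (hy e he) (pp e he))).2]
      rw [abs_le] at w w' ⊢
      constructor <;> linarith [w.1, w.2, w'.1, w'.2]
    refine (mul_le_mul_of_nonneg_left (Nat.cast_le.2 (num (geo π Y S) E1 _ S
      ((E1.image Prod.fst).image S) ((E1.image (geo π Y S).lw).image S)
      (fun e he => mem_image_of_mem _ (mem_image_of_mem _ he))
      fun e he => mem_image_of_mem _ (mem_image_of_mem _ he))) hκ.le).trans ?_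
    rw [Nat.cast_add, mul_add]
    exact (add_le_add a1 a2).trans_eq (by ring)
  · have h3 : S x.1.2 = S x'.1.2 := (Prod.ext_iff.1 h).2
    have ps : ∀ v : N'.W, N'.pos (vA π (Fintype.card N'.W)) v =
        Real.exp ((b v.1.2).J.toNat * π.κ0) := fun v => hV.ps _ _ _
    obtain ⟨p1, p2⟩ := pf x
    obtain ⟨p3, p4⟩ := pf x'
    have l1 := (lgb _ p1).2
    have l2 := (lgb _ p3).2
    have p5 := hP.cell2 π.κ _ _ hκ ((hS.cell _).symm.trans ((congrArg Prod.fst h3).trans (hS.cell _)))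
    have p6 := hP.cell π.κ (Pt.y x.1.2) hκ
    rw [← hS.cell] at p6
    rw [hV.κ, ps, ps, Real.log_exp, Real.log_exp]
    rw [abs_le] at p2 p4 p5 p6
    refine ⟨(Prod.ext_iff.1 h).1, abs_le.2 ⟨by linarith [p2.1, p2.2, p4.1, p4.2, p5.1, p5.2],
      by linarith [p2.1, p2.2, p4.1, p4.2, p5.1, p5.2]⟩, ?_⟩
    have p7 := hP.cl_lift _ _ _ _ _ R.prod (hP.cl9 _ _ _ _
      ((R.prod : ℕ) * Real.exp ((b x.1.2).J.toNat * π.κ0)) _ _ hκ h2 (Real.exp_pos _)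
      (mul_pos hR1 (Real.exp_pos _)) (by
        rw [Real.log_mul hR1.ne' (Real.exp_pos _).ne', Real.log_exp, Real.log_exp, abs_le]
        constructor <;> linarith [p2.1, p2.2, p6.1, p6.2]) (hS.near _ _ h3))
    rw [mul_comm ((9 : ℝ) ^ π.k), show dil (R.prod : ℕ) (Pt.ph x.1.2 - Pt.ph x'.1.2) =
      dil (R.prod : ℕ) (Pt.ph x.1.2) - dil (R.prod : ℕ) (Pt.ph x'.1.2) from
        funext fun j => mul_sub _ _ _] at p7
    exact p7
  · refine hP.cl_congr _ _ _ _ _ _ (hP.eqz_sub _ _ _ _ _ (bph e.1.1) (refl _ _))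
      (hP.cl5 _ _ _ _ _ _ _ hκ ok.κ (hy _ e.2) (Real.exp_pos _) ?_ (cu _ e.2))
    rw [Par.yy, Real.log_exp, abs_sub_comm]
    exact hu _ e.2
  · have h3 := cl _ e.2
    rw [← bch] at h3
    refine hP.cl_congr _ _ _ _ _ _ (hP.eqz_sub _ _ _ _ _ (bph (chd π e.1.2 e.1.1)) (refl _ _))
      (hP.cl5 _ _ _ _ _ _ _ hκ ok.κ (div_pos (hy _ e.2) (pp _ e.2)) (Real.exp_pos _) ?_ h3)
    rw [Par.yy, Real.log_exp, abs_sub_comm, h1 _ e.2]
    exact hl _ e.2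

end Pool.Agent.Lib.MP_028aa5_nt.U
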