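import Pool.Agent.Lib.MP_028aa5_nt.U.St3

/-! The properties that come from `f` pass to the new graph. -/

namespace Pool.Agent.Lib.MP_028aa5_nt.U

open Finset T
open scoped Classical

namespace RealJ

theorem ps_mono (hB : BasSt) {π : Par} (h : π.Ok) {c c' : ℕ} (hc : c ≤ c') : π.ps c ≤ π.ps c' := by
  unfold Par.ps
  have h1 := hB.κ1_pos π h
  have h2 : (c : ℝ) ≤ c' := by exact_mod_cast hc
  exact Real.exp_le_exp.2 (mul_le_mul_of_nonneg_right h2 h1.le)

/-- moving the interval by at most one cell -/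
theorem move (hC : CSt) (hB : BasSt) {π : Par} (h : π.Ok) {f : ℕ → ℂ} (hf : ∀ n, ‖f n‖ ≤ 1)
    {K y y' : ℝ} (hK : 1 ≤ K) (hy : K ≤ π.κ * y) (hy' : 0 < y')
    (hl : |Real.log y' - Real.log y| ≤ π.κ1) (α : Ph) :
    ‖cc π.k π.κ f y' α - cc π.k π.κ f y α‖ ≤ 20 / π.G + 20 / K := by
  have k1 := hB.κ1_pos π h
  have k2 := hB.κ1_le π h
  have k3 := hB.κ_ge π h
  have k0 : 0 < π.κ := k1.trans_le k2
  have hG : (0 : ℝ) < π.G := by exact_mod_cast h.G
  have h1 := hC.move π.k π.κ f y y' π.κ1 α hf k0 h.κ (hK.trans hy) hy' hl (k2.trans h.κ)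
  have h2 : π.κ1 / π.κ ≤ 1 / π.G := by
    rw [div_le_div_iff₀ k0 hG]; linarith
  have h3 : 1 / (π.κ * y) ≤ 1 / K := one_div_le_one_div_of_le (by linarith) hy
  have e1 : (20 : ℝ) / π.G = 20 * (1 / π.G) := by ring
  have e2 : (20 : ℝ) / K = 20 * (1 / K) := by ring
  rw [e1, e2]
  linarith

theorem split (hD : DenSt) (hP : PtSt) (k : ℕ) (α β : Ph) (z : ℕ → ℤ) :
    EqZ k β (α + (β - α - lat 1 z)) := by
  have h := hP.eqz_lat k (α + (β - α - lat 1 z)) z
  have e : α + (β - α - lat 1 z) + lat 1 z = β := by abel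
  rwa [e] at h

end RealJ

open RealJ in
theorem st_Real (hN : NSt) (hC : CSt) (hB : BasSt) (hD : DenSt) (hP : PtSt) (hV : VASt) :
    RealSt := by
  intro π f η ε2 δ lam nW K er cL cU Nc R N E φ N' E' φ' cls hπ hI hf h0 hLU hκ hK hPK her hO
  have k1 := hB.κ1_pos π hπ
  have k0 : 0 < π.κ := k1.trans_le (hB.κ1_le π hπ)
  have hNf : 0 < π.Nf := hπ.Nf
  have hP2 := hπ.P
  have hG : (0 : ℝ) < π.G := by exact_mod_cast hπ.G
  have hKL : K ≤ π.κ * π.ps cL := by nlinarith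
  have cu' : ∀ e' ∈ E', N'.cell (N'.up e') = N'.fj e' := fun e' he' => by
    have := hO.is.cu e' he'
    change N'.fj e' / 1 = _ at this
    rw [← this, Nat.div_one]
  have cl' : ∀ e' ∈ E', N'.cell (N'.lo e') = N'.fj e' - π.lg (N'.pr e') := fun e' he' => by
    have := hO.is.cl e' he'
    change (N'.fj e' - π.lg (N'.pr e')) / 1 = _ at this
    rw [← this, Nat.div_one]
  have rng : ∀ j c : ℕ, j / π.Nf ∈ Ico c (c + Nc) → j ∈ Ico (c * π.Nf) (c * π.Nf + Nc * π.Nf) := by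
    intro j c hj
    rw [mem_Ico] at hj ⊢
    rw [← add_mul]
    exact ⟨(Nat.le_div_iff_mul_le hNf).1 hj.1, (Nat.div_lt_iff_lt_mul hNf).1 hj.2⟩
  refine ⟨?_, ?_, ?_, ?_, ?_⟩
  · change Fintype.card N'.W ≤ 2 * Fintype.card N'.W * (Nc * π.Nf)
    rcases isEmpty_or_nonempty N'.W with hE | ⟨⟨v⟩⟩
    · simp
    obtain ⟨e', he', -⟩ := hO.ends v
    obtain ⟨e, he, -⟩ := hO.lnk e' he'
    have h1 := mem_Ico.1 (h0.cu _ (hI.up e he))
    have h2 : 1 ≤ Nc * π.Nf := Nat.mul_pos (by omega) hNf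
    nlinarith
  · intro x hx
    obtain ⟨e', he', rfl | rfl⟩ := hO.ends x
    · obtain ⟨e, he, -, h2, -⟩ := hO.lnk e' he'
      rw [cu' e' he', ← h2]
      refine rng _ _ ?_
      rw [hI.cu e he]
      exact h0.cu _ (hI.up e he)
    · rw [hO.is.lo e' he'] at hx; exact absurd hx (by simp)
  · intro x hx
    obtain ⟨e', he', rfl | rfl⟩ := hO.ends x
    · rw [hO.is.up e' he'] at hx; exact absurd hx (by simp)
    · obtain ⟨e, he, h1, h2, -⟩ := hO.lnk e' he'
      rw [cl' e' he', ← h1, ← h2]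
      refine rng _ _ ?_
      rw [hI.cl e he]
      exact h0.cl _ (hI.lo e he)
  · intro e' he'
    obtain ⟨e, he, h1, h2, ⟨z, hz⟩, -⟩ := hO.lnk e' he'
    have hpos : N'.pos (vA π (Fintype.card N'.W)) (N'.up e') = π.yy (N.fj e) := by
      unfold Net.pos; rw [hV.ps, cu' e' he', h2]
    rw [hV.κ, hpos, ← h1]
    change ‖cc π.k π.κ f (π.yy (N.fj e)) (φ' (N'.up e')) +
      cc π.k π.κ f (π.yy (N.fj e) / N.pr e) (dil (N.pr e) (φ' (N'.up e')))‖ ≤ ε2 + er
    obtain ⟨pp, p1, p2⟩ := hπ.pr _ (hI.pr e he)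
    set p := N.pr e with hp
    set y := π.yy (N.fj e) with hy
    set Y := N.pos π (N.up e) with hY
    set α := φ (N.up e) with hα
    set τ := φ' (N'.up e') - α - lat 1 z with hτ
    have p0 : (0 : ℝ) < p := by linarith
    have p3 : (1 : ℝ) ≤ p := by linarith
    have Y1 : π.ps cL ≤ Y := ps_mono hB hπ (hLU.trans (mem_Ico.1 (h0.cu _ (hI.up e he))).1)
    have Y2 : Y ≤ y := by
      have := hV.ps_le π (N.fj e) hπ
      rwa [hI.cu e he] at this
    have Y0 : 0 < Y := hB.pos_pos π N _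
    have y0 : 0 < y := Y0.trans_le Y2
    have a1 : K ≤ π.κ * Y := hKL.trans (mul_le_mul_of_nonneg_left Y1 k0.le)
    have a2 : K ≤ π.κ * (Y / p) := by
      rw [← mul_div_assoc, le_div_iff₀ p0]
      nlinarith [mul_le_mul_of_nonneg_left Y1 k0.le]
    have a3 : 1 ≤ π.κ * y := (hK.trans a1).trans (mul_le_mul_of_nonneg_left Y2 k0.le)
    have a4 : 1 ≤ π.κ * (y / p) := (hK.trans a2).trans
      (mul_le_mul_of_nonneg_left (div_le_div_of_nonneg_right Y2 p0.le) k0.le)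
    have s1 : EqZ π.k (φ' (N'.up e')) (α + τ) := split hD hP _ _ _ z
    have s2 : EqZ π.k (dil p (φ' (N'.up e'))) (dil p α + dil p τ) := by
      rw [← hD.dil_add]; exact hD.dil _ _ _ p s1
    rw [hC.int _ _ _ _ _ _ s1, hC.int _ _ _ _ _ _ s2]
    have b1 := hC.pert π.k π.κ f y α τ hf k0 a3
    have b2 := hC.pert π.k π.κ f (y / p) (dil p α) (dil p τ) hf k0 a4
    have e1 : (p : ℝ) * (y / p) = y := by field_simp
    rw [hN.ph_dil, hN.nm_dil, e1] at b2
    have l1 : |Real.log y - Real.log Y| ≤ π.κ1 := hB.fine_up π N E hπ hI e he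
    have b3 := move hC hB hπ hf hK a1 y0 l1 α
    have b4 := move hC hB hπ hf hK a2 (div_pos y0 p0) (by
      rw [Real.log_div y0.ne' p0.ne', Real.log_div Y0.ne' p0.ne']
      have : Real.log y - Real.log p - (Real.log Y - Real.log p) = Real.log y - Real.log Y := by
        ring
      rwa [this]) (dil p α)
    have b5 := h0.tk e he
    rw [← hp, ← hY, ← hα] at b5
    set u := MP_028aa5_nt.e (-ph π.k τ y) with hu
    have hu1 : ‖u‖ = 1 := norm_e _
    set A1 := cc π.k π.κ f y (α + τ)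
    set A2 := cc π.k π.κ f (y / p) (dil p α + dil p τ)
    set B1 := cc π.k π.κ f y α
    set B2 := cc π.k π.κ f (y / p) (dil p α)
    set C1 := cc π.k π.κ f Y α
    set C2 := cc π.k π.κ f (Y / p) (dil p α)
    have e2 : A1 + A2 = (A1 - u * B1) + (A2 - u * B2) + u * ((B1 - C1) + (B2 - C2) + (C1 + C2)) := by
      ring
    have n1 := norm_add₃_le (a := A1 - u * B1) (b := A2 - u * B2)
      (c := u * ((B1 - C1) + (B2 - C2) + (C1 + C2)))
    have n2 := norm_add₃_le (a := B1 - C1) (b := B2 - C2) (c := C1 + C2)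
    rw [← e2, norm_mul, hu1, one_mul] at n1
    have e3 : (40 : ℝ) / π.G = 20 / π.G + 20 / π.G := by ring
    have e4 : (40 : ℝ) / K = 20 / K + 20 / K := by ring
    linarith
  · intro e' he'
    obtain ⟨e, he, h1, h2, -, ⟨z, hz⟩⟩ := hO.lnk e' he'
    have hpos : N'.pos (vA π (Fintype.card N'.W)) (N'.lo e') = π.yy (N.fj e - π.lg (N.pr e)) := by
      unfold Net.pos; rw [hV.ps, cl' e' he', h1, h2]
    rw [hV.κ, hpos]
    change η - er ≤ ‖cc π.k π.κ f (π.yy (N.fj e - π.lg (N.pr e))) (φ' (N'.lo e'))‖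
    have Y2 := hV.ps_le π (N.fj e - π.lg (N.pr e)) hπ
    have l1 := hB.fine π (N.fj e - π.lg (N.pr e)) hπ
    rw [hI.cl e he] at Y2 l1
    change N.pos π (N.lo e) ≤ _ at Y2
    change |_ - Real.log (N.pos π (N.lo e))| ≤ _ at l1
    have b5 := h0.big e he
    set y := π.yy (N.fj e - π.lg (N.pr e)) with hy
    have Y1 : π.ps cL ≤ N.pos π (N.lo e) := ps_mono hB hπ (mem_Ico.1 (h0.cl _ (hI.lo e he))).1
    have Y0 : 0 < N.pos π (N.lo e) := hB.pos_pos π N _
    set Y := N.pos π (N.lo e) with hY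
    set α := φ (N.lo e) with hα
    set τ := φ' (N'.lo e') - α - lat 1 z with hτ
    have y0 : 0 < y := Y0.trans_le Y2
    have a1 : K ≤ π.κ * Y := hKL.trans (mul_le_mul_of_nonneg_left Y1 k0.le)
    have a3 : 1 ≤ π.κ * y := (hK.trans a1).trans (mul_le_mul_of_nonneg_left Y2 k0.le)
    have s1 : EqZ π.k (φ' (N'.lo e')) (α + τ) := split hD hP _ _ _ z
    rw [hC.int _ _ _ _ _ _ s1]
    have b1 := hC.pert π.k π.κ f y α τ hf k0 a3
    have b3 := move hC hB hπ hf hK a1 y0 l1 α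
    have d0 : 0 ≤ δ := (hN.nm_nonneg _ _ _ _ k0.le).trans hz
    set u := MP_028aa5_nt.e (-ph π.k τ y) with hu
    have hu1 : ‖u‖ = 1 := norm_e _
    set A1 := cc π.k π.κ f y (α + τ)
    set B1 := cc π.k π.κ f y α
    set C1 := cc π.k π.κ f Y α
    have n1 := norm_sub_norm_le (u * B1) A1
    rw [norm_mul, hu1, one_mul, norm_sub_rev] at n1
    have n2 := norm_sub_norm_le C1 B1
    rw [norm_sub_rev] at n2
    have e3 : (40 : ℝ) / π.G = 20 / π.G + 20 / π.G := by ring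
    have e4 : (40 : ℝ) / K = 20 / K + 20 / K := by ring
    have g1 : 0 ≤ (20 : ℝ) / π.G := by positivity
    have g2 : 0 ≤ (20 : ℝ) / K := by positivity
    linarith

end Pool.Agent.Lib.MP_028aa5_nt.U
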