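import Pool.Agent.Lib.MP_028aa5_nt.U.St4

/-! The tower in the asymptotic regime. -/

namespace Pool.Agent.Lib.MP_028aa5_nt.U

open Finset T
open scoped Classical

namespace TowXJ

theorem out_mono {π : Par} {N : Net} {E : Finset N.Ed} {φ : N.W → Ph} {δ lam nW nW' : ℝ} {R : ℕ}
    {N' : Net} {E' : Finset N'.Ed} {φ' : N'.W → Ph} {cls : N'.W → Bool × ℤ × Ph}
    (h : Out π N E φ δ R lam nW N' E' φ' cls) (hn : nW ≤ nW') :
    Out π N E φ δ R lam nW' N' E' φ' cls :=
  ⟨h.is, h.lv, h.ray, h.ends, h.num.trans hn, h.cla, h.lnk⟩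

/-- the loss of one level -/
theorem loss {u : ℝ} (hu : 1 ≤ u) :
    16 * (Real.log (u ^ 6) / u ^ 6) + 6 * Real.exp (-(Real.log u - 1)) ≤ 114 / u := by
  have h0 : 0 < u := by linarith
  have h1 : Real.log (u ^ 6) / u ^ 6 ≤ 6 / u := by
    rw [Real.log_pow, div_le_div_iff₀ (by positivity) h0]
    have h2 := Real.log_le_sub_one_of_pos h0
    have h3 : u ^ 2 ≤ u ^ 6 := pow_le_pow_right₀ hu (by norm_num)
    push_cast
    nlinarith
  have h2 : Real.exp (-(Real.log u - 1)) ≤ 3 / u := by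
    rw [neg_sub, Real.exp_sub, Real.exp_log h0]
    exact div_le_div_of_nonneg_right (Real.exp_one_lt_d9.le.trans (by norm_num)) h0.le
  calc _ ≤ 16 * (6 / u) + 6 * (3 / u) := by gcongr
    _ = _ := by ring

/-- the number of levels -/
theorem levels {k : ℕ} {l p : ℝ} (hp : 1 ≤ p) (hl : p ≤ l) :
    ∃ s : ℕ, (7 * k + 2) * l ≤ s * p ∧ (s + 1) * p ≤ (7 * k + 4) * l ∧
      (s : ℝ) + 1 ≤ (7 * k + 4) * l := by
  have h0 : 0 < p := by linarith
  have h1 : 0 ≤ (7 * k + 2) * l / p := by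
    have : 0 ≤ l := by linarith
    positivity
  have h2 := Nat.le_ceil ((7 * k + 2) * l / p)
  have h3 := (Nat.ceil_lt_add_one h1).le
  rw [div_le_iff₀ h0] at h2
  rw [← sub_le_iff_le_add, le_div_iff₀ h0] at h3
  have h4 : ((⌈(7 * k + 2) * l / p⌉₊ : ℝ) + 1) * p ≤ (7 * k + 4) * l := by linarith
  refine ⟨_, h2, h4, le_trans ?_ h4⟩
  exact le_mul_of_one_le_right (by positivity) hp

end TowXJ

open TowXJ

theorem st_TowX (hR : Reg2St) (hY : TowYSt) : TowXSt := by
  intro k ε δ c hk hε hε1 hδ hc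
  obtain ⟨ρ, hρ, hρ1, hT⟩ := hY k ε δ hk hε hε1 hδ
  obtain ⟨b, hb, hb1, hb2⟩ : ∃ b : ℝ, 0 < b ∧ b ≤ 1 / 600 ∧ b ≤ c / (36 * (7 * k + 4)) :=
    ⟨min (1 / 600) (c / (36 * (7 * k + 4))), by positivity, min_le_left _ _, min_le_right _ _⟩
  refine ⟨ρ, max 1 (2 / b), hρ, hρ1, le_max_left _ _, fun G M C D hD => ?_⟩
  have hcK : 0 ≤ cK k := by unfold cK; positivity
  obtain ⟨K0, q1, q2, q3, q4, q5, q6, q7, q8, q9⟩ : ∃ K0 : ℝ, 3 ≤ K0 ∧ 16 * 9 ^ k ≤ K0 ∧
      4 * M / ε ^ 2 ≤ K0 ∧ 1 / ε + 1 ≤ K0 ∧ 4 * (7 * k + 12) ≤ K0 ∧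
      2 * M * (12 * G + 1) * cK k ≤ K0 ∧ 2 * cK k ≤ K0 ∧ 114 * (7 * k + 4) / (32 * ε) ≤ K0 ∧
      24 / c ≤ K0 := by
    have a2 : (0 : ℝ) ≤ 16 * 9 ^ k := by positivity
    have a3 : (0 : ℝ) ≤ 4 * M / ε ^ 2 := by positivity
    have a4 : (0 : ℝ) ≤ 1 / ε + 1 := by positivity
    have a5 : (0 : ℝ) ≤ 4 * (7 * k + 12) := by positivity
    have a6 : (0 : ℝ) ≤ 2 * M * (12 * G + 1) * cK k := by positivity
    have a7 : (0 : ℝ) ≤ 2 * cK k := by positivity
    have a8 : (0 : ℝ) ≤ 114 * (7 * k + 4) / (32 * ε) := by positivity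
    have a9 : (0 : ℝ) ≤ 24 / c := by positivity
    refine ⟨3 + 16 * 9 ^ k + 4 * M / ε ^ 2 + (1 / ε + 1) + 4 * (7 * k + 12) +
      2 * M * (12 * G + 1) * cK k + 2 * cK k + 114 * (7 * k + 4) / (32 * ε) + 24 / c,
      ?_, ?_, ?_, ?_, ?_, ?_, ?_, ?_, ?_⟩ <;> linarith
  obtain ⟨X1, h1⟩ := hR.base C D K0 hD
  obtain ⟨X2, h2⟩ := hR.pw C D 1 1 one_pos
  refine ⟨max X1 X2, fun X hX π N E φ cL cU Nc ek eG eM hreg hIs hLv hRay hU hL hLU hNc hP9 => ?_⟩
  obtain ⟨b1, b2, b3, b4, b5, b6, b7, b8, b9⟩ :=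
    h1 X (le_of_max_le_left hX) π _ (le_max_left _ _) hreg
  have b10 := h2 X (le_of_max_le_right hX) π _ hreg
  rw [pow_one, Real.rpow_one] at b10
  set l := Real.log X with hl
  have hX0 : 0 < X := by linarith
  have hX1 : 1 ≤ X := by linarith
  have hl1 : 1 ≤ l := by linarith
  have hP1 : 1 ≤ π.P := by linarith
  have hP0 : 0 < π.P := by linarith
  have hp1 : 1 ≤ Real.log π.P := by linarith
  have hpl : Real.log π.P ≤ l := by
    have a1 : l ^ (1 / 2 : ℝ) ≤ l := Real.rpow_le_self_of_one_le hl1 (by norm_num)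
    nlinarith
  obtain ⟨s, s1, s2, s3⟩ := levels (k := k) hp1 hpl
  set u := π.P ^ b with hu
  have hlu : l ^ 2 ≤ u := by
    have a1 : l ^ (2 / b) ≤ π.P :=
      (Real.rpow_le_rpow_of_exponent_le hl1 (le_max_right _ _)).trans hreg.lo
    have a2 := Real.rpow_le_rpow (by positivity) a1 hb.le
    rw [← Real.rpow_mul (by linarith), div_mul_cancel₀ _ hb.ne'] at a2
    exact_mod_cast a2
  have hKl : K0 * l ≤ u := by nlinarith
  have hKu : K0 ≤ u := by nlinarith
  have hu1 : 1 ≤ u := by linarith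
  have hu0 : 0 < u := by linarith
  have hu6 : u ≤ u ^ 6 := le_self_pow₀ hu1 (by norm_num)
  have h70 : (u ^ 6) ^ 70 ≤ #π.PP := by
    refine le_trans ?_ b7
    rw [← pow_mul, hu, ← Real.rpow_natCast, ← Real.rpow_mul hP0.le]
    refine Real.rpow_le_rpow_of_exponent_le hP1 ?_
    push_cast
    linarith
  have hKp : K0 ≤ #π.PP :=
    hKu.trans (hu6.trans ((le_self_pow₀ (hu1.trans hu6) (by norm_num)).trans h70))
  have hκ0 : 0 ≤ π.κ := le_trans (by positivity) hreg.κlo
  have hk0 : (0 : ℝ) ≤ k := Nat.cast_nonneg k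
  obtain ⟨R, hRs, N', E', φ', cls, hO⟩ := hT π N E φ cL cU Nc s (u ^ 6) (Real.log u - 1) ek
    hreg.ok hIs hLv hRay hU hL hLU hNc hP9 (q2.trans b4)
    (by
      have a1 : (π.M : ℝ) / #π.PP ≤ (ε / 2) ^ 2 := by
        rw [eM, div_le_iff₀ (by linarith)]
        have a2 := q3.trans hKp
        rw [div_le_iff₀ (by positivity)] at a2
        linarith
      have a2 := Real.sqrt_le_sqrt a1
      rw [Real.sqrt_sq (by positivity)] at a2
      linarith)
    (by
      refine le_trans ?_ hreg.κlo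
      have a1 : π.κ0 ≤ (X ^ 3)⁻¹ := by
        rw [hreg.κ0, ← Real.rpow_natCast, ← Real.rpow_neg hX0.le]
        refine Real.rpow_le_rpow_of_exponent_le hX1 ?_
        have : (0 : ℝ) ≤ π.k := Nat.cast_nonneg _
        push_cast
        linarith
      calc _ ≤ X * X * (X ^ 3)⁻¹ := by
            have := hreg.ok.κ0
            gcongr
            · exact q4.trans b1
            · linarith
        _ = _ := by field_simp)
    (by
      refine le_trans (mul_le_mul_of_nonneg_right ?_ hκ0) b9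
      nlinarith)
    (by rw [eM, eG]; exact q6.trans (hKu.trans hu6)) (q7.trans (hKu.trans hu6)) h70
    (by
      refine le_trans ?_ (hKl.trans hu6)
      nlinarith)
    (by
      rw [sub_nonneg, Real.le_log_iff_exp_le hu0]
      exact Real.exp_one_lt_d9.le.trans (by linarith))
    (by rw [Real.log_pow]; push_cast; linarith)
    (by
      calc _ ≤ ((7 * k + 4) * l) * (114 / u) :=
            mul_le_mul s3 (loss hu1) (by
              have := Real.log_nonneg (hu1.trans hu6)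
              positivity) (by positivity)
        _ ≤ _ := by
            rw [div_le_iff₀ (by positivity)] at q8
            rw [← mul_div_assoc, div_le_iff₀ hu0]
            have a1 := mul_le_mul_of_nonneg_right q8 (by linarith : 0 ≤ l)
            have a2 := mul_le_mul_of_nonneg_left hKl (by positivity : 0 ≤ 32 * ε)
            linarith)
  refine ⟨R, le_trans ?_ hRs, N', E', φ', cls, out_mono hO ?_⟩
  · rw [← Real.log_le_log_iff (by positivity) (by positivity), Real.log_pow, Real.log_pow]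
    push_cast
    exact s1
  · have a1 : (u ^ 6) ^ (3 * (s + 1)) ≤ Real.exp (c * l / 2) := by
      rw [← Real.log_le_iff_le_exp (by positivity), Real.log_pow, Real.log_pow, hu,
        Real.log_rpow hP0]
      rw [le_div_iff₀ (by positivity)] at hb2
      have a2 := mul_le_mul_of_nonneg_left s2 hb.le
      have a3 := mul_le_mul_of_nonneg_right hb2 (by linarith : 0 ≤ l)
      push_cast
      linarith
    have a2 : 12 ≤ Real.exp (c * l / 2) := by
      have a3 := Real.add_one_le_exp (c * l / 2)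
      have a4 := q9.trans b2
      rw [div_le_iff₀ hc] at a4
      linarith
    calc _ ≤ Real.exp (c * l / 2) * Real.exp (c * l / 2) := by gcongr
      _ = _ := by
          rw [← Real.exp_add, Real.rpow_def_of_pos hX0]
          congr 1
          ring

end Pool.Agent.Lib.MP_028aa5_nt.U
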