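import Pool.Agent.Lib.MP_028aa5_nt.U.St2

/-! The number of lists of types that are carried by chains of conflicts. -/

namespace Pool.Agent.Lib.MP_028aa5_nt.U

open Finset T
open scoped Classical

namespace CountJ

lemma fib {α β : Type} (S : Finset α) (T : Finset β) (f : α → β) (hf : ∀ a ∈ S, f a ∈ T) {L : ℝ}
    (h : ∀ b ∈ T, ∀ B ⊆ S, (∀ a ∈ B, f a = b) → (#B : ℝ) ≤ L) : (#S : ℝ) ≤ #T * L := by
  rw [card_eq_sum_card_fiberwise hf, Nat.cast_sum, ← nsmul_eq_mul]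
  exact sum_le_card_nsmul _ _ _ fun b hb =>
    h b hb _ (filter_subset _ _) fun a ha => (mem_filter.1 ha).2

lemma cellBound (T : Sys) {A : Finset T.Ω} {Mb : ℝ} (hC : T.Cnt A Mb) (c : ℤ) (B : Finset T.Λ)
    (h : ∀ σ ∈ B, (∃ t ∈ A, T.S t = σ) ∧ T.cl σ = c) : (#B : ℝ) ≤ Mb := by
  refine le_trans ?_ (hC c)
  exact_mod_cast card_le_card fun σ hσ => mem_filter.2 ⟨mem_image.2 (h σ hσ).1, (h σ hσ).2⟩

lemma prod_bd {π : Par} (ok : π.Ok) (l : List ℕ) (h : ∀ p ∈ l, p ∈ π.PP) :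
    0 < l.prod ∧ (l.prod : ℝ) ≤ (2 * π.P) ^ l.length := by
  induction l with
  | nil => simp
  | cons p l ih =>
    obtain ⟨h1, h2⟩ := ih fun q hq => h q (List.mem_cons_of_mem _ hq)
    obtain ⟨h3, -, h4⟩ := ok.pr p (h p List.mem_cons_self)
    have h5 := ok.P
    refine ⟨by rw [List.prod_cons]; exact Nat.mul_pos h3.pos h1, ?_⟩
    rw [List.prod_cons, List.length_cons, pow_succ', Nat.cast_mul]
    exact mul_le_mul h4 h2 (Nat.cast_nonneg _) (by linarith)

lemma map_bd {π : Par} (ok : π.Ok) {l : List (ℕ × ℕ × ℕ)} (f : ℕ × ℕ × ℕ → ℕ) {g : ℕ}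
    (hl : l.length = g) (h : ∀ x ∈ l, f x ∈ π.PP) :
    0 < (l.map f).prod ∧ ((l.map f).prod : ℝ) ≤ (2 * π.P) ^ g := by
  have := prod_bd ok (l.map f) fun p hp => by
    obtain ⟨x, hx, rfl⟩ := List.mem_map.1 hp
    exact h x hx
  rwa [List.length_map, hl] at this

end CountJ

open CountJ in
theorem st_Count (hP : PtSt) (hB : BasSt) (hI : ChInvSt) (hZ : ZtSt) (hSa : SameSt) (hL : ListSt)
    (hM : MidSt) : CountSt := by
  intro π Y Mb S j g ok hS hY hg hκ h9 h4 A hV hC z0 L hch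
  have κ0 : 0 < π.κ := (hB.κ1_pos π ok).trans_le (hB.κ1_le π ok)
  have P0 : 0 < π.P := by linarith [ok.P]
  have hA : ∀ t ∈ A, 0 < Pt.y t := fun t ht => lt_of_lt_of_le (by positivity) (hV t ht)
  have hMb : 0 ≤ Mb := (Nat.cast_nonneg _).trans (hC 0)
  have hC' : ∀ (c : ℤ) (B : Finset (ℤ × Ph)), (∀ σ ∈ B, (∃ t ∈ A, S t = σ) ∧ σ.1 = c) →
      (#B : ℝ) ≤ Mb := cellBound (geo π Y S) hC
  rcases L.eq_empty_or_nonempty with rfl | ⟨l0, hl0⟩
  · rw [card_empty, Nat.cast_zero]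
    positivity
  have hz0 : z0 ∈ A := by
    obtain ⟨h1, z, h2⟩ := hch l0 hl0
    rcases l0 with _ | ⟨x, ls⟩
    · simp only [List.length_nil] at h1
      omega
    · obtain ⟨z1, h3, -⟩ := h2
      exact h3.1
  have hlen : ∀ l ∈ L, l.length = g := fun l hl => (hch l hl).1
  have : Nonempty (geo π Y S).Ω := ⟨z0⟩
  choose! z hz using fun l hl => (hch l hl).2
  have inv := fun l hl => hI π Y S A l z0 (z l) ok hS hA (hA z0 hz0) (hz l hl)
  choose! ζ hζ using fun l hl => (inv l hl).2.2.2.2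
  have hzA : ∀ l ∈ L, z l ∈ A := fun l hl => ((inv l hl).2.1 (by
    rintro rfl
    have := hlen _ hl
    simp only [List.length_nil] at this
    omega)).2
  let o : List (ℕ × ℕ × ℕ) → List (ℕ × ℕ) := fun l => l.map fun x => (x.1, x.2.2)
  have ho : ∀ l, pa l = ((o l).map Prod.fst).prod ∧ pb l = ((o l).map Prod.snd).prod := fun l => by
    simp only [o, pa, pb, List.map_map]
    exact ⟨rfl, rfl⟩
  have h1 : (#(L.image o) : ℝ) ≤ (#π.PP : ℝ) ^ (2 * g) := by
    have := hL.all _ (π.PP ×ˢ π.PP) g (L.image o) fun b hb => by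
      obtain ⟨l, hl, rfl⟩ := mem_image.1 hb
      refine ⟨by rw [List.length_map, hlen l hl], fun x hx => ?_⟩
      obtain ⟨y, hy, rfl⟩ := List.mem_map.1 hx
      exact mem_product.2 ⟨((inv l hl).1 y hy).1, ((inv l hl).1 y hy).2.2⟩
    rw [card_product, ← sq, ← pow_mul] at this
    exact_mod_cast this
  rw [mul_assoc]
  refine (fib L (L.image o) o (fun l hl => mem_image_of_mem _ hl) fun b _ L1 s1 e1 => ?_).trans
    (mul_le_mul_of_nonneg_right h1 (by positivity))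
  obtain ⟨I, hI1, hI2⟩ := hP.cells π.κ
    (Real.log (Pt.y z0 * ((b.map Prod.fst).prod : ℕ) / ((b.map Prod.snd).prod : ℕ))) (g * π.κ) κ0
    (by positivity)
  rw [show 2 * (g * π.κ) / π.κ = 2 * g by field_simp] at hI1
  let T : Finset (ℤ × Ph) := {σ ∈ A.image S | σ.1 ∈ I}
  have h2 : (#T : ℝ) ≤ (2 * g + 2) * Mb :=
    (fib T I Prod.fst (fun σ hσ => (mem_filter.1 hσ).2) fun c _ B sB eB => hC' c B fun σ hσ =>
      ⟨mem_image.1 (mem_filter.1 (sB hσ)).1, eB σ hσ⟩).trans (mul_le_mul_of_nonneg_right hI1 hMb)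
  refine (fib L1 T (fun l => S (z l)) (fun l hl => mem_filter.2
    ⟨mem_image_of_mem _ (hzA l (s1 hl)), ?_⟩) fun σ _ L2 s2 e2 => ?_).trans
    (mul_le_mul_of_nonneg_right h2 (by positivity))
  · refine (hS.cell (z l)).symm ▸ hI2 _ ?_
    have := (inv l (s1 hl)).2.2.2.1
    rwa [hlen l (s1 hl), (ho l).1, (ho l).2, e1 l hl] at this
  · have m2 : ∀ l ∈ L2, l ∈ L := fun l hl => s1 (s2 hl)
    have := hM π.k g π.PP L2 ζ ok.ne (fun p hp => (ok.pr p hp).1)
      (fun l hl => ⟨hlen l (m2 l hl), (inv l (m2 l hl)).1, (hζ l (m2 l hl)).1⟩) fun l hl l' hl' => by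
        have eo : o l = o l' := (e1 l (s2 hl)).trans (e1 l' (s2 hl')).symm
        refine ⟨eo, ?_⟩
        have a := m2 l hl
        have a' := m2 l' hl'
        have ea : pa l' = pa l := by rw [(ho l).1, (ho l').1, eo]
        have eb : pb l' = pb l := by rw [(ho l).2, (ho l').2, eo]
        have b1 := map_bd ok (fun x => x.1) (hlen l a) fun x hx => ((inv l a).1 x hx).1
        have b2 := map_bd ok (fun x => x.2.2) (hlen l a) fun x hx => ((inv l a).1 x hx).2.2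
        have b3 := map_bd ok (fun x => x.2.1) (hlen l a) fun x hx => ((inv l a).1 x hx).2.1
        have b4 := map_bd ok (fun x => x.2.1) (hlen l' a') fun x hx => ((inv l' a').1 x hx).2.1
        have c1 := (hζ l a).2
        have c2 := (hζ l' a').2
        have c3 := (inv l a).2.2.2.1
        rw [hlen l a] at c1 c3
        rw [hlen l' a', ea, eb] at c2
        exact hSa π S z0 (z l) (z l') (ζ l) (ζ l') (pa l) (pb l) (pc l) (pc l') g ok hS (hA z0 hz0)
          (hA _ (hzA l a)) ((e2 l hl).trans (e2 l' hl').symm) b1.1 b2.1 b3.1 b4.1 b2.2 b3.2 b4.2 hg hκ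
          h9 (h4.trans (mul_le_mul_of_nonneg_left (hV z0 hz0) κ0.le)) c3
          (hZ.den _ _ _ (fun x hx => (ok.pr _ ((inv l a).1 x hx).2.1).1.pos) (hζ l a).1)
          (hZ.den _ _ _ (fun x hx => (ok.pr _ ((inv l' a').1 x hx).2.1).1.pos) (hζ l' a').1) c1 c2
    exact_mod_cast this

end Pool.Agent.Lib.MP_028aa5_nt.U
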