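import Pool.Agent.Lib.MP_028aa5_nt.U.St3

/-! Exactly multiplicative positions. -/

namespace Pool.Agent.Lib.MP_028aa5_nt.U

open Finset T
open scoped Classical

namespace BlowJ

/-- the box of exponent vectors -/
noncomputable def box (ι : Type) [Fintype ι] (L : ℕ) : Finset (ι → ℕ) :=
  Fintype.piFinset fun _ : ι => range (L + 1)

lemma mem_box {ι : Type} [Fintype ι] {L : ℕ} {v : ι → ℕ} : v ∈ box ι L ↔ ∀ q, v q ≤ L := by
  simp [box, Fintype.mem_piFinset, Nat.lt_succ_iff]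

lemma card_box (ι : Type) [Fintype ι] (L : ℕ) : #(box ι L) = (L + 1) ^ Fintype.card ι := by
  simp [box, Fintype.card_piFinset]

lemma card_pos {ι : Type} [Fintype ι] (L : ℕ) (p : ι) :
    #{v ∈ box ι L | 1 ≤ v p} * (L + 1) = L * (L + 1) ^ Fintype.card ι := by
  have h : {v ∈ box ι L | 1 ≤ v p} =
      Fintype.piFinset (Function.update (fun _ : ι => range (L + 1)) p (Icc 1 L)) := by
    ext v
    simp only [mem_filter, mem_box, Fintype.mem_piFinset]
    constructor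
    · rintro ⟨h1, h2⟩ q
      by_cases hq : q = p
      · subst hq; simp [h1 q, h2]
      · simp [Function.update_of_ne hq, Nat.lt_succ_iff, h1 q]
    · intro h
      have hp := h p
      simp only [Function.update_self, mem_Icc] at hp
      refine ⟨fun q => ?_, hp.1⟩
      by_cases hq : q = p
      · subst hq; exact hp.2
      · have := h q
        simpa [Function.update_of_ne hq, Nat.lt_succ_iff] using this
  rw [h, Fintype.card_piFinset, ← Finset.mul_prod_erase _ _ (mem_univ p)]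
  have h2 : ∏ q ∈ univ.erase p, #(Function.update (fun _ : ι => range (L + 1)) p (Icc 1 L) q) =
      (L + 1) ^ (Fintype.card ι - 1) := by
    rw [Finset.prod_congr rfl (g := fun _ => L + 1)]
    · simp [card_erase_of_mem]
    · intro q hq
      simp [Function.update_of_ne (ne_of_mem_erase hq)]
  have h3 : 1 ≤ Fintype.card ι := Fintype.card_pos_iff.mpr ⟨p⟩
  rw [h2]
  obtain ⟨m, hm⟩ := Nat.exists_eq_add_of_le' h3
  simp [hm, pow_succ, mul_assoc]

/-- one factor removed -/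
noncomputable def dn {ι : Type} (v : ι → ℕ) (p : ι) : ι → ℕ := Function.update v p (v p - 1)

lemma dn_mem {ι : Type} [Fintype ι] {L : ℕ} {v : ι → ℕ} (p : ι) (h : v ∈ box ι L) :
    dn v p ∈ box ι L := by
  rw [mem_box] at h ⊢
  intro q
  by_cases hq : q = p
  · subst hq; simp only [dn, Function.update_self]; exact (Nat.sub_le _ _).trans (h q)
  · simp only [dn, Function.update_of_ne hq]; exact h q

lemma dn_inj {ι : Type} {v v' : ι → ℕ} {p : ι} (h : 1 ≤ v p) (h' : 1 ≤ v' p)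
    (he : dn v p = dn v' p) : v = v' := by
  funext q
  have := congrFun he q
  by_cases hq : q = p
  · subst hq; simp only [dn, Function.update_self] at this; omega
  · simpa only [dn, Function.update_of_ne hq] using this

lemma sum_dn {ι : Type} [Fintype ι] (v : ι → ℕ) (p : ι) (h : 1 ≤ v p) (a : ι → ℤ) :
    ∑ q, (v q : ℤ) * a q = a p + ∑ q, (dn v p q : ℤ) * a q := by
  rw [← Finset.add_sum_erase _ _ (mem_univ p), ← Finset.add_sum_erase _ _ (mem_univ p)]
  have h1 : ∑ q ∈ univ.erase p, (dn v p q : ℤ) * a q = ∑ q ∈ univ.erase p, (v q : ℤ) * a q :=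
    sum_congr rfl fun q hq => by simp only [dn, Function.update_of_ne (ne_of_mem_erase hq)]
  have h2 : (dn v p p : ℤ) = v p - 1 := by
    simp only [dn, Function.update_self]; omega
  rw [h1, h2]; ring

lemma prod_dn {ι : Type} [Fintype ι] (v : ι → ℕ) (p : ι) (h : 1 ≤ v p) (a : ι → ℕ) :
    ∏ q, a q ^ v q = a p * ∏ q, a q ^ dn v p q := by
  rw [← Finset.mul_prod_erase _ _ (mem_univ p), ← Finset.mul_prod_erase _ _ (mem_univ p)]
  have h1 : ∏ q ∈ univ.erase p, a q ^ dn v p q = ∏ q ∈ univ.erase p, a q ^ v q :=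
    prod_congr rfl fun q hq => by simp only [dn, Function.update_of_ne (ne_of_mem_erase hq)]
  have h2 : v p = dn v p p + 1 := by
    simp only [dn, Function.update_self]; omega
  rw [h1, h2, pow_succ]; ring

lemma near (hB : BasSt) (π : Par) (hπ : π.Ok) (L j : ℕ) (v : π.PP → ℕ) (hv : v ∈ box π.PP L)
    (l : ℤ) (hl : (j : ℤ) - ∑ q : π.PP, (v q : ℤ) * (π.lg q : ℤ) = l) :
    |Real.log (Real.exp (l * π.κ0) * (∏ q : π.PP, (q : ℕ) ^ v q : ℕ)) - j * π.κ0| ≤
      L * #π.PP * π.κ0 := by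
  have hq : ∀ q : π.PP, 0 < (q : ℕ) := fun q => (hπ.pr q q.2).1.pos
  have hq' : ∀ q : π.PP, (0 : ℝ) < ((q : ℕ) : ℝ) := fun q => by exact_mod_cast hq q
  have h1 : Real.log (Real.exp (l * π.κ0) * (∏ q : π.PP, (q : ℕ) ^ v q : ℕ)) - j * π.κ0 =
      ∑ q : π.PP, (v q : ℝ) * (Real.log (q : ℕ) - π.lg q * π.κ0) := by
    push_cast
    rw [Real.log_mul (Real.exp_pos _).ne' (prod_pos fun q _ => pow_pos (hq' q) _).ne',
      Real.log_exp, Real.log_prod fun q _ => (pow_pos (hq' q) _).ne', ← hl]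
    push_cast
    simp only [Real.log_pow, mul_sub, sum_sub_distrib, sub_mul, sum_mul, mul_assoc]
    ring
  rw [h1]
  refine (abs_sum_le_sum_abs _ _).trans ?_
  refine (sum_le_sum (g := fun _ => L * π.κ0) fun q _ => ?_).trans ?_
  · obtain ⟨a, b⟩ := hB.lg π q hπ (hq q)
    rw [abs_mul, abs_of_nonneg (Nat.cast_nonneg _)]
    refine mul_le_mul (by exact_mod_cast mem_box.mp hv q) ?_ (abs_nonneg _) (Nat.cast_nonneg _)
    rw [abs_le]; constructor <;> linarith [hπ.κ0]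
  · simp only [sum_const, card_univ, Fintype.card_coe, nsmul_eq_mul]
    exact le_of_eq (by ring)

end BlowJ

open BlowJ in
theorem st_Blow (hB : BasSt) (hL : LabSt) : BlowSt := by
  intro π N E lam L hπ hI ⟨u, hu0, hu⟩
  obtain ⟨p0, hp0⟩ := hπ.ne
  let pe : N.Ed → π.PP := fun e => if h : N.pr e ∈ π.PP then ⟨N.pr e, h⟩ else ⟨p0, hp0⟩
  have hpe : ∀ e ∈ E, (pe e : ℕ) = N.pr e := fun e he => by
    simp only [pe, dif_pos (hI.pr e he)]
  have hNf : 0 < π.Nf := hπ.Nf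
  let A : Finset ((N.W × ℕ) × (π.PP → ℕ)) := (univ ×ˢ range π.Nf) ×ˢ box π.PP L
  let E0 : Finset (N.Ed × (π.PP → ℕ)) := {e ∈ E ×ˢ box π.PP L | 1 ≤ e.2 (pe e.1)}
  let s : N.Ed × (π.PP → ℕ) → (N.W × ℕ) × (π.PP → ℕ) := fun e =>
    ((N.up e.1, N.fj e.1 % π.Nf), e.2)
  let t : N.Ed × (π.PP → ℕ) → (N.W × ℕ) × (π.PP → ℕ) := fun e =>
    ((N.lo e.1, (N.fj e.1 - π.lg (N.pr e.1)) % π.Nf), dn e.2 (pe e.1))
  let jj : (N.W × ℕ) × (π.PP → ℕ) → ℕ := fun w => N.cell w.1.1 * π.Nf + w.1.2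
  let lab : (N.W × ℕ) × (π.PP → ℕ) → ℤ := fun w =>
    (jj w : ℤ) - ∑ q : π.PP, (w.2 q : ℤ) * (π.lg q : ℤ)
  have hE0 : ∀ e ∈ E0, e.1 ∈ E ∧ e.2 ∈ box π.PP L ∧ 1 ≤ e.2 (pe e.1) := fun e he => by
    simp only [E0, mem_filter, mem_product] at he
    exact ⟨he.1.1, he.1.2, he.2⟩
  have js : ∀ e ∈ E0, jj (s e) = N.fj e.1 := fun e he => by
    simp only [jj, s]
    rw [← hI.cu _ (hE0 e he).1]
    exact Nat.div_add_mod' _ _
  have jt : ∀ e ∈ E0, jj (t e) = N.fj e.1 - π.lg (N.pr e.1) := fun e he => by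
    simp only [jj, t]
    rw [← hI.cl _ (hE0 e he).1]
    exact Nat.div_add_mod' _ _
  have hst : ∀ e ∈ E0, s e ∈ A ∧ t e ∈ A ∧ lab (s e) = lab (t e) := fun e he => by
    obtain ⟨h1, h2, h3⟩ := hE0 e he
    refine ⟨?_, ?_, ?_⟩
    · simp only [A, s, mem_product, mem_univ, mem_range, true_and]
      exact ⟨Nat.mod_lt _ hNf, h2⟩
    · simp only [A, t, mem_product, mem_univ, mem_range, true_and]
      exact ⟨Nat.mod_lt _ hNf, dn_mem _ h2⟩
    · simp only [lab]
      rw [js e he, jt e he, Nat.cast_sub (hI.le _ h1)]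
      have := sum_dn e.2 (pe e.1) h3 fun q => (π.lg q : ℤ)
      simp only [s, t]
      rw [this, hpe _ h1]
      ring
  have hA : ∑ w ∈ A, u w.1.1 ^ 2 = π.Nf * (L + 1) ^ #π.PP * ∑ x, u x ^ 2 := by
    simp only [A, sum_product, sum_const, card_box, card_range, Fintype.card_coe, nsmul_eq_mul,
      mul_sum]
    push_cast
    exact sum_congr rfl fun x _ => by ring
  have hE : (L + 1) * ∑ e ∈ E0, u (s e).1.1 * u (t e).1.1 =
      L * (L + 1) ^ #π.PP * ∑ e ∈ E, u (N.up e) * u (N.lo e) := by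
    simp only [E0, s, t]
    rw [sum_filter, sum_product, mul_sum, mul_sum]
    refine sum_congr rfl fun e _ => ?_
    rw [← sum_filter]
    simp only [sum_const, nsmul_eq_mul]
    have := card_pos L (pe e)
    rw [Fintype.card_coe] at this
    have h2 : (#{v ∈ box π.PP L | 1 ≤ v (pe e)} : ℝ) * (L + 1) = L * (L + 1) ^ #π.PP := by
      exact_mod_cast this
    rw [← h2]; ring
  have hNf' : (0 : ℝ) < π.Nf := by exact_mod_cast hNf
  have hpp : (0 : ℝ) < #π.PP := by exact_mod_cast card_pos.mpr ⟨p0, hp0⟩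
  have hL1 : (0 : ℝ) < L + 1 := by positivity
  obtain ⟨l, hl0, hl⟩ := hL _ _ _ A E0 s t (fun w => u w.1.1) lab (2 / #π.PP)
    (lam * (L / (L + 1))) hst (by rw [hA]; positivity) (by
      rw [hA]
      have h1 : ∑ e ∈ E0, u (s e).1.1 * u (t e).1.1 =
          L * (L + 1) ^ #π.PP * (∑ e ∈ E, u (N.up e) * u (N.lo e)) / (L + 1) := by
        rw [← hE]; field_simp
      rw [h1]
      have h2 := mul_le_mul_of_nonneg_left hu
        (show (0 : ℝ) ≤ L / (L + 1) * (π.Nf * (L + 1) ^ #π.PP) by positivity)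
      simp only [Net.Qf, Par.ν] at h2
      refine le_trans (le_of_eq (by ring)) (h2.trans (le_of_eq ?_))
      field_simp)
  let A' := {w ∈ A | lab w = l}
  let E' := {e ∈ E0 | lab (s e) = l}
  have hE' : ∀ e : E', e.1 ∈ E0 ∧ lab (s e.1) = l := fun e => mem_filter.mp e.2
  let N1 : Net :=
    { W := A'
      Ed := E'
      up := fun e => ⟨s e.1, mem_filter.mpr ⟨(hst _ (hE' e).1).1, (hE' e).2⟩⟩
      lo := fun e => ⟨t e.1, mem_filter.mpr ⟨(hst _ (hE' e).1).2.1,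
        (hst _ (hE' e).1).2.2 ▸ (hE' e).2⟩⟩
      pr := fun e => N.pr e.1.1
      fj := fun e => N.fj e.1.1
      isU := fun w => N.isU w.1.1.1
      cell := fun w => jj w.1 }
  have hnear : ∀ w : A', |Real.log (Real.exp (l * π.κ0) *
      (∏ q : π.PP, (q : ℕ) ^ w.1.2 q : ℕ)) - jj w.1 * π.κ0| ≤ L * #π.PP * π.κ0 := fun w => by
    obtain ⟨h1, h2⟩ := mem_filter.mp w.2
    exact near hB π hπ L _ _ (mem_product.mp h1).2 l h2
  refine ⟨N1, (univ : Finset E'), fun w => w.1.1.1, fun e => e.1.1,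
    fun w => ∏ q : π.PP, (q : ℕ) ^ w.1.2 q, Real.exp (l * π.κ0), Real.exp_pos _, ?_, ?_, ?_⟩
  · refine ⟨fun e _ => hI.up _ (hE0 _ (hE' e).1).1, fun e _ => hI.lo _ (hE0 _ (hE' e).1).1,
      fun e _ e' _ hp h => ?_, fun e _ e' _ hp h => ?_⟩
    · have h1 : s e.1 = s e'.1 := congrArg Subtype.val h
      have h2 : N.fj e.1.1 = N.fj e'.1.1 := by
        rw [← js _ (hE' e).1, ← js _ (hE' e').1, h1]
      have h3 : e.1.1 = e'.1.1 := hI.iu _ (hE0 _ (hE' e).1).1 _ (hE0 _ (hE' e').1).1 h2 hp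
        (congrArg (fun w => w.1.1) h1)
      exact Subtype.ext (Prod.ext h3 (congrArg (fun w => w.2) h1))
    · have h1 : t e.1 = t e'.1 := congrArg Subtype.val h
      have hp' : N.pr e.1.1 = N.pr e'.1.1 := hp
      have h2 : N.fj e.1.1 = N.fj e'.1.1 := by
        have a := jt _ (hE' e).1
        have b := jt _ (hE' e').1
        have c := hI.le _ (hE0 _ (hE' e).1).1
        have d := hI.le _ (hE0 _ (hE' e').1).1
        rw [h1, b, ← hp'] at a
        rw [← hp'] at d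
        omega
      have h3 : e.1.1 = e'.1.1 := hI.il _ (hE0 _ (hE' e).1).1 _ (hE0 _ (hE' e').1).1 h2 hp
        (congrArg (fun w => w.1.1) h1)
      have h4 : dn e.1.2 (pe e.1.1) = dn e'.1.2 (pe e'.1.1) := congrArg (fun w => w.2) h1
      have h5 := (hE0 _ (hE' e').1).2.2
      rw [← h3] at h4 h5
      exact Subtype.ext (Prod.ext h3 (dn_inj (hE0 _ (hE' e).1).2.2 h5 h4))
  · have h1 : ∑ w : A', u w.1.1.1 ^ 2 = ∑ w ∈ A', u w.1.1 ^ 2 :=
      sum_coe_sort A' fun w => u w.1.1 ^ 2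
    have h2 : ∑ e : E', u (s e.1).1.1 * u (t e.1).1.1 = ∑ e ∈ E', u (s e).1.1 * u (t e).1.1 :=
      sum_coe_sort E' fun e => u (s e).1.1 * u (t e).1.1
    refine ⟨fun w => u w.1.1.1, ?_, ?_⟩
    · refine lt_of_lt_of_eq ?_ h1.symm
      simp only [A']
      convert hl0
    · change _ * ∑ w : A', u w.1.1.1 ^ 2 ≤
        2 * (1 / (#π.PP : ℝ)) * ∑ e : E', u (s e.1).1.1 * u (t e.1).1.1
      rw [h1, h2, mul_one_div]
      simp only [A', E']
      convert hl
  · intro e _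
    obtain ⟨h1, _, h3⟩ := hE0 _ (hE' e).1
    refine ⟨h1, rfl, rfl, rfl, js _ (hE' e).1, jt _ (hE' e).1, ?_, ?_, hnear _, hnear _⟩
    · have := prod_dn e.1.2 (pe e.1.1) h3 fun q => (q : ℕ)
      rw [hpe _ h1] at this
      exact this
    · exact prod_pos fun q _ => pow_pos (hπ.pr q q.2).1.pos _

end Pool.Agent.Lib.MP_028aa5_nt.U
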