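import Pool.Agent.Lib.MP_028aa5_nt.U.St1

/-! Powers of a symmetric kernel. -/

namespace Pool.Agent.Lib.MP_028aa5_nt.U

open Finset T
open scoped Classical

namespace ChainJ

variable {Ω Λ ι : Type}

/-- the averaging operator of the kernel -/
noncomputable def op (m : Ω → ℝ) (C : Finset ι) (c : ι → ℝ) (fr tg : ι → Ω) (f : Ω → ℝ) (z : Ω) :
    ℝ := (∑ i ∈ C with fr i = z, c i * f (tg i)) / m z

/-- the weighted scalar product -/
noncomputable def ip (A : Finset Ω) (m : Ω → ℝ) (f g : Ω → ℝ) : ℝ := ∑ z ∈ A, m z * (f z * g z)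

theorem ip_comm (A : Finset Ω) (m f g : Ω → ℝ) : ip A m f g = ip A m g f := by
  unfold ip
  exact sum_congr rfl fun z _ => by ring

theorem ip_op (A : Finset Ω) (m : Ω → ℝ) (C : Finset ι) (c : ι → ℝ) (fr tg : ι → Ω)
    (hm : ∀ z ∈ A, 0 < m z) (hfr : ∀ i ∈ C, fr i ∈ A) (f g : Ω → ℝ) :
    ip A m f (op m C c fr tg g) = ∑ i ∈ C, c i * (f (fr i) * g (tg i)) := by
  unfold ip op
  rw [← sum_fiberwise_of_maps_to hfr]
  refine sum_congr rfl fun z hz => ?_
  have h := (hm z hz).ne'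
  have : m z * (f z * ((∑ i ∈ C with fr i = z, c i * g (tg i)) / m z)) =
      f z * ∑ i ∈ C with fr i = z, c i * g (tg i) := by field_simp
  rw [this, mul_sum]
  refine sum_congr rfl fun i hi => ?_
  rw [(mem_filter.1 hi).2]
  ring

theorem ip_iter (A : Finset Ω) (m : Ω → ℝ) (S : (Ω → ℝ) → Ω → ℝ)
    (hS : ∀ f g, ip A m f (S g) = ip A m (S f) g) (n : ℕ) (f g : Ω → ℝ) :
    ip A m f (S^[n] g) = ip A m (S^[n] f) g := by
  induction n generalizing f with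
  | zero => rfl
  | succ n ih => rw [Function.iterate_succ_apply', hS, ih, Function.iterate_succ_apply]

theorem ip_cs (A : Finset Ω) (m : Ω → ℝ) (hm : ∀ z ∈ A, 0 < m z) (h1 : ∑ z ∈ A, m z ≤ 1)
    (g : Ω → ℝ) : ip A m (fun _ => 1) g ^ 2 ≤ ip A m g g := by
  set t := ip A m (fun _ => 1) g with ht
  have h0 : 0 ≤ ∑ z ∈ A, m z * (g z - t) ^ 2 :=
    sum_nonneg fun z hz => mul_nonneg (hm z hz).le (sq_nonneg _)
  have h2 : ∑ z ∈ A, m z * (g z - t) ^ 2 =
      ip A m g g - 2 * t * ip A m (fun _ => 1) g + t ^ 2 * ∑ z ∈ A, m z := by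
    unfold ip
    rw [mul_sum, mul_sum, ← sum_sub_distrib, ← sum_add_distrib]
    exact sum_congr rfl fun z _ => by ring
  rw [h2, ← ht] at h0
  have h3 : t ^ 2 * ∑ z ∈ A, m z ≤ t ^ 2 := by
    simpa using mul_le_mul_of_nonneg_left h1 (sq_nonneg t)
  nlinarith

theorem lower (A : Finset Ω) (m : Ω → ℝ) (hm : ∀ z ∈ A, 0 < m z) (h1 : ∑ z ∈ A, m z ≤ 1)
    (S : (Ω → ℝ) → Ω → ℝ) (hS : ∀ f g, ip A m f (S g) = ip A m (S f) g)
    (h0 : 0 ≤ ip A m (fun _ => 1) (S fun _ => 1)) (a : ℕ) :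
    ip A m (fun _ => 1) (S fun _ => 1) ^ 2 ^ a ≤ ip A m (fun _ => 1) (S^[2 ^ a] fun _ => 1) := by
  induction a with
  | zero => simp
  | succ a ih =>
    have e : 2 ^ (a + 1) = 2 ^ a + 2 ^ a := by ring
    rw [e, Function.iterate_add_apply, ip_iter A m S hS, pow_add, ← sq]
    exact (pow_le_pow_left₀ (pow_nonneg h0 _) ih 2).trans (ip_cs A m hm h1 _)

/-- all lists of a given length over a finite alphabet -/
noncomputable def Ls (Y : Finset Λ) : ℕ → Finset (List Λ)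
  | 0 => {[]}
  | n + 1 => (Y ×ˢ Ls Y n).image fun p => p.1 :: p.2

theorem Ls_len (Y : Finset Λ) (n : ℕ) : ∀ l ∈ Ls Y n, l.length = n := by
  induction n with
  | zero => intro l hl; simp only [Ls, mem_singleton] at hl; simp [hl]
  | succ n ih =>
    intro l hl
    simp only [Ls, mem_image, mem_product] at hl
    obtain ⟨p, ⟨_, hp⟩, rfl⟩ := hl
    simp [ih _ hp]

/-- indicator of a chain starting at `z` -/
noncomputable def ind (Rel : Ω → Λ → Ω → Prop) (l : List Λ) (z : Ω) : ℝ :=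
  if ∃ z', Chn Rel l z z' then 1 else 0

theorem ind_nonneg (Rel : Ω → Λ → Ω → Prop) (l : List Λ) (z : Ω) : 0 ≤ ind Rel l z := by
  unfold ind; split_ifs <;> norm_num

/-- number of chains -/
noncomputable def N (Rel : Ω → Λ → Ω → Prop) (Y : Finset Λ) (n : ℕ) (z : Ω) : ℝ :=
  ∑ l ∈ Ls Y n, ind Rel l z

theorem N_succ (Rel : Ω → Λ → Ω → Prop) (Y : Finset Λ) (n : ℕ) (z : Ω) :
    N Rel Y (n + 1) z = ∑ ls ∈ Ls Y n, ∑ l ∈ Y, ind Rel (l :: ls) z := by
  unfold N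
  simp only [Ls]
  rw [sum_image, sum_product_right]
  rintro ⟨a, b⟩ _ ⟨a', b'⟩ _ h
  simp only [List.cons.injEq] at h
  exact Prod.ext h.1 h.2

theorem step (A : Finset Ω) (m : Ω → ℝ) (C : Finset ι) (c : ι → ℝ) (fr tg : ι → Ω) (ty : ι → Λ)
    (Rel : Ω → Λ → Ω → Prop) (θ : ℝ) (hm : ∀ z ∈ A, 0 < m z)
    (hC : ∀ i ∈ C, 0 ≤ c i ∧ fr i ∈ A ∧ tg i ∈ A ∧ Rel (fr i) (ty i) (tg i)) (hθ : 0 ≤ θ)
    (hb : ∀ z ∈ A, ∀ l, ∑ i ∈ C with fr i = z ∧ ty i = l, c i ≤ θ * m z) (n : ℕ) (z : Ω)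
    (hz : z ∈ A) :
    ∑ i ∈ C with fr i = z, c i * N Rel (C.image ty) n (tg i) ≤
      θ * m z * N Rel (C.image ty) (n + 1) z := by
  rw [N_succ, mul_sum]
  unfold N
  simp_rw [mul_sum]
  rw [sum_comm]
  refine sum_le_sum fun ls _ => ?_
  have hmap : ∀ i ∈ C.filter (fun i => fr i = z), ty i ∈ C.image ty := fun i hi =>
    mem_image_of_mem _ (mem_filter.1 hi).1
  rw [← sum_fiberwise_of_maps_to hmap]
  refine sum_le_sum fun l _ => ?_
  rw [filter_filter]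
  by_cases h : ∃ z', Chn Rel (l :: ls) z z'
  · have e : ind Rel (l :: ls) z = 1 := if_pos h
    rw [e, mul_one]
    refine le_trans (sum_le_sum fun i hi => ?_) (hb z hz l)
    have hc := (hC i (mem_filter.1 hi).1).1
    have : ind Rel ls (tg i) ≤ 1 := by unfold ind; split_ifs <;> norm_num
    simpa using mul_le_mul_of_nonneg_left this hc
  · have e : ind Rel (l :: ls) z = 0 := if_neg h
    rw [e, mul_zero]
    refine le_of_eq (sum_eq_zero fun i hi => ?_)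
    obtain ⟨hi, h1, h2⟩ := mem_filter.1 hi
    have : ind Rel ls (tg i) = 0 := by
      refine if_neg ?_
      rintro ⟨z', hz'⟩
      refine h ⟨z', tg i, ?_, hz'⟩
      rw [← h1, ← h2]
      exact (hC i hi).2.2.2
    rw [this, mul_zero]

theorem upper (A : Finset Ω) (m : Ω → ℝ) (C : Finset ι) (c : ι → ℝ) (fr tg : ι → Ω) (ty : ι → Λ)
    (Rel : Ω → Λ → Ω → Prop) (θ : ℝ) (hm : ∀ z ∈ A, 0 < m z)
    (hC : ∀ i ∈ C, 0 ≤ c i ∧ fr i ∈ A ∧ tg i ∈ A ∧ Rel (fr i) (ty i) (tg i)) (hθ : 0 ≤ θ)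
    (hb : ∀ z ∈ A, ∀ l, ∑ i ∈ C with fr i = z ∧ ty i = l, c i ≤ θ * m z) (n : ℕ) :
    ∀ z ∈ A, (op m C c fr tg)^[n] (fun _ => 1) z ≤ θ ^ n * N Rel (C.image ty) n z := by
  induction n with
  | zero =>
    intro z _
    have : ind Rel [] z = 1 := if_pos ⟨z, rfl⟩
    simp [N, Ls, this]
  | succ n ih =>
    intro z hz
    rw [Function.iterate_succ_apply']
    unfold op
    rw [div_le_iff₀ (hm z hz)]
    calc ∑ i ∈ C with fr i = z, c i * (op m C c fr tg)^[n] (fun _ => 1) (tg i)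
        ≤ ∑ i ∈ C with fr i = z, θ ^ n * (c i * N Rel (C.image ty) n (tg i)) := by
          refine sum_le_sum fun i hi => ?_
          have h := hC i (mem_filter.1 hi).1
          have := mul_le_mul_of_nonneg_left (ih _ h.2.2.1) h.1
          linarith
      _ = θ ^ n * ∑ i ∈ C with fr i = z, c i * N Rel (C.image ty) n (tg i) := by rw [mul_sum]
      _ ≤ θ ^ n * (θ * m z * N Rel (C.image ty) (n + 1) z) :=
          mul_le_mul_of_nonneg_left (step A m C c fr tg ty Rel θ hm hC hθ hb n z hz)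
            (pow_nonneg hθ _)
      _ = θ ^ (n + 1) * N Rel (C.image ty) (n + 1) z * m z := by ring

end ChainJ

open ChainJ in
theorem st_Chain : ChainSt := by
  intro Ω Λ ι A m C c fr tg ty Rel θ Nl a hm h1 hC hsym hθ hNl hb hL
  have hfr : ∀ i ∈ C, fr i ∈ A := fun i hi => (hC i hi).2.1
  have hS : ∀ f g, ip A m f (op m C c fr tg g) = ip A m (op m C c fr tg f) g := by
    intro f g
    rw [ip_comm A m (op m C c fr tg f), ip_op A m C c fr tg hm hfr, ip_op A m C c fr tg hm hfr,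
      hsym]
  have e : ip A m (fun _ => 1) (op m C c fr tg fun _ => 1) = ∑ i ∈ C, c i := by
    rw [ip_op A m C c fr tg hm hfr]
    simp
  have h0 : 0 ≤ ∑ i ∈ C, c i := sum_nonneg fun i hi => (hC i hi).1
  have hl := lower A m hm h1 _ hS (e ▸ h0) a
  rw [e] at hl
  refine hl.trans ?_
  have hN : ∀ z ∈ A, N Rel (C.image ty) (2 ^ a) z ≤ Nl := by
    intro z hz
    have := hL z hz ((Ls (C.image ty) (2 ^ a)).filter fun l => ∃ z', Chn Rel l z z')
      fun l hl => ⟨Ls_len _ _ l (mem_filter.1 hl).1, (mem_filter.1 hl).2⟩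
    refine le_trans (le_of_eq ?_) this
    unfold N ind
    rw [sum_boole]
  unfold ip
  calc ∑ z ∈ A, m z * (1 * (op m C c fr tg)^[2 ^ a] (fun _ => 1) z)
      ≤ ∑ z ∈ A, m z * (θ ^ 2 ^ a * Nl) := by
        refine sum_le_sum fun z hz => mul_le_mul_of_nonneg_left ?_ (hm z hz).le
        rw [one_mul]
        exact (upper A m C c fr tg ty Rel θ hm hC hθ hb _ z hz).trans
          (mul_le_mul_of_nonneg_left (hN z hz) (pow_nonneg hθ _))
    _ = (∑ z ∈ A, m z) * (θ ^ 2 ^ a * Nl) := by rw [sum_mul]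
    _ ≤ θ ^ 2 ^ a * Nl := by
        simpa using mul_le_mul_of_nonneg_right h1 (mul_nonneg (pow_nonneg hθ _) hNl)

end Pool.Agent.Lib.MP_028aa5_nt.U
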