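import Pool.Agent.Lib.MP_028aa5_nt.U.St3

/-! The number of states at the bottom and at the top of the tower. -/

namespace Pool.Agent.Lib.MP_028aa5_nt.U

open Finset T
open scoped Classical

namespace Cnt0J

theorem ck_ge (k : ℕ) : (2 * (k : ℝ) * (5 ^ k + 1) + 2) ^ k ≤ cK k := by
  unfold cK
  have h1 : (5 : ℝ) ^ k ≤ 25 ^ k := pow_le_pow_left₀ (by norm_num) (by norm_num) k
  have h2 : (0 : ℝ) ≤ 25 ^ k := by positivity
  have h3 : (2 * (k : ℝ) * (5 ^ k + 1) + 2) ^ k ≤ (2 * k * (2 * 25 ^ k + 1) + 2) ^ k := by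
    refine pow_le_pow_left₀ (by positivity) ?_ k
    have : (0 : ℝ) ≤ 2 * k := by positivity
    nlinarith [mul_le_mul_of_nonneg_left (show (5 : ℝ) ^ k + 1 ≤ 2 * 25 ^ k + 1 by linarith) this]
  have h4 : (0 : ℝ) ≤ (2 * k * (2 * 25 ^ k + 1) + 2) ^ k := by positivity
  linarith

theorem cnt (hN : NSt) (hB : BasSt) (hP : PtSt) (hV : VASt) (π : Par) (N : Net)
    (E : Finset N.Ed) (φ : N.W → Ph) (Y δ : ℝ) (S : Pt π.k → ℤ × Ph) (A : Finset (Pt π.k))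
    (hok : π.Ok) (hI : N.Is π E) (hS : StMap π.k π.κ S) (hδ : δ ≤ 1)
    (hA : ∀ t ∈ A, ∃ x, 0 < t.y ∧ |Real.log t.y - Real.log (N.pos π x)| ≤ 2 * π.κ ∧
      Cl π.k π.κ 1 t.y δ (t.ph - φ x)) :
    (geo π Y S).Cnt A (2 * π.M * (12 * π.G + 1) * cK π.k) := by
  intro c
  have hκ : 0 < π.κ := (hB.κ1_pos π hok).trans_le (hB.κ1_le π hok)
  set X : Finset N.W := {x | |Real.log (N.pos π x) - c * π.κ| ≤ 6 * π.G * π.κ1} with hX
  have hXc : (#X : ℝ) ≤ 2 * π.M * (2 * (6 * π.G) + 1) :=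
    hB.near π N E (c * π.κ) (6 * π.G) hok hI (by positivity)
  set B : N.W → Finset (Pt π.k) := fun x =>
    {t ∈ A | (S t).1 = c ∧ Cl π.k π.κ 1 (Real.exp (c * π.κ)) (5 ^ π.k) (t.ph - φ x)} with hBd
  have hBc : ∀ x ∈ X, (#((B x).image S) : ℝ) ≤ cK π.k := fun x _ =>
    (hS.few c (φ x) (5 ^ π.k) (B x) (by positivity) fun t ht => (mem_filter.1 ht).2).trans
      (ck_ge π.k)
  have hsub : ∀ σ, σ ∈ A.image S → σ.1 = c → σ ∈ X.biUnion fun x => (B x).image S := by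
    intro σ h1 h2
    obtain ⟨t, ht, rfl⟩ := mem_image.1 h1
    obtain ⟨x, h3, h4, h5⟩ := hA t ht
    have h6 := hP.cell π.κ t.y hκ
    rw [← hS.cell t, h2] at h6
    refine mem_biUnion.2 ⟨x, mem_filter.2 ⟨mem_univ _, ?_⟩,
      mem_image.2 ⟨t, mem_filter.2 ⟨ht, h2, ?_⟩, rfl⟩⟩
    · have h7 := hV.κ_le π hok
      have h8 := abs_le.1 h4
      have h9 := abs_le.1 h6
      rw [abs_le]
      constructor <;> linarith [h8.1, h8.2, h9.1, h9.2]
    · have h7 := hP.cl5 π.k π.κ 1 t.y (Real.exp (c * π.κ)) δ _ hκ hok.κ h3 (Real.exp_pos _)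
        (by rw [Real.log_exp, abs_sub_comm]; exact h6) h5
      refine hN.cl_mono _ _ _ _ _ _ _ ?_ h7
      exact mul_le_of_le_one_right (by positivity) hδ
  have h1 : #{σ ∈ A.image (geo π Y S).S | (geo π Y S).cl σ = c} ≤
      #(X.biUnion fun x => (B x).image S) := by
    refine card_le_card fun σ hσ => ?_
    obtain ⟨h1, h2⟩ := mem_filter.1 hσ
    obtain ⟨t, ht, rfl⟩ := mem_image.1 h1
    exact hsub (S t) (mem_image_of_mem S ht) h2
  have h2 : (#(X.biUnion fun x => (B x).image S) : ℝ) ≤ ∑ x ∈ X, (#((B x).image S) : ℝ) := by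
    exact_mod_cast card_biUnion_le
  have h3 : ∑ x ∈ X, (#((B x).image S) : ℝ) ≤ #X * cK π.k := by
    rw [← nsmul_eq_mul]
    exact sum_le_card_nsmul _ _ _ hBc
  have h4 : 0 ≤ cK π.k := by unfold cK; positivity
  refine (Nat.cast_le.2 h1).trans (h2.trans (h3.trans ?_))
  refine mul_le_mul_of_nonneg_right (hXc.trans (le_of_eq ?_)) h4
  ring

end Cnt0J

theorem st_Cnt0 (hN : NSt) (hB : BasSt) (hP : PtSt) (hV : VASt) : Cnt0St := by
  intro π N E φ Y δ S E0 hok hI hS hδ h8 hY hL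
  have hκ1 := hB.κ1_le π hok
  refine ⟨fun e0 he0 => ?_, Cnt0J.cnt hN hB hP hV π N E φ Y δ S _ hok hI hS hδ fun t ht => ?_,
    Cnt0J.cnt hN hB hP hV π N E φ Y δ S _ hok hI hS hδ fun t ht => ?_⟩
  · obtain ⟨e, he, h1, -, h3, -, h5, -, -⟩ := hL e0 he0
    change Y * π.P ^ 0 ≤ e0.1.y
    have hp : (8 : ℝ) < e0.2 := h8.trans_lt (h1 ▸ (hok.pr _ (hI.pr e he)).2.1)
    have k1 := hY (N.lo e)
    have k2 := hV.ps_le π (N.fj e - π.lg e0.2) hok
    rw [Net.pos, ← hI.cl e he, h1] at k1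
    have k3 : π.yy (N.fj e - π.lg e0.2) ≤ Real.exp (Real.log (e0.1.y / e0.2) + 1) := by
      refine Real.exp_le_exp.2 ?_
      linarith [(abs_le.1 h5).1, hok.κ]
    rw [Real.exp_add, Real.exp_log (by positivity)] at k3
    have k4 : e0.1.y / e0.2 * Real.exp 1 ≤ e0.1.y := by
      rw [div_mul_eq_mul_div, div_le_iff₀ (by linarith)]
      exact mul_le_mul_of_nonneg_left (by linarith [Real.exp_one_lt_d9]) h3.le
    rw [pow_zero, mul_one]
    linarith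
  · obtain ⟨e0, he0, rfl⟩ := mem_image.1 ht
    obtain ⟨e, he, -, -, h3, h4, -, h6, -⟩ := hL e0 he0
    refine ⟨N.up e, h3, ?_, h6⟩
    have k1 := hB.fine_up π N E hok hI e he
    rw [Par.yy, Real.log_exp] at k1
    have k2 := abs_le.1 k1
    have k3 := abs_le.1 h4
    rw [abs_le]
    constructor <;> linarith [k2.1, k2.2, k3.1, k3.2]
  · obtain ⟨e0, he0, rfl⟩ := mem_image.1 ht
    obtain ⟨e, he, h1, -, h3, -, h5, -, h7⟩ := hL e0 he0
    have hp : (8 : ℝ) < e0.2 := h8.trans_lt (h1 ▸ (hok.pr _ (hI.pr e he)).2.1)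
    refine ⟨N.lo e, show 0 < e0.1.y / e0.2 by positivity, ?_, h7⟩
    change |Real.log (e0.1.y / e0.2) - Real.log (N.pos π (N.lo e))| ≤ 2 * π.κ
    have k1 := hB.fine π (N.fj e - π.lg e0.2) hok
    rw [Par.yy, Real.log_exp] at k1
    rw [Net.pos, ← hI.cl e he, h1]
    have k2 := abs_le.1 k1
    have k3 := abs_le.1 h5
    rw [abs_le]
    constructor <;> linarith [k2.1, k2.2, k3.1, k3.2]

theorem st_Cls (_hN : NSt) (hB : BasSt) (hP : PtSt) (_hV : VASt) : ClsSt := by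
  intro π Y Mb s0 S A hok hS hC hA
  have hκ : 0 < π.κ := (hB.κ1_pos π hok).trans_le (hB.κ1_le π hok)
  obtain ⟨I, hI, hI'⟩ := hP.cells π.κ s0 (1 + π.κ) hκ (by linarith)
  have hM : 0 ≤ Mb := (Nat.cast_nonneg _).trans (hC 0)
  have h1 : (#(A.image S) : ℝ) ≤ #I * Mb := by
    refine card_le_fibers (A.image S) I Prod.fst (fun σ hσ => ?_) fun c _ => ?_
    · obtain ⟨t, ht, rfl⟩ := mem_image.1 hσ
      rw [hS.cell t]
      exact hI' _ (hA t ht)
    · refine le_trans (Nat.cast_le.2 (card_le_card fun σ hσ => ?_)) (hC c)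
      obtain ⟨h1, h2⟩ := mem_filter.1 hσ
      obtain ⟨t, ht, rfl⟩ := mem_image.1 h1
      refine mem_filter.2 ⟨?_, h2⟩
      exact (@mem_image _ _ (_) _ _ _).2 ⟨t, ht, rfl⟩
  have h2 : π.κ * #I ≤ 6 := by
    have := mul_le_mul_of_nonneg_left hI hκ.le
    have e : π.κ * (2 * (1 + π.κ) / π.κ + 2) = 2 + 4 * π.κ := by field_simp; ring
    linarith [hok.κ]
  calc π.κ * #(A.image S) ≤ π.κ * (#I * Mb) := mul_le_mul_of_nonneg_left h1 hκ.le
    _ = π.κ * #I * Mb := by ring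
    _ ≤ 6 * Mb := mul_le_mul_of_nonneg_right h2 hM

end Pool.Agent.Lib.MP_028aa5_nt.U
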