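import Pool.Agent.Lib.MP_028aa5_nt.U.St1

/-! Most common parents are near a point that depends only on the state of a child. -/

namespace Pool.Agent.Lib.MP_028aa5_nt.U

open Finset T
open scoped Classical

namespace ConfJ

theorem pick {ι Ω : Type} [Nonempty Ω] (F : Finset ι) (w : ι → ℝ) (hw : ∀ u ∈ F, 0 < w u)
    (t : ι → Ω) (Nr : Ω → Ω → Prop) : ∃ z, ∑ u ∈ F with ¬Nr (t u) z, w u ≤
      ∑ u ∈ F, ∑ v ∈ F with ¬Nr (t u) (t v), w u * w v / ∑ x ∈ F, w x := by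
  rcases F.eq_empty_or_nonempty with rfl | hF
  · exact ⟨Classical.arbitrary _, by simp⟩
  have m0 : 0 < ∑ x ∈ F, w x := sum_pos hw hF
  obtain ⟨v, hv, h⟩ := exists_le_of_sum_le hF
    (f := fun v => w v * ∑ u ∈ F with ¬Nr (t u) (t v), w u)
    (g := fun v => w v * ∑ u ∈ F, ∑ v ∈ F with ¬Nr (t u) (t v), w u * w v / ∑ x ∈ F, w x) (by
      rw [← sum_mul]
      simp only [← sum_div]
      rw [mul_div_cancel₀ _ m0.ne']
      simp only [sum_filter, mul_sum]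
      rw [sum_comm]
      refine le_of_eq (sum_congr rfl fun u _ => sum_congr rfl fun v _ => ?_)
      split_ifs <;> ring)
  exact ⟨t v, le_of_mul_le_mul_left h (hw v hv)⟩

theorem rep {ι β Ω : Type} [Nonempty Ω] (B : Finset ι) (w : ι → ℝ) (hw : ∀ u ∈ B, 0 < w u)
    (lab : ι → β) (t : ι → Ω) (Nr : Ω → Ω → Prop) : ∃ ts : β → Ω,
      ∑ u ∈ B with ¬Nr (t u) (ts (lab u)), w u ≤
        ∑ u ∈ B, ∑ v ∈ B with lab v = lab u ∧ ¬Nr (t u) (t v), w u * w v / fm B w lab (lab u) := by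
  choose ts h using fun l : β => pick {u ∈ B | lab u = l} w
    (fun u hu => hw u (mem_filter.mp hu).1) t Nr
  refine ⟨ts, ?_⟩
  rw [sum_filter, ← sum_fiberwise_of_maps_to (g := lab) fun u hu => mem_image_of_mem lab hu,
    ← sum_fiberwise_of_maps_to (s := B) (g := lab) fun u hu => mem_image_of_mem lab hu]
  refine sum_le_sum fun l _ => ?_
  refine le_trans (le_of_eq ?_) ((h l).trans (le_of_eq ?_))
  · rw [sum_filter (s := {u ∈ B | lab u = l})]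
    exact sum_congr rfl fun u hu => by rw [(mem_filter.mp hu).2]
  · refine sum_congr rfl fun u hu => ?_
    rw [(mem_filter.mp hu).2, filter_filter]
    rfl

theorem cov {ι : Type} {P A A1 A2 : Finset ι} {w : ι → ℝ} (hw : ∀ u ∈ P, 0 < w u) (h1 : A1 ⊆ P)
    (h2 : A2 ⊆ P) (h : A ⊆ A1 ∪ A2) : ∑ u ∈ A, w u ≤ ∑ u ∈ A1, w u + ∑ u ∈ A2, w u := by
  have a := sum_le_sum_of_subset_of_nonneg h fun u hu _ => (hw u (union_subset h1 h2 hu)).le
  have b := sum_union_inter (s₁ := A1) (s₂ := A2) (f := w)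
  have c : 0 ≤ ∑ u ∈ A1 ∩ A2, w u := sum_nonneg fun u hu => (hw u (h1 (mem_inter.mp hu).1)).le
  linarith

theorem cov4 {ι : Type} {P A A1 A2 A3 A4 : Finset ι} {w : ι → ℝ} (hw : ∀ u ∈ P, 0 < w u)
    (h1 : A1 ⊆ P) (h2 : A2 ⊆ P) (h3 : A3 ⊆ P) (h4 : A4 ⊆ P)
    (h : ∀ u ∈ A, (u ∈ A1 ∨ u ∈ A2) ∨ u ∈ A3 ∨ u ∈ A4) :
    ∑ u ∈ A, w u ≤ ∑ u ∈ A1, w u + ∑ u ∈ A2, w u + (∑ u ∈ A3, w u + ∑ u ∈ A4, w u) :=
  (cov hw (union_subset h1 h2) (union_subset h3 h4) fun u hu => by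
    simpa only [mem_union] using h u hu).trans
    (add_le_add (cov hw h1 h2 subset_rfl) (cov hw h3 h4 subset_rfl))

theorem ind {ι : Type} (s : Finset ι) (a : ι → ℝ) (q : ι → Prop) [DecidablePred q] :
    ∑ x ∈ s with q x, a x = ∑ x ∈ s, a x * if q x then 1 else 0 := by
  rw [sum_filter]
  exact sum_congr rfl fun x _ => by split_ifs <;> simp

theorem small (hE : EntSt) {ι ι' Λ : Type} (s : Finset ι) (a : ι → ℝ) (f : ι → Λ) (PP : Finset ℕ)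
    (B : Finset ι') (w : ι' → ℝ) (lab : ι' → Λ × ℕ) {K : ℝ} (hK : 0 < K) (ne : PP.Nonempty)
    (ha : ∀ x ∈ s, 0 ≤ a x) (tot : ∑ x ∈ s, a x ≤ 1)
    (hl : ∀ u ∈ B, lab u ∈ s.image f ×ˢ PP) :
    ∑ u ∈ B with ¬fm s a f (lab u).1 ≤ K * #PP * fm B w lab (lab u), w u ≤ 1 / K := by
  have p0 : (0 : ℝ) < #PP := by exact_mod_cast ne.card_pos
  have e := hE.push B w lab fun l => if ¬fm s a f l.1 ≤ K * #PP * fm B w lab l then 1 else 0
  rw [ind]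
  refine le_trans (le_of_eq (by convert e)) ?_
  refine (sum_le_sum (g := fun l => fm s a f l.1 / (K * #PP)) fun l _ => ?_).trans ?_
  · split_ifs with h
    · rw [mul_zero]
      exact div_nonneg (hE.nonneg s a f _ ha) (by positivity)
    · rw [mul_one, le_div_iff₀ (by positivity), mul_comm]
      exact (not_le.mp h).le
  calc _ ≤ ∑ l ∈ s.image f ×ˢ PP, fm s a f l.1 / (K * #PP) :=
        sum_le_sum_of_subset_of_nonneg (fun l hl' => by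
          simp only [mem_image] at hl'
          obtain ⟨u, hu, rfl⟩ := hl'
          exact hl u hu) fun l _ _ => div_nonneg (hE.nonneg s a f _ ha) (by positivity)
    _ = (∑ b ∈ s.image f, fm s a f b) / K := by
        rw [sum_product, sum_div]
        refine sum_congr rfl fun b _ => ?_
        simp only [sum_const, nsmul_eq_mul]
        field_simp
    _ ≤ 1 / K := div_le_div_of_nonneg_right ((hE.tot s a f _ ha).trans tot) hK.le

end ConfJ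

open ConfJ

theorem st_Conf (hE : EntSt) (hS : SmSt) (hA : ConfASt) : ConfSt := by
  intro T C0 σ E0 j a Ml Mb K Nl ne ok inv post hK few hN hle
  have pos := hS.pw_pos T σ inv.pos
  obtain ⟨lab, hlab⟩ : ∃ lab : σ.ι × σ.ι → T.Λ × ℕ, lab = fun v => (T.S (σ.y v.1), σ.p v.2) :=
    ⟨_, rfl⟩
  obtain ⟨B0, hB0⟩ : ∃ B0 : Finset (σ.ι × σ.ι), ∀ u, u ∈ B0 ↔ u ∈ σ.prs ∧ ¬σ.hi (K ^ 2) u.1 ∧
      ¬σ.hi (K ^ 2) u.2 ∧ σ.p u.1 ≠ σ.p u.2 := ⟨σ.prs.filter _, fun _ => mem_filter⟩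
  obtain ⟨B, hB⟩ : ∃ B : Finset (σ.ι × σ.ι), ∀ u, u ∈ B ↔ u ∈ B0 ∧
      fm σ.s σ.a (fun x => T.S (σ.y x)) (lab u).1 ≤ K * #T.PP * fm B0 σ.pw lab (lab u) :=
    ⟨B0.filter _, fun _ => mem_filter⟩
  have s0 : B0 ⊆ σ.prs := fun u hu => ((hB0 u).mp hu).1
  have s1 : B ⊆ σ.prs := fun u hu => s0 ((hB u).mp hu).1
  have sat : ∀ u ∈ B, fm B σ.pw lab (lab u) = fm B0 σ.pw lab (lab u) := fun u hu => by
    unfold fm
    refine sum_congr ?_ fun _ _ => rfl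
    ext v
    simp only [mem_filter]
    exact and_congr_left fun e => ⟨fun h => ((hB v).mp h).1,
      fun h => (hB v).mpr ⟨h, e ▸ ((hB u).mp hu).2⟩⟩
  have k4 := hA T C0 σ E0 j a Ml Mb K Nl B ok inv post.1 hK few hN hle s1 fun u hu => by
    have b := (hB0 u).mp ((hB u).mp hu).1
    have c := ((hB u).mp hu).2
    rw [← sat u hu, hlab] at c
    exact ⟨b.2.1, b.2.2.1, b.2.2.2, c⟩
  obtain ⟨ts, k5⟩ := rep B σ.pw (fun u hu => pos u (s1 hu)) lab σ.tp T.Near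
  have k6 : ∑ u ∈ B with ¬T.Near (σ.tp u) (ts (lab u)), σ.pw u ≤ 1 / K :=
    k5.trans (le_trans (le_of_eq (by rw [hlab]; convert rfl)) k4)
  have mp : ∀ u ∈ σ.prs, u.1 ∈ σ.s ∧ u.2 ∈ σ.s := fun u hu => mem_product.mp (mem_filter.mp hu).1
  have k3 := small hE σ.s σ.a (fun x => T.S (σ.y x)) T.PP B0 σ.pw lab (K := K) (by linarith) ok.ne
    (fun x hx => (inv.pos x hx).le) inv.tot fun u hu => by
      rw [hlab]
      exact mem_product.mpr ⟨mem_image_of_mem _ (mp u (s0 hu)).1, inv.pr _ (mp u (s0 hu)).2⟩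
  have k1 : ∑ u ∈ σ.prs with σ.hi (K ^ 2) u.1, σ.pw u ≤ 2 / K := by
    rw [ind, hS.sum1 T σ (fun x => if σ.hi (K ^ 2) x then 1 else 0) inv.pos, ← ind]
    exact post.2
  have k2 : ∑ u ∈ σ.prs with σ.hi (K ^ 2) u.2, σ.pw u ≤ 2 / K := by
    rw [ind, hS.sum2 T σ (fun x => if σ.hi (K ^ 2) x then 1 else 0) inv.pos, ← ind]
    exact post.2
  refine ⟨fun b r => ts (b, r), ?_⟩
  have f1 : {u ∈ σ.prs | σ.hi (K ^ 2) u.1} ⊆ σ.prs := filter_subset _ _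
  have f2 : {u ∈ σ.prs | σ.hi (K ^ 2) u.2} ⊆ σ.prs := filter_subset _ _
  have f3 : {u ∈ B0 | ¬fm σ.s σ.a (fun x => T.S (σ.y x)) (lab u).1 ≤
      K * #T.PP * fm B0 σ.pw lab (lab u)} ⊆ σ.prs := (filter_subset _ _).trans s0
  have f4 : {u ∈ B | ¬T.Near (σ.tp u) (ts (lab u))} ⊆ σ.prs := (filter_subset _ _).trans s1
  refine (cov4 pos f1 f2 f3 f4 fun u hu => ?_).trans ?_
  · simp only [mem_filter] at hu ⊢
    by_cases q1 : σ.hi (K ^ 2) u.1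
    · exact Or.inl (Or.inl ⟨hu.1, q1⟩)
    by_cases q2 : σ.hi (K ^ 2) u.2
    · exact Or.inl (Or.inr ⟨hu.1, q2⟩)
    have b := (hB0 u).mpr ⟨hu.1, q1, q2, hu.2.1⟩
    by_cases q3 : u ∈ B
    · exact Or.inr (Or.inr ⟨q3, hlab ▸ hu.2.2⟩)
    · exact Or.inr (Or.inl ⟨b, fun h => q3 ((hB u).mpr ⟨b, h⟩)⟩)
  · have : 6 / K = 2 / K + 2 / K + (1 / K + 1 / K) := by ring
    linarith

end Pool.Agent.Lib.MP_028aa5_nt.U
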