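import Pool.Agent.Lib.MP_028aa5_nt.U.St1

/-! The weight of the conflicts is small. -/

namespace Pool.Agent.Lib.MP_028aa5_nt.U

open Finset T
open scoped Classical

namespace ConfAJ

variable {T : Sys} (σ : Sm T)

/-- the label of a pair -/
def lab (v : σ.ι × σ.ι) : T.Λ × ℕ := (T.S (σ.y v.1), σ.p v.2)

/-- the conflicts -/
noncomputable def Cf (B : Finset (σ.ι × σ.ι)) : Finset ((σ.ι × σ.ι) × (σ.ι × σ.ι)) :=
  {i ∈ B ×ˢ B | lab σ i.2 = lab σ i.1 ∧ ¬T.Near (σ.tp i.1) (σ.tp i.2)}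

/-- the weight of a conflict -/
noncomputable def cw (B : Finset (σ.ι × σ.ι)) (i : (σ.ι × σ.ι) × (σ.ι × σ.ι)) : ℝ :=
  σ.pw i.1 * σ.pw i.2 / fm B σ.pw (lab σ) (lab σ i.1)

theorem mem_Cf {B : Finset (σ.ι × σ.ι)} {i : (σ.ι × σ.ι) × (σ.ι × σ.ι)} :
    i ∈ Cf σ B ↔ (i.1 ∈ B ∧ i.2 ∈ B) ∧ lab σ i.2 = lab σ i.1 ∧ ¬T.Near (σ.tp i.1) (σ.tp i.2) := by
  unfold Cf
  rw [mem_filter, mem_product]

theorem mem_s {u : σ.ι × σ.ι} (hu : u ∈ σ.prs) : u.1 ∈ σ.s ∧ u.2 ∈ σ.s := by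
  unfold Sm.prs at hu
  rw [mem_filter, mem_product] at hu
  exact hu.1

theorem symm {C0 : ℝ} (hT : T.Ok C0) (B : Finset (σ.ι × σ.ι)) (f g : T.Ω → ℝ) :
    ∑ i ∈ Cf σ B, cw σ B i * (f (σ.y i.1.2) * g (σ.y i.2.2)) =
      ∑ i ∈ Cf σ B, cw σ B i * (g (σ.y i.1.2) * f (σ.y i.2.2)) := by
  have hm : ∀ i ∈ Cf σ B, i.swap ∈ Cf σ B := by
    intro i hi
    rw [mem_Cf] at hi ⊢
    exact ⟨⟨hi.1.2, hi.1.1⟩, hi.2.1.symm, fun h => hi.2.2 (hT.symm _ _ h)⟩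
  refine sum_nbij' Prod.swap Prod.swap hm hm (fun _ _ => rfl) (fun _ _ => rfl) ?_
  intro i hi
  rw [mem_Cf] at hi
  unfold cw
  simp only [Prod.fst_swap, Prod.snd_swap]
  rw [hi.2.1]
  ring

theorem step (hE : EntSt) (hS : SmSt) (hL : LightSt) {E0 : Finset (T.Ω × ℕ)} {j : ℕ} {Ml K : ℝ}
    (B : Finset (σ.ι × σ.ι)) (hne : T.PP.Nonempty) (hI : σ.Inv E0 j Ml) (hK : 1 ≤ K)
    (hB : B ⊆ σ.prs)
    (hq : ∀ u ∈ B, ¬σ.hi (K ^ 2) u.1 ∧ ¬σ.hi (K ^ 2) u.2 ∧ σ.p u.1 ≠ σ.p u.2 ∧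
      fm σ.s σ.a (fun x => T.S (σ.y x)) (T.S (σ.y u.1)) ≤ K * #T.PP *
        fm B σ.pw (lab σ) (lab σ u)) (z : T.Ω) (l : ℕ × ℕ × ℕ) :
    ∑ i ∈ Cf σ B with σ.y i.1.2 = z ∧ (σ.p i.1.1, σ.p i.1.2, σ.p i.2.1) = l, cw σ B i ≤
      K ^ 9 / #T.PP ^ 3 * σ.mU z := by
  have hpp : (0 : ℝ) < #T.PP := by exact_mod_cast hne.card_pos
  have hK0 : 0 < K := by linarith
  have hpw : ∀ u ∈ B, 0 < σ.pw u := fun u hu => hS.pw_pos T σ hI.pos u (hB hu)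
  have hn : ∀ u ∈ B, 0 < fm B σ.pw (lab σ) (lab σ u) := fun u hu =>
    (hpw u hu).trans_le (hE.self B σ.pw (lab σ) (fun x hx => (hpw x hx).le) u hu)
  set B1 : Finset (σ.ι × σ.ι) := {u ∈ B | σ.y u.2 = z ∧ σ.p u.1 = l.1 ∧ σ.p u.2 = l.2.1} with hB1
  set B2 : σ.ι × σ.ι → Finset (σ.ι × σ.ι) :=
    fun u => {v ∈ B | lab σ v = lab σ u ∧ σ.p v.1 = l.2.2} with hB2
  have hsub : ({i ∈ Cf σ B | σ.y i.1.2 = z ∧ (σ.p i.1.1, σ.p i.1.2, σ.p i.2.1) = l} :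
      Finset ((σ.ι × σ.ι) × (σ.ι × σ.ι))) ⊆ {i ∈ B1 ×ˢ B | i.2 ∈ B2 i.1} := by
    intro i hi
    rw [mem_filter, mem_Cf] at hi
    obtain ⟨⟨⟨h1, h2⟩, h3, _⟩, h4, h5⟩ := hi
    subst h5
    rw [mem_filter, mem_product, hB1, hB2, mem_filter, mem_filter]
    exact ⟨⟨⟨h1, h4, rfl, rfl⟩, h2⟩, h2, h3, rfl⟩
  have hin : ∀ u ∈ B1, ∑ v ∈ B2 u, cw σ B (u, v) ≤ K ^ 5 / #T.PP * σ.pw u := by
    intro u hu
    have huB : u ∈ B := (mem_filter.1 hu).1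
    have h1 : ∑ v ∈ B2 u, σ.pw v ≤
        K ^ 4 / #T.PP ^ 2 * fm σ.s σ.a (fun x => T.S (σ.y x)) (T.S (σ.y u.1)) := by
      refine hL.st T σ E0 j Ml K _ l.2.2 (σ.p u.2) (B2 u) hne hI
        ((filter_subset _ _).trans hB) ?_
      intro v hv
      rw [hB2, mem_filter] at hv
      obtain ⟨hvB, hl, hp⟩ := hv
      exact ⟨(hq v hvB).1, (hq v hvB).2.1, congrArg Prod.fst hl, hp, congrArg Prod.snd hl⟩
    have h2 : ∑ v ∈ B2 u, σ.pw v ≤ K ^ 5 / #T.PP * fm B σ.pw (lab σ) (lab σ u) := by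
      refine h1.trans ((mul_le_mul_of_nonneg_left (hq u huB).2.2.2 (by positivity)).trans_eq ?_)
      field_simp
    have h3 : ∑ v ∈ B2 u, cw σ B (u, v) =
        σ.pw u * (∑ v ∈ B2 u, σ.pw v) / fm B σ.pw (lab σ) (lab σ u) := by
      rw [mul_sum, sum_div]
      rfl
    rw [h3, div_le_iff₀ (hn u huB)]
    calc σ.pw u * ∑ v ∈ B2 u, σ.pw v ≤ σ.pw u * (K ^ 5 / #T.PP * fm B σ.pw (lab σ) (lab σ u)) :=
          mul_le_mul_of_nonneg_left h2 (hpw u huB).le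
      _ = _ := by ring
  have hout : ∑ u ∈ B1, σ.pw u ≤ K ^ 4 / #T.PP ^ 2 * σ.mU z := by
    refine hL.pt T σ E0 j Ml K z l.1 l.2.1 B1 hne hI ((filter_subset _ _).trans hB) ?_
    intro u hu
    rw [hB1, mem_filter] at hu
    exact ⟨(hq u hu.1).1, (hq u hu.1).2.1, hu.2⟩
  calc _ ≤ ∑ i ∈ B1 ×ˢ B with i.2 ∈ B2 i.1, cw σ B i := by
        refine sum_le_sum_of_subset_of_nonneg hsub ?_
        intro i hi _
        rw [mem_filter, mem_product] at hi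
        have h1 : i.1 ∈ B := (mem_filter.1 hi.1.1).1
        exact div_nonneg (mul_pos (hpw _ h1) (hpw _ hi.1.2)).le (hn _ h1).le
    _ = ∑ u ∈ B1, ∑ v ∈ B2 u, cw σ B (u, v) := by
        rw [sum_filter, sum_product]
        refine sum_congr rfl fun u _ => ?_
        rw [← sum_filter]
        refine sum_congr ?_ fun _ _ => rfl
        ext v
        rw [mem_filter]
        exact ⟨fun h => h.2, fun h => ⟨(mem_filter.1 h).1, h⟩⟩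
    _ ≤ ∑ u ∈ B1, K ^ 5 / #T.PP * σ.pw u := sum_le_sum hin
    _ ≤ K ^ 5 / #T.PP * (K ^ 4 / #T.PP ^ 2 * σ.mU z) := by
        rw [← mul_sum]
        exact mul_le_mul_of_nonneg_left hout (by positivity)
    _ = _ := by field_simp

end ConfAJ

open ConfAJ in
theorem st_ConfA (hE : EntSt) (hS : SmSt) (hC : ChainSt) (hL : LightSt) : ConfASt := by
  intro T C0 σ E0 j a Ml Mb K Nl B hT hI hM hK hF hN hθ hB hq
  have hpp : (0 : ℝ) < #T.PP := by exact_mod_cast hT.ne.card_pos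
  have hK0 : 0 < K := by linarith
  have hpw : ∀ u ∈ B, 0 < σ.pw u := fun u hu => hS.pw_pos T σ hI.pos u (hB hu)
  have hcw : ∀ i ∈ Cf σ B, 0 ≤ cw σ B i := by
    intro i hi
    rw [mem_Cf] at hi
    exact div_nonneg (mul_pos (hpw _ hi.1.1) (hpw _ hi.1.2)).le
      (hE.nonneg B σ.pw (lab σ) _ fun x hx => (hpw x hx).le)
  have hA : ∀ z ∈ σ.s.image σ.y, T.V j z := by
    intro z hz
    obtain ⟨x, hx, rfl⟩ := mem_image.1 hz
    exact hI.val x hx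
  have key := hC T.Ω (ℕ × ℕ × ℕ) _ (σ.s.image σ.y) σ.mU (Cf σ B) (cw σ B) (fun i => σ.y i.1.2)
    (fun i => σ.y i.2.2) (fun i => (σ.p i.1.1, σ.p i.1.2, σ.p i.2.1)) (T.Rel (σ.s.image σ.y))
    (K ^ 9 / #T.PP ^ 3) Nl a
    (by
      intro z hz
      obtain ⟨x, hx, rfl⟩ := mem_image.1 hz
      exact (hS.pos T σ hI.pos x hx).1.trans_le (hS.pos T σ hI.pos x hx).2.1)
    ((hE.tot σ.s σ.a σ.y _ fun x hx => (hI.pos x hx).le).trans hI.tot)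
    (by
      intro i hi
      refine ⟨hcw i hi, ?_⟩
      rw [mem_Cf] at hi
      obtain ⟨⟨h1, h2⟩, h3, h4⟩ := hi
      have m1 := mem_s σ (hB h1)
      have m2 := mem_s σ (hB h2)
      have t1 := hS.tp T C0 σ E0 j Ml hT hI _ (hB h1) (hq _ h1).2.2.1
      have t2 := hS.tp T C0 σ E0 j Ml hT hI _ (hB h2) (hq _ h2).2.2.1
      have e1 : T.S (σ.y i.2.1) = T.S (σ.y i.1.1) := congrArg Prod.fst h3
      have e2 : σ.p i.2.2 = σ.p i.1.2 := congrArg Prod.snd h3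
      refine ⟨mem_image_of_mem _ m1.2, mem_image_of_mem _ m2.2, mem_image_of_mem _ m1.2,
        mem_image_of_mem _ m2.2, hI.pr _ m1.1, hI.pr _ m1.2, hI.pr _ m2.1, σ.tp i.1, σ.tp i.2,
        t1.2.1, t2.2.1, ?_, h4⟩
      show T.S (T.ch (σ.p i.1.2) (σ.tp i.1)) = T.S (T.ch (σ.p i.1.2) (σ.tp i.2))
      rw [t1.1, ← e2, t2.1, e1])
    (symm σ hT B) (by positivity) hN
    (by
      intro z _ l
      refine le_trans (le_of_eq ?_) (step σ hE hS hL B hT.ne hI hK hB hq z l)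
      refine sum_congr ?_ fun _ _ => rfl
      ext i
      simp only [mem_filter])
    (fun z _ L hl => hF _ hA hM z L hl)
  have hs0 : 0 ≤ ∑ i ∈ Cf σ B, cw σ B i := sum_nonneg hcw
  have h1 : (K * ∑ i ∈ Cf σ B, cw σ B i) ^ 2 ^ a ≤ 1 := by
    refine le_trans ?_ hθ
    have : K ^ 10 / (#T.PP : ℝ) ^ 3 = K * (K ^ 9 / #T.PP ^ 3) := by ring
    rw [this, mul_pow, mul_pow, mul_assoc]
    exact mul_le_mul_of_nonneg_left key (by positivity)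
  have h2 : K * ∑ i ∈ Cf σ B, cw σ B i ≤ 1 :=
    (pow_le_one_iff_of_nonneg (by positivity) (by positivity)).1 h1
  have h3 : ∑ i ∈ Cf σ B, cw σ B i ≤ 1 / K := by
    rw [le_div_iff₀ hK0, mul_comm]
    exact h2
  refine le_trans (le_of_eq ?_) h3
  unfold Cf
  rw [sum_filter, sum_product]
  refine sum_congr rfl fun u _ => ?_
  rw [sum_filter]
  refine sum_congr rfl fun v _ => ?_
  exact if_congr Iff.rfl rfl rfl

end Pool.Agent.Lib.MP_028aa5_nt.U
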