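import Pool.Agent.Lib.MP_028aa5_nt.U.St4
import Pool.Agent.Lib.MP_028aa5_nt.T.CoreA
import Pool.Agent.Lib.MP_028aa5_nt.T.SparseX

/-! From the top of the tower to one component; the large spectrum is sparse. -/

namespace Pool.Agent.Lib.MP_028aa5_nt.U

open Finset T
open scoped Classical

theorem st_CoreA2 (hB : BasSt) (hN : NSt) (hD : DenSt) (hR : Reg2St) (hL : LevX2St)
    (hBl : BlockSt) : CoreA2St := by
  intro k ε1 ρ2 c hk h1 h2 hc
  have k1 : (1 : ℝ) ≤ k := by exact_mod_cast hk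
  obtain ⟨a, a0, a1, a2⟩ : ∃ a : ℝ, 0 < a ∧ a ≤ ε1 ∧ a ≤ 1 / 2 :=
    ⟨min ε1 (1 / 2), by positivity, min_le_left _ _, min_le_right _ _⟩
  obtain ⟨tm, t1, t2⟩ : ∃ tm : ℕ, 1 ≤ tm ∧ 1 / (tm : ℝ) ≤ a / 8 := by
    have t0 : 0 < 8 / a := by positivity
    exact ⟨⌈8 / a⌉₊, Nat.ceil_pos.2 t0,
      (one_div_le_one_div_of_le t0 (Nat.le_ceil _)).trans_eq (one_div_div _ _)⟩
  obtain ⟨L, l1, l2⟩ : ∃ L : ℕ, 1 ≤ L ∧ (k : ℝ) / L ≤ a / 4 := by
    have t0 : 0 < 4 * k / a := by positivity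
    refine ⟨⌈4 * k / a⌉₊, Nat.ceil_pos.2 t0,
      (div_le_div_of_nonneg_left (by positivity) t0 (Nat.le_ceil _)).trans_eq ?_⟩
    field_simp
  have l0 : (0 : ℝ) < L := by exact_mod_cast l1
  obtain ⟨ρ, r0, r1, r2⟩ : ∃ ρ : ℝ, 0 < ρ ∧ ρ ≤ 1 ∧ k * L * (10 ^ k * ρ) ≤ ρ2 := by
    refine ⟨min 1 (ρ2 / (k * L * 10 ^ k)), by positivity, min_le_left _ _, ?_⟩
    rw [← mul_assoc, ← le_div_iff₀' (by positivity)]
    exact min_le_right _ _
  obtain ⟨c1, A, c10, A1, hL⟩ := hL k c hk hc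
  refine ⟨a / 8, c1, max A 4, by positivity, c10, le_max_of_le_left A1, fun C D hD0 => ?_⟩
  obtain ⟨X2, H2⟩ := hL tm C D t1 hD0
  obtain ⟨K, K1, K2, K3, K4⟩ : ∃ K : ℝ, 64 * c / a ^ 2 ≤ K ∧ 4 ≤ K ∧ 4 * 18 ^ k / ρ ≤ K ∧
      9 ^ k + ρ2 ≤ K :=
    ⟨max (max (64 * c / a ^ 2) 4) (max (4 * 18 ^ k / ρ) (9 ^ k + ρ2)), by simp, by simp, by simp,
      by simp⟩
  obtain ⟨X3, H4⟩ := hR.base C D K hD0
  refine ⟨max X2 X3, fun X hX π N E φ Λ cls Y R Jm hπ hNf hr hE hv hy i1 c2 c3 c4 c6 c7 => ?_⟩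
  simp only [ge_iff_le, max_le_iff] at hX
  obtain ⟨b1, b2, b3, b4, -, -, b6, -, b7⟩ := H4 X hX.2 π _ (le_max_of_le_left A1) hr
  have ok := hr.ok
  have ℓ1 : 1 ≤ Real.log X := by linarith
  obtain ⟨E2, γ, τ, j1, j2, j3, j4⟩ := H2 X hX.1 π N E φ Λ cls ρ Y (a / 8) R hπ hNf
    (hR.mono π X _ A C D ℓ1 (le_max_left _ _) hr) hE r0.le r1
    (fun e he => hN.cl_mono _ _ _ _ _ _ _ r0.le (hv e he)) hy (by linarith) i1 c2 c3 c4 c6
  subst hπ
  have x1 : 1 ≤ X := by linarith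
  have x0 : 0 < X := by linarith
  have κ0 : 0 < π.κ := lt_of_lt_of_le (by positivity) hr.κlo
  have s1 : √(c * Real.log X / #π.PP) ≤ a / 8 := by
    have p0 : (0 : ℝ) < #π.PP := by exact_mod_cast ok.ne.card_pos
    have s3 : Real.log X * Real.log X ≤ #π.PP :=
      calc Real.log X * Real.log X = (Real.log X ^ (4 : ℝ)) ^ (1 / 2 : ℝ) := by
            rw [← Real.rpow_mul (by linarith), show (4 : ℝ) * (1 / 2) = (2 : ℕ) by norm_num,
              Real.rpow_natCast, pow_two]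
        _ ≤ π.P ^ (1 / 2 : ℝ) := Real.rpow_le_rpow (by positivity)
            ((Real.rpow_le_rpow_of_exponent_le ℓ1 (le_max_right A 4)).trans hr.lo) (by norm_num)
        _ ≤ π.P ^ (9 / 10 : ℝ) := Real.rpow_le_rpow_of_exponent_le (by linarith) (by norm_num)
        _ ≤ _ := b6
    have s2 := (mul_le_mul_of_nonneg_right (K1.trans b2) (zero_le_one.trans ℓ1)).trans s3
    rw [div_mul_eq_mul_div, div_le_iff₀ (by positivity)] at s2
    rw [Real.sqrt_le_left (by positivity), div_le_iff₀ p0]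
    linarith
  have s2 : 1 - a ≤ 1 - 2 * (a / 8) - 2 / tm - 2 * √(c * Real.log X / #π.PP) - π.k / L := by
    rw [div_eq_mul_one_div 2]
    linarith
  have x7 : 1 ≤ X ^ (7 * π.k) := one_le_pow₀ x1
  have u1 : π.κ0 / π.κ * X ^ (7 * π.k) * X ≤ 1 := by
    have u2 : π.κ0 * X ^ (7 * π.k + 4) = 1 := by
      rw [hr.κ0, ← Real.rpow_natCast, ← Real.rpow_add x0]
      simp
    rw [div_mul_eq_mul_div, div_mul_eq_mul_div, div_le_one κ0]
    refine le_of_mul_le_mul_right ?_ (pow_pos x0 3)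
    rw [pow_add] at u2
    have u4 := mul_le_mul ((div_le_iff₀ x0).1 hr.κlo) (one_le_pow₀ x1 (n := 2)) zero_le_one
      (by positivity)
    linarith
  have u0 : 0 ≤ π.κ0 / π.κ := div_nonneg ok.κ0.le κ0.le
  obtain ⟨q, hq, γ0, t, vU, vL, Gd, m1, m2, m3⟩ := hBl π N E2 γ τ (X ^ c) (X ^ (7 * π.k)) ρ _
    (c * Real.log X) L Jm ok (hB.mono π N E E2 hE j1) r0 j3 j4 l1
    (by
      have := mul_le_mul_of_nonneg_right (mul_le_mul K2 (K2.trans b2) (by norm_num) (by linarith))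
        κ0.le
      linarith [hB.κ1_le π ok])
    (by
      rw [Real.log_rpow x0]
      exact le_mul_of_one_le_right (mul_nonneg hc.le (by linarith)) (by linarith))
    (mul_pos hc (by linarith)) (by linarith)
    (by
      rw [mul_div_assoc]
      generalize π.κ0 / π.κ = u at u0 u1
      have v1 : 4 * u ≤ 1 := by
        nlinarith [mul_le_mul_of_nonneg_left (mul_le_mul x7 (K2.trans b1) (by norm_num)
          (by linarith)) u0]
      refine (mul_le_mul_of_nonneg_right ((CoreA.pw_le (by linarith) v1 _).trans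
        (mul_le_mul_of_nonneg_left (sub_le_self _ zero_le_one) (by linarith)))
        (by positivity)).trans (le_of_mul_le_mul_right ?_ x0)
      have v2 := (div_le_iff₀ r0).1 (K3.trans b1)
      have v3 := mul_le_mul_of_nonneg_left u1 (show (0 : ℝ) ≤ 4 * 18 ^ π.k by positivity)
      rw [show (18 : ℝ) = 2 * 9 by norm_num, mul_pow] at v2 v3
      linarith) c7
  refine ⟨E2, γ, τ, q, hq, γ0, t, vU, vL, Gd, j1,
    fun x => j2 x ▸ hD.refl _ _, m1, m2.trans ?_, m3.den, m3.nU, m3.nL, m3.pos,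
    le_trans (mul_le_mul_of_nonneg_right (by linarith) m3.pos.le) m3.ray, fun g hg => ?_, m3.sU,
    fun j b hb => ?_⟩
  · rw [pow_succ]
    nlinarith [mul_le_mul_of_nonneg_left (K4.trans b1) (zero_le_one.trans x7),
      mul_le_mul_of_nonneg_right x7 h2.le]
  · obtain ⟨g1, e, g2, g3, g4, g5, g6⟩ := m3.gd g hg
    exact ⟨g1, e, g2, g3, g4, g5, g6.trans r2⟩
  · obtain ⟨e, g2, g3, g4, g5⟩ := m3.sL j b hb
    exact ⟨e, g2, g3, g4, g5.trans r2⟩

theorem st_SparseX2 (hR : Reg2St) (hS : SparseSt) : SparseX2St := by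
  intro k c hk hc
  obtain ⟨A0, A1, h3⟩ := hR.fact (7 * k + 4) (c / 8) (by positivity) (by positivity)
  refine ⟨A0, A1, fun C D hD => ?_⟩
  obtain ⟨K, K1, K2⟩ : ∃ K : ℝ, 72 * (7 * k + 4) ≤ K ∧ 24 / c ≤ K :=
    ⟨max _ _, le_max_left _ _, le_max_right _ _⟩
  obtain ⟨X1, h1⟩ := hR.base C D K hD
  obtain ⟨X3, h3⟩ := h3 C D (7 * k + 4) hD (by positivity)
  refine ⟨max X1 X3, fun X hX π N0 q _ _ pk reg n8 n9 hq => ?_⟩
  obtain ⟨b1, b2, b3, b4, -, b6, -⟩ := h1 X (le_of_max_le_left hX) π _ A1 reg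
  replace h3 := h3 X (le_of_max_le_right hX) π reg
  have hκ := reg.κ0
  have hA : (11 : ℝ) ≤ 7 * k + 4 := by
    have : (1 : ℝ) ≤ k := by exact_mod_cast hk
    linarith
  rw [pk] at hκ
  generalize (7 * k + 4 : ℝ) = A at *
  have X0 : 0 < X := by linarith
  have hP := reg.ok.P
  have hm : (0 : ℝ) < #π.PP := by exact_mod_cast reg.ok.ne.card_pos
  rw [Real.rpow_def_of_pos X0, mul_neg, mul_comm, Real.exp_neg] at hκ
  have hs : (Real.log X ^ (1 / 2 : ℝ)) ^ 2 = Real.log X := by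
    rw [← Real.rpow_natCast, ← Real.rpow_mul (by linarith)]
    norm_num
  have hs0 : 0 ≤ Real.log X ^ (1 / 2 : ℝ) := Real.rpow_nonneg (by linarith) _
  obtain ⟨n, n1, n2, n3, n4⟩ := SparseXJ.len (A := A) (by linarith) (K1.trans b2) hs hs0 hP
  replace h3 := (h3 n n1).1
  generalize Real.log X ^ (1 / 2 : ℝ) = s at *
  have h2 : Real.exp s * Real.exp s * Real.exp s ≤ X ^ (c / 8) := by
    rw [← Real.exp_add, ← Real.exp_add, Real.rpow_def_of_pos X0, Real.exp_le_exp, ← hs]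
    have k1 : K ≤ s := (le_mul_of_one_le_right (by linarith) (by linarith)).trans b6
    have k2 := (div_le_iff₀ hc).1 (K2.trans k1)
    nlinarith [mul_le_mul_of_nonneg_left k2 hs0]
  have e0 := Real.exp_pos (A * Real.log X)
  have h4 := hS π N0 q n reg.ok n8 (by
    rw [hκ, mul_right_comm, ← div_eq_mul_inv, div_lt_one e0]
    refine lt_of_lt_of_le ?_ n3
    rw [mul_comm]
    exact mul_lt_mul_of_pos_left (by linarith) (by positivity))
  have h5 : (N0 : ℝ) ≤ 9 * ((2 * π.P) ^ (n + 1) * Real.exp s) := by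
    rw [hκ, ← div_eq_mul_inv, div_le_iff₀ e0] at n9
    linarith
  have h6 : 18 * π.P ≤ Real.exp s := by
    have l0 : 0 ≤ Real.log π.P := Real.log_nonneg (by linarith)
    calc 18 * π.P ≤ π.P ^ 2 := by nlinarith
      _ = Real.exp (2 * Real.log π.P) := by
        rw [two_mul, Real.exp_add, Real.exp_log (by linarith), pow_two]
      _ ≤ _ := Real.exp_le_exp.2 (by nlinarith)
  have h7 : (n.factorial : ℝ) ≤ (n + 1) ^ n := by
    exact_mod_cast n.factorial_le_pow.trans (Nat.pow_le_pow_left n.le_succ n)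
  have h8 : (#{ξ | 1 / 2 ≤ ‖mul π N0 q ξ‖} : ℝ) ≤ X ^ (c / 4) * X ^ (c / 4) :=
    calc _ ≤ _ := h4
      _ ≤ 4 ^ n * (9 * ((2 * π.P) ^ (n + 1) * Real.exp s)) * X ^ (c / 4) * Real.exp s *
            (n + 1) ^ n / #π.PP ^ n := by gcongr
      _ = 18 * π.P * Real.exp s * Real.exp s * (8 * (n + 1) * π.P / #π.PP) ^ n * X ^ (c / 4) := by
          rw [div_pow, show (8 : ℝ) * (n + 1) * π.P = 4 * (2 * π.P) * (n + 1) by ring,
            mul_pow (4 * (2 * π.P)), mul_pow 4, pow_succ]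
          generalize (2 * π.P) ^ n = v
          generalize ((n : ℝ) + 1) ^ n = w
          ring
      _ ≤ Real.exp s * Real.exp s * Real.exp s * (A * (n + 1) * π.P / #π.PP) ^ n * X ^ (c / 4) := by
          gcongr
          linarith
      _ ≤ X ^ (c / 8) * X ^ (c / 8) * X ^ (c / 4) := by gcongr
      _ = _ := by
          rw [← Real.rpow_add X0]
          congr 2
          ring
  calc (#(spec π N0 q) : ℝ) ≤ #{ξ | 1 / 2 ≤ ‖mul π N0 q ξ‖} * #{ξ | 1 / 2 ≤ ‖mul π N0 q ξ‖} := by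
        exact_mod_cast card_image₂_le _ _ _
    _ ≤ X ^ (c / 4) * X ^ (c / 4) * (X ^ (c / 4) * X ^ (c / 4)) := by gcongr
    _ = _ := by
        rw [← Real.rpow_add X0, ← Real.rpow_add X0]
        congr 1
        ring

end Pool.Agent.Lib.MP_028aa5_nt.U
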