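import Pool.Agent.Lib.MP_028aa5_nt.U.St1

/-! Entropy toolbox. -/

namespace Pool.Agent.Lib.MP_028aa5_nt.U

open Finset T
open scoped Classical

namespace EntJ

variable {ι β γ δ : Type}

theorem fm_ite (s : Finset ι) (a : ι → ℝ) (f : ι → β) (b : β) :
    fm s a f b = ∑ x ∈ s, if f x = b then a x else 0 := by
  unfold fm
  rw [sum_filter]

theorem nonneg (s : Finset ι) (a : ι → ℝ) (f : ι → β) (b : β) (h : ∀ x ∈ s, 0 ≤ a x) :
    0 ≤ fm s a f b := sum_nonneg fun x hx => h x (mem_filter.1 hx).1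

theorem self (s : Finset ι) (a : ι → ℝ) (f : ι → β) (h : ∀ x ∈ s, 0 ≤ a x) (x : ι) (hx : x ∈ s) :
    a x ≤ fm s a f (f x) :=
  single_le_sum (f := a) (fun y hy => h y (mem_filter.1 hy).1) (mem_filter.2 ⟨hx, rfl⟩)

theorem pos (s : Finset ι) (a : ι → ℝ) (f : ι → β) (h : ∀ x ∈ s, 0 < a x) (x : ι) (hx : x ∈ s) :
    0 < fm s a f (f x) := (h x hx).trans_le (self s a f (fun y hy => (h y hy).le) x hx)

theorem mono (s s' : Finset ι) (a : ι → ℝ) (f : ι → β) (b : β) (hs : s' ⊆ s)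
    (h : ∀ x ∈ s, 0 ≤ a x) : fm s' a f b ≤ fm s a f b :=
  sum_le_sum_of_subset_of_nonneg (filter_subset_filter _ hs) fun x hx _ => h x (mem_filter.1 hx).1

theorem ref (s : Finset ι) (a : ι → ℝ) (f : ι → β) (g : ι → γ) (b : β) (b' : γ)
    (h : ∀ x ∈ s, 0 ≤ a x) (h2 : ∀ x ∈ s, f x = b → g x = b') : fm s a f b ≤ fm s a g b' :=
  sum_le_sum_of_subset_of_nonneg
    (fun x hx => mem_filter.2 ⟨(mem_filter.1 hx).1, h2 x (mem_filter.1 hx).1 (mem_filter.1 hx).2⟩)
    fun x hx _ => h x (mem_filter.1 hx).1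

theorem congr (s : Finset ι) (a : ι → ℝ) (f : ι → β) (g : ι → γ) (b : β) (b' : γ)
    (h : ∀ x ∈ s, f x = b ↔ g x = b') : fm s a f b = fm s a g b' := by
  unfold fm
  rw [filter_congr h]

theorem push (s : Finset ι) (a : ι → ℝ) (f : ι → β) (G : β → ℝ) :
    ∑ x ∈ s, a x * G (f x) = ∑ b ∈ s.image f, fm s a f b * G b := by
  rw [← sum_fiberwise_of_maps_to (s := s) (t := s.image f) (g := f)
    (fun x hx => mem_image_of_mem f hx)]
  refine sum_congr rfl fun b _ => ?_
  unfold fm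
  rw [sum_mul]
  refine sum_congr rfl fun x hx => ?_
  rw [(mem_filter.1 hx).2]

theorem val (s : Finset ι) (a : ι → ℝ) (f : ι → β) (G : β → ℝ) (h : ∀ x ∈ s, 0 < a x) :
    ∑ x ∈ s, a x * (G (f x) / fm s a f (f x)) = ∑ b ∈ s.image f, G b := by
  rw [push s a f fun b => G b / fm s a f b]
  refine sum_congr rfl fun b hb => ?_
  obtain ⟨x, hx, rfl⟩ := mem_image.1 hb
  have := pos s a f h x hx
  field_simp

theorem sum_fm (s : Finset ι) (a : ι → ℝ) (f : ι → β) (B : Finset β) :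
    ∑ b ∈ B, fm s a f b = ∑ x ∈ s, if f x ∈ B then a x else 0 := by
  simp only [fm_ite]
  rw [sum_comm]
  refine sum_congr rfl fun x _ => ?_
  rw [sum_ite_eq]

theorem tot (s : Finset ι) (a : ι → ℝ) (f : ι → β) (B : Finset β) (h : ∀ x ∈ s, 0 ≤ a x) :
    ∑ b ∈ B, fm s a f b ≤ ∑ x ∈ s, a x := by
  rw [sum_fm]
  refine sum_le_sum fun x hx => ?_
  split_ifs
  · exact le_rfl
  · exact h x hx

theorem fib (s : Finset ι) (a : ι → ℝ) (f : ι → β) (Γ : β → γ) (B : Finset β) (c : γ)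
    (h : ∀ x ∈ s, 0 ≤ a x) (hB : ∀ b ∈ B, Γ b = c) :
    ∑ b ∈ B, fm s a f b ≤ fm s a (fun x => Γ (f x)) c := by
  rw [sum_fm, fm_ite]
  refine sum_le_sum fun x hx => ?_
  by_cases h1 : f x ∈ B
  · rw [if_pos h1, if_pos (hB _ h1)]
  · rw [if_neg h1]
    split_ifs
    · exact h x hx
    · exact le_rfl

theorem marg (s : Finset ι) (a : ι → ℝ) (f : ι → β) (g : ι → γ) (B : Finset γ) (b : β)
    (h : ∀ x ∈ s, 0 ≤ a x) : ∑ t ∈ B, fm s a (fun x => (f x, g x)) (b, t) ≤ fm s a f b := by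
  have h1 := fib s a (fun x => (f x, g x)) Prod.fst (B.image fun t => (b, t)) b h (by
    intro u hu
    obtain ⟨t, _, rfl⟩ := mem_image.1 hu
    rfl)
  rw [sum_image (fun t _ t' _ ht => (Prod.ext_iff.1 ht).2)] at h1
  exact h1

theorem tail (c : ℝ) (s : Finset ι) (a : ι → ℝ) (f : ι → β) (g : ι → γ) (hc : 0 < c)
    (h : ∀ x ∈ s, 0 < a x) (hfg : ∀ x ∈ s, ∀ x' ∈ s, f x = f x' → g x = g x')
    (hcard : ∀ b, (#({x ∈ s | g x = b}.image f) : ℝ) ≤ c) :
    ∑ x ∈ s, a x * (fm s a g (g x) / (c * fm s a f (f x))) ≤ ∑ x ∈ s, a x := by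
  have h0 : ∀ x ∈ s, 0 ≤ a x := fun x hx => (h x hx).le
  rw [← sum_fiberwise_of_maps_to (s := s) (t := s.image g) (g := g)
    (fun x hx => mem_image_of_mem g hx)]
  refine le_trans (sum_le_sum fun b _ => ?_) (tot s a g (s.image g) h0)
  have e1 : ∑ x ∈ s with g x = b, a x * (fm s a g (g x) / (c * fm s a f (f x))) =
      ∑ x ∈ s.filter (fun x => g x = b), a x * ((fun _ => fm s a g b / c) (f x) /
        fm (s.filter fun x => g x = b) a f (f x)) := by
    refine sum_congr rfl fun x hx => ?_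
    obtain ⟨hx1, hx2⟩ := mem_filter.1 hx
    have e2 : fm (s.filter fun x => g x = b) a f (f x) = fm s a f (f x) := by
      unfold fm
      rw [filter_filter]
      refine sum_congr (filter_congr fun y hy => ⟨fun hh => hh.2, fun hh =>
        ⟨(hfg y hy x hx1 hh).trans hx2, hh⟩⟩) fun _ _ => rfl
    rw [e2, hx2, div_div]
  rw [e1, val _ a f (fun _ => fm s a g b / c) fun x hx => h x (mem_filter.1 hx).1, sum_const,
    nsmul_eq_mul]
  have hb := nonneg s a g b h0
  calc (#({x ∈ s | g x = b}.image f) : ℝ) * (fm s a g b / c) ≤ c * (fm s a g b / c) :=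
        mul_le_mul_of_nonneg_right (hcard b) (div_nonneg hb hc.le)
    _ = fm s a g b := by field_simp

theorem neg_log_le (v L : ℝ) (hv : 0 < v) : -Real.log v ≤ L + Real.exp (-L) / v - 1 := by
  have h1 := Real.log_le_sub_one_of_pos (div_pos (Real.exp_pos (-L)) hv)
  rw [Real.log_div (Real.exp_pos _).ne' hv.ne', Real.log_exp] at h1
  linarith

theorem kill (c : ℝ) (s : Finset ι) (a : ι → ℝ) (f : ι → β) (g : ι → γ) (hc : 0 < c)
    (h : ∀ x ∈ s, 0 < a x) (hfg : ∀ x ∈ s, ∀ x' ∈ s, f x = f x' → g x = g x')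
    (hcard : ∀ b, (#({x ∈ s | g x = b}.image f) : ℝ) ≤ c) (b : ι → ℝ) (L : ℝ)
    (hb : ∀ x ∈ s, 0 ≤ b x ∧ b x ≤ a x) :
    -∑ x ∈ s, b x * Real.log (c * fm s a f (f x) / fm s a g (g x)) ≤
      L * ∑ x ∈ s, b x + Real.exp (-L) * ∑ x ∈ s, a x := by
  have ht := tail c s a f g hc h hfg hcard
  have h1 : -∑ x ∈ s, b x * Real.log (c * fm s a f (f x) / fm s a g (g x)) ≤
      ∑ x ∈ s, (L * b x + Real.exp (-L) * (a x * (fm s a g (g x) / (c * fm s a f (f x))))) := by
    rw [← sum_neg_distrib]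
    refine sum_le_sum fun x hx => ?_
    have p1 := pos s a f h x hx
    have p2 := pos s a g h x hx
    have hv : 0 < c * fm s a f (f x) / fm s a g (g x) := by positivity
    have h2 := neg_log_le _ L hv
    have e : Real.exp (-L) / (c * fm s a f (f x) / fm s a g (g x)) =
        Real.exp (-L) * (fm s a g (g x) / (c * fm s a f (f x))) := by
      field_simp
    rw [e] at h2
    have hw : 0 ≤ Real.exp (-L) * (fm s a g (g x) / (c * fm s a f (f x))) := by positivity
    obtain ⟨b0, b1⟩ := hb x hx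
    have h3 := mul_le_mul_of_nonneg_left h2 b0
    have h4 := mul_le_mul_of_nonneg_right b1 hw
    nlinarith
  rw [sum_add_distrib, ← mul_sum, ← mul_sum] at h1
  have := mul_le_mul_of_nonneg_left ht (Real.exp_pos (-L)).le
  linarith

theorem dv_nonneg (c : ℝ) (s : Finset ι) (a : ι → ℝ) (f : ι → β) (g : ι → γ) (hc : 0 < c)
    (h : ∀ x ∈ s, 0 < a x) (hfg : ∀ x ∈ s, ∀ x' ∈ s, f x = f x' → g x = g x')
    (hcard : ∀ b, (#({x ∈ s | g x = b}.image f) : ℝ) ≤ c) : 0 ≤ Dv c s a f g := by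
  have ht := tail c s a f g hc h hfg hcard
  have h1 : ∑ x ∈ s, (a x - a x * (fm s a g (g x) / (c * fm s a f (f x)))) ≤ Dv c s a f g := by
    refine sum_le_sum fun x hx => ?_
    have p1 := pos s a f h x hx
    have p2 := pos s a g h x hx
    have hv : 0 < c * fm s a f (f x) / fm s a g (g x) := by positivity
    have h2 := neg_log_le _ 0 hv
    have e : Real.exp (-0) / (c * fm s a f (f x) / fm s a g (g x)) =
        fm s a g (g x) / (c * fm s a f (f x)) := by
      rw [neg_zero, Real.exp_zero]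
      field_simp
    rw [e] at h2
    have h3 := mul_le_mul_of_nonneg_left h2 (h x hx).le
    nlinarith
  rw [sum_sub_distrib] at h1
  linarith

theorem res (c : ℝ) (s s' : Finset ι) (a : ι → ℝ) (f : ι → β) (g : ι → γ) (hc : 0 < c)
    (hs : s' ⊆ s) (h : ∀ x ∈ s, 0 < a x) : Dv c s' a f g ≤
      ∑ x ∈ s', a x * Real.log (c * fm s a f (f x) / fm s a g (g x)) +
        (∑ x ∈ s, a x - ∑ x ∈ s', a x) := by
  have h0 : ∀ x ∈ s, 0 ≤ a x := fun x hx => (h x hx).le
  have h' : ∀ x ∈ s', 0 < a x := fun x hx => h x (hs hx)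
  have hv := val s' a g (fm s a g) h'
  have ht := tot s a g (s'.image g) h0
  have h1 : Dv c s' a f g ≤ ∑ x ∈ s', (a x * Real.log (c * fm s a f (f x) / fm s a g (g x)) +
      (a x * (fm s a g (g x) / fm s' a g (g x)) - a x)) := by
    refine sum_le_sum fun x hx => ?_
    have p1 := pos s a f h x (hs hx)
    have p2 := pos s a g h x (hs hx)
    have p3 := pos s' a f h' x hx
    have p4 := pos s' a g h' x hx
    have m1 := mono s s' a f (f x) hs h0
    have l1 : Real.log (c * fm s' a f (f x) / fm s' a g (g x)) ≤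
        Real.log (c * fm s a f (f x) / fm s a g (g x) * (fm s a g (g x) / fm s' a g (g x))) := by
      refine Real.log_le_log (by positivity) ?_
      have e : c * fm s a f (f x) / fm s a g (g x) * (fm s a g (g x) / fm s' a g (g x)) =
          c * fm s a f (f x) / fm s' a g (g x) := by field_simp
      rw [e]
      gcongr
    rw [Real.log_mul (by positivity) (by positivity)] at l1
    have l2 := Real.log_le_sub_one_of_pos (div_pos p2 p4)
    have h3 := mul_le_mul_of_nonneg_left (l1.trans (add_le_add le_rfl l2)) (h' x hx).le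
    nlinarith
  rw [sum_add_distrib, sum_sub_distrib, hv] at h1
  linarith

theorem gain (c : ℝ) (s s' : Finset ι) (a : ι → ℝ) (f : ι → β) (Γ : β → γ) (h : ι → δ)
    (hc : 0 < c) (ha : ∀ x ∈ s, 0 < a x) (hs : s' ⊆ s)
    (hsat : ∀ x ∈ s', ∀ x' ∈ s, f x' = f x → x' ∈ s') :
    ∑ x ∈ s', a x * Real.log (c * fm s a f (f x) / fm s a (fun x => Γ (f x)) (Γ (f x))) ≤
      ∑ x ∈ s', a x * Real.log (c * fm s a (fun x => (f x, h x)) (f x, h x) /
        fm s a (fun x => (Γ (f x), h x)) (Γ (f x), h x)) := by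
  have h0 : ∀ x ∈ s, 0 ≤ a x := fun x hx => (ha x hx).le
  have h' : ∀ x ∈ s', 0 < a x := fun x hx => ha x (hs hx)
  let G : β × δ → ℝ := fun u => fm s' a f u.1 * fm s a (fun x => (Γ (f x), h x)) (Γ u.1, u.2) /
    fm s a (fun x => Γ (f x)) (Γ u.1)
  have e1 : ∀ x ∈ s', fm s a f (f x) = fm s' a f (f x) := by
    intro x hx
    unfold fm
    refine sum_congr ?_ fun _ _ => rfl
    ext y
    simp only [mem_filter]
    exact ⟨fun hy => ⟨hsat x hx y hy.1 hy.2, hy.2⟩, fun hy => ⟨hs hy.1, hy.2⟩⟩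
  have e2 : ∀ x ∈ s', fm s a (fun x => (f x, h x)) (f x, h x) =
      fm s' a (fun x => (f x, h x)) (f x, h x) := by
    intro x hx
    unfold fm
    refine sum_congr ?_ fun _ _ => rfl
    ext y
    simp only [mem_filter]
    exact ⟨fun hy => ⟨hsat x hx y hy.1 (Prod.ext_iff.1 hy.2).1, hy.2⟩, fun hy => ⟨hs hy.1, hy.2⟩⟩
  have hv := val s' a (fun x => (f x, h x)) G h'
  have hG : ∀ u, 0 ≤ G u := fun u =>
    div_nonneg (mul_nonneg (nonneg _ _ _ _ fun x hx => (h' x hx).le) (nonneg _ _ _ _ h0))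
      (nonneg _ _ _ _ h0)
  have hsum : ∑ x ∈ s', a x * (G (f x, h x) / fm s' a (fun x => (f x, h x)) (f x, h x)) ≤
      ∑ x ∈ s', a x := by
    rw [hv]
    refine (sum_le_sum_of_subset_of_nonneg (t := s'.image f ×ˢ s'.image h) (fun u hu => ?_)
      fun u _ _ => hG u).trans ?_
    · simp only [mem_image] at hu
      obtain ⟨x, hx, rfl⟩ := hu
      exact mem_product.2 ⟨mem_image_of_mem f hx, mem_image_of_mem h hx⟩
    rw [sum_product]
    refine le_trans (sum_le_sum fun b hb => ?_) (tot s' a f (s'.image f) fun x hx => (h' x hx).le)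
    obtain ⟨x, hx, rfl⟩ := mem_image.1 hb
    have p1 : 0 < fm s a (fun x => Γ (f x)) (Γ (f x)) := pos s a (fun x => Γ (f x)) ha x (hs hx)
    have m1 := marg s a (fun x => Γ (f x)) h (s'.image h) (Γ (f x)) h0
    have n1 := nonneg s' a f (f x) fun x hx => (h' x hx).le
    simp only [G]
    rw [← sum_div, ← mul_sum, div_le_iff₀ p1]
    exact mul_le_mul_of_nonneg_left m1 n1
  have h1 : ∑ x ∈ s', a x * Real.log (c * fm s a f (f x) / fm s a (fun x => Γ (f x)) (Γ (f x))) ≤
      ∑ x ∈ s', (a x * Real.log (c * fm s a (fun x => (f x, h x)) (f x, h x) /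
        fm s a (fun x => (Γ (f x), h x)) (Γ (f x), h x)) +
        (a x * (G (f x, h x) / fm s' a (fun x => (f x, h x)) (f x, h x)) - a x)) := by
    refine sum_le_sum fun x hx => ?_
    have p1 : 0 < fm s a (fun x => Γ (f x)) (Γ (f x)) := pos s a (fun x => Γ (f x)) ha x (hs hx)
    have p2 : 0 < fm s a f (f x) := pos s a f ha x (hs hx)
    have p3 : 0 < fm s a (fun x => (f x, h x)) (f x, h x) :=
      pos s a (fun x => (f x, h x)) ha x (hs hx)
    have p4 : 0 < fm s a (fun x => (Γ (f x), h x)) (Γ (f x), h x) :=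
      pos s a (fun x => (Γ (f x), h x)) ha x (hs hx)
    have e3 : G (f x, h x) / fm s' a (fun x => (f x, h x)) (f x, h x) =
        fm s a f (f x) * fm s a (fun x => (Γ (f x), h x)) (Γ (f x), h x) /
          fm s a (fun x => Γ (f x)) (Γ (f x)) / fm s a (fun x => (f x, h x)) (f x, h x) := by
      simp only [G]
      rw [← e1 x hx, ← e2 x hx]
    rw [e3]
    set A := fm s a f (f x)
    set B := fm s a (fun x => Γ (f x)) (Γ (f x))
    set C := fm s a (fun x => (f x, h x)) (f x, h x)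
    set D := fm s a (fun x => (Γ (f x), h x)) (Γ (f x), h x)
    have e4 : c * A / B = c * C / D * (A * D / B / C) := by field_simp
    have l2 := Real.log_le_sub_one_of_pos (show 0 < A * D / B / C by positivity)
    rw [e4, Real.log_mul (by positivity) (by positivity)]
    have h3 := mul_le_mul_of_nonneg_left l2 (h' x hx).le
    nlinarith
  rw [sum_add_distrib, sum_sub_distrib] at h1
  linarith

end EntJ

theorem st_Ent : EntSt where
  nonneg := EntJ.nonneg
  self := EntJ.self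
  mono := EntJ.mono
  ref := EntJ.ref
  congr := EntJ.congr
  push := EntJ.push
  val := EntJ.val
  tot := EntJ.tot
  fib := EntJ.fib
  marg := EntJ.marg
  tail := EntJ.tail
  dv_nonneg := EntJ.dv_nonneg
  kill := EntJ.kill
  res := EntJ.res
  gain := EntJ.gain

end Pool.Agent.Lib.MP_028aa5_nt.U
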