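import Pool.Agent.Lib.MP_028aa5_nt.U.St1

/-! From the last sample of the tower to an exact graph. -/

namespace Pool.Agent.Lib.MP_028aa5_nt.U

open Finset T
open scoped Classical

namespace FinJ

/-- regrouping a sum over the values of a pair by its second component -/
theorem regroup {ι α ρ : Type} {d1 : DecidableEq α} {d2 : DecidableEq ρ} {d3 : DecidableEq (α × ρ)}
    {d4 : ∀ (R : ι → ρ) (r : ρ), DecidablePred fun x => R x = r}
    (s : Finset ι) (k : ι → α) (R : ι → ρ) (G : α × ρ → ℝ) :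
    ∑ r ∈ s.image R, ∑ u ∈ (@filter ι (fun x => R x = r) (d4 R r) s).image k, G (u, r) =
      ∑ b ∈ s.image (fun x => (k x, R x)), G b := by
  rw [← sum_fiberwise_of_maps_to (s := s.image fun x => (k x, R x)) (t := s.image R)
    (g := Prod.snd) (fun b hb => by
      obtain ⟨x, hx, rfl⟩ := mem_image.1 hb
      exact mem_image_of_mem R hx)]
  refine sum_congr rfl fun r _ => ?_
  refine sum_bij (fun u _ => (u, r)) ?_ ?_ ?_ ?_
  · intro u hu
    obtain ⟨x, hx, rfl⟩ := mem_image.1 hu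
    obtain ⟨hx1, hx2⟩ := mem_filter.1 hx
    exact mem_filter.2 ⟨mem_image.2 ⟨x, hx1, by rw [hx2]⟩, rfl⟩
  · intro u _ u' _ h
    exact (Prod.ext_iff.1 h).1
  · intro b hb
    obtain ⟨hb1, hb2⟩ := mem_filter.1 hb
    obtain ⟨x, hx, rfl⟩ := mem_image.1 hb1
    exact ⟨k x, mem_image.2 ⟨x, mem_filter.2 ⟨hx, hb2⟩, rfl⟩, by rw [← hb2]⟩
  · intro u _
    rfl

theorem point {c m g h : ℝ} (hc : 0 < c) (hm : 0 < m) (hg : 0 < g) (hh : 0 < h) :
    c * (1 - (Real.log (c * m / g) + Real.log (c * m / h)) / 2) ≤ √g * √h / m := by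
  have sg := Real.sqrt_pos.2 hg
  have sh := Real.sqrt_pos.2 hh
  have ht : 0 < √g * √h / (c * m) := by positivity
  have h1 := Real.log_le_sub_one_of_pos ht
  rw [Real.log_div (by positivity) (by positivity), Real.log_mul sg.ne' sh.ne',
    Real.log_sqrt hg.le, Real.log_sqrt hh.le] at h1
  rw [Real.log_div (by positivity) hg.ne', Real.log_div (by positivity) hh.ne']
  have e : √g * √h / m = c * (√g * √h / (c * m)) := by field_simp
  rw [e]
  exact mul_le_mul_of_nonneg_left (by linarith) hc.le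

variable {T : Sys} (σ : Sm T)

/-- the edges that carry the ladder `r` -/
noncomputable def Ed (r : List ℕ) : Finset (T.Ω × ℕ) :=
  {x ∈ σ.s | σ.R x = r}.image fun x => (σ.y x, σ.p x)

/-- mass of an upper point with its ladder -/
noncomputable def mg (b : T.Ω × List ℕ) : ℝ := fm σ.s σ.a (fun x => (σ.y x, σ.R x)) b

/-- mass of a lower point with its ladder -/
noncomputable def mh (b : T.Ω × List ℕ) : ℝ := fm σ.s σ.a (fun x => (σ.w x, σ.R x)) b

theorem Ed_fst (r : List ℕ) : (Ed σ r).image Prod.fst = {x ∈ σ.s | σ.R x = r}.image σ.y := by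
  rw [Ed, image_image]
  rfl

theorem Ed_lw (r : List ℕ) : (Ed σ r).image T.lw = {x ∈ σ.s | σ.R x = r}.image σ.w := by
  rw [Ed, image_image]
  rfl

theorem norm_sum (hE : EntSt) (hp : ∀ x ∈ σ.s, 0 < σ.a x) (k : σ.ι → T.Ω) :
    ∑ r ∈ σ.s.image σ.R, ∑ u ∈ {x ∈ σ.s | σ.R x = r}.image k,
      √(fm σ.s σ.a (fun x => (k x, σ.R x)) (u, r)) ^ 2 = σ.Z := by
  have h1 := hE.push σ.s σ.a (fun x => (k x, σ.R x)) fun _ => 1
  simp only [mul_one] at h1
  rw [Sm.Z, h1, ← regroup (d1 := inferInstance) (d2 := inferInstance)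
    (d4 := fun _ _ => inferInstance)]
  refine sum_congr rfl fun r _ => sum_congr (by congr) fun u _ => ?_
  exact Real.sq_sqrt (hE.nonneg _ _ _ _ fun x hx => (hp x hx).le)

theorem edge_sum (hE : EntSt) (hne : T.PP.Nonempty) (hp : ∀ x ∈ σ.s, 0 < σ.a x) :
    (#T.PP : ℝ) * (σ.Z - (σ.A + σ.B) / 2) ≤
      ∑ r ∈ σ.s.image σ.R, ∑ e ∈ Ed σ r, √(mg σ (e.1, r)) * √(mh σ (T.lw e, r)) := by
  have hc : (0 : ℝ) < #T.PP := Nat.cast_pos.2 hne.card_pos
  have hp' : ∀ x ∈ σ.s, 0 ≤ σ.a x := fun x hx => (hp x hx).le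
  have h1 := hE.val σ.s σ.a (fun x => ((σ.y x, σ.p x), σ.R x))
    (fun b => √(mg σ (b.1.1, b.2)) * √(mh σ (T.lw b.1, b.2))) hp
  rw [← regroup (d1 := inferInstance) (d2 := inferInstance) (d4 := fun _ _ => inferInstance)] at h1
  refine le_trans ?_ (le_of_eq (h1.trans (sum_congr rfl fun r _ => sum_congr (by congr)
    fun _ _ => rfl)))
  rw [Sm.Z, Sm.A, Sm.B, Dv, Dv, ← sum_add_distrib, sum_div, ← sum_sub_distrib, mul_sum]
  refine sum_le_sum fun x hx => ?_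
  have hm := (hp x hx).trans_le (hE.self σ.s σ.a (fun x => ((σ.y x, σ.p x), σ.R x)) hp' x hx)
  have hg := (hp x hx).trans_le (hE.self σ.s σ.a (fun x => (σ.y x, σ.R x)) hp' x hx)
  have hh := (hp x hx).trans_le (hE.self σ.s σ.a (fun x => (σ.w x, σ.R x)) hp' x hx)
  have h2 := mul_le_mul_of_nonneg_left (point hc hm hg hh) (hp' x hx)
  refine le_trans (le_of_eq (by ring)) (h2.trans (le_of_eq rfl))

end FinJ

open FinJ in
theorem st_Fin (hE : EntSt) (hS : SmSt) : FinSt := by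
  intro T σ E0 j Ml Mb hne hI hZ hC
  have hc : (0 : ℝ) < #T.PP := Nat.cast_pos.2 hne.card_pos
  have hp' : ∀ x ∈ σ.s, 0 ≤ σ.a x := fun x hx => (hI.pos x hx).le
  have hs : σ.s.Nonempty := by
    by_contra h
    rw [not_nonempty_iff_eq_empty] at h
    rw [Sm.Z, h, sum_empty] at hZ
    exact lt_irrefl _ hZ
  have hsum : ∑ r ∈ σ.s.image σ.R, (1 - (σ.A + σ.B) / (2 * σ.Z)) *
      (∑ y ∈ (Ed σ r).image Prod.fst, √(mg σ (y, r)) ^ 2 +
        ∑ z ∈ (Ed σ r).image T.lw, √(mh σ (z, r)) ^ 2) ≤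
      ∑ r ∈ σ.s.image σ.R, 2 / #T.PP * ∑ e ∈ Ed σ r, √(mg σ (e.1, r)) * √(mh σ (T.lw e, r)) := by
    simp only [Ed_fst, Ed_lw]
    rw [← mul_sum, ← mul_sum, sum_add_distrib]
    have e1 := norm_sum σ hE hI.pos σ.y
    have e2 := norm_sum σ hE hI.pos σ.w
    have e3 := mul_le_mul_of_nonneg_left (edge_sum σ hE hne hI.pos)
      (show (0 : ℝ) ≤ 2 / #T.PP by positivity)
    refine le_trans (le_of_eq ?_) e3
    simp only [mg, mh]
    rw [e1, e2]
    field_simp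
    ring
  obtain ⟨r, hr, hle⟩ := exists_le_of_sum_le (hs.image σ.R) hsum
  obtain ⟨x0, hx0, rfl⟩ := mem_image.1 hr
  have hmem : ∀ e ∈ Ed σ (σ.R x0), ∃ x ∈ σ.s, σ.R x = σ.R x0 ∧ e = (σ.y x, σ.p x) := fun e he => by
    obtain ⟨x, hx, rfl⟩ := mem_image.1 he
    exact ⟨x, (mem_filter.1 hx).1, (mem_filter.1 hx).2, rfl⟩
  refine ⟨σ.R x0, Ed σ (σ.R x0), fun y => √(mg σ (y, σ.R x0)), fun z => √(mh σ (z, σ.R x0)),
    hI.len x0 hx0, hI.mem x0 hx0, ⟨?_, ?_, ?_, hle⟩, ?_, ?_, ?_⟩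
  · intro e he
    obtain ⟨x, hx, -, rfl⟩ := hmem e he
    exact hI.pr x hx
  · intro e he e' he' h1 h2
    obtain ⟨x, hx, -, rfl⟩ := hmem e he
    obtain ⟨x', hx', -, rfl⟩ := hmem e' he'
    exact hI.pu x hx x' hx' h1 h2
  · refine add_pos_of_pos_of_nonneg (sum_pos' (fun _ _ => sq_nonneg _) ⟨σ.y x0, ?_, ?_⟩)
      (sum_nonneg fun _ _ => sq_nonneg _)
    · rw [Ed_fst]
      exact mem_image_of_mem _ (mem_filter.2 ⟨hx0, rfl⟩)
    · exact pow_pos (Real.sqrt_pos.2 ((hI.pos x0 hx0).trans_le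
        (hE.self σ.s σ.a (fun x => (σ.y x, σ.R x)) hp' x0 hx0))) 2
  · intro e he
    obtain ⟨x, hx, h, rfl⟩ := hmem e he
    rw [← h]
    exact hI.src x hx
  · refine hS.cnt T _ _ _ _ ?_ le_rfl hC
    rw [Ed_fst]
    exact image_subset_image (filter_subset _ _)
  · refine hS.cnt T _ _ _ _ ?_ le_rfl hI.low
    rw [Ed_lw]
    exact image_subset_image (filter_subset _ _)

end Pool.Agent.Lib.MP_028aa5_nt.U
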