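import Pool.Agent.Lib.MP_028aa5_nt.U.St3

/-! Nearly invariant sets of lattice points. -/

namespace Pool.Agent.Lib.MP_028aa5_nt.U

open Finset T
open scoped Classical

namespace FolJ

/-- lattice points in a ball -/
def Bs (k : ℕ) (κ g ρ : ℝ) : Set (ℕ → ℤ) :=
  {d | (∀ j ∉ Icc 1 k, d j = 0) ∧ nm k κ g (lat 1 d) ≤ ρ}

theorem fin (hN2 : N2St) (k : ℕ) {κ g : ℝ} (ρ : ℝ) (hκ : 0 < κ) (hκ1 : κ ≤ 1) (hg : 0 < g) :
    (Bs k κ g ρ).Finite := by
  have h1 : (Set.univ.pi fun j : ↥(Icc 1 k) =>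
      Set.Icc (-⌈(2 / κ) ^ k * ρ / g ^ j.1⌉) ⌈(2 / κ) ^ k * ρ / g ^ j.1⌉).Finite :=
    Set.Finite.pi fun _ => Set.finite_Icc _ _
  refine Set.Finite.of_injOn (f := fun (d : ℕ → ℤ) (j : ↥(Icc 1 k)) => d j.1) ?_ ?_ h1
  · intro d hd j _
    have h2 := hN2.coef k κ g (lat 1 d) hκ hκ1 hg j.1 j.2
    have h3 : (2 / κ) ^ k * nm k κ g (lat 1 d) ≤ (2 / κ) ^ k * ρ :=
      mul_le_mul_of_nonneg_left hd.2 (by positivity)
    have h4 : |(d j.1 : ℝ)| ≤ (2 / κ) ^ k * ρ / g ^ j.1 := by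
      rw [le_div_iff₀ (pow_pos hg _)]
      simpa [lat] using h2.trans h3
    have h5 : |d j.1| ≤ ⌈(2 / κ) ^ k * ρ / g ^ j.1⌉ := by
      have h6 := h4.trans (Int.le_ceil _)
      exact_mod_cast h6
    exact abs_le.1 h5
  · intro d hd d' hd' h
    funext j
    by_cases hj : j ∈ Icc 1 k
    · exact congrFun h ⟨j, hj⟩
    · rw [hd.1 j hj, hd'.1 j hj]

theorem num (k : ℕ) {θ : ℝ} (hk : 1 ≤ k) (h0 : 0 < θ) (h1 : θ < 1) :
    ∃ N : ℕ, θ ^ N * (2 * k * (N + 1) + 2) ^ k < 1 := by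
  have h2 := (tendsto_pow_const_mul_const_pow_of_abs_lt_one k
    (r := θ) (by rwa [abs_of_pos h0])).const_mul ((6 * k : ℝ) ^ k)
  rw [mul_zero] at h2
  obtain ⟨N, hN, hN1⟩ := ((h2.eventually (gt_mem_nhds one_pos)).and
    (Filter.eventually_ge_atTop 1)).exists
  refine ⟨N, lt_of_le_of_lt ?_ hN⟩
  have k1 : (1 : ℝ) ≤ k := by exact_mod_cast hk
  have N1 : (1 : ℝ) ≤ N := by exact_mod_cast hN1
  have h3 : (2 * k * (N + 1) + 2 : ℝ) ≤ 6 * k * N := by nlinarith [mul_le_mul k1 N1 zero_le_one (by linarith)]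
  calc θ ^ N * (2 * k * (N + 1) + 2 : ℝ) ^ k ≤ θ ^ N * (6 * k * N) ^ k := by gcongr
    _ = _ := by rw [mul_pow]; ring

end FolJ

open FolJ

theorem st_Fol (hN : NSt) (hN2 : N2St) (hG : GridSt) : FolSt := by
  intro k ε hk hε
  have l0 : ∀ κ g : ℝ, nm k κ g (lat 1 0) = 0 := fun κ g => by
    rw [show lat 1 (0 : ℕ → ℤ) = 0 from funext fun j => by simp [lat], hN.nm_zero]
  by_cases h1 : 1 ≤ ε
  · refine ⟨1, le_rfl, fun κ g r _ _ _ hr => ⟨{0}, singleton_nonempty _, fun d hd => ?_,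
      fun s _ _ => ?_⟩⟩
    · rw [mem_singleton.1 hd, l0]
      positivity
    · exact (mul_nonpos_of_nonpos_of_nonneg (by linarith) (Nat.cast_nonneg _)).trans
        (Nat.cast_nonneg _)
  obtain ⟨N, hNn⟩ := num k (θ := 1 - ε) hk (by linarith) (by linarith)
  have N0 : (0 : ℝ) ≤ N := Nat.cast_nonneg _
  refine ⟨N + 1, by linarith, fun κ g r hκ hκ1 hg hr => ?_⟩
  set B : ℕ → Finset (ℕ → ℤ) := fun i => (fin hN2 k ((i + 1) * r) hκ hκ1 hg).toFinset with hB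
  have hm : ∀ (i : ℕ) d, d ∈ B i ↔
      (∀ j ∉ Icc 1 k, d j = 0) ∧ nm k κ g (lat 1 d) ≤ (i + 1) * r := fun i d =>
    Set.Finite.mem_toFinset _
  have h0 : ∀ i, (0 : ℕ → ℤ) ∈ B i := fun i => (hm i 0).2 ⟨fun _ _ => rfl, by rw [l0]; positivity⟩
  have h2 : (#(B N) : ℝ) ≤ (2 * k * (N + 1) + 2) ^ k * #(B 0) := by
    have h3 := hG (ℕ → ℤ) k κ g ((N + 1) * r) r (#(B 0)) (B N) (lat 1) hk hκ.le (by positivity) hr
      (fun d hd => ((hm N d).1 hd).2) fun C hC hd => by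
        rcases C.eq_empty_or_nonempty with rfl | ⟨c, hc⟩
        · simp
        refine Nat.cast_le.2 (card_le_card_of_injOn (fun d => d - c) (fun d hd' => ?_)
          fun d _ d' _ h => sub_left_injective h)
        have hd'' : d ∈ C := hd'
        refine mem_coe.2 ((hm 0 _).2 ⟨fun j hj => ?_, ?_⟩)
        · change d j - c j = 0
          rw [((hm N d).1 (hC hd'')).1 j hj, ((hm N c).1 (hC hc)).1 j hj, sub_zero]
        · rw [hN.lat_sub]
          simpa using hd d hd'' c hc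
    rwa [show 2 * (k : ℝ) * ((N + 1) * r) / r = 2 * k * (N + 1) by field_simp] at h3
  obtain ⟨i, hi, h4⟩ : ∃ i < N, (1 - ε) * #(B (i + 1)) ≤ #(B i) := by
    by_contra h5
    push Not at h5
    have h6 : ∀ i ≤ N, (#(B 0) : ℝ) ≤ (1 - ε) ^ i * #(B i) := fun i => by
      induction i with
      | zero => simp
      | succ i ih =>
        intro hi
        refine (ih (by omega)).trans ?_
        rw [pow_succ, mul_assoc]
        exact mul_le_mul_of_nonneg_left (h5 i hi).le (pow_nonneg (by linarith) _)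
    have h7 : (0 : ℝ) < #(B 0) := Nat.cast_pos.2 (card_pos.2 ⟨_, h0 0⟩)
    have h8 := (h6 N le_rfl).trans
      (mul_le_mul_of_nonneg_left h2 (pow_nonneg (by linarith : (0 : ℝ) ≤ 1 - ε) N))
    rw [← mul_assoc] at h8
    nlinarith
  refine ⟨B (i + 1), ⟨_, h0 _⟩, fun d hd => ((hm _ d).1 hd).2.trans ?_, fun s hs hs' => ?_⟩
  · have h5 : ((i + 1 : ℕ) : ℝ) ≤ N := Nat.cast_le.2 hi
    exact mul_le_mul_of_nonneg_right (by linarith) hr.le
  · refine h4.trans (Nat.cast_le.2 (card_le_card fun d hd => ?_))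
    obtain ⟨h5, h6⟩ := (hm i d).1 hd
    refine mem_filter.2 ⟨(hm _ d).2 ⟨h5, h6.trans ?_⟩, (hm _ _).2 ⟨fun j hj => ?_, ?_⟩⟩
    · push_cast
      nlinarith
    · change d j + s j = 0
      rw [h5 j hj, hs j hj, add_zero]
    · rw [hN.lat_add]
      refine (hN.nm_add k κ g _ _ hκ.le).trans ?_
      push_cast
      linarith

end Pool.Agent.Lib.MP_028aa5_nt.U
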