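import Pool.Agent.Lib.MP_028aa5_nt.U.St1

/-! Removing heavy edges and small states. -/

namespace Pool.Agent.Lib.MP_028aa5_nt.U

open Finset T
open scoped Classical

namespace KillCJ

theorem split (hE : EntSt) {ι β : Type} (s : Finset ι) (a : ι → ℝ) (f : ι → β) :
    ∑ x ∈ s, a x = ∑ b ∈ s.image f, fm s a f b := by
  simpa using hE.push s a f fun _ => 1

theorem fm_ex {ι β : Type} (s : Finset ι) (a : ι → ℝ) (f : ι → β) (b : β) :
    ∃ s' : Finset ι, (∀ x ∈ s', x ∈ s ∧ f x = b) ∧ fm s a f b = ∑ x ∈ s', a x :=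
  ⟨_, fun _ hx => mem_filter.1 hx, rfl⟩

theorem mem_img {ι β : Type} {s : Finset ι} {f : ι → β} {b : β} (h : b ∈ s.image f) :
    ∃ x ∈ s, f x = b := mem_image.1 h

theorem heavy (hE : EntSt) {ι β : Type} {s s' s'' : Finset ι} {a : ι → ℝ} (f : ι → β) {K : ℝ}
    (hK : 0 < K) (ha : ∀ x ∈ s, 0 ≤ a x) (h1 : s' ⊆ s) (h2 : s'' ⊆ s') (hZ : ∑ x ∈ s, a x ≤ 1)
    (h : ∀ x ∈ s'', K * fm s' a f (f x) ≤ fm s a f (f x)) : ∑ x ∈ s'', a x ≤ 1 / K := by
  rw [split hE s'' a f, le_div_iff₀' hK, mul_sum]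
  refine le_trans (sum_le_sum fun b hb => ?_) ((hE.tot s a f (s''.image f) ha).trans hZ)
  obtain ⟨x, hx, rfl⟩ := mem_image.1 hb
  exact (mul_le_mul_of_nonneg_left (hE.mono s' s'' a f _ h2 fun x hx => ha x (h1 hx)) hK.le).trans
    (h x hx)

variable {T : Sys} {σ : Sm T}

/-- the mass of light edges with given state and prime -/
theorem light (hE : EntSt) {K : ℝ} (hK : 0 ≤ K) (ha : ∀ x ∈ σ.s, 0 ≤ σ.a x) {s : Finset σ.ι}
    (hs : s ⊆ σ.s) (h : ∀ x ∈ s, ¬σ.hi K x) (b : T.Λ × ℕ) :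
    #T.PP * fm s σ.a (fun x => (T.S (σ.y x), σ.p x)) b ≤
      K * fm σ.s σ.a (fun x => T.S (σ.y x)) b.1 := by
  obtain ⟨s', hs', e⟩ := fm_ex s σ.a (fun x => (T.S (σ.y x), σ.p x)) b
  rw [e, split hE s' σ.a σ.y, mul_sum]
  refine le_trans ?_ (mul_le_mul_of_nonneg_left (hE.fib σ.s σ.a σ.y T.S (s'.image σ.y) b.1 ha ?_) hK)
  · rw [mul_sum]
    refine sum_le_sum fun t ht => ?_
    obtain ⟨x, hx, rfl⟩ := mem_image.1 ht
    have h1 := not_lt.1 (not_or.1 (h x (hs' x hx).1)).1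
    refine le_trans (mul_le_mul_of_nonneg_left ?_ (Nat.cast_nonneg _)) h1
    have hsub : s' ⊆ σ.s := fun x hx => hs (hs' x hx).1
    refine le_trans (hE.ref s' σ.a σ.y (fun x => (σ.y x, σ.p x)) _ (σ.y x, σ.p x)
      (fun x hx => ha x (hsub hx)) fun x' hx' e' => ?_) (hE.mono σ.s s' σ.a _ _ hsub ha)
    have := (hs' x' hx').2.trans (hs' x hx).2.symm
    exact Prod.ext e' (Prod.ext_iff.1 this).2
  · intro t ht
    obtain ⟨x, hx, rfl⟩ := mem_image.1 ht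
    exact congrArg Prod.fst (hs' x hx).2

/-- the sum of the cell masses over pairs of a state and a prime -/
theorem cells (hE : EntSt) {Mp : ℝ} (hM : 0 ≤ Mp) (ha : ∀ x ∈ σ.s, 0 ≤ σ.a x) (hZ : σ.Z ≤ 1)
    (hP : σ.Pre Mp) (I : Finset (T.Λ × ℕ)) (hI : ∀ b ∈ I, ∃ x ∈ σ.s, (T.S (σ.y x), σ.p x) = b) :
    ∑ b ∈ I, fm σ.s σ.a (fun x => T.cl (T.S (σ.y x))) (T.cl b.1) ≤ #T.PP * Mp := by
  refine (sum_le_sum_of_subset_of_nonneg (t := σ.s.image fun x => (T.S (σ.y x), σ.p x))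
    (fun b hb => mem_image.2 (hI b hb)) fun _ _ _ => hE.nonneg _ _ _ _ ha).trans ?_
  rw [← sum_fiberwise_of_maps_to (t := σ.s.image fun x => T.cl (T.S (σ.y x)))
    (g := fun b : T.Λ × ℕ => T.cl b.1)]
  · refine le_trans (sum_le_sum fun c _ => ?_) (le_trans (le_of_eq (mul_sum _ _ _).symm)
      (mul_le_of_le_one_right (mul_nonneg (Nat.cast_nonneg _) hM)
        ((hE.tot σ.s σ.a (fun x => T.cl (T.S (σ.y x))) _ ha).trans hZ)))
    rw [sum_congr rfl fun b hb => by rw [(mem_filter.1 hb).2], sum_const, nsmul_eq_mul]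
    exact mul_le_mul_of_nonneg_right (hP c) (hE.nonneg _ _ _ _ ha)
  · intro b hb
    obtain ⟨x, hx, rfl⟩ := mem_image.1 hb
    exact mem_image_of_mem _ hx

end KillCJ

open KillCJ

theorem st_KillC (hE : EntSt) : KillCSt := by
  intro T σ E0 j Ml Mp K hne hI hP hM hK
  have ha : ∀ x ∈ σ.s, 0 ≤ σ.a x := fun x hx => (hI.pos x hx).le
  have hK0 : 0 < K := by linarith
  have hpp : (0 : ℝ) < #T.PP := by exact_mod_cast hne.card_pos
  have hMb : 0 < K ^ 2 * Mp := by positivity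
  let ms := fm σ.s σ.a fun x => T.S (σ.y x)
  let mc := fm σ.s σ.a fun x => T.cl (T.S (σ.y x))
  obtain ⟨q, hq⟩ : ∃ q : σ.ι → Prop, ∀ x, q x ↔
      ¬σ.hi K x ∧ mc (T.cl (T.S (σ.y x))) ≤ K ^ 2 * Mp * ms (T.S (σ.y x)) := ⟨_, fun _ => Iff.rfl⟩
  refine ⟨q, fun x _ x' _ e e' => ?_, ?_, fun c => ?_, ?_⟩
  · simp only [hq, Sm.hi, Sm.μ, Sm.w, e, e']
  · obtain ⟨s, hs, e⟩ : ∃ s : Finset σ.ι, (∀ x ∈ s, x ∈ σ.s ∧ ¬q x ∧ ¬σ.hi K x) ∧
        ∑ x ∈ σ.s with ¬q x ∧ ¬σ.hi K x, σ.a x = ∑ x ∈ s, σ.a x :=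
      ⟨_, fun x hx => mem_filter.1 hx, rfl⟩
    have hsub : s ⊆ σ.s := fun x hx => (hs x hx).1
    have h1 : K * Mp * #T.PP * ∑ x ∈ s, σ.a x ≤ #T.PP * Mp := by
      rw [split hE s σ.a fun x => (T.S (σ.y x), σ.p x), mul_sum]
      refine le_trans (sum_le_sum fun b hb => ?_) (cells hE hM.le ha hI.tot hP _ fun b hb => by
        obtain ⟨x, hx, e⟩ := mem_img hb
        exact ⟨x, hsub hx, e⟩)
      have h2 := light hE hK0.le ha hsub (fun x hx => (hs x hx).2.2) b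
      obtain ⟨x, hx, rfl⟩ := mem_img hb
      have h3 := not_le.1 fun h => (hs x hx).2.1 ((hq x).2 ⟨(hs x hx).2.2, h⟩)
      have h4 := mul_le_mul_of_nonneg_left h2 (mul_pos hK0 hM).le
      simp only [ms, mc] at h3
      simp only at h4 ⊢
      linarith
    rw [e, le_div_iff₀' hK0]
    refine le_of_mul_le_mul_left ?_ (mul_pos hpp hM)
    linarith
  · obtain ⟨B, hB, e⟩ : ∃ B : Finset T.Λ, (∀ b ∈ B, b ∈ ((σ.res q).s.image (σ.res q).y).image T.S ∧
        T.cl b = c) ∧ #{b ∈ ((σ.res q).s.image (σ.res q).y).image T.S | T.cl b = c} = #B :=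
      ⟨_, fun x hx => mem_filter.1 hx, rfl⟩
    rw [e]
    have h1 : ∀ b ∈ B, 0 < mc c ∧ mc c ≤ K ^ 2 * Mp * ms b := fun b hb => by
      obtain ⟨t, ht, rfl⟩ := mem_image.1 (hB b hb).1
      obtain ⟨x, hx, rfl⟩ := mem_image.1 ht
      have hx' := mem_filter.1 hx
      rw [← (hB _ hb).2]
      exact ⟨(hI.pos x hx'.1).trans_le (hE.self σ.s σ.a _ ha x hx'.1), ((hq x).1 hx'.2).2⟩
    rcases B.eq_empty_or_nonempty with rfl | ⟨b, hb⟩
    · simpa using hMb.le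
    have h2 := card_nsmul_le_sum B _ _ fun b hb => (h1 b hb).2
    rw [nsmul_eq_mul, ← mul_sum] at h2
    exact le_of_mul_le_mul_right (h2.trans (mul_le_mul_of_nonneg_left
      (hE.fib σ.s σ.a (fun x => T.S (σ.y x)) T.cl B c ha fun b hb => (hB b hb).2) hMb.le)) (h1 b hb).1
  · have hsub : (σ.res q).s ⊆ σ.s := filter_subset _ _
    have hμ : ∀ x, #T.PP * (σ.res q).μ x ≤ #T.PP * σ.μ x := fun x =>
      mul_le_mul_of_nonneg_left (hE.mono σ.s _ σ.a _ _ hsub ha) hpp.le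
    have h1 := heavy hE σ.y hK0 ha hsub (filter_subset (fun x =>
      K ^ 2 * (σ.res q).mU (σ.y x) < #T.PP * (σ.res q).μ x) _) hI.tot fun x hx => by
        have h2 := mem_filter.1 hx
        have h3 := not_lt.1 (not_or.1 ((hq x).1 (mem_filter.1 h2.1).2).1).1
        refine le_of_mul_le_mul_left ?_ hK0
        have := (h2.2.le.trans (hμ x)).trans h3
        rw [sq, mul_assoc] at this
        exact this
    have h2 := heavy hE σ.w hK0 ha hsub (filter_subset (fun x =>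
      K ^ 2 * (σ.res q).mL (σ.w x) < #T.PP * (σ.res q).μ x) _) hI.tot fun x hx => by
        have h2 := mem_filter.1 hx
        have h3 := not_lt.1 (not_or.1 ((hq x).1 (mem_filter.1 h2.1).2).1).2
        refine le_of_mul_le_mul_left ?_ hK0
        have := (h2.2.le.trans (hμ x)).trans h3
        rw [sq, mul_assoc] at this
        exact this
    rw [sum_filter] at h1 h2 ⊢
    refine le_trans ?_ ((add_le_add h1 h2).trans (le_of_eq (by ring)))
    rw [← sum_add_distrib]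
    refine sum_le_sum fun x hx => ?_
    have h0 := ha x (hsub hx)
    by_cases h : (σ.res q).hi (K ^ 2) x
    · rw [if_pos h]
      rcases h with h | h
      · exact le_trans (le_of_eq (if_pos h).symm) (le_add_of_nonneg_right (by split_ifs <;> simp [h0]))
      · exact le_trans (le_of_eq (if_pos h).symm) (le_add_of_nonneg_left (by split_ifs <;> simp [h0]))
    · rw [if_neg h]
      exact add_nonneg (by split_ifs <;> simp [h0]) (by split_ifs <;> simp [h0])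

end Pool.Agent.Lib.MP_028aa5_nt.U
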