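import Pool.Agent.Lib.MP_028aa5_nt.U.St4
import Pool.Agent.Lib.MP_028aa5_nt.T.Lev
import Pool.Agent.Lib.MP_028aa5_nt.T.Reg

/-! Propagation from seeds, and growth comparisons in the polylogarithmic regime. -/

namespace Pool.Agent.Lib.MP_028aa5_nt.U

open Finset T Filter
open scoped Classical

theorem st_Lev2 (hN : NSt) (hN2 : N2St) (hB : BasSt) (hC : CutSt) : Lev2St := by
  intro π N E φ ρ ε Y Q0 T0 Q Tm R tm ok hI ρ1 hR hL hRay tm1 hε h1 hpos hQ0 T1 hS hQ hTm hrig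
  have P2 := ok.P
  have P1 : 1 ≤ 2 * π.P := by linarith
  have c1 : (1 : ℝ) ≤ 2 * 9 ^ π.k :=
    one_le_mul_of_one_le_of_one_le (by norm_num) (one_le_pow₀ (by norm_num))
  have hT : ∀ t : ℕ, ρ ≤ (2 * 9 ^ π.k) ^ t * T0 := fun t =>
    ρ1.trans (one_le_mul_of_one_le_of_one_le (one_le_pow₀ c1) T1)
  have mQ : ∀ s t : ℕ, s ≤ t → Q0 * (2 * π.P) ^ (π.k * s) ≤
      Q0 * (2 * π.P) ^ (π.k * t) := fun s t h =>
    mul_le_mul_of_nonneg_left (pow_le_pow_right₀ P1 (Nat.mul_le_mul_left _ h)) hQ0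
  have mT : ∀ s t : ℕ, s ≤ t → (2 * 9 ^ π.k) ^ s * T0 ≤ (2 * 9 ^ π.k) ^ t * T0 := fun s t h =>
    mul_le_mul_of_nonneg_right (pow_le_pow_right₀ c1 h) (by linarith)
  obtain ⟨t, ht, hray⟩ := hC π N E (fun t x => Cls π.k π.κ (N.pos π x) R
      (Q0 * (2 * π.P) ^ (π.k * t)) ((2 * 9 ^ π.k) ^ t * T0) (φ x)) ε tm ok hI hRay
    tm1 hε (fun t x h => Lev.cls_mono h (mQ _ _ t.le_succ) (mT _ _ t.le_succ))
    (fun t e he h => Lev.cls_mono (Lev.down hN hN2 hB ok hI h1 hL (hT t) he h) (mQ _ _ t.le_succ)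
      (le_of_eq (by ring)))
    (fun t e he h => Lev.cls_mono (Lev.up hN hN2 hB ok hI h1 hL (hT t) he h) (le_of_eq (by ring))
      (le_of_eq (by ring)))
    (fun E' hE hr => by
      obtain ⟨e, he, x, hx, h⟩ := hS E' hE hr
      refine ⟨e, he, ?_⟩
      simp only [mul_zero, pow_zero, mul_one, one_mul]
      rcases hx with rfl | rfl
      exacts [Or.inl h, Or.inr h])
  have hch : ∀ x, ∃ (q : ℕ) (z : ℕ → ℤ), Cls π.k π.κ (N.pos π x) R Q Tm (φ x) →
      1 ≤ q ∧ q ≤ Q ∧ nm π.k π.κ (N.pos π x) (φ x - Lev.rp R q z) ≤ Tm := by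
    intro x
    by_cases h : Cls π.k π.κ (N.pos π x) R Q Tm (φ x)
    · obtain ⟨q, z, h'⟩ := h
      exact ⟨q, z, fun _ => h'⟩
    · exact ⟨1, 0, fun h' => absurd h' h⟩
  choose q z hqz using hch
  set E' := {e ∈ E | Cls π.k π.κ (N.pos π (N.up e)) R
      (Q0 * (2 * π.P) ^ (π.k * t)) ((2 * 9 ^ π.k) ^ t * T0) (φ (N.up e)) ∧
    Cls π.k π.κ (N.pos π (N.lo e)) R
      (Q0 * (2 * π.P) ^ (π.k * t)) ((2 * 9 ^ π.k) ^ t * T0) (φ (N.lo e))} with hE'
  have hsub : E' ⊆ E := filter_subset _ _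
  have hend : ∀ e ∈ E', ∀ x, x = N.up e ∨ x = N.lo e →
      1 ≤ q x ∧ q x ≤ Q ∧ nm π.k π.κ (N.pos π x) (φ x - Lev.rp R (q x) (z x)) ≤ Tm := by
    intro e he x hx
    obtain ⟨-, a, b⟩ := mem_filter.1 he
    refine hqz x (Lev.cls_mono ?_ ((mQ _ _ ht.le).trans hQ) ((mT _ _ ht.le).trans hTm))
    rcases hx with rfl | rfl
    exacts [a, b]
  have hex : ∀ e ∈ E', ∃ w : ℕ → ℤ, nm π.k π.κ (N.pos π (N.lo e))
      (φ (N.lo e) - dil (N.pr e) (φ (N.up e)) - lat R w) ≤ ρ ∧ ∀ j ∈ Icc 1 π.k,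
      Lev.rp R (q (N.lo e)) (z (N.lo e)) j =
        dil (N.pr e) (Lev.rp R (q (N.up e)) (z (N.up e))) j + lat R w j := by
    intro e he
    obtain ⟨w, hw⟩ := hL e (hsub he)
    obtain ⟨a1, a2, a3⟩ := hend e he _ (Or.inl rfl)
    obtain ⟨b1, b2, b3⟩ := hend e he _ (Or.inr rfl)
    exact ⟨w, hw, Lev.compat hN hN2 hB ok hI h1 (hsub he) hR ρ1 a1 a2 b1 b2 (hpos _) hw a3 b3 hrig⟩
  refine ⟨E', fun x => Lev.rp R (q x) (z x), fun x => φ x - Lev.rp R (q x) (z x), hsub,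
    fun x => (add_sub_cancel _ _).symm, ⟨fun e he x hx => ?_, fun e he x hx => (hend e he x hx).2.2,
      fun e he j hj => ?_, fun e he => ?_⟩, hray⟩
  · obtain ⟨a1, a2, -⟩ := hend e he x hx
    refine ⟨q x, a1, a2, fun j _ => ⟨(R : ℤ) ^ j * z x j, ?_⟩⟩
    have : (q x : ℝ) ≠ 0 := Nat.cast_ne_zero.2 (by omega)
    simp only [Lev.rp, Pi.zero_apply]
    push_cast
    field_simp
    ring
  · obtain ⟨w, -, h⟩ := hex e he
    refine ⟨(R : ℤ) ^ j * w j, ?_⟩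
    rw [h j hj, lat]
    push_cast
    rfl
  · obtain ⟨w, hw, h⟩ := hex e he
    refine le_trans (le_of_eq (hN.nm_congr _ _ _ _ _ fun j hj => ?_)) hw
    have := h j hj
    simp only [Pi.sub_apply, dil] at this ⊢
    rw [this]
    ring

namespace Lev2J

variable {π : Par} {X A C D : ℝ}

lemma lo_log (h : Reg2 π X A C D) (hL : 0 < Real.log X) :
    A * Real.log (Real.log X) ≤ Real.log π.P := by
  rw [← Real.log_rpow hL]
  exact Real.log_le_log (Real.rpow_pos_of_pos hL _) h.lo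

lemma hi_log (h : Reg2 π X A C D) (hL : 1 ≤ Real.log X) :
    Real.log π.P ≤ |C| * Real.log (Real.log X) := by
  have h1 : Real.log π.P ≤ C * Real.log (Real.log X) := by
    rw [← Real.log_rpow (by linarith)]
    exact Real.log_le_log (by linarith [h.ok.P]) h.hi
  exact h1.trans (mul_le_mul_of_nonneg_right (le_abs_self C) (Real.log_nonneg hL))

lemma base (C D K : ℝ) (hD : 0 < D) : ∃ X0 : ℝ, ∀ X ≥ X0, ∀ (π : Par) (A : ℝ), 1 ≤ A →
    Reg2 π X A C D → K ≤ X ∧ K ≤ Real.log X ∧ K ≤ Real.log π.P ∧ K ≤ π.P ∧ Real.log X ≤ π.P ∧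
      K * Real.log π.P ≤ Real.log X ^ (1 / 2 : ℝ) ∧ π.P ^ (9 / 10 : ℝ) ≤ #π.PP ∧
      (#π.PP : ℝ) ≤ π.P + 1 ∧ K * Real.log X * π.κ ≤ 1 := by
  obtain ⟨y0, hy0⟩ := eventually_atTop.1 (RegJ.ev_poly D (1 / 10) 1 (by norm_num))
  refine eventually_atTop.1 ?_
  filter_upwards [eventually_ge_atTop K, eventually_ge_atTop 1,
    Real.tendsto_log_atTop.eventually_ge_atTop K, Real.tendsto_log_atTop.eventually_ge_atTop y0,
    Real.tendsto_log_atTop.eventually_ge_atTop 1,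
    (Real.tendsto_log_atTop.comp Real.tendsto_log_atTop).eventually_ge_atTop K,
    Real.tendsto_log_atTop.eventually (RegJ.ev_poly (|K| * |C|) (1 / 2) 1 (by norm_num)),
    RegJ.ev_poly |K| (1 / 2) 1 (by norm_num)] with X h1 h2 h3 h4 h7 h8 h5 h6 π A hA hR
  have hL : 0 < Real.log X := by linarith
  have hP := hR.ok.P
  have hP0 : 0 < π.P := by linarith
  have hlP : 0 < Real.log π.P := Real.log_pos (by linarith)
  have a0 : Real.log X ≤ π.P := (Real.self_le_rpow_of_one_le h7 hA).trans hR.lo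
  have a1 : K ≤ Real.log π.P := le_trans h8 (Real.log_le_log hL a0)
  have a2 := hi_log hR h7
  rw [pow_one] at h5 h6
  refine ⟨h1, h3, a1, h3.trans a0, a0, ?_, ?_, RegJ.card_le hR.ok, ?_⟩
  · refine le_trans ?_ h5
    rw [mul_assoc]
    exact (mul_le_mul_of_nonneg_right (le_abs_self K) hlP.le).trans
      (mul_le_mul_of_nonneg_left a2 (abs_nonneg K))
  · refine le_trans ?_ hR.pp
    have b1 := hy0 π.P (h4.trans a0)
    rw [pow_one] at b1
    rw [le_div_iff₀ (mul_pos hD hlP)]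
    have e1 : π.P ^ (9 / 10 : ℝ) * π.P ^ (1 / 10 : ℝ) = π.P := by
      rw [← Real.rpow_add hP0]; norm_num
    exact (mul_le_mul_of_nonneg_left b1 (Real.rpow_nonneg hP0.le _)).trans e1.le
  · have hX : 0 < X := by linarith
    have hκ : 0 ≤ π.κ := le_trans (by positivity) hR.κlo
    have b1 : K * Real.log X ≤ X ^ (1 / 2 : ℝ) :=
      (mul_le_mul_of_nonneg_right (le_abs_self K) hL.le).trans h6
    have e1 : X ^ (1 / 2 : ℝ) * X ^ (-(1 / 2 : ℝ)) = 1 := by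
      rw [← Real.rpow_add hX]; norm_num
    exact (mul_le_mul b1 hR.κhi hκ (Real.rpow_nonneg hX.le _)).trans e1.le

lemma pow_le {b l c : ℝ} {n : ℕ} (hX : 0 < X) (hb0 : 0 ≤ b) (hb : b ≤ Real.exp l)
    (hn : n * l ≤ c * Real.log X) : b ^ n ≤ X ^ c := by
  refine (pow_le_pow_left₀ hb0 hb n).trans ?_
  rw [← Real.exp_nat_mul, Real.rpow_def_of_pos hX, Real.exp_le_exp, mul_comm (Real.log X)]
  exact hn

lemma pw (C D c : ℝ) (d : ℕ) (hc : 0 < c) : ∃ X0 : ℝ, ∀ X ≥ X0, ∀ (π : Par) (A : ℝ),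
    Reg2 π X A C D → (2 * π.P) ^ d ≤ X ^ c := by
  refine eventually_atTop.1 ?_
  filter_upwards [eventually_gt_atTop 0, Real.tendsto_log_atTop.eventually_ge_atTop 1,
    Real.tendsto_log_atTop.eventually (RegJ.ev_poly (d * (2 * |C|) / c) 1 1 (by norm_num))]
    with X h1 h2 h3 π A hR
  have hP := hR.ok.P
  have hP0 : 0 < π.P := by linarith
  have a2 := hi_log hR h2
  rw [pow_one, Real.rpow_one, div_mul_eq_mul_div, div_le_iff₀ hc] at h3
  refine pow_le (l := 2 * Real.log π.P) h1 (by positivity) ?_ ?_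
  · rw [two_mul (Real.log π.P), Real.exp_add, Real.exp_log hP0]
    exact mul_le_mul_of_nonneg_right hP hP0.le
  · calc d * (2 * Real.log π.P) ≤ d * (2 * (|C| * Real.log (Real.log X))) := by gcongr
      _ = d * (2 * |C|) * Real.log (Real.log X) := by ring
      _ ≤ _ := h3.trans_eq (mul_comm _ _)

lemma fact (K' c : ℝ) (hK' : 0 ≤ K') (hc : 0 < c) : ∃ A : ℝ, 1 ≤ A ∧ ∀ C D K : ℝ, 0 < D → 0 ≤ K →
    ∃ X0 : ℝ, ∀ X ≥ X0, ∀ π : Par, Reg2 π X A C D → ∀ n : ℕ,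
      n * Real.log π.P ≤ K' * Real.log X →
      (K * (n + 1) * π.P / #π.PP) ^ n ≤ X ^ c ∧ (K * (n + 1) ^ 2) ^ n ≤ X ^ c := by
  refine ⟨max 1 (3 * K' / c), le_max_left _ _, fun C D K hD hK => eventually_atTop.1 ?_⟩
  filter_upwards [eventually_gt_atTop 0, Real.tendsto_log_atTop.eventually_ge_atTop 1,
    (Real.tendsto_log_atTop.comp Real.tendsto_log_atTop).eventually_ge_atTop 1,
    Real.tendsto_log_atTop.eventually_ge_atTop (K * (K' + 1) * (D * |C|)),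
    Real.tendsto_log_atTop.eventually_ge_atTop (K * (K' + 1) ^ 2)] with X h0 h1 h2 h3 h4 π hR n hn
  have hL0 : 0 < Real.log X := by linarith
  have a1 := lo_log hR hL0
  have a2 := hi_log hR h1
  have hA1 : (1 : ℝ) ≤ max 1 (3 * K' / c) := le_max_left _ _
  have hA2 : 3 * K' ≤ max 1 (3 * K' / c) * c := (div_le_iff₀ hc).1 (le_max_right _ _)
  change 1 ≤ Real.log (Real.log X) at h2
  generalize max 1 (3 * K' / c) = A at *
  set L := Real.log X with hLdef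
  have hP := hR.ok.P
  have hP0 : 0 < π.P := by linarith
  have hlP : 1 ≤ Real.log π.P := le_trans (one_le_mul_of_one_le_of_one_le hA1 h2) a1
  have hn0 : (0 : ℝ) ≤ n := Nat.cast_nonneg n
  have b1 : (n : ℝ) ≤ K' * L := (le_mul_of_one_le_right hn0 hlP).trans hn
  have b2 : (n : ℝ) + 1 ≤ (K' + 1) * L := by
    rw [add_mul, one_mul]; exact add_le_add b1 h1
  have hc' : (0 : ℝ) < #π.PP := by exact_mod_cast hR.ok.ne.card_pos
  have a3 : Real.log π.P ≤ |C| * L := a2.trans (mul_le_mul_of_nonneg_left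
    (by linarith [Real.log_le_sub_one_of_pos hL0]) (abs_nonneg C))
  have b3 : π.P / #π.PP ≤ D * |C| * L := by
    have c1 := hR.pp
    rw [div_le_iff₀ (mul_pos hD (by linarith))] at c1
    rw [div_le_iff₀ hc']
    refine c1.trans ?_
    rw [mul_comm, mul_assoc D |C|]
    exact mul_le_mul_of_nonneg_right (mul_le_mul_of_nonneg_left a3 hD.le) hc'.le
  have e3 : Real.exp (3 * Real.log L) = L * L ^ 2 := by
    rw [show (3 : ℝ) * Real.log L = ((3 : ℕ) : ℝ) * Real.log L by norm_num, Real.exp_nat_mul,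
      Real.exp_log hL0]
    ring
  have b4 : n * (3 * Real.log L) ≤ c * L := by
    refine le_of_mul_le_mul_left ?_ (show 0 < A by linarith)
    calc A * (n * (3 * Real.log L)) = 3 * (n * (A * Real.log L)) := by ring
      _ ≤ 3 * (K' * L) := by
        refine mul_le_mul_of_nonneg_left ((mul_le_mul_of_nonneg_left a1 hn0).trans hn) (by norm_num)
      _ = 3 * K' * L := by ring
      _ ≤ A * c * L := mul_le_mul_of_nonneg_right hA2 hL0.le
      _ = _ := by ring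
  refine ⟨pow_le h0 (by positivity) ?_ b4, pow_le h0 (by positivity) ?_ b4⟩
  · rw [e3]
    calc K * (n + 1) * π.P / #π.PP = K * (((n : ℝ) + 1) * (π.P / #π.PP)) := by ring
      _ ≤ K * ((K' + 1) * L * (D * |C| * L)) :=
        mul_le_mul_of_nonneg_left (mul_le_mul b2 b3 (by positivity) (by positivity)) hK
      _ = K * (K' + 1) * (D * |C|) * L ^ 2 := by ring
      _ ≤ _ := mul_le_mul_of_nonneg_right h3 (sq_nonneg _)
  · rw [e3]
    calc K * ((n : ℝ) + 1) ^ 2 ≤ K * ((K' + 1) * L) ^ 2 :=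
        mul_le_mul_of_nonneg_left (pow_le_pow_left₀ (by positivity) b2 2) hK
      _ = K * (K' + 1) ^ 2 * L ^ 2 := by ring
      _ ≤ _ := mul_le_mul_of_nonneg_right h4 (sq_nonneg _)

end Lev2J

theorem st_Reg2 : Reg2St where
  mono _ _ _ _ _ _ hL hA h := ⟨h.ok, (Real.rpow_le_rpow_of_exponent_le hL hA).trans h.lo, h.hi,
    h.pp, h.κ0, h.κlo, h.κhi⟩
  base := Lev2J.base
  pw := Lev2J.pw
  fact := Lev2J.fact

end Pool.Agent.Lib.MP_028aa5_nt.U
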