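import Pool.Agent.Lib.MP_028aa5_nt.U.St4
import Pool.Agent.Lib.MP_028aa5_nt.T.LevX

/-! The decomposition of the phases in the regime of short intervals of logarithmic length. -/

namespace Pool.Agent.Lib.MP_028aa5_nt.U

open Finset T
open scoped Classical

namespace LevX2J

/-- many loops -/
theorem many {k E X κ F1 F2 pn : ℝ} (hE : 2 ≤ E) (hX : 0 < X) (h1 : 2 * k ≤ E)
    (h10 : 0 < F1) (h20 : 0 < F2) (hF : F1 * F2 ≤ E) (hκ : 1 / X ≤ κ) (h3 : E ^ 3 ≤ X)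
    (hp : X ^ 2 < pn) : 2 * k < pn / (F1 * (E / κ) * F2) := by
  have κ0 : 0 < κ := lt_of_lt_of_le (by positivity) hκ
  have E0 : 0 < E := by linarith
  rw [lt_div_iff₀ (by positivity)]
  have a0 : E / κ ≤ E * X := by
    rw [div_le_iff₀ hX] at hκ
    rw [div_le_iff₀ κ0]
    nlinarith
  have a1 : E / κ * (F1 * F2) ≤ E * X * E := mul_le_mul a0 hF (by positivity) (by positivity)
  have a2 : 2 * k * (E / κ * (F1 * F2)) ≤ E * (E * X * E) :=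
    mul_le_mul h1 a1 (by positivity) E0.le
  have a3 : E ^ 3 * X ≤ X * X := mul_le_mul_of_nonneg_right h3 hX.le
  have e1 : 2 * k * (F1 * (E / κ) * F2) = 2 * k * (E / κ * (F1 * F2)) := by ring
  rw [e1]
  nlinarith

/-- the width -/
theorem width {k E κ F1 F2 pn A : ℝ} (hE : 0 < E) (h10 : 0 < F1) (h20 : 0 < F2)
    (hF : F1 * F2 ≤ E) (hκ : 0 < κ) (hp : 0 < pn) (hA0 : 0 ≤ A) (hA : A / pn ≤ E)
    (h1 : 32 * k ≤ E) :
    2 * k * (4 * (4 * κ) * A) / (pn / (F1 * (E / κ) * F2)) ≤ E ^ 4 := by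
  have e1 : 2 * k * (4 * (4 * κ) * A) / (pn / (F1 * (E / κ) * F2)) =
      32 * k * (E * (A / pn * (F1 * F2))) := by
    field_simp
    ring
  have a1 : A / pn * (F1 * F2) ≤ E * E := mul_le_mul hA hF (by positivity) hE.le
  rw [e1]
  calc _ ≤ E * (E * (A / pn * (F1 * F2))) := mul_le_mul_of_nonneg_right h1 (by positivity)
    _ ≤ E * (E * (E * E)) :=
      mul_le_mul_of_nonneg_left (mul_le_mul_of_nonneg_left a1 hE.le) hE.le
    _ = E ^ 4 := by ring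

theorem wd {E : ℝ} (hE : 2 ≤ E) : ∃ Wd : ℕ, E ^ 4 + 1 ≤ Wd ∧ (Wd : ℝ) ≤ E ^ 5 := by
  refine ⟨⌈E ^ 4 + 1⌉₊, Nat.le_ceil _, (Nat.ceil_lt_add_one (by positivity)).le.trans ?_⟩
  have h : (2 : ℝ) ^ 4 ≤ E ^ 4 := pow_le_pow_left₀ (by norm_num) hE 4
  nlinarith

theorem e0_le {E X κ P r : ℝ} {k n : ℕ} (hE : 2 ≤ E) (hX : 0 < X) (hκ : 1 / X ≤ κ) (hP : 0 ≤ P)
    (h0 : 2 * n + r ≤ E) (h1 : 33 * ((n : ℝ) + 1) ≤ E)
    (h2 : (2 * P) ^ n ≤ X ^ 3 * E ^ 2) :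
    (2 / κ) ^ k * ((2 * n + r) * (16 * n + 17) ^ k) * (2 * P) ^ (n * k) ≤
      X ^ (4 * k) * E ^ (4 * k + 1) := by
  have n0 : (0 : ℝ) ≤ n := Nat.cast_nonneg n
  have κ0 : 0 < κ := lt_of_lt_of_le (by positivity) hκ
  have a1 : 2 / κ ≤ E * X := by
    rw [div_le_iff₀ hX] at hκ
    rw [div_le_iff₀ κ0]
    nlinarith
  have a2 := pow_le_pow_left₀ (by positivity) a1 k
  have a3 : (16 * (n : ℝ) + 17) ^ k ≤ E ^ k := pow_le_pow_left₀ (by positivity) (by linarith) k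
  have a4 : (2 * (n : ℝ) + r) * (16 * n + 17) ^ k ≤ E * E ^ k :=
    mul_le_mul h0 a3 (by positivity) (by linarith)
  have a5 := pow_le_pow_left₀ (by positivity) h2 k
  rw [← pow_mul] at a5
  have a6 : (2 / κ) ^ k * ((2 * n + r) * (16 * n + 17) ^ k) ≤ (E * X) ^ k * (E * E ^ k) :=
    (mul_le_mul_of_nonneg_left a4 (by positivity)).trans
      (mul_le_mul_of_nonneg_right a2 (by positivity))
  refine (mul_le_mul a6 a5 (by positivity) (by positivity)).trans (le_of_eq ?_)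
  simp only [mul_pow, ← pow_mul]
  ring

theorem Q_le {E Z W : ℝ} {k : ℕ} (hE : 0 ≤ E) (hZ0 : 0 ≤ Z) (hZ : Z ≤ E) (hW0 : 0 ≤ W)
    (hW : W ≤ E ^ 5) : W ^ (k ^ 3) * Z ≤ E ^ (5 * k ^ 3 + 1) := by
  rw [pow_succ E, pow_mul E 5]
  exact mul_le_mul (pow_le_pow_left₀ hW0 hW _) hZ hZ0 (by positivity)

theorem T_le {E X W : ℝ} {k tm : ℕ} (hk : 1 ≤ k) (hE : 4 ≤ E) (hX : 1 ≤ X) (hW0 : 0 ≤ W)
    (hW : W ≤ E ^ 5) (hc : (2 * 9 ^ k) ^ tm * (2 ^ k * k) ≤ E)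
    (hd : E ^ (5 * k ^ 2 + 6 * k + 2) ≤ X) :
    (2 * 9 ^ k) ^ tm * (2 ^ k * k * (4 * X) ^ k * (2 * W ^ k) ^ k *
      (X ^ (4 * k) * E ^ (4 * k + 1))) ≤ X ^ (7 * k) := by
  have a1 : (4 * X) ^ k ≤ (E * X) ^ k :=
    pow_le_pow_left₀ (by positivity) (mul_le_mul_of_nonneg_right hE (by linarith)) k
  have a2 : (2 * W ^ k) ^ k ≤ (E * (E ^ 5) ^ k) ^ k :=
    pow_le_pow_left₀ (by positivity)
      (mul_le_mul (by linarith) (pow_le_pow_left₀ hW0 hW k) (by positivity) (by linarith)) k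
  have E0 : 0 ≤ E := by linarith
  have h0 : 0 ≤ X ^ (4 * k) * E ^ (4 * k + 1) := by positivity
  have a3 := mul_le_mul hc (mul_le_mul_of_nonneg_right
    (mul_le_mul a1 a2 (by positivity) (by positivity)) h0) (by positivity) E0
  have e1 : E * ((E * X) ^ k * (E * (E ^ 5) ^ k) ^ k * (X ^ (4 * k) * E ^ (4 * k + 1))) =
      X ^ (5 * k) * E ^ (5 * k ^ 2 + 6 * k + 2) := by
    simp only [mul_pow, ← pow_mul]
    ring
  rw [e1] at a3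
  have a4 : X ^ (5 * k) * X ≤ X ^ (7 * k) := by
    rw [← pow_succ]
    exact pow_le_pow_right₀ hX (by omega)
  refine le_trans (le_of_eq (by ring)) (a3.trans
    ((mul_le_mul_of_nonneg_left hd (by positivity)).trans a4))

theorem one_le_T {E X W : ℝ} {k : ℕ} (hk : 1 ≤ k) (hE : 1 ≤ E) (hX : 1 ≤ X) (hW : 1 ≤ W) :
    1 ≤ 2 ^ k * k * (4 * X) ^ k * (2 * W ^ k) ^ k * (X ^ (4 * k) * E ^ (4 * k + 1)) := by
  have k1 : (1 : ℝ) ≤ k := by exact_mod_cast hk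
  have a1 : 1 ≤ W ^ k := one_le_pow₀ hW
  exact one_le_mul_of_one_le_of_one_le (one_le_mul_of_one_le_of_one_le
    (one_le_mul_of_one_le_of_one_le
      (one_le_mul_of_one_le_of_one_le (one_le_pow₀ (by norm_num)) k1)
      (one_le_pow₀ (by linarith))) (one_le_pow₀ (by linarith)))
    (one_le_mul_of_one_le_of_one_le (one_le_pow₀ hX) (one_le_pow₀ hE))

theorem fine {X κ κ1 y k : ℝ} (hX : 1 ≤ X) (hk : 0 ≤ k) (h1 : κ1 = X ^ (-(7 * k + 4)))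
    (hκ : 1 / X ≤ κ) (hy : y ≤ X) : 3 * κ + y * κ1 ≤ 4 * κ := by
  have X0 : 0 < X := by linarith
  have a1 : κ1 ≤ X ^ (-(2 : ℝ)) := by
    rw [h1]
    exact Real.rpow_le_rpow_of_exponent_le hX (by linarith)
  have a0 : 0 ≤ κ1 := by
    rw [h1]
    positivity
  have a2 : X * X ^ (-(2 : ℝ)) = 1 / X := by
    rw [Real.rpow_neg X0.le, Real.rpow_two]
    field_simp
  have a3 : y * κ1 ≤ X * X ^ (-(2 : ℝ)) := mul_le_mul hy a1 a0 X0.le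
  linarith

theorem four {K l κ : ℝ} (hK : 33 ≤ K) (hl : K ≤ l) (hκ : 0 < κ) (h : K * l * κ ≤ 1) :
    4 * κ ≤ 1 := by
  have a1 : 4 ≤ K * l := by nlinarith
  exact (mul_le_mul_of_nonneg_right a1 hκ.le).trans h

theorem lin {K r n E : ℝ} (hK : 33 ≤ K) (hr : r + 1 ≤ K) (hn : 1 ≤ n) (h : K * (n + 1) ≤ E) :
    K ≤ E ∧ 2 * n + r ≤ E ∧ 33 * (n + 1) ≤ E ∧ 4 * n + 2 ≤ E := by
  have a1 : 33 * n ≤ K * n := mul_le_mul_of_nonneg_right hK (by linarith)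
  refine ⟨?_, ?_, ?_, ?_⟩ <;> nlinarith

end LevX2J

open LevX2J in
theorem st_LevX2 (hB : BasSt) (hR2 : Reg2St) (hS : Seed2St) (hL : Lev2St) : LevX2St := by
  intro k c hk hc
  obtain ⟨c', c0, c1, c2⟩ : ∃ c' : ℝ, 0 < c' ∧ c' ≤ c ∧ c' ≤ 1 / 4 :=
    ⟨min c (1 / 4), lt_min hc (by norm_num), min_le_left _ _, min_le_right _ _⟩
  obtain ⟨d, d1, d2, d3⟩ : ∃ d : ℕ, 3 ≤ d ∧ 5 * k ^ 3 + 1 ≤ d ∧ 5 * k ^ 2 + 6 * k + 2 ≤ d :=
    ⟨3 + (5 * k ^ 3 + 1) + (5 * k ^ 2 + 6 * k + 2), by omega, by omega, by omega⟩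
  have d0 : (0 : ℝ) < d := by exact_mod_cast (show 0 < d by omega)
  have e0 : 0 < c' / d := div_pos c0 d0
  obtain ⟨A, A1, hA⟩ := hR2.fact 4 (c' / d) (by norm_num) e0
  refine ⟨c' / d, A, e0, A1, fun tm C D htm hD => ?_⟩
  obtain ⟨K, K1, K2, K3, K4⟩ : ∃ K : ℝ, 33 ≤ K ∧ 32 * (k : ℝ) ≤ K ∧
      (2 * 9 ^ k) ^ tm * (2 ^ k * (k : ℝ)) ≤ K ∧ 2 * 9 ^ k + 1 ≤ K := by
    have a1 : (0 : ℝ) ≤ 32 * (k : ℝ) := by positivity
    have a2 : (0 : ℝ) ≤ (2 * 9 ^ k) ^ tm * (2 ^ k * (k : ℝ)) := by positivity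
    have a3 : (0 : ℝ) ≤ 2 * 9 ^ k + 1 := by positivity
    exact ⟨33 + 32 * (k : ℝ) + (2 * 9 ^ k) ^ tm * (2 ^ k * (k : ℝ)) + (2 * 9 ^ k + 1),
      by linarith, by linarith, by linarith, by linarith⟩
  obtain ⟨X1, h1⟩ := hR2.base C D K hD
  obtain ⟨X2, h2⟩ := hR2.pw C D (c' / d) (k * tm) e0
  obtain ⟨X3, h3⟩ := hA C D K hD (by linarith)
  refine ⟨max X1 (max X2 X3), fun X hX π N E φ Λ cls ρ Y ε R pk pN hReg hI r0 r1 hLv hRay hε hRX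
    hW hC Y2 hpos => ?_⟩
  obtain ⟨b1, b2, b3, b4, -, b6, b7, -, b9⟩ := h1 X (le_trans (le_max_left _ _) hX) π A A1 hReg
  have s1 := h2 X (le_trans (le_trans (le_max_left _ _) (le_max_right _ _)) hX) π A hReg
  have f0 := h3 X (le_trans (le_trans (le_max_right _ _) (le_max_right _ _)) hX) π hReg
  clear h1 h2 h3 hX hA
  subst pk
  have X1' : 1 < X := by linarith
  have X0 : 0 < X := by linarith
  have P0 : 0 < π.P := by linarith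
  obtain ⟨-, p2⟩ := LevX.P_le P0 (show 1 ≤ K by linarith) (show 1 ≤ Real.log X by linarith)
    (by linarith) b6
  obtain ⟨n, n1, n2, n3, n4⟩ := LevX.steps (show 4 ≤ Real.log π.P by linarith) p2
  obtain ⟨f1, f2⟩ := f0 n (by linarith)
  have s2 : (X ^ (c' / d)) ^ d = X ^ c' := by
    rw [← Real.rpow_natCast, ← Real.rpow_mul X0.le, div_mul_cancel₀ _ d0.ne']
  generalize X ^ (c' / d) = Ee at s1 s2 f1 f2 hW
  have n0 : (1 : ℝ) ≤ n := by exact_mod_cast n1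
  have g3 := LevX.lin_le n1 (show 1 ≤ K by linarith) f2
  obtain ⟨E1, l1, l2, l3⟩ := lin K1 K4 n0 g3
  have E2 : 2 ≤ Ee := by linarith
  have p1 : π.P ≤ Ee := by
    have a1 : 2 * π.P ≤ (2 * π.P) ^ (π.k * tm) :=
      le_self_pow₀ (by linarith) (Nat.mul_pos hk htm).ne'
    linarith
  have q1 : X ^ c' ≤ X ^ (1 / 4 : ℝ) := Real.rpow_le_rpow_of_exponent_le X1'.le c2
  have q2 : ∀ j ≤ d, Ee ^ j ≤ X ^ c' := fun j hj =>
    (pow_le_pow_right₀ (by linarith) hj).trans s2.le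
  have q3 : X ^ c' ≤ X := Real.rpow_le_self_of_one_le X1'.le (by linarith)
  have q4 : Ee ≤ X := by
    have a1 := (q2 1 (by omega)).trans q3
    rwa [pow_one] at a1
  have g2 := LevX.fac_le (show 4 ≤ K by linarith) f2
  have g1 := LevX.rat_le (show 2 ≤ K by linarith) P0.le (Nat.cast_nonneg _) f1
  have g5 := LevX.pow_pp X1' P0 b7 n2
  have g6 := LevX.pow_P X0 P0 p1 (LevX.two_le g2) n3
  have k1 : (1 : ℝ) ≤ π.k := by exact_mod_cast hk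
  have κ1 := hB.κ1_pos π hReg.ok
  have κ2 := hB.κ1_le π hReg.ok
  have κ0 : 0 < π.κ := κ1.trans_le κ2
  have w1 : (#(univ.image cls) : ℝ) ≤ Ee / π.κ := by
    rw [le_div_iff₀ κ0, mul_comm]
    exact hW
  have F1 : (0 : ℝ) < 4 ^ n := by positivity
  have F2 : (0 : ℝ) < (n.factorial : ℝ) ^ 2 := by positivity
  obtain ⟨Wd, W1, W2⟩ := wd E2
  have W0 : (1 : ℝ) ≤ Wd := le_trans (le_add_of_nonneg_left (by positivity)) W1
  have R0 : 0 < R := by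
    have h : (0 : ℝ) < R := lt_of_lt_of_le (by positivity) hRX
    exact_mod_cast h
  have t1 : 2 * (2 * (n : ℝ) + 2) * π.κ1 ≤ 1 := LevX.aux3 K1 n0 n4 κ1 κ2 b9
  have t0 : 2 * π.κ1 ≤ 1 :=
    le_trans (mul_le_mul_of_nonneg_right (by linarith) κ1.le) t1
  have t2 := many (k := π.k) E2 X0 (by linarith) F1 F2 g2 hReg.κlo ((q2 3 d1).trans q3) g5
  have t3 := width (k := π.k) (by linarith) F1 F2 g2 κ0 (lt_trans (by positivity) g5)
    (by positivity) g1 (K2.trans E1)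
  have t4 := e0_le (k := π.k) E2 X0 hReg.κlo P0.le l1 l2 g6
  have t5 : 3 * π.κ + (4 * (n : ℝ) + 2) * π.κ1 ≤ 4 * π.κ := by
    refine fine X1'.le (Nat.cast_nonneg π.k) ?_ hReg.κlo (l3.trans q4)
    rw [Par.κ1, pN, hReg.κ0, Nat.cast_one, one_mul]
  obtain ⟨E', γ, τ, r2, r3, r4, r5⟩ := hL π N E φ ρ ε Y _ _ (X ^ c') (X ^ (7 * π.k)) R tm
    hReg.ok hI r1 R0 hLv hRay htm hε t0 (fun x => (hpos x).1) (by positivity)
    (one_le_T hk (show 1 ≤ Ee by linarith) X1'.le W0)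
    (fun E' hE' hr => hS π N E' φ Λ cls ρ (2 * 9 ^ π.k) (3 * π.κ) (4 * π.κ) (Ee / π.κ) (4 * X) _ _
      R n Wd hReg.ok (hB.mono π N E E' hI hE') r0 r1 (by positivity) R0
      (fun e he => hLv e (hE' he)) hr w1 hC n1 t1 t5 (four K1 b2 κ0 b9) (fun x => (hpos x).2)
      le_rfl t2 ((add_le_add t3 le_rfl).trans W1) t4)
    ((Q_le (by linarith) (by positivity) s1 (Nat.cast_nonneg _) W2).trans (q2 _ d2))
    (T_le hk (by linarith) X1'.le (Nat.cast_nonneg _) W2 (K3.trans E1) ((q2 _ d3).trans q3))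
    (LevX.last X1' (by positivity) q1 (by positivity) (K4.trans b1) Y2 hRX)
  exact ⟨E', γ, τ, r2, r3, LevX.dec_mono r4 (Real.rpow_le_rpow_of_exponent_le X1'.le c1), r5⟩

end Pool.Agent.Lib.MP_028aa5_nt.U
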