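import Pool.Agent.Lib.MP_028aa5_nt.U.St1

/-! Pairs of light edges. -/

namespace Pool.Agent.Lib.MP_028aa5_nt.U

open Finset T
open scoped Classical

namespace LightJ

theorem sf {ι : Type} (s : Finset ι) (a : ι → ℝ) (p q : ι → Prop) (i : DecidablePred p)
    (j : DecidablePred q) (h : ∀ x ∈ s, p x ↔ q x) :
    ∑ x ∈ @filter _ p i s, a x = ∑ x ∈ @filter _ q j s, a x := by
  refine sum_congr ?_ fun _ _ => rfl
  ext x
  simp only [mem_filter]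
  exact and_congr_right (h x)

theorem mem_prs {T : Sys} {σ : Sm T} {u : σ.ι × σ.ι} (h : u ∈ σ.prs) :
    u.1 ∈ σ.s ∧ u.2 ∈ σ.s ∧ σ.w u.1 = σ.w u.2 := by
  unfold Sm.prs at h
  simp only [mem_filter, mem_product] at h
  exact ⟨h.1.1, h.1.2, h.2⟩

theorem light {T : Sys} {σ : Sm T} {K : ℝ} {x : σ.ι} (h : ¬σ.hi K x) :
    #T.PP * σ.μ x ≤ K * σ.mU (σ.y x) ∧ #T.PP * σ.μ x ≤ K * σ.mL (σ.w x) := by
  unfold Sm.hi at h
  rw [not_or, not_lt, not_lt] at h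
  exact h

theorem pt (hE : EntSt) (hS : SmSt) (T : Sys) (σ : Sm T) (E0 : Finset (T.Ω × ℕ)) (j : ℕ) (Ml K : ℝ)
    (z : T.Ω) (p r : ℕ) (B : Finset (σ.ι × σ.ι)) (hP : T.PP.Nonempty) (hI : σ.Inv E0 j Ml)
    (hB : B ⊆ σ.prs) (h : ∀ u ∈ B, ¬σ.hi (K ^ 2) u.1 ∧ ¬σ.hi (K ^ 2) u.2 ∧
      σ.y u.2 = z ∧ σ.p u.1 = p ∧ σ.p u.2 = r) :
    ∑ u ∈ B, σ.pw u ≤ K ^ 4 / #T.PP ^ 2 * σ.mU z := by
  have hpp : (0 : ℝ) < #T.PP := by exact_mod_cast hP.card_pos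
  have hU : 0 ≤ σ.mU z := hE.nonneg _ _ _ _ fun x hx => (hI.pos x hx).le
  rcases B.eq_empty_or_nonempty with rfl | ⟨u0, hu0⟩
  · rw [sum_empty]; positivity
  obtain ⟨m1, m2, m3⟩ := mem_prs (hB hu0)
  obtain ⟨l1, l2, e1, e2, e3⟩ := h u0 hu0
  have h1 := hS.prod T σ (fun x => σ.w x = σ.w u0.1 ∧ σ.p x = σ.p u0.1)
    (fun x => (σ.y x, σ.p x) = (σ.y u0.2, σ.p u0.2)) (σ.w u0.1) B hI.pos hB (by
      intro u hu
      obtain ⟨-, -, n3⟩ := mem_prs (hB hu)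
      obtain ⟨-, -, f1, f2, f3⟩ := h u hu
      have hw : σ.w u.1 = σ.w u0.1 := by
        rw [n3, m3]; unfold Sm.w; rw [f1, f3, e1, e3]
      exact ⟨⟨hw, by rw [f2, e2]⟩, by rw [f1, f3, e1, e3], hw⟩)
  have h2 := hS.par T σ E0 j Ml hI u0.1 m1
  rw [sf σ.s σ.a _ _ _ _ (fun _ _ => Iff.rfl), h2] at h1
  have h3 : ∀ i : DecidablePred fun x => (σ.y x, σ.p x) = (σ.y u0.2, σ.p u0.2),
      ∑ x ∈ @filter _ _ i σ.s, σ.a x = σ.μ u0.2 := fun i => sf _ _ _ _ _ _ fun _ _ => Iff.rfl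
  rw [h3] at h1
  obtain ⟨p1, -, p2⟩ := hS.pos T σ hI.pos u0.1 m1
  obtain ⟨p3, -, -⟩ := hS.pos T σ hI.pos u0.2 m2
  have k1 := (light l1).2
  have k2 := (light l2).1
  rw [e1] at k2
  have hL : 0 < σ.mL (σ.w u0.1) := p1.trans_le p2
  refine h1.trans ?_
  rw [div_le_iff₀ hL, div_mul_eq_mul_div, div_mul_eq_mul_div, le_div_iff₀ (by positivity)]
  have := mul_le_mul k1 k2 (by positivity) (by positivity)
  calc σ.μ u0.1 * σ.μ u0.2 * #T.PP ^ 2 = #T.PP * σ.μ u0.1 * (#T.PP * σ.μ u0.2) := by ring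
    _ ≤ _ := this
    _ = _ := by ring

theorem st (hE : EntSt) (hS : SmSt) (T : Sys) (σ : Sm T) (E0 : Finset (T.Ω × ℕ)) (j : ℕ) (Ml K : ℝ)
    (b : T.Λ) (p r : ℕ) (B : Finset (σ.ι × σ.ι)) (hP : T.PP.Nonempty) (hI : σ.Inv E0 j Ml)
    (hB : B ⊆ σ.prs) (h : ∀ u ∈ B, ¬σ.hi (K ^ 2) u.1 ∧ ¬σ.hi (K ^ 2) u.2 ∧
      T.S (σ.y u.1) = b ∧ σ.p u.1 = p ∧ σ.p u.2 = r) :
    ∑ u ∈ B, σ.pw u ≤ K ^ 4 / #T.PP ^ 2 * fm σ.s σ.a (fun x => T.S (σ.y x)) b := by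
  have h1 := sum_fiberwise_of_maps_to (s := B) (t := B.image fun u => σ.y u.1)
    (g := fun u => σ.y u.1) (fun u hu => mem_image_of_mem _ hu) σ.pw
  have h2 : ∀ t ∈ B.image fun u => σ.y u.1,
      ∑ u ∈ B with σ.y u.1 = t, σ.pw u ≤ K ^ 4 / #T.PP ^ 2 * σ.mU t := by
    intro t _
    have h3 := pt hE hS T σ E0 j Ml K t r p (({u ∈ B | σ.y u.1 = t}).image Prod.swap) hP hI (by
      intro v hv
      obtain ⟨u, hu, rfl⟩ := mem_image.1 hv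
      exact (hS.swap_mem T σ u (hB (mem_filter.1 hu).1)).1) (by
      intro v hv
      obtain ⟨u, hu, rfl⟩ := mem_image.1 hv
      obtain ⟨hu1, hu2⟩ := mem_filter.1 hu
      obtain ⟨a1, a2, -, a4, a5⟩ := h u hu1
      exact ⟨a2, a1, hu2, a5, a4⟩)
    rw [sum_image fun a _ b _ hab => Prod.swap_injective hab] at h3
    refine le_of_eq_of_le (sum_congr rfl fun u hu => ?_) h3
    exact (hS.swap_mem T σ u (hB (mem_filter.1 hu).1)).2.symm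
  have h4 := hE.fib σ.s σ.a σ.y T.S (B.image fun u => σ.y u.1) b (fun x hx => (hI.pos x hx).le) (by
    intro t ht
    obtain ⟨u, hu, rfl⟩ := mem_image.1 ht
    exact (h u hu).2.2.1)
  rw [← h1]
  refine (sum_le_sum h2).trans ?_
  rw [← mul_sum]
  exact mul_le_mul_of_nonneg_left h4 (by positivity)

theorem diag (hS : SmSt) (T : Sys) (σ : Sm T) (E0 : Finset (T.Ω × ℕ)) (j : ℕ) (Ml K Mb : ℝ)
    (hP : T.PP.Nonempty) (hI : σ.Inv E0 j Ml) (hPo : σ.Post K Mb) (hK : 1 ≤ K)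
    (hK3 : K ^ 3 ≤ #T.PP) : ∑ u ∈ σ.prs with σ.p u.1 = σ.p u.2, σ.pw u ≤ 3 / K := by
  have hpp : (0 : ℝ) < #T.PP := by exact_mod_cast hP.card_pos
  have hK0 : 0 < K := by linarith
  have h1 := sum_fiberwise_of_maps_to (s := {u ∈ σ.prs | σ.p u.1 = σ.p u.2}) (t := σ.s)
    (g := Prod.fst) (fun u hu => (mem_prs (mem_filter.1 hu).1).1) σ.pw
  have h2 : ∀ x ∈ σ.s, ∑ u ∈ {u ∈ σ.prs | σ.p u.1 = σ.p u.2} with u.1 = x, σ.pw u ≤
      (if σ.hi (K ^ 2) x then σ.a x else 0) + σ.a x / K := by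
    intro x hx
    have h3 := hS.prod T σ (fun x' => x' = x) (fun x' => σ.w x' = σ.w x ∧ σ.p x' = σ.p x) (σ.w x)
      ({u ∈ {u ∈ σ.prs | σ.p u.1 = σ.p u.2} | u.1 = x}) hI.pos
      (fun u hu => (mem_filter.1 (mem_filter.1 hu).1).1) (by
        intro u hu
        obtain ⟨hu1, hu2⟩ := mem_filter.1 hu
        obtain ⟨hu3, hu4⟩ := mem_filter.1 hu1
        obtain ⟨-, -, m3⟩ := mem_prs hu3
        exact ⟨hu2, ⟨by rw [← m3, hu2], by rw [← hu4, hu2]⟩, by rw [hu2]⟩)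
    have h4 := hS.par T σ E0 j Ml hI x hx
    have h5 : ∀ i : DecidablePred fun x' => σ.w x' = σ.w x ∧ σ.p x' = σ.p x,
        ∑ x' ∈ @filter _ _ i σ.s, σ.a x' = σ.μ x := fun i =>
      (sf _ _ _ _ _ _ fun _ _ => Iff.rfl).trans h4
    have h6 : ∀ i : DecidablePred fun x' => x' = x, ∑ x' ∈ @filter _ _ i σ.s, σ.a x' = σ.a x := by
      intro i
      have : @filter _ _ i σ.s = {x} := by
        ext y
        simp only [mem_filter, mem_singleton]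
        exact ⟨fun h => h.2, fun h => ⟨h ▸ hx, h⟩⟩
      rw [this, sum_singleton]
    rw [h5, h6] at h3
    obtain ⟨p1, -, p2⟩ := hS.pos T σ hI.pos x hx
    have hL : 0 < σ.mL (σ.w x) := p1.trans_le p2
    have ha := hI.pos x hx
    refine h3.trans ?_
    split_ifs with hh
    · have : σ.a x * σ.μ x / σ.mL (σ.w x) ≤ σ.a x := by
        rw [div_le_iff₀ hL]; exact mul_le_mul_of_nonneg_left p2 ha.le
      have : 0 ≤ σ.a x / K := by positivity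
      linarith
    · have k1 := (light hh).2
      have k2 : K * σ.μ x ≤ σ.mL (σ.w x) := by
        have k3 : K ^ 2 * (K * σ.μ x) ≤ K ^ 2 * σ.mL (σ.w x) :=
          calc K ^ 2 * (K * σ.μ x) = K ^ 3 * σ.μ x := by ring
            _ ≤ #T.PP * σ.μ x := mul_le_mul_of_nonneg_right hK3 p1.le
            _ ≤ _ := k1
        exact le_of_mul_le_mul_left k3 (by positivity)
      rw [zero_add, div_le_div_iff₀ hL hK0, mul_assoc]
      exact mul_le_mul_of_nonneg_left (by linarith) ha.le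
  rw [← h1]
  refine (sum_le_sum h2).trans ?_
  rw [sum_add_distrib, ← sum_filter, ← sum_div]
  have h7 := hPo.2
  have h8 : (∑ x ∈ σ.s, σ.a x) / K ≤ 1 / K := div_le_div_of_nonneg_right hI.tot hK0.le
  have h9 : (3 : ℝ) / K = 2 / K + 1 / K := by ring
  rw [h9]
  exact add_le_add h7 h8

end LightJ

theorem st_Light (hE : EntSt) (hS : SmSt) : LightSt :=
  ⟨LightJ.pt hE hS, LightJ.st hE hS, LightJ.diag hS⟩

end Pool.Agent.Lib.MP_028aa5_nt.U
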