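import Pool.Agent.Lib.MP_028aa5_nt.U.St2

/-! Counting lists, and the choice of the length of the chains. -/

namespace Pool.Agent.Lib.MP_028aa5_nt.U

open Finset T
open scoped Classical

namespace ListJ

theorem all (α : Type) (B : Finset α) (g : ℕ) (L : Finset (List α))
    (h : ∀ l ∈ L, l.length = g ∧ ∀ x ∈ l, x ∈ B) : #L ≤ #B ^ g := by
  induction g generalizing L with
  | zero =>
    rw [pow_zero]
    refine card_le_one.2 fun l hl l' hl' => ?_
    rw [List.length_eq_zero_iff.1 (h l hl).1, List.length_eq_zero_iff.1 (h l' hl').1]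
  | succ g ih =>
    have h1 : #(L.image List.tail) ≤ #B ^ g := by
      refine ih _ fun t ht => ?_
      obtain ⟨l, hl, rfl⟩ := mem_image.1 ht
      exact ⟨by rw [List.length_tail, (h l hl).1]; rfl,
        fun x hx => (h l hl).2 x (List.mem_of_mem_tail hx)⟩
    have h2 : L ⊆ image₂ List.cons B (L.image List.tail) := by
      intro l hl
      cases l with
      | nil => exact absurd (h _ hl).1 (by simp)
      | cons x t =>
        exact mem_image₂_of_mem ((h _ hl).2 x (by simp)) (mem_image.2 ⟨x :: t, hl, rfl⟩)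
    calc #L ≤ #B * #(L.image List.tail) := (card_le_card h2).trans (card_image₂_le _ _ _)
      _ ≤ #B * #B ^ g := Nat.mul_le_mul_left _ h1
      _ = #B ^ (g + 1) := by ring

theorem cover (PP U : Finset ℕ) (h : ℕ) (hP : PP.Nonempty) (hU : U ⊆ PP) (hc : #U ≤ h) :
    ∃ w ∈ Fintype.piFinset fun _ : Fin h => PP, U ⊆ univ.image w := by
  obtain ⟨p0, hp0⟩ := hP
  refine ⟨fun i => U.toList.getD i p0, Fintype.mem_piFinset.2 fun i => ?_, fun q hq => ?_⟩
  · by_cases hi : (i : ℕ) < U.toList.length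
    · rw [List.getD_eq_getElem _ _ hi]
      exact hU (mem_toList.1 (List.getElem_mem hi))
    · rw [List.getD_eq_default _ _ (not_lt.1 hi)]
      exact hp0
  · obtain ⟨i, hi, rfl⟩ := List.getElem_of_mem (mem_toList.2 hq)
    have hi' : i < h := by rw [length_toList] at hi; omega
    exact mem_image.2 ⟨⟨i, hi'⟩, mem_univ _, List.getD_eq_getElem _ _ hi⟩

theorem two_mul_le (l : List ℕ) : 2 * #{q ∈ l.toFinset | 2 ≤ l.count q} ≤ l.length := by
  rw [← List.sum_toFinset_count_eq_length l, mul_comm]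
  refine le_trans ?_ (sum_le_sum_of_subset (filter_subset (fun q => 2 ≤ l.count q) _))
  have := card_nsmul_le_sum {q ∈ l.toFinset | 2 ≤ l.count q} (fun q => l.count q) 2
    fun q hq => (mem_filter.1 hq).2
  simpa using this

theorem rep (PP B : Finset ℕ) (g : ℕ) (L : Finset (List ℕ)) (hP : PP.Nonempty) (hB : #B ≤ 3 * g)
    (h : ∀ l ∈ L, l.length = g ∧ ∀ q ∈ l, q ∈ PP ∧ (l.count q = 1 → q ∈ B)) :
    #L ≤ #PP ^ (g / 2) * (4 * g) ^ g := by
  have h1 : L ⊆ (Fintype.piFinset fun _ : Fin (g / 2) => PP).biUnion fun w =>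
      {l ∈ L | ∀ q ∈ l, q ∈ B ∪ univ.image w} := by
    intro l hl
    have h2 := two_mul_le l
    rw [(h l hl).1] at h2
    obtain ⟨w, hw, hU⟩ := cover PP {q ∈ l.toFinset | 2 ≤ l.count q} (g / 2) hP
      (fun q hq => ((h l hl).2 q (List.mem_toFinset.1 (mem_filter.1 hq).1)).1) (by omega)
    refine mem_biUnion.2 ⟨w, hw, mem_filter.2 ⟨hl, fun q hq => ?_⟩⟩
    have h3 : 0 < l.count q := List.count_pos_iff.2 hq
    by_cases h4 : l.count q = 1
    · exact mem_union_left _ (((h l hl).2 q hq).2 h4)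
    · exact mem_union_right _ (hU (mem_filter.2 ⟨List.mem_toFinset.2 hq, by omega⟩))
  refine (card_le_card h1).trans ((card_biUnion_le_card_mul _ _ ((4 * g) ^ g) fun w _ => ?_).trans ?_)
  · refine (all ℕ (B ∪ univ.image w) g _ fun l hl => ⟨(h l (mem_filter.1 hl).1).1,
      (mem_filter.1 hl).2⟩).trans (Nat.pow_le_pow_left ?_ _)
    have h2 := card_union_le B (univ.image w)
    have h3 : #(univ.image w) ≤ g / 2 := card_image_le.trans (by simp)
    omega
  · simp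

end ListJ

theorem st_List : ListSt := ⟨ListJ.all, ListJ.rep⟩

theorem st_Num : NumSt := by
  intro K pp j hK hpp hj
  have h0 : (8 + j) / 4 ≠ 0 := by omega
  have h1 := Nat.pow_log_le_self 2 h0
  have h2 := Nat.lt_pow_succ_log_self (show 1 < 2 by norm_num) ((8 + j) / 4)
  have h3 : 1 ≤ Nat.log 2 ((8 + j) / 4) := Nat.le_log_of_pow_le (by norm_num) (by omega)
  obtain ⟨b, hb⟩ : ∃ b, Nat.log 2 ((8 + j) / 4) = b + 1 := ⟨_, (Nat.sub_add_cancel h3).symm⟩
  rw [hb] at h1 h2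
  have hpos : 1 ≤ 2 ^ b := Nat.one_le_two_pow
  rw [Nat.succ_eq_add_one, pow_succ, pow_succ] at h2
  rw [pow_succ] at h1
  refine ⟨b + 1, 2 * 2 ^ b, by ring, by omega, by omega, ?_⟩
  generalize 2 ^ b = h at h1 h2 hpos
  rw [show 2 * h / 2 = h by omega]
  have hK0 : 0 < K := by linarith
  have hp0 : 0 < pp := lt_of_lt_of_le (by positivity) hpp
  have h4 : (4 : ℝ) * ((2 * h : ℕ) : ℝ) ≤ K := by
    have : ((8 * h : ℕ) : ℝ) ≤ ((8 + j : ℕ) : ℝ) := Nat.cast_le.2 (by omega)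
    push_cast at this ⊢
    have hj0 : (0 : ℝ) ≤ j := Nat.cast_nonneg j
    linarith
  have h5 : (2 : ℝ) * ((2 * h : ℕ) : ℝ) + 2 ≤ K := by
    have : (1 : ℝ) ≤ h := by exact_mod_cast hpos
    push_cast at h4 ⊢
    linarith
  have h6 : (K ^ 10 / pp ^ 3) ^ (2 * h) * (pp ^ (2 * (2 * h)) *
      ((2 * ((2 * h : ℕ) : ℝ) + 2) * K ^ (3 * (j + 1))) *
        (pp ^ h * (4 * ((2 * h : ℕ) : ℝ)) ^ (2 * h))) =
      K ^ (20 * h) * (2 * ((2 * h : ℕ) : ℝ) + 2) * K ^ (3 * (j + 1)) *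
        (4 * ((2 * h : ℕ) : ℝ)) ^ (2 * h) / pp ^ h := by
    rw [div_pow]
    field_simp
    ring
  rw [h6, div_le_one (by positivity)]
  calc K ^ (20 * h) * (2 * ((2 * h : ℕ) : ℝ) + 2) * K ^ (3 * (j + 1)) *
        (4 * ((2 * h : ℕ) : ℝ)) ^ (2 * h)
      ≤ K ^ (20 * h) * K * K ^ (3 * (j + 1)) * K ^ (2 * h) := by gcongr
    _ = K ^ (22 * h + 1 + 3 * (j + 1)) := by ring
    _ ≤ K ^ (70 * h) := pow_le_pow_right₀ hK (by omega)
    _ = (K ^ 70) ^ h := by rw [pow_mul]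
    _ ≤ pp ^ h := by gcongr

end Pool.Agent.Lib.MP_028aa5_nt.U
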