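import Pool.Agent.Lib.MP_028aa5_nt.U.St4
import Pool.Agent.Lib.MP_028aa5_nt.T.Loop
import Pool.Agent.Lib.MP_028aa5_nt.T.Seed

/-! Walks back to a class, and the rational point near the starting vertex. -/

namespace Pool.Agent.Lib.MP_028aa5_nt.U

open Finset T
open scoped Classical

namespace Loop2J

lemma it_nonneg (N : Net) {ν : ℝ} (hν : 0 ≤ ν) (E : Finset N.Ed) (i : ℕ) (u : N.W → ℝ)
    (hu : ∀ x, 0 ≤ u x) (x : N.W) : 0 ≤ (N.opB ν E)^[i] u x := by
  induction i generalizing x with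
  | zero => exact hu x
  | succ i ih =>
    rw [Function.iterate_succ_apply']
    exact mul_nonneg hν (add_nonneg (sum_nonneg fun _ _ => ih _) (sum_nonneg fun _ _ => ih _))

lemma ends (N : Net) (ν : ℝ) (E : Finset N.Ed) (u : N.W → ℝ) (x : N.W)
    (h : N.opB ν E u x ≠ 0) : ∃ e ∈ E, x = N.up e ∨ x = N.lo e := by
  by_contra hn
  push Not at hn
  apply h
  unfold Net.opB
  rw [filter_false_of_mem fun e he h => (hn e he).2 h.symm,
    filter_false_of_mem fun e he h => (hn e he).1 h.symm]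
  simp

lemma sym_sum {ι : Type} (C : Finset ι) (K : ι → ι → ℝ) (w : ι → ℝ) (h0 : ∀ x y, 0 ≤ K x y)
    (hs : ∀ x y, K x y = K y x) :
    ∑ y ∈ C, (∑ x ∈ C, w x * K y x) * w y ≤ ∑ y ∈ C, w y ^ 2 * ∑ x ∈ C, K y x := by
  have h1 : ∑ y ∈ C, ∑ x ∈ C, w x ^ 2 * K y x = ∑ y ∈ C, ∑ x ∈ C, w y ^ 2 * K y x := by
    rw [sum_comm]
    exact sum_congr rfl fun y _ => sum_congr rfl fun x _ => by rw [hs]
  have h2 : 2 * ∑ y ∈ C, (∑ x ∈ C, w x * K y x) * w y ≤
      ∑ y ∈ C, ∑ x ∈ C, w x ^ 2 * K y x + ∑ y ∈ C, ∑ x ∈ C, w y ^ 2 * K y x := by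
    rw [mul_sum, ← sum_add_distrib]
    refine sum_le_sum fun y _ => ?_
    rw [sum_mul, mul_sum, ← sum_add_distrib]
    refine sum_le_sum fun x _ => ?_
    have := mul_nonneg (h0 y x) (sq_nonneg (w x - w y))
    nlinarith
  simp only [mul_sum]
  linarith

/-- some vertex has many walks back to its class -/
lemma diag (hCf : CfSt) (hPF : PFSt) (N : Net) {ν nW : ℝ} (hν : 0 ≤ ν) (E : Finset N.Ed)
    (hR : N.Ray ν E (1 / 2)) {Λ : Type} (cls : N.W → Λ) (hW : #(univ.image cls) ≤ nW) {n : ℕ}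
    (n1 : 1 ≤ n) : 0 < nW ∧ ∃ x, (∃ e ∈ E, x = N.up e ∨ x = N.lo e) ∧ 1 / (4 ^ n * nW) ≤
      ∑ z with cls z = cls x, (N.opB ν E)^[2 * n] (fun y => if y = x then 1 else 0) z := by
  obtain ⟨u, hu, hq⟩ := hR
  have hne : Nonempty N.W := by
    by_contra h
    rw [not_nonempty_iff] at h
    simp at hu
  obtain ⟨w, lam, -, hw, he, hl⟩ := hPF N ν E hν hne
  have h1 : 1 / 2 ≤ lam := le_of_mul_le_mul_right (hq.trans (hl u)) hu
  have h2 : ∀ i x, (N.opB ν E)^[i] w x = lam ^ i * w x := by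
    intro i
    induction i with
    | zero => simp
    | succ i ih =>
      intro x
      have e : N.opB ν E w = fun y => lam * w y + 0 * w y := funext fun y => by
        rw [he, zero_mul, add_zero]
      rw [Function.iterate_succ_apply, e, hCf.linB, ih, zero_mul, add_zero, pow_succ', mul_assoc]
  have hi : (univ.image cls).Nonempty := univ_nonempty.image _
  have h4 : (0 : ℝ) < #(univ.image cls) := by exact_mod_cast hi.card_pos
  have h5 := h4.trans_le hW
  refine ⟨h5, ?_⟩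
  obtain ⟨c, -, hc⟩ := exists_le_of_sum_le (s := univ.image cls) (f := fun _ => 1 / nW)
    (g := fun c => ∑ y with cls y = c, w y ^ 2) hi (by
      rw [sum_fiberwise_of_maps_to fun y hy => mem_image_of_mem cls hy, hw, sum_const,
        nsmul_eq_mul, mul_one_div, div_le_one h5]
      exact hW)
  obtain ⟨C, hC⟩ : ∃ C : Finset N.W, C = univ.filter fun y => cls y = c := ⟨_, rfl⟩
  rw [← hC] at hc
  have hm : ∀ y, y ∈ C ↔ cls y = c := fun y => by simp [hC]
  have a0 : 0 < ∑ y ∈ C, w y ^ 2 := lt_of_lt_of_le (by positivity) hc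
  have hCn : C.Nonempty := nonempty_of_sum_ne_zero a0.ne'
  obtain ⟨K, hK⟩ : ∃ K : N.W → N.W → ℝ,
    K = fun x z => (N.opB ν E)^[2 * n] (fun y => if y = x then 1 else 0) z := ⟨_, rfl⟩
  have k0 : ∀ x z, 0 ≤ K x z := fun x z => by
    rw [hK]
    exact it_nonneg N hν E _ _ (fun y => by split_ifs <;> norm_num) z
  have k1 : ∀ (v : N.W → ℝ) y, (N.opB ν E)^[2 * n] v y = ∑ x, v x * K y x := fun v y => by
    have e1 := hCf.adjB N ν E v (fun z => if z = y then 1 else 0) 0 (2 * n)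
    simp only [mul_ite, mul_one, mul_zero, sum_ite_eq', mem_univ, if_true, zero_add,
      Function.iterate_zero, id] at e1
    rw [← e1, hK]
  have k2 : ∀ x z, K x z = K z x := fun x z => by
    have e1 := k1 (fun y => if y = x then 1 else 0) z
    simp only [ite_mul, one_mul, zero_mul, sum_ite_eq', mem_univ, if_true] at e1
    rw [← e1, hK]
  obtain ⟨x, hx, hmax⟩ := exists_max_image C (fun y => ∑ z ∈ C, K y z) hCn
  have h6 : (lam ^ n * ∑ y ∈ C, w y ^ 2) ^ 2 ≤ (∑ y ∈ C, w y ^ 2) * ∑ z ∈ C, K x z := by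
    have e1 := hCf.adjB N ν E w (fun y => if y ∈ C then w y else 0) 0 n
    have e2 := hCf.adjB N ν E (fun y => if y ∈ C then w y else 0)
      (fun y => if y ∈ C then w y else 0) n n
    simp only [← two_mul, k1, ← pow_two, mul_ite, ite_mul, mul_zero, zero_mul, sum_ite_mem,
      univ_inter] at e2
    simp only [zero_add, h2, pow_zero, one_mul, mul_ite, mul_zero, sum_ite_mem, univ_inter,
      mul_assoc, ← pow_two, ← mul_sum] at e1
    rw [← e1]
    refine (sum_mul_sq_le_sq_mul_sq _ _ _).trans ?_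
    rw [hw, one_mul, e2, sum_mul]
    exact (sym_sum C K w k0 k2).trans (sum_le_sum fun y hy =>
      mul_le_mul_of_nonneg_left (hmax y hy) (sq_nonneg _))
  have h7 : 1 / (4 ^ n * nW) ≤ ∑ z ∈ C, K x z := by
    refine le_of_mul_le_mul_left (le_trans ?_ h6) a0
    rw [mul_pow, pow_two (∑ y ∈ C, w y ^ 2), mul_left_comm]
    refine mul_le_mul_of_nonneg_left ?_ a0.le
    calc 1 / (4 ^ n * nW) = ((1 / 2) ^ n) ^ 2 * (1 / nW) := by
          rw [← pow_mul, mul_comm n, pow_mul, show ((1 : ℝ) / 2) ^ 2 = 1 / 4 by norm_num,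
            one_div_pow, div_mul_div_comm, one_mul]
      _ ≤ _ := by gcongr
  refine ⟨x, ?_, ?_⟩
  · obtain ⟨z, -, hz⟩ := exists_ne_zero_of_sum_ne_zero
      (lt_of_lt_of_le (by positivity) h7).ne'
    rw [k2, hK, show 2 * n = (2 * n - 1) + 1 by omega] at hz
    simp only [Function.iterate_succ_apply'] at hz
    exact ends N ν E _ x hz
  · rw [(hm x).1 hx, ← hC]
    rw [hK] at h7
    exact h7

end Loop2J

open Loop2J

theorem st_Loop2 (hN : NSt) (hN2 : N2St) (hB : BasSt) (hCf : CfSt) (hPF : PFSt) (hW : WalkSt)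
    (hI : InvSt) (hA : AbSt) : Loop2St := by
  intro π N E φ Λ' cls R ρ r u nW n ok hE ρ0 ρ1 r0 hR hLv hRay hcard hCla n1 hκ
  have hν := (hB.ν_pos π ok).le
  have hκ1 := hB.κ1_pos π ok
  have hκ0 : 0 < π.κ := hκ1.trans_le (hB.κ1_le π ok)
  have hP : (0 : ℝ) < #π.PP := by exact_mod_cast ok.ne.card_pos
  have hP1 : 1 ≤ 2 * π.P := by linarith [ok.P]
  obtain ⟨hnW, x, ⟨e, he, hxe⟩, hx⟩ := diag hCf hPF N hν E hRay cls hcard n1
  let T : N.Ed → Unit ≃ Unit := fun _ => Equiv.refl _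
  let F : N.W → Unit → ℝ := fun y _ => if y = x then 1 else 0
  have hF : ∀ y d, 0 ≤ F y d := fun y d => by
    simp only [F]
    split_ifs <;> norm_num
  let Λ := {l ∈ Fintype.piFinset fun _ : Fin (2 * n) => π.PP |
    ∑ z with cls z = cls x, N.opL π.ν E T (List.ofFn l) F z () ≠ 0}
  have h1 : 1 / (4 ^ n * nW) ≤ #Λ * (1 / (#π.PP : ℝ)) ^ (2 * n) := by
    refine hx.trans ?_
    have e : ∀ z, (N.opB π.ν E)^[2 * n] (fun y => if y = x then 1 else 0) z =
        ∑ l ∈ Fintype.piFinset fun _ : Fin (2 * n) => π.PP,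
          N.opL π.ν E T (List.ofFn l) F z () := fun z => by
      have e := hW.projI N Unit π.ν E T (2 * n) F z
      simp only [univ_unique, sum_singleton] at e
      exact e.symm.trans (hW.exp N Unit π.ν E T π.PP (2 * n) F z () hE.pr)
    rw [sum_congr rfl fun z _ => e z, sum_comm, ← sum_filter_ne_zero, ← nsmul_eq_mul]
    refine sum_le_card_nsmul _ _ _ fun l _ => ?_
    have h2 := hW.mass π N Unit E T (List.ofFn l) F ok hE hF
    simp only [univ_unique, sum_singleton, List.length_ofFn] at h2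
    refine (sum_le_sum_of_subset_of_nonneg (filter_subset _ _)
      fun y _ _ => hW.nonneg N Unit π.ν E T _ F hν hF y ()).trans (h2.trans_eq ?_)
    simp [F]
  have hΛ : Λ.Nonempty := by
    rw [← card_pos]
    by_contra h
    rw [Nat.eq_zero_of_not_pos h, Nat.cast_zero, zero_mul] at h1
    exact absurd h1 (not_le.2 (by positivity))
  have hfac : (0 : ℝ) < n.factorial := by exact_mod_cast n.factorial_pos
  obtain ⟨b, A, h2, ⟨l0, hl0, hb⟩, h3⟩ := LoopJ.pigeon Λ hΛ (fun l => ab (N.isU x) (List.ofFn l))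
    (K := #π.PP ^ n) (L := n.factorial ^ 2) (c := #π.PP ^ n / (4 ^ n * nW * n.factorial ^ 2))
    (by exact_mod_cast (card_le_card (image_subset_image (filter_subset _ _))).trans
          (hA.ab_img (N.isU x) π.PP n))
    (fun a b => by
      exact_mod_cast (card_le_card (filter_subset_filter _ (filter_subset _ _))).trans
        (hA.ab_fib (N.isU x) π.PP n a b fun p hp => (ok.pr p hp).1))
    (by positivity) (by positivity) (by
      rw [one_div_pow, mul_one_div, le_div_iff₀ (by positivity)] at h1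
      refine le_of_eq_of_le ?_ h1
      rw [two_mul, pow_add]
      field_simp)
  have h4 : ∀ l ∈ Λ, 0 < (ab (N.isU x) (List.ofFn l)).1 ∧ 0 < (ab (N.isU x) (List.ofFn l)).2 ∧
      (ab (N.isU x) (List.ofFn l)).1 ≤ (2 * π.P) ^ n ∧
      (ab (N.isU x) (List.ofFn l)).2 ≤ (2 * π.P) ^ n := by
    intro l hl
    have h := hA.ab_le (N.isU x) (List.ofFn l) (2 * π.P) hP1 fun p hp => by
      obtain ⟨i, rfl⟩ := List.mem_ofFn.1 hp
      have := ok.pr _ (Fintype.mem_piFinset.1 (mem_filter.1 hl).1 i)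
      exact ⟨this.1.pos, this.2.2⟩
    rwa [List.length_ofFn, show (2 * n + 1) / 2 = n by omega] at h
  refine ⟨e, he, x, hxe, b, A, h2, hb ▸ (h4 l0 hl0).2.1, hb ▸ (h4 l0 hl0).2.2.2, fun a ha => ?_⟩
  obtain ⟨l, hl, hab⟩ := h3 a ha
  have h5 := h4 l hl
  obtain ⟨x', hx', hne⟩ := exists_ne_zero_of_sum_ne_zero (mem_filter.1 hl).2
  obtain ⟨-, c1, c2⟩ := hCla x' x (mem_filter.1 hx').2
  have hpos := hB.pos_pos π N x
  have hpos' := hB.pos_pos π N x'
  have h6 := hI π N Unit E T (fun y _ => φ y) R ρ 0 (N.pos π x) (φ x) x () (List.ofFn l) x' () ok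
    hE ρ0 (fun e he _ => hLv e he) hpos (by rw [sub_self, abs_zero]; positivity)
    ⟨0, by simp [nm, wn, tc, lat]⟩ (by rwa [List.length_ofFn, Nat.cast_mul, Nat.cast_two])
    (by simpa only [and_true] using hne)
  rw [hab] at h5 h6
  rw [List.length_ofFn, Nat.cast_mul, Nat.cast_two] at h6
  obtain ⟨a0, b0, a1, -⟩ := h5
  obtain ⟨h7, h8⟩ := h6
  have a0' : (0 : ℝ) < a := by exact_mod_cast a0
  have b0' : (0 : ℝ) < b := by exact_mod_cast b0
  simp only at h7 h8
  rw [Real.log_div hpos'.ne' b0'.ne', Real.log_div hpos.ne' a0'.ne'] at h7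
  have c3 := hN.cl_dil _ _ _ _ _ _ b (hN2.cl_shift _ _ _ _ (b * (N.pos π x / a))
    ((4 * n + 2) * π.κ1) _ _ hκ0 ok.κ hpos' (by positivity) (by
      rw [Real.log_mul b0'.ne' (by positivity), Real.log_div hpos.ne' a0'.ne', abs_sub_comm]
      refine le_of_eq_of_le (congrArg _ (by ring)) (h7.trans_eq (by ring))) (by linarith) c2)
  obtain ⟨z, hz⟩ := hN.cl_add _ _ _ _ _ _ _ _ hκ0.le h8 (hN.cl_neg _ _ _ _ _ _ c3)
  refine ⟨a0, ?_, fun j hj => ⟨-z j, ?_⟩⟩
  · rw [abs_le] at h7 c1 ⊢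
    constructor <;> linarith [h7.1, h7.2, c1.1, c1.2]
  · have h8 := (hN2.coef π.k π.κ _ _ hκ0 ok.κ (div_pos hpos a0') j hj).trans
      (mul_le_mul_of_nonneg_left hz (by positivity))
    have h9 : 1 ≤ (N.pos π x / a) ^ j * (2 * π.P) ^ (n * π.k) := by
      have p1 : 1 ≤ N.pos π x := Real.one_le_exp (by positivity)
      calc (1 : ℝ) ≤ (N.pos π x / a * (2 * π.P) ^ n) ^ j := by
            refine one_le_pow₀ ?_
            rw [div_mul_eq_mul_div, le_div_iff₀ a0', one_mul]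
            exact a1.trans (le_mul_of_one_le_left (by positivity) p1)
        _ ≤ _ := by
            rw [mul_pow, ← pow_mul]
            exact mul_le_mul_of_nonneg_left
              (pow_le_pow_right₀ hP1 (Nat.mul_le_mul_left n (mem_Icc.1 hj).2)) (by positivity)
    have e1 : ((a : ℝ) ^ j - b ^ j) * (φ x j / R ^ j) - (-z j : ℤ) =
        -((dil b (φ x') - dil a (φ x) + -dil b (φ x' - φ x) - lat R z) j / R ^ j) := by
      simp only [Pi.sub_apply, Pi.add_apply, Pi.neg_apply, dil, lat, Int.cast_neg]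
      field_simp
      ring
    rw [e1, abs_neg, abs_div, abs_of_pos (pow_pos hR j)]
    refine div_le_div_of_nonneg_right ?_ (pow_pos hR j).le
    refine (le_mul_of_one_le_right (abs_nonneg _) h9).trans ?_
    rw [← mul_assoc]
    refine mul_le_mul_of_nonneg_right (h8.trans ?_) (by positivity)
    refine mul_le_mul_of_nonneg_left ?_ (by positivity)
    rw [zero_add, show 8 * (2 * (n : ℝ)) + 17 = 16 * n + 17 by ring, add_mul _ r, mul_comm r]
    refine add_le_add (mul_le_of_le_one_right (by positivity) ρ1)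
      (mul_le_mul_of_nonneg_right (pow_le_pow_left₀ (by positivity) ?_ _) r0)
    have c4 : 4 * ((4 * n + 2) * π.κ1) / π.κ ≤ 16 * n + 8 := by
      rw [div_le_iff₀ hκ0]
      have := mul_le_mul_of_nonneg_left (hB.κ1_le π ok) (by positivity : (0 : ℝ) ≤ 16 * n + 8)
      linarith
    linarith

theorem st_Seed2 (hN2 : N2St) (hB : BasSt) (hL : Loop2St) (hI : IntSt) : Seed2St := by
  intro π N E φ Λ cls ρ r u u' nW Y' Na e0 R n Wd ok hE ρ0 ρ1 r0 hR hLv hRay hcard hCla n1 hκ hu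
    u1 hY hNa hk hW he0
  have hR' : (0 : ℝ) < R := by exact_mod_cast hR
  have hκ1 := hB.κ1_pos π ok
  have hκ0 : 0 < π.κ := hκ1.trans_le (hB.κ1_le π ok)
  obtain ⟨e, he, x, hx, b, A, h1, b0, b1, h2⟩ :=
    hL π N E φ Λ cls R ρ r u nW n ok hE ρ0 ρ1 r0 hR' hLv hRay hcard hCla n1 hκ
  have h3 : ∀ a ∈ A, |(a : ℝ) - b| ≤ 2 * u' * (2 * π.P) ^ n := by
    intro a ha
    obtain ⟨a0, h, -⟩ := h2 a ha
    have a0' : (0 : ℝ) < a := by exact_mod_cast a0
    have b0' : (0 : ℝ) < b := by exact_mod_cast b0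
    have h5 := h.trans hu
    have h6 := (abs_nonneg _).trans h5
    have h4 := Real.abs_exp_sub_one_le (h5.trans u1)
    rw [Real.exp_sub, Real.exp_log a0', Real.exp_log b0', div_sub_one b0'.ne', abs_div,
      abs_of_pos b0', div_le_iff₀ b0'] at h4
    calc _ ≤ _ := h4
      _ ≤ _ := by gcongr
  obtain ⟨W1, B, hBA, hBc, hBD⟩ := SeedJ.cluster hk (hNa.trans h1) hW fun a ha c hc => by
    have := abs_le.1 (h3 a ha)
    have := abs_le.1 (h3 c hc)
    linarith
  have W1' : (1 : ℝ) ≤ Wd := by exact_mod_cast W1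
  have e00 : 0 ≤ e0 := le_trans (by have := ok.P; positivity) he0
  have h4 : ∀ j, ∃ (V : ℕ) (m : ℤ), j ∈ Icc 1 π.k → 1 ≤ V ∧ V ≤ Wd ^ (π.k ^ 2) ∧
      |φ x j - (R : ℝ) ^ j * m / V| ≤ (2 * Wd ^ π.k) ^ π.k * e0 := by
    intro j
    by_cases hj : j ∈ Icc 1 π.k
    · obtain ⟨j1, j2⟩ := mem_Icc.1 hj
      obtain ⟨C, hCB, hC⟩ := exists_subset_card_eq (s := B) (n := j + 1) (by omega)
      obtain ⟨V, v1, v2, m, hm⟩ := hI j Wd (Polynomial.X ^ j - Polynomial.C ((b : ℤ) ^ j))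
        (C.map Nat.castEmbedding) (φ x j / R ^ j) (e0 / R ^ j)
        (Polynomial.monic_X_pow_sub_C _ (by omega)) Polynomial.natDegree_X_pow_sub_C
        (by rw [card_map, hC]) W1
        (by
          simp only [mem_map, Nat.castEmbedding_apply, forall_exists_index, and_imp,
            forall_apply_eq_imp_iff₂]
          exact fun a ha c hc => hBD a (hCB ha) c (hCB hc))
        (by
          simp only [mem_map, Nat.castEmbedding_apply, forall_exists_index, and_imp,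
            forall_apply_eq_imp_iff₂]
          intro a ha
          convert ((h2 a (hBA (hCB ha))).2.2 j hj).mono
            (div_le_div_of_nonneg_right he0 (by positivity)) using 1
          simp [mul_comm])
      refine ⟨V, m, fun _ => ⟨v1, v2.trans (Nat.pow_le_pow_right W1 (Nat.pow_le_pow_left j2 2)),
        ?_⟩⟩
      have v1' : (1 : ℝ) ≤ V := by exact_mod_cast v1
      have e1 : φ x j - (R : ℝ) ^ j * m / V = R ^ j * (V * (φ x j / R ^ j) - m) / V := by
        field_simp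
      rw [e1, abs_div, abs_mul, abs_of_pos (pow_pos hR' j), Nat.abs_cast]
      calc _ ≤ _ := div_le_self (by positivity) v1'
        _ ≤ R ^ j * ((2 * Wd ^ j) ^ j * (e0 / R ^ j)) := by gcongr
        _ = (2 * Wd ^ j) ^ j * e0 := by field_simp
        _ ≤ (2 * Wd ^ π.k) ^ j * e0 := by gcongr
        _ ≤ _ := by
          gcongr
          linarith [one_le_pow₀ (n := π.k) W1']
    · exact ⟨0, 0, fun h => absurd h hj⟩
  choose V m hV using h4
  have p1 : 1 ≤ N.pos π x := Real.one_le_exp (by positivity)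
  refine ⟨e, he, x, hx, ∏ j ∈ Icc 1 π.k, V j, fun j => m j * ∏ i ∈ (Icc 1 π.k).erase j, V i,
    one_le_prod' fun j hj => (hV j hj).1, ?_,
    (hN2.coef' _ _ _ _ hκ0.le ok.κ (zero_le_one.trans p1)).trans ?_⟩
  · have := prod_le_pow_card _ _ _ fun j hj => (hV j hj).2.1
    rw [Nat.card_Icc, Nat.add_sub_cancel, ← pow_mul, ← pow_succ] at this
    exact_mod_cast this
  · rw [mul_assoc, mul_assoc, mul_assoc]
    refine mul_le_mul_of_nonneg_left ((sum_le_card_nsmul _ _
      (Y' ^ π.k * ((2 * Wd ^ π.k) ^ π.k * e0)) fun j hj => ?_).trans_eq ?_) (by positivity)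
    · have e1 : (R : ℝ) ^ j * (m j * ∏ i ∈ (Icc 1 π.k).erase j, V i : ℤ) /
          (∏ j ∈ Icc 1 π.k, V j : ℕ) = R ^ j * m j / V j := by
        have v0 : ((∏ i ∈ (Icc 1 π.k).erase j, V i : ℕ) : ℝ) ≠ 0 :=
          Nat.cast_ne_zero.2 (prod_pos fun i hi => (hV i (mem_of_mem_erase hi)).1).ne'
        rw [← mul_prod_erase _ _ hj, Nat.cast_mul, Int.cast_mul, Int.cast_natCast, ← mul_assoc,
          mul_div_mul_right _ _ v0]
      rw [Pi.sub_apply, e1, mul_comm]
      exact mul_le_mul ((pow_le_pow_left₀ (zero_le_one.trans p1) (hY x) j).trans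
        (pow_le_pow_right₀ (p1.trans (hY x)) (mem_Icc.1 hj).2)) (hV j hj).2.2 (abs_nonneg _)
        (pow_nonneg (zero_le_one.trans (p1.trans (hY x))) _)
    · rw [Nat.card_Icc, Nat.add_sub_cancel, nsmul_eq_mul]

end Pool.Agent.Lib.MP_028aa5_nt.U
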