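import Pool.Agent.Lib.MP_028aa5_nt.U.St3

/-! Merging the vertices over the same point. -/

namespace Pool.Agent.Lib.MP_028aa5_nt.U

open Finset T
open scoped Classical

namespace MergeJ

lemma fib {W Ω : Type} [Fintype W] (h : W → ℝ) (c : W → Prop) (Ψ : W → Ω) (A : Finset Ω) :
    ∑ y ∈ A, √(∑ v with c v ∧ Ψ v = y, h v ^ 2) ^ 2 ≤ ∑ v with c v, h v ^ 2 := by
  simp only [Real.sq_sqrt (sum_nonneg fun _ _ => sq_nonneg _), ← filter_filter]
  exact sum_fiberwise_le_sum_of_sum_fiber_nonneg fun _ _ => sum_nonneg fun _ _ => sq_nonneg _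

lemma inj {W Ed : Type} (h : W → ℝ) {B : Finset Ed} {g : Ed → W} {A : Finset W}
    (hi : ∀ e ∈ B, ∀ e' ∈ B, g e = g e' → e = e') (hA : ∀ e ∈ B, g e ∈ A) :
    √(∑ e ∈ B, h (g e) ^ 2) ≤ √(∑ v ∈ A, h v ^ 2) := by
  rw [← sum_image (f := fun v => h v ^ 2) hi]
  exact Real.sqrt_le_sqrt (sum_le_sum_of_subset_of_nonneg (image_subset_iff.2 hA)
    fun _ _ _ => sq_nonneg _)

end MergeJ

open MergeJ in
theorem st_Merge : MergeSt := by
  intro T N E Ψ lam hF ⟨u, u0, hu⟩ hl h1 h2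
  obtain ⟨E0, hE⟩ : ∃ E0, E0 = E.image fun e => (Ψ (N.up e), N.pr e) := ⟨_, rfl⟩
  let F : T.Ω → ℝ := fun y => √(∑ v with N.isU v = true ∧ Ψ v = y, u v ^ 2)
  let F' : T.Ω → ℝ := fun y => √(∑ v with ¬N.isU v = true ∧ Ψ v = y, u v ^ 2)
  have hQ : ∑ e ∈ E, u (N.up e) * u (N.lo e) ≤ ∑ e ∈ E0, F e.1 * F' (T.lw e) := by
    rw [← sum_fiberwise_of_maps_to (t := E0) fun e he => hE ▸ mem_image_of_mem _ he]
    refine sum_le_sum fun b _ => (Real.sum_mul_le_sqrt_mul_sqrt _ _ _).trans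
      (mul_le_mul (inj u (fun e he e' he' h => ?_) fun e he => ?_)
        (inj u (fun e he e' he' h => ?_) fun e he => ?_) (Real.sqrt_nonneg _) (Real.sqrt_nonneg _))
    all_goals
      rw [mem_filter] at he
      obtain ⟨he, rfl⟩ := he
    · exact hF.iu e he e' (mem_filter.1 he').1 (Prod.mk.inj (mem_filter.1 he').2).2.symm h
    · exact mem_filter.2 ⟨mem_univ _, hF.up e he, rfl⟩
    · exact hF.il e he e' (mem_filter.1 he').1 (Prod.mk.inj (mem_filter.1 he').2).2.symm h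
    · exact mem_filter.2 ⟨mem_univ _, by simp [hF.lo e he], (h1 e he).2⟩
  have hR : lam * ∑ v, u v ^ 2 ≤ 2 / #T.PP * ∑ e ∈ E0, F e.1 * F' (T.lw e) :=
    hu.trans (by
      rw [Net.Qf, mul_one_div]
      exact mul_le_mul_of_nonneg_left hQ (by positivity))
  rw [← hE]
  refine ⟨F, F', fun b hb => ?_, fun b hb b' hb' e1 e2 => ?_, ?_,
    (mul_le_mul_of_nonneg_left ?_ hl.le).trans hR⟩
  · obtain ⟨e, he, rfl⟩ := mem_image.1 (hE ▸ hb)
    exact (h1 e he).1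
  · obtain ⟨e, he, rfl⟩ := mem_image.1 (hE ▸ hb)
    obtain ⟨e', he', rfl⟩ := mem_image.1 (hE ▸ hb')
    exact h2 e he e' he' e1 ((h1 e he).2.trans (e2.trans (h1 e' he').2.symm))
  · obtain ⟨b, hb, h⟩ := exists_ne_zero_of_sum_ne_zero
      (right_ne_zero_of_mul ((mul_pos hl u0).trans_le hR).ne')
    exact add_pos_of_pos_of_nonneg (sum_pos' (fun _ _ => sq_nonneg _) ⟨b.1, mem_image_of_mem _ hb,
      sq_pos_of_ne_zero (left_ne_zero_of_mul h)⟩) (sum_nonneg fun _ _ => sq_nonneg _)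
  · rw [← sum_filter_add_sum_filter_not univ fun v => N.isU v = true]
    exact add_le_add (by convert fib u (fun v => N.isU v = true) Ψ _; rfl)
      (by convert fib u (fun v => ¬N.isU v = true) Ψ _; rfl)

end Pool.Agent.Lib.MP_028aa5_nt.U
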