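import Pool.Agent.Lib.MP_028aa5_nt.U.St1

/-! The structure of the next level of the tower. -/

namespace Pool.Agent.Lib.MP_028aa5_nt.U

open Finset T
open scoped Classical

namespace NextJ

variable {T : Sys} {σ : Sm T}

lemma mem_prs {u : σ.ι × σ.ι} (hu : u ∈ σ.prs) : u.1 ∈ σ.s ∧ u.2 ∈ σ.s := by
  unfold Sm.prs at hu
  exact mem_product.1 (mem_filter.1 hu).1

lemma mem_nxt {q : σ.ι × σ.ι → Prop} {u : σ.ι × σ.ι} (hu : u ∈ (σ.nxt q).s) :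
    u ∈ σ.prs ∧ q u := mem_filter.1 hu

lemma z_eq (hS : SmSt) (q : σ.ι × σ.ι → Prop) (hp : ∀ x ∈ σ.s, 0 < σ.a x) :
    (σ.nxt q).Z = σ.Z - ∑ u ∈ σ.prs with ¬q u, σ.pw u := by
  have h1 := hS.sum1 T σ (fun _ => 1) hp
  simp only [mul_one] at h1
  have h2 := sum_filter_add_sum_filter_not σ.prs q σ.pw
  have h3 : (σ.nxt q).Z = ∑ u ∈ σ.prs with q u, σ.pw u := rfl
  have h4 : σ.Z = ∑ x ∈ σ.s, σ.a x := rfl
  linarith

lemma pre (hS : SmSt) {C0 : ℝ} {E0 : Finset (T.Ω × ℕ)} {j : ℕ} {Ml Mb : ℝ}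
    (ts : T.Λ → ℕ → T.Ω) (q : σ.ι × σ.ι → Prop) (hT : T.Ok C0) (hI : σ.Inv E0 j Ml)
    (hC : T.Cnt (σ.s.image σ.y) Mb)
    (hq : ∀ u ∈ σ.prs, q u → σ.p u.1 ≠ σ.p u.2 ∧
      T.Near (σ.tp u) (ts (T.S (σ.y u.2)) (σ.p u.1)))
    (hV : ∀ u ∈ σ.prs, q u → T.V (j + 1) (σ.tp u)) : (σ.nxt q).Pre (2 * C0 * Mb) := by
  intro c
  choose! c' hc' using hT.two c
  let G : ℕ → Finset T.Λ := fun p => {b ∈ (σ.s.image σ.y).image T.S | T.cl b = c' p} ∪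
    {b ∈ (σ.s.image σ.y).image T.S | T.cl b = c' p + 1}
  let A : ℕ → T.Λ → Finset T.Ω := fun p b =>
    {u ∈ σ.prs | q u ∧ σ.p u.1 = p ∧ T.S (σ.y u.2) = b}.image σ.tp
  have hG : ∀ p, (#(G p) : ℝ) ≤ 2 * Mb := fun p => by
    have h1 := hC (c' p)
    have h2 := hC (c' p + 1)
    have h3 : (#(G p) : ℝ) ≤ #{b ∈ (σ.s.image σ.y).image T.S | T.cl b = c' p} +
        #{b ∈ (σ.s.image σ.y).image T.S | T.cl b = c' p + 1} := by
      exact_mod_cast card_union_le _ _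
    linarith
  have hA : ∀ p b, (#((A p b).image T.S) : ℝ) ≤ C0 := fun p b => by
    refine hT.few (j + 1) (ts b p) (A p b) fun t ht => ?_
    obtain ⟨u, hu, rfl⟩ := mem_image.1 ht
    obtain ⟨hu1, hu2, rfl, rfl⟩ := mem_filter.1 hu
    exact ⟨hV u hu1 hu2, (hq u hu1 hu2).2⟩
  have hsub : {b ∈ (σ.nxt q).s.image fun x => (T.S ((σ.nxt q).y x), (σ.nxt q).p x) |
      T.cl b.1 = c} ⊆ T.PP.biUnion fun p => (G p).biUnion fun b =>
        ((A p b).image T.S).image fun l => (l, p) := by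
    intro b hb
    obtain ⟨hb1, hb2⟩ := mem_filter.1 hb
    obtain ⟨u, hu, rfl⟩ := mem_image.1 hb1
    obtain ⟨hu1, hu2⟩ := mem_nxt hu
    obtain ⟨m1, m2⟩ := mem_prs hu1
    have hp := hI.pr _ m1
    have htp := hS.tp T C0 σ E0 j Ml hT hI u hu1 (hq u hu1 hu2).1
    have h2 := hc' _ hp (j + 1) (σ.tp u) (hV u hu1 hu2) hb2
    rw [htp.2.1] at h2
    have hm : T.S (σ.y u.2) ∈ (σ.s.image σ.y).image T.S :=
      mem_image_of_mem _ (mem_image_of_mem _ m2)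
    refine mem_biUnion.2 ⟨σ.p u.1, hp, mem_biUnion.2 ⟨T.S (σ.y u.2), ?_, ?_⟩⟩
    · rcases h2 with h2 | h2
      · exact mem_union_left _ (mem_filter.2 ⟨hm, h2⟩)
      · exact mem_union_right _ (mem_filter.2 ⟨hm, h2⟩)
    · exact mem_image.2 ⟨T.S (σ.tp u), mem_image_of_mem _
        (mem_image_of_mem _ (mem_filter.2 ⟨hu1, hu2, rfl, rfl⟩)), rfl⟩
  have h1 := (card_le_card hsub).trans card_biUnion_le
  have h2 : ∀ p ∈ T.PP, (#((G p).biUnion fun b => ((A p b).image T.S).image fun l => (l, p)) : ℝ)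
      ≤ 2 * C0 * Mb := fun p _ => by
    have h3 : (#((G p).biUnion fun b => ((A p b).image T.S).image fun l => (l, p)) : ℝ) ≤
        ∑ b ∈ G p, (#(((A p b).image T.S).image fun l => (l, p)) : ℝ) := by
      exact_mod_cast card_biUnion_le
    have h4 : ∑ b ∈ G p, (#(((A p b).image T.S).image fun l => (l, p)) : ℝ) ≤ #(G p) • C0 :=
      sum_le_card_nsmul _ _ _ fun b _ => le_trans (by exact_mod_cast card_image_le) (hA p b)
    rw [nsmul_eq_mul] at h4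
    have h5 := mul_le_mul_of_nonneg_right (hG p) hT.c0
    linarith
  have h6 := sum_le_card_nsmul _ _ _ h2
  rw [nsmul_eq_mul] at h6
  refine le_trans ?_ h6
  exact_mod_cast h1

end NextJ

open NextJ in
theorem st_Next (hS : SmSt) : NextSt := by
  intro T C0 σ E0 j Ml Mb ts q hT hI hC hq
  have htp : ∀ u ∈ σ.prs, q u → T.ch (σ.p u.2) (σ.tp u) = σ.y u.1 ∧
      T.ch (σ.p u.1) (σ.tp u) = σ.y u.2 := fun u h1 h2 =>
    ⟨(hS.tp T C0 σ E0 j Ml hT hI u h1 (hq u h1 h2).1).1,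
      (hS.tp T C0 σ E0 j Ml hT hI u h1 (hq u h1 h2).1).2.1⟩
  have hV : ∀ u ∈ σ.prs, q u → T.V (j + 1) (σ.tp u) := fun u h1 h2 => by
    refine hT.up j (σ.p u.2) (hI.pr _ (mem_prs h1).2) _ ?_
    rw [(htp u h1 h2).1]
    exact hI.val _ (mem_prs h1).1
  have hw : ∀ u ∈ (σ.nxt q).s, (σ.nxt q).w u = σ.y u.2 := fun u hu =>
    (htp u (mem_nxt hu).1 (mem_nxt hu).2).2
  have hZ := z_eq hS q hI.pos
  refine ⟨⟨fun u hu => hS.pw_pos T σ hI.pos u (mem_nxt hu).1, ?_,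
    fun u hu => hI.pr _ (mem_prs (mem_nxt hu).1).1, fun u hu => hV u (mem_nxt hu).1 (mem_nxt hu).2,
    fun u hu => ?_, fun u hu r hr => ?_, fun u hu => ?_, fun u hu u' hu' hp hww => ?_, ?_⟩,
    pre hS ts q hT hI hC hq hV, hZ⟩
  · have h1 : 0 ≤ ∑ u ∈ σ.prs with ¬q u, σ.pw u :=
      sum_nonneg fun u hu => (hS.pw_pos T σ hI.pos u (mem_filter.1 hu).1).le
    have h2 := hI.tot
    linarith
  · change (σ.R u.1).length + 1 = j + 1
    rw [hI.len _ (mem_prs (mem_nxt hu).1).1]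
  · rcases List.mem_cons.1 hr with h | h
    · rw [h]; exact hI.pr _ (mem_prs (mem_nxt hu).1).2
    · exact hI.mem _ (mem_prs (mem_nxt hu).1).1 r h
  · change (T.chL (σ.R u.1) (T.ch (σ.p u.2) (σ.tp u)), σ.p u.1) ∈ E0
    rw [(htp u (mem_nxt hu).1 (mem_nxt hu).2).1]
    exact hI.src _ (mem_prs (mem_nxt hu).1).1
  · obtain ⟨a1, a2⟩ := mem_nxt hu
    obtain ⟨b1, b2⟩ := mem_nxt hu'
    have hp' : σ.p u.1 = σ.p u'.1 := hp
    have hy : σ.y u.2 = σ.y u'.2 := by rw [← hw u hu, ← hw u' hu', hww]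
    refine hT.rig (j + 1) (σ.p u.1) (hI.pr _ (mem_prs a1).1) (σ.tp u) (σ.tp u')
      (ts (T.S (σ.y u.2)) (σ.p u.1)) (hV u a1 a2) (hV u' b1 b2) (hq u a1 a2).2 ?_ ?_
    · rw [hy, hp']; exact (hq u' b1 b2).2
    · rw [(htp u a1 a2).2, hp', (htp u' b1 b2).2, hy]
  · refine hS.cnt T _ _ Mb Mb (fun z hz => ?_) le_rfl hC
    obtain ⟨u, hu, rfl⟩ := mem_image.1 hz
    rw [hw u hu]
    exact mem_image_of_mem _ (mem_prs (mem_nxt hu).1).2

end Pool.Agent.Lib.MP_028aa5_nt.U
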