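import Pool.Agent.Lib.MP_028aa5_nt.U.St3

/-! Exact phases. -/

namespace Pool.Agent.Lib.MP_028aa5_nt.U

open Finset T
open scoped Classical

namespace OffJ

theorem dil_sub (a : ℝ) (α β : Ph) : dil a (α - β) = dil a α - dil a β :=
  funext fun j => by simp [dil, mul_sub]

theorem dil_dil (a b : ℝ) (α : Ph) : dil a (dil b α) = dil (b * a) α :=
  funext fun j => by simp only [dil, mul_pow]; ring

theorem rnd (hN2 : N2St) {k : ℕ} {κ g r : ℝ} (h0 : 0 < κ) (h1 : κ ≤ 1) (hg : 0 < g) (hg1 : g ≤ 1)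
    (hr : 2 ^ k * k * g ≤ r) (θ : Ph) : nm k κ g (lat 1 (fun j => round (θ j)) - θ) ≤ r := by
  refine (hN2.coef' k κ g _ h0.le h1 hg.le).trans (le_trans ?_ hr)
  rw [mul_assoc]
  refine mul_le_mul_of_nonneg_left ((sum_le_card_nsmul _ _ g fun j hj => ?_).trans (by simp))
    (by positivity)
  have a1 : |(lat 1 (fun j => round (θ j)) - θ) j| ≤ 1 := by
    simp only [lat, Pi.sub_apply, one_pow, one_mul]
    rw [abs_sub_comm]
    linarith [abs_sub_round (θ j)]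
  have a2 : g ^ j ≤ g := pow_le_of_le_one hg.le hg1 (by have := (mem_Icc.1 hj).1; omega)
  exact (mul_le_of_le_one_left (by positivity) a1).trans a2

/-- the cover given by the shifts `sh` -/
noncomputable def cov (N : Net) (D : Finset (ℕ → ℤ)) (sh : N.Ed → ℕ → ℤ) : Net where
  W := N.W × D
  Ed := N.Ed × D
  up e := (N.up e.1, e.2)
  lo e := (N.lo e.1, if h : e.2.1 + sh e.1 ∈ D then ⟨_, h⟩ else e.2)
  pr e := N.pr e.1
  fj e := N.fj e.1
  isU v := N.isU v.1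
  cell v := N.cell v.1

/-- its edges -/
noncomputable def ce (N : Net) (E : Finset N.Ed) (D : Finset (ℕ → ℤ)) (sh : N.Ed → ℕ → ℤ) :
    Finset (N.Ed × D) := {e ∈ E ×ˢ univ | e.2.1 + sh e.1 ∈ D}

theorem mem_ce {N : Net} {E : Finset N.Ed} {D : Finset (ℕ → ℤ)} {sh : N.Ed → ℕ → ℤ}
    {e : N.Ed × D} : e ∈ ce N E D sh ↔ e.1 ∈ E ∧ e.2.1 + sh e.1 ∈ D := by
  simp [ce]

theorem fine {N : Net} {E : Finset N.Ed} (h : Fine N E) (D : Finset (ℕ → ℤ))
    (sh : N.Ed → ℕ → ℤ) : Fine (cov N D sh) (ce N E D sh) where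
  up e he := h.up _ (mem_ce.1 he).1
  lo e he := h.lo _ (mem_ce.1 he).1
  iu e he e' he' h1 h2 := Prod.ext
    (h.iu _ (mem_ce.1 he).1 _ (mem_ce.1 he').1 h1 (congrArg Prod.fst h2))
    (congrArg (fun v : N.W × D => v.2) h2 :)
  il e he e' he' h1 h2 := by
    have h3 := h.il _ (mem_ce.1 he).1 _ (mem_ce.1 he').1 h1 (congrArg Prod.fst h2)
    have h4 := congrArg (fun v : N.W × D => v.2.1) h2
    simp only [cov, dif_pos (mem_ce.1 he).2, dif_pos (mem_ce.1 he').2] at h4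
    rw [h3, add_left_inj] at h4
    exact Prod.ext h3 (Subtype.ext h4)

theorem ray {N : Net} {E : Finset N.Ed} {ν lam ε : ℝ} (hν : 0 ≤ ν) (hε : ε ≤ 1)
    (h : N.Ray ν E lam) {D : Finset (ℕ → ℤ)} (hD : D.Nonempty) (sh : N.Ed → ℕ → ℤ)
    (hs : ∀ e ∈ E, (1 - ε) * #D ≤ #{d ∈ D | d + sh e ∈ D}) :
    (cov N D sh).Ray ν (ce N E D sh) (lam * (1 - ε)) := by
  obtain ⟨u, hu, h⟩ := h
  have hD0 : (0 : ℝ) < #D := by exact_mod_cast hD.card_pos
  have e1 : ∑ x : N.W × D, |u x.1| ^ 2 = #D * ∑ x, u x ^ 2 := by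
    simp [Fintype.sum_prod_type, mul_sum]
  refine ⟨fun x : N.W × D => |u x.1|, ?_, ?_⟩
  · change 0 < ∑ x : N.W × D, |u x.1| ^ 2
    rw [e1]
    positivity
  · change lam * (1 - ε) * ∑ x : N.W × D, |u x.1| ^ 2 ≤
      2 * ν * ∑ e ∈ ce N E D sh, |u (N.up e.1)| * |u (N.lo e.1)|
    have e2 : (1 - ε) * #D * ∑ e ∈ E, u (N.up e) * u (N.lo e) ≤
        ∑ e ∈ ce N E D sh, |u (N.up e.1)| * |u (N.lo e.1)| := by
      rw [ce, sum_filter, sum_product, mul_sum]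
      refine sum_le_sum fun e he => ?_
      have e3 : ∑ d : D, (if d.1 + sh e ∈ D then |u (N.up e)| * |u (N.lo e)| else 0) =
          #{d ∈ D | d + sh e ∈ D} * (|u (N.up e)| * |u (N.lo e)|) := by
        rw [sum_coe_sort D fun d => if d + sh e ∈ D then |u (N.up e)| * |u (N.lo e)| else 0,
          ← sum_filter, sum_const, nsmul_eq_mul]
      refine le_trans ?_ e3.ge
      refine (mul_le_mul_of_nonneg_left (le_abs_self _) (mul_nonneg (by linarith) hD0.le)).trans ?_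
      rw [abs_mul]
      exact mul_le_mul_of_nonneg_right (hs e he) (by positivity)
    have e4 := mul_le_mul_of_nonneg_left h (mul_nonneg (sub_nonneg.2 hε) hD0.le)
    have e5 := mul_le_mul_of_nonneg_left e2 (mul_nonneg zero_le_two hν)
    rw [e1]
    unfold Net.Qf at e4
    linarith

end OffJ

theorem st_Off (hN : NSt) (hN2 : N2St) (hF : FolSt) : OffSt := by
  intro k ε hk hε hε1
  obtain ⟨Nn, hNn, hF⟩ := hF k ε hk hε
  refine ⟨3 * Nn + 1, by linarith, ?_⟩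
  intro κ γ r ν lam N1 E1 φ nn h0 h1 hγ hr hν hfi hray hE
  obtain ⟨N0, hN0⟩ := exists_nat_ge (γ + 2 ^ k * k * γ / r)
  have a0 : 0 ≤ 2 ^ k * k * γ / r := by positivity
  have a1 : (0 : ℝ) < N0 := by linarith
  set g := γ / N0 with hg
  have hg0 : 0 < g := by positivity
  have hg1 : g ≤ 1 := (div_le_one a1).2 (by linarith)
  have hgr : 2 ^ k * k * g ≤ r := by
    rw [hg, ← mul_div_assoc, div_le_comm₀ a1 hr]
    linarith
  have hnm : ∀ (n : ℕ) (α : Ph), nm k κ (γ * n) α = nm k κ g (dil (N0 * n) α) := fun n α => by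
    rw [hN.nm_dil]
    congr 1
    rw [hg]
    field_simp
  obtain ⟨D, hD, hD1, hD2⟩ := hF κ g (3 * r) h0 h1 hg0 (by positivity)
  choose! z hz using fun e he => (hE e he).2.2.2
  set θ : N1.W → Ph := fun v => dil (N0 * nn v) (φ v) with hθ
  set b : N1.W → ℕ → ℤ := fun v j => round (θ v j) with hb
  have hb1 : ∀ v, nm k κ g (lat 1 (b v) - θ v) ≤ r := fun v => OffJ.rnd hN2 h0 h1 hg0 hg1 hgr _
  set sh : N1.Ed → ℕ → ℤ := fun e j => if j ∈ Icc 1 k then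
    b (N1.up e) j - b (N1.lo e) j + ((N0 * nn (N1.lo e) : ℕ) : ℤ) ^ j * z e j else 0 with hsh
  have hψ : ∀ v, 0 < nn v → ∀ d ∈ D,
      nm k κ (γ * nn v) (lat (1 / (N0 * nn v)) (b v + d) - φ v) ≤ (3 * Nn + 1) * r :=
    fun v hv d hd => by
      have a2 : (0 : ℝ) < nn v := by exact_mod_cast hv
      rw [hnm, OffJ.dil_sub, hN.lat_dil, mul_one_div_cancel (by positivity), hN.lat_add,
        add_sub_right_comm]
      refine (hN.nm_add _ _ _ _ _ h0.le).trans ?_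
      linarith [hb1 v, hD1 d hd]
  refine ⟨OffJ.cov N1 D sh, OffJ.ce N1 E1 D sh, Prod.fst, Prod.fst,
    fun v : N1.W × D => lat (1 / (N0 * nn v.1)) (b v.1 + v.2.1), OffJ.fine hfi D sh,
    OffJ.ray hν hε1 hray hD sh fun e he => hD2 _ (fun j hj => if_neg hj) ?_, fun e he => ?_⟩
  · have a2 := hz e he
    rw [hnm, OffJ.dil_sub, OffJ.dil_sub, OffJ.dil_dil, hN.lat_dil, mul_one,
      show (N1.pr e : ℝ) * (N0 * nn (N1.lo e)) = N0 * nn (N1.up e) by
        rw [(hE e he).2.1]; push_cast; ring] at a2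
    rw [hN.nm_congr k κ g _ ((lat 1 (b (N1.up e)) - θ (N1.up e)) -
      (lat 1 (b (N1.lo e)) - θ (N1.lo e)) -
      (θ (N1.lo e) - θ (N1.up e) - lat (N0 * nn (N1.lo e)) (z e))) fun j hj => by
        simp only [lat, hsh, if_pos hj, Pi.sub_apply]
        push_cast
        ring]
    refine (hN.nm_sub _ _ _ _ _ h0.le).trans ?_
    linarith [hN.nm_sub k κ g (lat 1 (b (N1.up e)) - θ (N1.up e))
      (lat 1 (b (N1.lo e)) - θ (N1.lo e)) h0.le, hb1 (N1.up e), hb1 (N1.lo e)]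
  · obtain ⟨he1, he2⟩ := OffJ.mem_ce.1 he
    obtain ⟨b1, b2, b3, -⟩ := hE _ he1
    refine ⟨he1, rfl, rfl, rfl, fun j hj => ⟨z e.1 j, ?_⟩,
      hψ _ (b2 ▸ Nat.mul_pos b1 b3) _ e.2.2, hψ _ b3 _ ((OffJ.cov N1 D sh).lo e).2.2⟩
    have c1 : (0 : ℝ) < N1.pr e.1 := by exact_mod_cast b1
    have c2 : (0 : ℝ) < nn (N1.lo e.1) := by exact_mod_cast b3
    simp only [OffJ.cov, dif_pos he2]
    simp only [dil, lat, hsh, if_pos hj, Pi.add_apply, b2]
    push_cast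
    simp only [one_div, inv_pow, mul_pow]
    field_simp
    ring

end Pool.Agent.Lib.MP_028aa5_nt.U
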