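import Pool.Agent.Lib.MP_028aa5_nt.U.St2

/-! Two chains with the same outer primes and the same final state have the same defect. -/

namespace Pool.Agent.Lib.MP_028aa5_nt.U

open Finset T
open scoped Classical

namespace SameJ

theorem bd_le (k g : ℕ) (hg : 1 ≤ g) :
    (2 * 5 ^ k : ℝ) ^ (g + 1) + (2 * 5 ^ k) ^ (g + 1) + (4 * g + 5) ^ k * 2 ≤
      4 * (2 * 9 ^ k) ^ (g + 1) := by
  have h1 : (2 * 5 ^ k : ℝ) ^ (g + 1) ≤ (2 * 9 ^ k) ^ (g + 1) := by gcongr; norm_num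
  have hg' : (1 : ℝ) ≤ g := by exact_mod_cast hg
  have h2 : (4 * g + 5 : ℝ) ≤ 9 ^ g := by
    have := one_add_mul_le_pow (show (-2 : ℝ) ≤ 8 by norm_num) g
    norm_num at this
    linarith
  have h9 : (1 : ℝ) ≤ 9 ^ k := one_le_pow₀ (by norm_num)
  have h3 : (4 * g + 5 : ℝ) ^ k ≤ (2 * 9 ^ k) ^ (g + 1) :=
    calc (4 * g + 5 : ℝ) ^ k ≤ (9 ^ g) ^ k := by gcongr
      _ = (9 ^ k) ^ g := by rw [← pow_mul, ← pow_mul, mul_comm]
      _ ≤ (2 * 9 ^ k) ^ g := pow_le_pow_left₀ (by positivity) (by linarith) g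
      _ ≤ (2 * 9 ^ k) ^ (g + 1) := pow_le_pow_right₀ (by linarith) (by omega)
  linarith

theorem room (k g : ℕ) {P W b c c' : ℝ} (hb : 0 < b) (hc : 0 < c) (hc' : 0 < c')
    (h1 : b ≤ (2 * P) ^ g) (h2 : c ≤ (2 * P) ^ g) (h3 : c' ≤ (2 * P) ^ g) (hP : 16 * 9 ^ k ≤ P)
    (hW : P ^ (4 * g + 1) ≤ W) : 8 * (2 * 9 ^ k) ^ (g + 1) ≤ W / (b * c * c') := by
  have hP0 : 0 < P := lt_of_lt_of_le (by positivity) hP
  rw [le_div_iff₀ (by positivity)]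
  have h4 : b * c * c' ≤ (2 * P) ^ g * (2 * P) ^ g * (2 * P) ^ g := by gcongr
  have h5 : (2 * P) ^ g * (2 * P) ^ g * (2 * P) ^ g = 8 ^ g * P ^ (3 * g) := by
    rw [← mul_pow, ← mul_pow, pow_mul, ← mul_pow]
    congr 1
    ring
  have h6 : (16 * 9 ^ k : ℝ) ^ (g + 1) ≤ P ^ (g + 1) := pow_le_pow_left₀ (by positivity) hP _
  have h7 : (16 * 9 ^ k : ℝ) ^ (g + 1) = 8 * (2 * 9 ^ k) ^ (g + 1) * 8 ^ g := by
    rw [show (16 * 9 ^ k : ℝ) = 8 * (2 * 9 ^ k) by ring, mul_pow, pow_succ (8 : ℝ) g]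
    ring
  calc 8 * (2 * 9 ^ k : ℝ) ^ (g + 1) * (b * c * c')
      ≤ 8 * (2 * 9 ^ k : ℝ) ^ (g + 1) * (8 ^ g * P ^ (3 * g)) := by
        rw [← h5]
        exact mul_le_mul_of_nonneg_left h4 (by positivity)
    _ = (16 * 9 ^ k : ℝ) ^ (g + 1) * P ^ (3 * g) := by rw [h7]; ring
    _ ≤ P ^ (g + 1) * P ^ (3 * g) := mul_le_mul_of_nonneg_right h6 (by positivity)
    _ = P ^ (4 * g + 1) := by rw [← pow_add]; congr 1; ring
    _ ≤ W := hW

theorem den (k : ℕ) (ζ ζ' : Ph) (w : ℕ → ℤ) {c c' : ℕ} (hc : 0 < c) (hc' : 0 < c')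
    (h : EqZ k (dil c ζ) 0) (h' : EqZ k (dil c' ζ') 0) :
    ∃ m : ℕ → ℤ, ∀ j ∈ Icc 1 k, (ζ' - ζ - lat 1 w) j = lat (1 / (c * c')) m j := by
  have key : ∀ j, ∃ n : ℤ, j ∈ Icc 1 k → (ζ' - ζ - lat 1 w) j = (1 / (c * c') : ℝ) ^ j * n := by
    intro j
    by_cases hj : j ∈ Icc 1 k
    · obtain ⟨n, hn⟩ := h j hj
      obtain ⟨n', hn'⟩ := h' j hj
      refine ⟨n' * c ^ j - n * c' ^ j - w j * (c ^ j * c' ^ j), fun _ => ?_⟩
      simp only [dil, Pi.zero_apply, zero_add] at hn hn'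
      have h1 : (0 : ℝ) < (c : ℝ) ^ j := by positivity
      have h2 : (0 : ℝ) < (c' : ℝ) ^ j := by positivity
      simp only [Pi.sub_apply, lat, one_pow, one_mul]
      push_cast
      rw [← hn, ← hn', one_div, inv_pow, mul_pow]
      field_simp
    · exact ⟨0, fun h => absurd h hj⟩
  choose m hm using key
  exact ⟨m, fun j hj => hm j hj⟩

end SameJ

theorem st_Same (hN : NSt) (hN2 : N2St) (hB : BasSt) (hD : DenSt) (hP : PtSt) : SameSt := by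
  intro π S z0 z z' ζ ζ' a b c c' g ok hS hz0 hz hzz ha hb hc hc' hbP hcP hcP' hg hgκ hP9 hPκ hlog
    hζ hζ' hX hX'
  have hκ : 0 < π.κ := lt_of_lt_of_le (hB.κ1_pos π ok) (hB.κ1_le π ok)
  have ha' : (0 : ℝ) < a := by exact_mod_cast ha
  have hb' : (0 : ℝ) < b := by exact_mod_cast hb
  have hc1 : (0 : ℝ) < c := by exact_mod_cast hc
  have hc2 : (0 : ℝ) < c' := by exact_mod_cast hc'
  have hy : 0 < z0.y / b := by positivity
  have h1 := hS.near z z' hzz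
  have h2 : |Real.log (a * (z0.y / b)) - Real.log (Real.exp ((S z).1 * π.κ))| ≤
      (g + 1) * π.κ := by
    have h3 := hP.cell π.κ z.y hκ
    rw [Real.log_exp, hS.cell z, show (a : ℝ) * (z0.y / b) = z0.y * a / b by ring]
    rw [abs_le] at h3 hlog ⊢
    constructor <;> linarith [h3.1, h3.2, hlog.1, hlog.2]
  have h4 := hN2.cl_shift π.k π.κ 1 _ _ _ _ _ hκ ok.κ (Real.exp_pos _) (by positivity) h2 hgκ h1
  have h5 : 1 + 4 * ((g + 1) * π.κ) / π.κ = 4 * g + 5 := by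
    field_simp
    ring
  rw [h5] at h4
  have h6 := hN.cl_dil π.k π.κ 1 _ _ _ a h4
  have h7 := hN.cl_add π.k π.κ 1 _ _ _ _ _ hκ.le (hP.cl_sub π.k π.κ 1 _ _ _ _ _ hκ.le hX hX') h6
  have h8 : dil b z0.ph - dil a z.ph - ζ - (dil b z0.ph - dil a z'.ph - ζ') +
      dil a (z.ph - z'.ph) = ζ' - ζ := by
    rw [hD.dil_sub]
    abel
  rw [h8] at h7
  obtain ⟨w, hw⟩ := h7
  obtain ⟨m, hm⟩ := SameJ.den π.k ζ ζ' w hc hc' hζ hζ'
  rw [hN.nm_congr π.k π.κ _ _ _ hm] at hw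
  have h9 := SameJ.room π.k g hb' hc1 hc2 hbP hcP hcP' hP9 hPκ
  have h10 : π.κ * (z0.y / b) * (1 / (c * c')) = π.κ * z0.y / (b * c * c') := by
    field_simp
  have h11 := SameJ.bd_le π.k g hg
  have h12 : (1 : ℝ) ≤ (2 * 9 ^ π.k) ^ (g + 1) :=
    one_le_pow₀ (by linarith [(one_le_pow₀ (by norm_num) : (1 : ℝ) ≤ 9 ^ π.k)])
  have h13 := hN2.rigid π.k π.κ (z0.y / b) (1 / (c * c')) m hκ hy (by positivity)
    (by rw [h10]; linarith) (by rw [h10]; linarith)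
  intro j hj
  have h14 := hm j hj
  simp only [Pi.sub_apply, lat, h13 j hj, one_pow, one_mul, Int.cast_zero, mul_zero] at h14
  exact ⟨-w j, by push_cast; linarith⟩

end Pool.Agent.Lib.MP_028aa5_nt.U
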