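import Pool.Agent.Lib.MP_028aa5_nt.U.St1

/-! The first sample of the tower. -/

namespace Pool.Agent.Lib.MP_028aa5_nt.U

open Finset T
open scoped Classical

namespace StartJ

/-- Comparing a marginal with a sub-probability. -/
lemma cmp (hE : EntSt) {ι β : Type} (c : ℝ) (hc : 0 < c) (s : Finset ι) (a : ι → ℝ) (f : ι → β)
    (G : β → ℝ) (ha : ∀ x ∈ s, 0 < a x) (h1 : ∑ x ∈ s, a x = 1) (hG : ∀ x ∈ s, 0 < G (f x))
    (hs : ∑ b ∈ s.image f, G b ≤ 1) :
    ∑ x ∈ s, a x * Real.log (c * a x / fm s a f (f x)) ≤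
      ∑ x ∈ s, a x * Real.log (c * a x / G (f x)) := by
  have hv := hE.val s a f G ha
  have key : ∀ x ∈ s, a x * Real.log (c * a x / fm s a f (f x)) ≤
      a x * Real.log (c * a x / G (f x)) + (a x * (G (f x) / fm s a f (f x)) - a x) := by
    intro x hx
    have h0 := ha x hx
    have hm : 0 < fm s a f (f x) := h0.trans_le (hE.self s a f (fun y hy => (ha y hy).le) x hx)
    have hg := hG x hx
    have e : c * a x / fm s a f (f x) = c * a x / G (f x) * (G (f x) / fm s a f (f x)) := by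
      field_simp
    have hl := Real.log_le_sub_one_of_pos (div_pos hg hm)
    rw [e, Real.log_mul (by positivity) (by positivity)]
    nlinarith [mul_le_mul_of_nonneg_left hl h0.le]
  have := sum_le_sum key
  rw [sum_add_distrib, sum_sub_distrib, hv, h1] at this
  linarith

lemma fm_inj {ι β : Type} (s : Finset ι) (a : ι → ℝ) (f : ι → β) (hf : Function.Injective f)
    (x : ι) (hx : x ∈ s) : fm s a f (f x) = a x := by
  unfold fm
  refine sum_eq_single_of_mem x (by simp [hx]) fun y hy hne => ?_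
  simp only [mem_filter] at hy
  exact absurd (hf hy.2) hne

end StartJ

open StartJ in
theorem st_Start (hE : EntSt) (hS : SmSt) : StartSt := by
  intro T E0 F F' lam Mp Ml hne hG hlam hV hU hL
  have hp : (0 : ℝ) < #T.PP := by exact_mod_cast hne.card_pos
  obtain ⟨s, hs⟩ : ∃ s : Finset (T.Ω × ℕ), s = {e ∈ E0 | F e.1 * F' (T.lw e) ≠ 0} := ⟨_, rfl⟩
  have hsE : s ⊆ E0 := hs ▸ filter_subset _ _
  have hs0 : ∀ e ∈ s, F e.1 ≠ 0 ∧ F' (T.lw e) ≠ 0 := fun e he => by
    rw [hs, mem_filter] at he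
    exact mul_ne_zero_iff.1 he.2
  obtain ⟨S, hSd⟩ : ∃ S : ℝ, S = ∑ e ∈ s, |F e.1 * F' (T.lw e)| := ⟨_, rfl⟩
  obtain ⟨n1, hn1⟩ : ∃ n : ℝ, n = ∑ y ∈ E0.image Prod.fst, F y ^ 2 := ⟨_, rfl⟩
  obtain ⟨n2, hn2⟩ : ∃ n : ℝ, n = ∑ z ∈ E0.image T.lw, F' z ^ 2 := ⟨_, rfl⟩
  have hle : ∑ e ∈ E0, F e.1 * F' (T.lw e) ≤ S := by
    rw [← sum_filter_ne_zero, ← hs, hSd]
    exact sum_le_sum fun e _ => le_abs_self _
  have hpos : 0 < n1 + n2 := by rw [hn1, hn2]; exact hG.pos
  have hray : lam * (n1 + n2) ≤ 2 / #T.PP * S := by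
    rw [hn1, hn2]
    exact hG.ray.trans (mul_le_mul_of_nonneg_left hle (by positivity))
  have hS0 : 0 < S := by
    have : 0 < 2 / (#T.PP : ℝ) * S := (mul_pos hlam hpos).trans_le hray
    exact (mul_pos_iff_of_pos_left (by positivity)).1 this
  obtain ⟨e0, he0⟩ : s.Nonempty := by
    rw [nonempty_iff_ne_empty]
    rintro rfl
    simp [hSd] at hS0
  have h1 : 0 < n1 := by
    rw [hn1]
    exact sum_pos' (fun _ _ => sq_nonneg _)
      ⟨e0.1, mem_image_of_mem _ (hsE he0), sq_pos_of_ne_zero (hs0 e0 he0).1⟩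
  have h2 : 0 < n2 := by
    rw [hn2]
    exact sum_pos' (fun _ _ => sq_nonneg _)
      ⟨T.lw e0, mem_image_of_mem _ (hsE he0), sq_pos_of_ne_zero (hs0 e0 he0).2⟩
  obtain ⟨a, ha⟩ : ∃ a : T.Ω × ℕ → ℝ, a = fun e => |F e.1 * F' (T.lw e)| / S := ⟨_, rfl⟩
  have ha0 : ∀ e ∈ s, 0 < a e := fun e he => by
    rw [ha]
    exact div_pos (abs_pos.2 (mul_ne_zero (hs0 e he).1 (hs0 e he).2)) hS0
  have ha1 : ∑ e ∈ s, a e = 1 := by
    rw [ha, ← sum_div, ← hSd, div_self hS0.ne']
  let σ : Sm T := ⟨T.Ω × ℕ, s, a, Prod.fst, Prod.snd, fun _ => []⟩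
  have hI : σ.Inv E0 0 Ml :=
    { pos := ha0
      tot := ha1.le
      pr := fun x hx => hG.pr x (hsE hx)
      val := fun x hx => hV x (hsE hx)
      len := fun _ _ => rfl
      mem := fun _ _ r hr => absurd hr List.not_mem_nil
      src := fun x hx => hsE hx
      pu := fun x hx x' hx' => hG.pu x (hsE hx) x' (hsE hx')
      low := hS.cnt T _ _ Ml Ml (image_subset_image hsE) le_rfl hL }
  refine ⟨σ, hI, fun c => ?_, fun K => ?_⟩
  · have hsub : {b ∈ s.image fun x => (T.S x.1, x.2) | T.cl b.1 = c} ⊆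
        {b ∈ (E0.image Prod.fst).image T.S | T.cl b = c} ×ˢ T.PP := by
      intro b hb
      obtain ⟨hb1, hb2⟩ := mem_filter.1 hb
      obtain ⟨x, hx, rfl⟩ := mem_image.1 hb1
      exact mem_product.2 ⟨mem_filter.2
        ⟨mem_image_of_mem _ (mem_image_of_mem _ (hsE hx)), hb2⟩, hG.pr x (hsE hx)⟩
    have h3 := card_le_card hsub
    rw [card_product] at h3
    have h4 : (#{b ∈ s.image fun x => (T.S x.1, x.2) | T.cl b.1 = c} : ℝ) ≤
        #{b ∈ (E0.image Prod.fst).image T.S | T.cl b = c} * #T.PP := by exact_mod_cast h3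
    refine le_trans (le_of_eq ?_) (h4.trans ?_)
    · congr
    · rw [mul_comm]
      exact mul_le_mul_of_nonneg_left (hU c) hp.le
  · have hA : σ.A = ∑ x ∈ s, a x * Real.log (#T.PP * a x / fm s a Prod.fst x.1) := by
      refine sum_congr rfl fun x hx => ?_
      have e1 := fm_inj s a (fun x : T.Ω × ℕ => ((x.1, x.2), ([] : List ℕ)))
        (fun _ _ h => (Prod.mk.inj h).1) x hx
      have e2 := hE.congr s a (fun x : T.Ω × ℕ => (x.1, ([] : List ℕ))) Prod.fst (x.1, []) x.1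
        (fun _ _ => by simp)
      exact congrArg₂ (fun u v => a x * Real.log (#T.PP * u / v)) e1 e2
    have hB : σ.B = ∑ x ∈ s, a x * Real.log (#T.PP * a x / fm s a T.lw (T.lw x)) := by
      refine sum_congr rfl fun x hx => ?_
      have e1 := fm_inj s a (fun x : T.Ω × ℕ => ((x.1, x.2), ([] : List ℕ)))
        (fun _ _ h => (Prod.mk.inj h).1) x hx
      have e2 := hE.congr s a (fun x : T.Ω × ℕ => (T.lw x, ([] : List ℕ))) T.lw (T.lw x, [])
        (T.lw x) (fun _ _ => by simp)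
      exact congrArg₂ (fun u v => a x * Real.log (#T.PP * u / v)) e1 e2
    have hD : σ.D = ∑ x ∈ s, a x * Real.log (#T.PP * a x / fm s a T.lw (T.lw x)) := by
      refine sum_congr rfl fun x hx => ?_
      have e1 := fm_inj s a (fun x : T.Ω × ℕ => (x.1, x.2)) (fun _ _ h => h) x hx
      exact congrArg (fun u => a x * Real.log (#T.PP * u / fm s a T.lw (T.lw x))) e1
    have hZ : σ.Z = 1 := ha1
    have hA0 := (hS.nonneg T σ E0 0 Ml hne hI).1
    have c1 := cmp hE #T.PP hp s a Prod.fst (fun y => F y ^ 2 / n1) ha0 ha1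
      (fun x hx => div_pos (sq_pos_of_ne_zero (hs0 x hx).1) h1) (by
        rw [← sum_div, div_le_one h1, hn1]
        exact sum_le_sum_of_subset_of_nonneg (image_subset_image hsE) fun _ _ _ => sq_nonneg _)
    have c2 := cmp hE #T.PP hp s a T.lw (fun y => F' y ^ 2 / n2) ha0 ha1
      (fun x hx => div_pos (sq_pos_of_ne_zero (hs0 x hx).2) h2) (by
        rw [← sum_div, div_le_one h2, hn2]
        exact sum_le_sum_of_subset_of_nonneg (image_subset_image hsE) fun _ _ _ => sq_nonneg _)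
    have hq : (#T.PP : ℝ) ^ 2 * n1 * n2 / S ^ 2 ≤ (1 / lam) ^ 2 := by
      have h3 : lam * (n1 + n2) * #T.PP ≤ 2 * S := by
        rw [← le_div_iff₀ hp]
        exact hray.trans (le_of_eq (by ring))
      have h4 := pow_le_pow_left₀ (by positivity) h3 2
      rw [one_div, inv_pow, ← one_div, div_le_div_iff₀ (by positivity) (by positivity)]
      nlinarith [mul_nonneg (sq_nonneg (lam * #T.PP)) (sq_nonneg (n1 - n2))]
    have c3 : ∀ x ∈ s, a x * Real.log (#T.PP * a x / (F x.1 ^ 2 / n1)) +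
        a x * Real.log (#T.PP * a x / (F' (T.lw x) ^ 2 / n2)) ≤ a x * (2 * Real.log (1 / lam)) := by
      intro x hx
      have p0 := ha0 x hx
      have p1 := sq_pos_of_ne_zero (hs0 x hx).1
      have p2 := sq_pos_of_ne_zero (hs0 x hx).2
      obtain ⟨q1, q2⟩ := hs0 x hx
      have e : a x ^ 2 = F x.1 ^ 2 * F' (T.lw x) ^ 2 / S ^ 2 := by
        rw [ha, div_pow, sq_abs, mul_pow]
      have e' : #T.PP * a x / (F x.1 ^ 2 / n1) * (#T.PP * a x / (F' (T.lw x) ^ 2 / n2)) =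
          (#T.PP : ℝ) ^ 2 * n1 * n2 / S ^ 2 := by
        calc _ = (#T.PP : ℝ) ^ 2 * n1 * n2 * a x ^ 2 / (F x.1 ^ 2 * F' (T.lw x) ^ 2) := by
              field_simp
          _ = _ := by rw [e]; field_simp
      rw [← mul_add, ← Real.log_mul (by positivity) (by positivity), e']
      refine mul_le_mul_of_nonneg_left ?_ p0.le
      have := Real.log_le_log (by positivity) hq
      rwa [Real.log_pow, Nat.cast_ofNat] at this
    have c4 := sum_le_sum c3
    rw [sum_add_distrib, ← sum_mul, ha1] at c4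
    unfold Sm.Φ
    rw [hZ, hB, hD]
    rw [hA] at hA0 ⊢
    linarith

end Pool.Agent.Lib.MP_028aa5_nt.U
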