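import Pool.Agent.Lib.MP_028aa5_nt.U.St2

/-! Covering a ball by small boxes, and the existence of states. -/

namespace Pool.Agent.Lib.MP_028aa5_nt.U

open Finset T
open scoped Classical

namespace StateJ

theorem coef_le (k : ℕ) {κ : ℝ} (hκ : 0 ≤ κ) (y : ℝ) (α : Ph) {j : ℕ} (hj : j ∈ Icc 1 k) :
    κ ^ j * |tc k y α j| ≤ nm k κ y α := by
  unfold nm wn
  exact single_le_sum (f := fun j => κ ^ j * |tc k y α j|) (fun i _ => by positivity) hj

theorem card_box (a : ℝ) (ha : 0 ≤ a) : (#(Icc ⌊-a⌋ ⌊a⌋) : ℝ) ≤ 2 * a + 2 := by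
  have h1 := Int.floor_le a
  have h2 := Int.lt_floor_add_one (-a)
  have h3 : ⌊-a⌋ ≤ ⌊a⌋ := Int.floor_mono (by linarith)
  have h4 : ((#(Icc ⌊-a⌋ ⌊a⌋) : ℕ) : ℤ) = ⌊a⌋ + 1 - ⌊-a⌋ := by
    rw [Int.card_Icc]; omega
  have h5 : (#(Icc ⌊-a⌋ ⌊a⌋) : ℝ) = (⌊a⌋ : ℝ) + 1 - ⌊-a⌋ := by exact_mod_cast h4
  linarith

theorem net (hN : NSt) (k : ℕ) (κ y : ℝ) : ∃ A : Set Ph,
    (A.Pairwise fun a a' => ¬Cl k κ 1 y 1 (a - a')) ∧ ∀ α, ∃ a ∈ A, Cl k κ 1 y 1 (α - a) := by
  obtain ⟨A, hA⟩ := zorn_subset {A : Set Ph | A.Pairwise fun a a' => ¬Cl k κ 1 y 1 (a - a')}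
    fun c hc hch => ⟨⋃₀ c, (Set.pairwise_sUnion hch.directedOn).2 fun s hs => hc hs,
      fun s hs => Set.subset_sUnion_of_mem hs⟩
  refine ⟨A, hA.prop, fun α => ?_⟩
  by_contra hne
  push Not at hne
  have h1 : (insert α A).Pairwise fun a a' => ¬Cl k κ 1 y 1 (a - a') := by
    refine Set.Pairwise.insert hA.prop fun b hb _ => ⟨hne b hb, fun h => hne b hb ?_⟩
    have := hN.cl_neg _ _ _ _ _ _ h
    rwa [neg_sub] at this
  have h2 : α ∈ A := hA.le_of_ge h1 (Set.subset_insert _ _) (Set.mem_insert _ _)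
  refine hne α h2 ⟨0, ?_⟩
  have h3 : α - α - lat 1 0 = 0 := by
    funext j
    simp [lat]
  rw [h3, hN.nm_zero]
  exact zero_le_one

end StateJ

open StateJ

theorem st_Grid (hN : NSt) : GridSt := by
  intro ι k κ y r δ L A v hk hκ hr hδ hA hB
  have hk0 : (0 : ℝ) < k := by exact_mod_cast hk
  have hL : 0 ≤ L := by simpa using hB ∅ (empty_subset _) (by simp)
  have ha : 0 ≤ k * r / δ := by positivity
  have h1 := card_le_fibers A (Fintype.piFinset fun _ : Fin k => Icc ⌊-(k * r / δ)⌋ ⌊k * r / δ⌋)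
    (fun x (j : Fin k) => ⌊κ ^ ((j : ℕ) + 1) * tc k y (v x) (j + 1) * (k / δ)⌋) (L := L)
    (fun x hx => by
      refine Fintype.mem_piFinset.2 fun j => ?_
      have hj : (j : ℕ) + 1 ∈ Icc 1 k := mem_Icc.2 ⟨by omega, by have := j.2; omega⟩
      have h2 := (coef_le k hκ y (v x) hj).trans (hA x hx)
      have h3 : |κ ^ ((j : ℕ) + 1) * tc k y (v x) (j + 1) * (k / δ)| ≤ k * r / δ := by
        rw [abs_mul, abs_mul, abs_of_nonneg (by positivity : 0 ≤ κ ^ ((j : ℕ) + 1)),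
          abs_of_nonneg (by positivity : 0 ≤ (k : ℝ) / δ)]
        calc _ ≤ r * (k / δ) := mul_le_mul_of_nonneg_right h2 (by positivity)
          _ = _ := by ring
      exact mem_Icc.2 ⟨Int.floor_mono (abs_le.1 h3).1, Int.floor_mono (abs_le.1 h3).2⟩)
    (fun b _ => by
      refine hB _ (fun x hx => (mem_filter.1 hx).1) fun x hx x' hx' => ?_
      have h2 := (mem_filter.1 hx).2.trans (mem_filter.1 hx').2.symm
      unfold nm wn
      rw [hN.tc_sub]
      calc _ ≤ ∑ j ∈ Icc 1 k, δ / k := by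
            refine sum_le_sum fun j hj => ?_
            obtain ⟨hj1, hj2⟩ := mem_Icc.1 hj
            have h3 := congrFun h2 ⟨j - 1, by omega⟩
            simp only [show j - 1 + 1 = j by omega] at h3
            have h4 := Int.abs_sub_lt_one_of_floor_eq_floor h3
            rw [← sub_mul, ← mul_sub, abs_mul, abs_mul, abs_of_nonneg (by positivity : 0 ≤ κ ^ j),
              abs_of_nonneg (by positivity : 0 ≤ (k : ℝ) / δ), ← mul_div_assoc,
              div_lt_one hδ] at h4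
            rw [le_div_iff₀ hk0, Pi.sub_apply]
            exact h4.le
        _ = δ := by
            rw [sum_const, Nat.card_Icc, nsmul_eq_mul, Nat.add_sub_cancel]
            field_simp)
  refine h1.trans (mul_le_mul_of_nonneg_right ?_ hL)
  rw [Fintype.card_piFinset, prod_const, card_univ, Fintype.card_fin, Nat.cast_pow]
  refine pow_le_pow_left₀ (by positivity) ((card_box _ ha).trans_eq ?_) k
  ring

theorem st_State (hN : NSt) (hP : PtSt) (hG : GridSt) : StateSt := by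
  intro k κ hk hκ
  choose Ac hsep hnear using fun c : ℤ => net hN k κ (Real.exp (c * κ))
  choose a ha hcl using hnear
  refine ⟨fun t => (⌊Real.log t.y / κ⌋, a ⌊Real.log t.y / κ⌋ t.ph), fun _ => rfl, ?_, ?_⟩
  · intro t t' h
    obtain ⟨h1, h2⟩ := Prod.mk.inj h
    have h3 := hcl ⌊Real.log t.y / κ⌋ t.ph
    have h4 := hcl ⌊Real.log t'.y / κ⌋ t'.ph
    rw [← h2, ← h1] at h4
    have h5 := hP.cl_sub _ _ _ _ _ _ _ _ hκ h3 h4
    rwa [sub_sub_sub_cancel_right, one_add_one_eq_two] at h5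
  · intro c α r A hr hA
    have key : ∀ s ∈ A.image fun t : Pt k => (⌊Real.log t.y / κ⌋, a ⌊Real.log t.y / κ⌋ t.ph),
        s.1 = c ∧ s.2 ∈ Ac c ∧ ∃ z : ℕ → ℤ,
          nm k κ (Real.exp (c * κ)) (s.2 - α - lat 1 z) ≤ r + 1 := by
      intro s hs
      obtain ⟨t, ht, rfl⟩ := mem_image.1 hs
      obtain ⟨h1, h2⟩ := hA t ht
      simp only at h1 ⊢
      rw [h1]
      have h5 := hP.cl_sub _ _ _ _ _ _ _ _ hκ h2 (hcl c t.ph)
      rw [sub_sub_sub_cancel_left] at h5
      exact ⟨rfl, ha c _, h5⟩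
    choose! h1 h2 z hz using key
    have h3 := hG _ k κ (Real.exp (c * κ)) (r + 1) 1 1 _ (fun s => s.2 - α - lat 1 (z s)) hk hκ
      (by linarith) one_pos hz fun B hB hd => by
        have : #B ≤ 1 := card_le_one.2 fun x hx x' hx' => by
          refine Prod.ext ((h1 x (hB hx)).trans (h1 x' (hB hx')).symm) ?_
          by_contra hne
          refine hsep c (h2 x (hB hx)) (h2 x' (hB hx')) hne ⟨z x - z x', ?_⟩
          have h4 := hd x hx x' hx'
          rw [hN.lat_sub]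
          convert h4 using 2
          ring
        exact_mod_cast this
    rw [div_one, mul_one] at h3
    convert h3 using 3

end Pool.Agent.Lib.MP_028aa5_nt.U
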