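import Pool.Agent.Lib.MP_028aa5_nt.U.Inst

/-! The first and the third entropy at the next level. -/

namespace Pool.Agent.Lib.MP_028aa5_nt.U

open Finset T
open scoped Classical

namespace StepAJ

lemma rem (hE : EntSt) {ι κ : Type} {s : Finset ι} {a : ι → ℝ} {P : Finset κ} {W : κ → ℝ}
    (f : κ → ι) (q : κ → Prop) (h : ι → ℝ) {L c : ℝ} (hW : ∀ u ∈ P, 0 ≤ W u)
    (hf : ∀ u ∈ P, f u ∈ s) (hr : ∀ x ∈ s, fm P W f x = a x)
    (hk : ∀ b : ι → ℝ, (∀ x ∈ s, 0 ≤ b x ∧ b x ≤ a x) →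
      -∑ x ∈ s, b x * h x ≤ L * ∑ x ∈ s, b x + c) :
    ∑ u ∈ P with q u, W u * h (f u) ≤ ∑ x ∈ s, a x * h x + L * ∑ u ∈ P with ¬q u, W u + c := by
  have e : ∀ P' ⊆ P, ∀ h : ι → ℝ, ∑ x ∈ s, fm P' W f x * h x = ∑ u ∈ P', W u * h (f u) :=
    fun P' hP h => by
      rw [← sum_fiberwise_of_maps_to fun u hu => hf u (hP hu)]
      refine sum_congr rfl fun x _ => ?_
      rw [fm, sum_mul]
      exact sum_congr rfl fun u hu => by rw [(mem_filter.1 hu).2]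
  have h1 := hk (fm (P.filter fun u => ¬q u) W f) fun x hx =>
    ⟨hE.nonneg _ _ _ _ fun u hu => hW u (mem_filter.1 hu).1,
      (hE.mono _ _ _ _ _ (filter_subset _ _) hW).trans_eq (hr x hx)⟩
  have h2 := e _ (filter_subset (fun u => ¬q u) P) fun _ => 1
  have h3 := (sum_congr rfl fun x hx => by rw [hr x hx]).symm.trans (e P Subset.rfl h)
  simp only [mul_one] at h2
  rw [e _ (filter_subset _ _), h2] at h1
  rw [← sum_filter_add_sum_filter_not P q] at h3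
  linarith

lemma pt {c F G f g A B m M : ℝ} (hc : 0 < c) (hF : 0 < F) (hG : 0 < G) (hf : 0 < f) (hg : 0 < g)
    (hA : 0 < A) (hB : 0 < B) (hm : 0 < m) (hM : 0 < M) (h : F ≤ A * m / M) :
    Real.log (c * F / G) + Real.log (c * f / g) ≤
      Real.log (c * A / B) + Real.log (c * m / M) + (B * (f / g) / G - 1) := by
  have h1 := Real.log_le_sub_one_of_pos (x := B * (f / g) / G) (by positivity)
  have h2 := Real.log_le_log hF h
  simp (disch := positivity) only [Real.log_div, Real.log_mul] at h1 h2 ⊢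
  linarith

lemma third (hE : EntSt) {ι κ Ω β γ : Type} (s : Finset ι) (a : ι → ℝ) (P : Finset κ) (W : κ → ℝ)
    (y : ι → Ω) (R : ι → γ) (f : κ → β) (k : κ → γ) (Γ : β → Ω) (ha : ∀ x ∈ s, 0 ≤ a x)
    (hW : ∀ u ∈ P, 0 < W u) :
    ∑ u ∈ P, W u * (fm s a (fun x => (y x, R x)) (Γ (f u), k u) *
      (fm P W f (f u) / fm P W (fun u => Γ (f u)) (Γ (f u))) /
        fm P W (fun u => (f u, k u)) (f u, k u)) ≤ ∑ x ∈ s, a x := by
  have h0 : ∀ e, 0 ≤ fm P W f e / fm P W (fun u => Γ (f u)) (Γ e) := fun e =>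
    div_nonneg (hE.nonneg _ _ _ _ fun u hu => (hW u hu).le)
      (hE.nonneg _ _ _ _ fun u hu => (hW u hu).le)
  refine (hE.val P W (fun u => (f u, k u)) (fun b => fm s a (fun x => (y x, R x)) (Γ b.1, b.2) *
    (fm P W f b.1 / fm P W (fun u => Γ (f u)) (Γ b.1))) hW).trans_le ?_
  refine (sum_le_sum_of_subset_of_nonneg (t := P.image f ×ˢ P.image k) (fun b hb => ?_)
    fun b _ _ => mul_nonneg (hE.nonneg _ _ _ _ ha) (h0 _)).trans ?_
  · obtain ⟨u, hu, rfl⟩ := (@mem_image _ _ (_) ..).1 hb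
    exact mem_product.2 ⟨mem_image_of_mem _ hu, mem_image_of_mem _ hu⟩
  rw [sum_product]
  refine (sum_le_sum (g := fun e => fm P W f e * (fm s a y (Γ e) /
    fm P W (fun u => Γ (f u)) (Γ e))) fun e _ => ?_).trans ?_
  · dsimp only
    rw [← sum_mul, mul_div_left_comm (fm P W f e)]
    exact mul_le_mul_of_nonneg_right (hE.marg s a y R _ _ ha) (h0 e)
  rw [← hE.push P W f, hE.val P W (fun u => Γ (f u)) (fm s a y) hW]
  exact hE.tot s a y _ ha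

lemma prd (hS : SmSt) {T : Sys} (σ : Sm T) {β γ δ : Type} {P : Finset (σ.ι × σ.ι)}
    {f : σ.ι × σ.ι → β} {g : σ.ι → γ} {h : σ.ι → δ} {b : β} {c : γ} {d : δ} {z : T.Ω}
    (ha : ∀ x ∈ σ.s, 0 < σ.a x) (hP : ∀ u ∈ P, u ∈ σ.prs)
    (e : ∀ v ∈ P, f v = b → g v.1 = c ∧ h v.2 = d ∧ σ.w v.1 = z) :
    fm P σ.pw f b ≤ fm σ.s σ.a g c * fm σ.s σ.a h d / fm σ.s σ.a σ.w z :=
  hS.prod T σ (fun x => g x = c) (fun x => h x = d) z _ ha (fun v hv => hP v (mem_filter.1 hv).1)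
    fun v hv => e v (mem_filter.1 hv).1 (mem_filter.1 hv).2

end StepAJ

open StepAJ in
theorem st_StepA (hE : EntSt) (hS : SmSt) : StepASt := by
  intro T C0 σ E0 j Ml L q hT hI hq hne
  have pp : (0 : ℝ) < #T.PP := Nat.cast_pos.2 hT.ne.card_pos
  have a0 : ∀ x ∈ σ.s, 0 ≤ σ.a x := fun x hx => (hI.pos x hx).le
  have W0 := hS.pw_pos T σ hI.pos
  have hm : ∀ u ∈ σ.prs, (u.1 ∈ σ.s ∧ u.2 ∈ σ.s) ∧ σ.w u.1 = σ.w u.2 := fun u hu => by
    simpa only [Sm.prs, mem_filter, mem_product] using hu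
  obtain ⟨P, hP⟩ : ∃ P, P = σ.prs.filter q := ⟨_, rfl⟩
  have P1 : ∀ u ∈ P, u ∈ σ.prs := fun u hu => (mem_filter.1 (hP ▸ hu)).1
  have P2 : ∀ u ∈ P, u.swap ∈ P := fun u hu => hP ▸ mem_filter.2
    ⟨(hS.swap_mem T σ u (P1 u hu)).1, hq u (P1 u hu) (mem_filter.1 (hP ▸ hu)).2⟩
  have P3 := fun u hu => hS.tp T C0 σ E0 j Ml hT hI u (P1 u hu)
    (hne u (P1 u hu) (mem_filter.1 (hP ▸ hu)).2)
  have P4 : ∀ u ∈ P, 0 < σ.pw u := fun u hu => W0 u (P1 u hu)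
  have sw : ∀ H H' : σ.ι × σ.ι → ℝ, (∀ u ∈ P, H u.swap = H' u) → ∑ u ∈ P, H u = ∑ u ∈ P, H' u :=
    fun H H' h => sum_nbij' Prod.swap Prod.swap P2 P2 (by simp) (by simp)
      fun u hu => h _ (P2 u hu)
  have fw : ∀ {β : Type} (f g : σ.ι × σ.ι → β) (b : β), (∀ u ∈ P, f u.swap = g u) →
      fm P σ.pw f b = fm P σ.pw g b := fun f g b h => by
    rw [fm, fm, sum_filter, sum_filter]
    exact sw _ _ fun u hu => by rw [h u hu, (hS.swap_mem T σ u (P1 u hu)).2]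
  have ps : ∀ {β : Type} (f : σ.ι → β), ∀ x ∈ σ.s, 0 < fm σ.s σ.a f (f x) := fun f x hx =>
    (hI.pos x hx).trans_le (hE.self _ _ f a0 x hx)
  have pP : ∀ {β : Type} (f : σ.ι × σ.ι → β), ∀ u ∈ P, 0 < fm P σ.pw f (f u) := fun f u hu =>
    (P4 u hu).trans_le (hE.self _ _ f (fun v hv => (P4 v hv).le) u hu)
  have eD : (σ.nxt q).D = ∑ u ∈ P, σ.pw u * Real.log (#T.PP *
      fm P σ.pw (fun u => (σ.tp u, σ.p u.2)) (σ.tp u, σ.p u.2) /
        fm P σ.pw (fun u => T.ch (σ.p u.2) (σ.tp u)) (T.ch (σ.p u.2) (σ.tp u))) := by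
    change Dv _ (σ.prs.filter q) σ.pw (fun u => (σ.tp u, σ.p u.1))
      (fun u => T.ch (σ.p u.1) (σ.tp u)) = _
    rw [← hP]
    refine sw _ _ fun u hu => ?_
    beta_reduce
    rw [(hS.swap_mem T σ u (P1 u hu)).2, (P3 u hu).2.2,
      fw _ (fun u => (σ.tp u, σ.p u.2)) _ fun v hv => by rw [(P3 v hv).2.2]; rfl,
      fw _ (fun u => T.ch (σ.p u.2) (σ.tp u)) _ fun v hv => by rw [(P3 v hv).2.2]; rfl]
    rfl
  have eA : (σ.nxt q).A = ∑ u ∈ P, σ.pw u * Real.log (#T.PP *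
      fm P σ.pw (fun u => ((σ.tp u, σ.p u.1), σ.p u.2 :: σ.R u.1))
        ((σ.tp u, σ.p u.1), σ.p u.2 :: σ.R u.1) /
      fm P σ.pw (fun u => ((σ.tp u, σ.p u.2), σ.R u.1)) ((σ.tp u, σ.p u.2), σ.R u.1)) := by
    change Dv _ (σ.prs.filter q) σ.pw (fun u => ((σ.tp u, σ.p u.1), σ.p u.2 :: σ.R u.1))
      (fun u => (σ.tp u, σ.p u.2 :: σ.R u.1)) = _
    rw [← hP]
    refine sum_congr rfl fun u _ => ?_
    rw [hE.congr P σ.pw (fun u => (σ.tp u, σ.p u.2 :: σ.R u.1))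
      (fun u => ((σ.tp u, σ.p u.2), σ.R u.1)) _ ((σ.tp u, σ.p u.2), σ.R u.1)
      fun v _ => by simp only [Prod.mk.injEq, List.cons.injEq, and_assoc]]
  have hZ : Real.exp (-L) * ∑ x ∈ σ.s, σ.a x ≤ Real.exp (-L) :=
    mul_le_of_le_one_right (Real.exp_pos _).le hI.tot
  have rA := rem hE Prod.fst q _ (fun u hu => (W0 u hu).le) (fun u hu => (hm u hu).1.1)
    (fun x hx => (hS.row T σ hI.pos x hx).1) fun b hb =>
      hE.kill #T.PP σ.s σ.a (fun x => ((σ.y x, σ.p x), σ.R x)) (fun x => (σ.y x, σ.R x)) pp hI.pos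
        (fun x _ x' _ h => by simp only [Prod.mk.injEq] at h ⊢; exact ⟨h.1.1, h.2⟩)
        (fun b => cimg (hS.fibA T σ E0 j Ml hI b)) b L hb
  have rD := rem hE Prod.snd q _ (fun u hu => (W0 u hu).le) (fun u hu => (hm u hu).1.2)
    (fun x hx => (hS.row T σ hI.pos x hx).2) fun b hb =>
      hE.kill #T.PP σ.s σ.a (fun x => (σ.y x, σ.p x)) σ.w pp hI.pos
        (fun x _ x' _ h => by rw [Sm.w, Sm.w, (Prod.mk.inj h).1, (Prod.mk.inj h).2])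
        (fun b => cimg (hS.fibD T σ E0 j Ml hI b)) b L hb
  have r3 := third hE σ.s σ.a P σ.pw σ.y σ.R (fun u => (σ.tp u, σ.p u.2)) (fun u => σ.R u.1)
    (fun e => T.ch e.2 e.1) a0 P4
  have r4 := hS.sum1 T σ (fun _ => 1) hI.pos
  simp only [mul_one] at r4
  rw [← sum_filter_add_sum_filter_not _ q, ← hP] at r4
  rw [← hP] at rA rD
  have key := sum_le_sum fun u (hu : u ∈ P) => mul_le_mul_of_nonneg_left
    (pt pp (pP (fun u => ((σ.tp u, σ.p u.1), σ.p u.2 :: σ.R u.1)) u hu)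
      (pP (fun u => ((σ.tp u, σ.p u.2), σ.R u.1)) u hu) (pP (fun u => (σ.tp u, σ.p u.2)) u hu)
      (pP (fun u => T.ch (σ.p u.2) (σ.tp u)) u hu)
      (ps (fun x => ((σ.y x, σ.p x), σ.R x)) _ (hm u (P1 u hu)).1.1)
      (ps (fun x => (σ.y x, σ.R x)) _ (hm u (P1 u hu)).1.1)
      (ps (fun x => (σ.y x, σ.p x)) _ (hm u (P1 u hu)).1.2) (ps σ.w _ (hm u (P1 u hu)).1.2) (by
        refine prd hS σ hI.pos P1 fun v hv e => ?_
        simp only [Prod.mk.injEq, List.cons.injEq] at e ⊢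
        obtain ⟨⟨e1, e2⟩, e3, e4⟩ := e
        have e5 : σ.y v.2 = σ.y u.2 := by rw [← (P3 v hv).2.1, ← (P3 u hu).2.1, e1, e2]
        exact ⟨⟨⟨by rw [← (P3 v hv).1, ← (P3 u hu).1, e1, e3], e2⟩, e4⟩, ⟨e5, e3⟩,
          by rw [(hm v (P1 v hv)).2, Sm.w, Sm.w, e5, e3]⟩)) (P4 u hu).le
  simp only [mul_add, mul_sub, mul_one, sum_add_distrib, sum_sub_distrib] at key
  dsimp only at r3
  rw [sum_congr rfl fun u hu => by rw [show (T.ch (σ.p u.2) (σ.tp u), σ.R u.1) =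
    (σ.y u.1, σ.R u.1) by rw [(P3 u hu).1]]] at r3
  rw [eA, eD, Sm.A, Sm.D, Dv, Dv]
  linarith

end Pool.Agent.Lib.MP_028aa5_nt.U
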