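import Pool.Agent.Lib.MP_028aa5_nt.U.St3

/-! The tower over a graph. -/

namespace Pool.Agent.Lib.MP_028aa5_nt.U

open Finset T
open scoped Classical

theorem st_TowY (hN : NSt) (hB : BasSt) (hS : SmSt) (h1 : StateSt) (h2 : GeoSt) (h3 : InitSt)
    (h4 : Cnt0St) (h5 : TowSt) (h6 : CountSt) (h7 : NumSt) (h8 : NetSt) : TowYSt := by
  intro k ε δ hk e0 e1 d0
  obtain ⟨δ0, d1, d2, d3⟩ : ∃ δ0 : ℝ, 0 < δ0 ∧ δ0 ≤ 1 ∧ 5 ^ k * δ0 ≤ δ := by
    refine ⟨min 1 (δ / 5 ^ k), by positivity, min_le_left _ _, ?_⟩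
    rw [← le_div_iff₀' (by positivity)]
    exact min_le_right _ _
  obtain ⟨ρ, r0, r1, h3⟩ := h3 k ε δ0 hk e0 (by linarith) d1 d2
  refine ⟨ρ, r0, r1, fun π N E φ cL cU Nc s K L pk ok hI hL hRay cu cl cLU hNc p9 p16 hM hκ0 hsκ hK1
    hK2 hK3 hK4 L0 hLK hβ => ?_⟩
  subst pk
  have k1 := hB.κ1_pos π ok
  have κ0 : 0 < π.κ := k1.trans_le (hB.κ1_le π ok)
  have s0 : (0 : ℝ) ≤ s := Nat.cast_nonneg s
  have n9 : (1 : ℝ) ≤ 9 ^ π.k := one_le_pow₀ (by norm_num)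
  have n5 : (5 : ℝ) ^ π.k ≤ 9 ^ π.k := pow_le_pow_left₀ (by norm_num) (by norm_num) _
  have P1 : 1 ≤ π.P := by linarith
  have K1 : 1 ≤ K := by linarith
  have κ2 : 2 * π.κ ≤ 1 := le_trans (mul_le_mul_of_nonneg_right (by linarith) κ0.le) hsκ
  have Y0 : 0 < π.ps cL := Real.exp_pos _
  have hY : ∀ x, π.ps cL ≤ N.pos π x := fun x => by
    have : cL ≤ N.cell x := by
      cases h : N.isU x
      · exact (mem_Ico.1 (cl x h)).1
      · exact cLU.trans (mem_Ico.1 (cu x h)).1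
    exact Real.exp_le_exp.2 (mul_le_mul_of_nonneg_right (by exact_mod_cast this) k1.le)
  obtain ⟨S, hSt⟩ := h1 π.k π.κ hk κ0.le
  have okT := h2 π (π.ps cL) S ok hSt Y0 (by
    refine le_trans ?_ ((pow_le_pow_right₀ P1 (show 2 ≤ 9 by norm_num)).trans p9)
    nlinarith)
  obtain ⟨E0, F, F', g1, g2⟩ := h3 π N E φ (π.ps cL) S rfl ok hI hL hRay hY κ2 p16
    ((pow_le_pow_right₀ P1 (by norm_num)).trans p9) hM hκ0
  obtain ⟨v1, v2, v3⟩ := h4 π N E φ (π.ps cL) δ0 S E0 ok hI hSt d2 (by linarith) hY g2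
  obtain ⟨R, E1, G, G', t1, t2, t3, t4, t5, t6⟩ := h5 (geo π (π.ps cL) S) (cK π.k) K L (4 * ε) s E0
    F F' okT g1 (by linarith) (by linarith) v1 (hS.cnt _ _ _ _ _ Subset.rfl hK1 v2)
    (hS.cnt _ _ _ _ _ Subset.rfl hK1 v3) K1 hK2 ((pow_le_pow_right₀ K1 (by norm_num)).trans hK3) L0
    hLK (by linarith) fun j hj => by
      have js : (j : ℝ) ≤ s := by exact_mod_cast hj.le
      obtain ⟨a, g, rfl, a1, a2, a3⟩ := h7 K #π.PP j K1 hK3 (by linarith)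
      refine ⟨a, _, h6 π (π.ps cL) (K ^ (3 * (j + 1))) S j (2 ^ a) ok hSt Y0 a1 ?_ p16 ?_,
        by positivity, a3⟩
      · refine le_trans (mul_le_mul_of_nonneg_right ?_ κ0.le) hsκ
        have : 2 ^ a + 1 ≤ s + 9 := by omega
        exact_mod_cast this
      · refine (pow_le_pow_right₀ P1 a2).trans ?_
        rw [pow_add, ← mul_assoc]
        exact mul_le_mul_of_nonneg_right p9 (by positivity)
  obtain ⟨N', E', φ', cls, hO⟩ := h8 π N E φ (π.ps cL) δ0 _ _ S R E1 G G' cL cU Nc ok hI hSt κ2 t3 t2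
    (fun e he => g2 _ (t4 e he)) t5 t6 cu cl hNc
  refine ⟨R.prod, ?_, N', E', φ', cls, hO.is, hO.lv, ?_, hO.ends, hO.num, hO.cla, fun e' he' => ?_⟩
  · rw [← t1]
    clear * - t2 ok P1
    induction R with
    | nil => simp
    | cons r R ih =>
      rw [List.length_cons, List.prod_cons, pow_succ', Nat.cast_mul]
      exact mul_le_mul (ok.pr r (t2 r List.mem_cons_self)).2.1.le
        (ih fun r' hr' => t2 r' (List.mem_cons_of_mem _ hr')) (by positivity) (Nat.cast_nonneg _)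
  · have := hO.ray
    rwa [show 1 - 16 * (4 * ε) = 1 - 64 * ε by ring] at this
  · obtain ⟨e, he, m1, m2, m3, m4⟩ := hO.lnk e' he'
    exact ⟨e, he, m1, m2, hN.cl_mono _ _ _ _ _ _ _ d3 m3, hN.cl_mono _ _ _ _ _ _ _ d3 m4⟩

end Pool.Agent.Lib.MP_028aa5_nt.U
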