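import Pool.Agent.Lib.MP_028aa5_nt.U.St3

/-! The fine view, removing few primes, colliding primes. -/

namespace Pool.Agent.Lib.MP_028aa5_nt.U

open Finset T
open scoped Classical

namespace VAJ

theorem k1 (π : Par) (M : ℕ) : (vA π M).κ1 = π.κ0 := by
  change ((1 : ℕ) : ℝ) * π.κ0 = π.κ0
  rw [Nat.cast_one, one_mul]

theorem k0 (π : Par) (M : ℕ) : (vA π M).κ = π.κ := by
  rw [Par.κ, k1, Par.κ, Par.κ1, ← mul_assoc, ← Nat.cast_mul]
  rfl

theorem ok (π : Par) (M : ℕ) (h : π.Ok) : (vA π M).Ok :=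
  ⟨h.k1, h.κ0, le_rfl, Nat.mul_pos h.G h.Nf, (k0 π M).trans_le h.κ, h.P, h.ne, h.pr⟩

end VAJ

open VAJ in
theorem st_VA : VASt := by
  refine ⟨k0, k1, fun π M c => ?_, fun π M c => ?_, fun π M => ?_, ok, fun π M X A C D h =>
    ⟨ok π M h.ok, h.lo, h.hi, h.pp, h.κ0, h.κlo.trans_eq (k0 π M).symm,
      (k0 π M).trans_le h.κhi⟩, fun π h => ?_, fun π j h => ?_⟩
  · rw [Par.ps, k1, Par.yy]
  · rw [Par.ps, k1, Par.ps, Par.κ1, Nat.cast_mul, mul_assoc]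
  · change 1 / (((1 : ℕ) : ℝ) * #π.PP) = _
    rw [Nat.cast_one, one_mul]
  · have h0 : 0 ≤ π.G * π.κ1 :=
      mul_nonneg (Nat.cast_nonneg _) (mul_nonneg (Nat.cast_nonneg _) h.κ0.le)
    have h1 := h.κ
    rw [Par.κ] at h1 ⊢
    rw [mul_assoc]
    generalize π.G * π.κ1 = x at h0 h1 ⊢
    have h2 := mul_le_mul_of_nonneg_left (Real.add_one_le_exp (-x)) (Real.exp_pos x).le
    rw [← Real.exp_add, add_neg_cancel, Real.exp_zero] at h2
    nlinarith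
  · rw [Par.ps, Par.yy, Par.κ1, ← mul_assoc, ← Nat.cast_mul]
    exact Real.exp_le_exp.2
      (mul_le_mul_of_nonneg_right (Nat.cast_le.2 (Nat.div_mul_le_self _ _)) h.κ0.le)

theorem st_Drop (hB : BasSt) : DropSt := by
  intro π N E lam ω Col ok hI hC ⟨u, h0, h1⟩
  have hν := hB.ν_pos π ok
  have hP : (0 : ℝ) < #π.PP := by exact_mod_cast ok.ne.card_pos
  have hNf : (0 : ℝ) < π.Nf := by exact_mod_cast ok.Nf
  have hω : 0 ≤ ω := by
    obtain ⟨x, -, -⟩ := exists_ne_zero_of_sum_ne_zero h0.ne'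
    exact (Nat.cast_nonneg _).trans (hC x)
  obtain ⟨E1, hE1⟩ : ∃ E1, E1 = {e ∈ E | ¬N.pr e ∉ Col (N.up e)} := ⟨_, rfl⟩
  have m1 : ∀ e ∈ E1, e ∈ E ∧ N.pr e ∈ Col (N.up e) := fun e he => by
    rw [hE1, mem_filter, not_not] at he
    exact he
  have c1 : ∀ x, (#{e ∈ E1 | N.up e = x} : ℝ) ≤ π.Nf * ω := by
    intro x
    refine le_trans ?_ (mul_le_mul_of_nonneg_left (hC x) hNf.le)
    rw [← Nat.cast_mul, Nat.cast_le]
    refine card_le_mul_card_image_of_maps_to (f := N.pr) (fun e he => ?_) _ fun p _ =>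
      le_trans (card_le_card fun e he => ?_) (hB.cntU π N E ok hI x p)
    · obtain ⟨he1, rfl⟩ := mem_filter.1 he
      exact (m1 e he1).2
    · obtain ⟨he1, he2⟩ := mem_filter.1 he
      obtain ⟨he3, he4⟩ := mem_filter.1 he1
      exact mem_filter.2 ⟨(m1 e he3).1, he2, he4⟩
  have c2 : π.ν * ∑ e ∈ E1, u (N.up e) ^ 2 ≤ ω / #π.PP * ∑ x, u x ^ 2 := by
    have e1 : ∑ e ∈ E1, u (N.up e) ^ 2 ≤ π.Nf * ω * ∑ x, u x ^ 2 := by
      rw [← sum_fiberwise E1 N.up, mul_sum]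
      refine sum_le_sum fun x _ => ?_
      rw [sum_congr rfl fun e he => congrArg (fun y => u y ^ 2) (mem_filter.1 he).2, sum_const,
        nsmul_eq_mul]
      exact mul_le_mul_of_nonneg_right (c1 x) (sq_nonneg _)
    refine (mul_le_mul_of_nonneg_left e1 hν.le).trans (le_of_eq ?_)
    rw [Par.ν]
    field_simp
  have c3 : π.ν * ∑ e ∈ E1, u (N.lo e) ^ 2 ≤ ∑ x, u x ^ 2 := by
    have e1 := hB.sumL π N E π.PP (fun x => u x ^ 2) ok hI fun _ => sq_nonneg _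
    rw [filter_true_of_mem hI.pr, div_self hP.ne', one_mul] at e1
    exact ((mul_le_mul_of_nonneg_left (sum_le_sum_of_subset_of_nonneg (fun e he => (m1 e he).1)
      fun _ _ _ => sq_nonneg _) hν.le).trans e1).trans
      (sum_le_sum_of_subset_of_nonneg (filter_subset _ _) fun _ _ _ => sq_nonneg _)
  have c4 : π.ν * ∑ e ∈ E1, u (N.up e) * u (N.lo e) ≤ √(ω / #π.PP) * ∑ x, u x ^ 2 := by
    refine le_of_sq_le_sq ?_ (mul_nonneg (Real.sqrt_nonneg _) h0.le)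
    have e1 := mul_le_mul_of_nonneg_left (sum_mul_sq_le_sq_mul_sq E1 (fun e => u (N.up e))
      fun e => u (N.lo e)) (sq_nonneg π.ν)
    have e2 := mul_le_mul c2 c3 (mul_nonneg hν.le (sum_nonneg fun _ _ => sq_nonneg _))
      (mul_nonneg (div_nonneg hω hP.le) h0.le)
    rw [mul_pow, mul_pow, Real.sq_sqrt (div_nonneg hω hP.le)]
    linarith
  refine ⟨u, h0, ?_⟩
  rw [Net.Qf, ← sum_filter_add_sum_filter_not E fun e => N.pr e ∉ Col (N.up e), ← hE1] at h1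
  rw [Net.Qf]
  linarith

theorem st_Col (hN2 : N2St) (hB : BasSt) : ColSt := by
  intro π N E φ r Y ok hI hY h1 h2
  have hκ : 0 < π.κ := (hB.κ1_pos π ok).trans_le (hB.κ1_le π ok)
  let Q : N.W → ℕ → Prop := fun x p => ∃ x', N.isU x = N.isU x' ∧ N.cell x = N.cell x' ∧
    ∃ z : ℕ → ℤ, nm π.k π.κ (N.pos π x) (φ x - φ x' - lat (1 / p) z) ≤ r ∧
      ¬∀ j ∈ Icc 1 π.k, (p : ℤ) ^ j ∣ z j
  refine ⟨fun x => π.PP.filter (Q x), fun x => ?_, fun x x' p hp z h3 h4 h5 h6 => ?_⟩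
  · refine le_trans ?_ (hI.mu (N.isU x) (N.cell x))
    have : Nonempty N.W := ⟨x⟩
    choose! g g1 g2 z g3 g4 using fun p (hp : p ∈ π.PP.filter (Q x)) => (mem_filter.1 hp).2
    refine card_le_card_of_injOn g (fun p hp => mem_filter.2 ⟨mem_univ _, (g1 p hp).symm,
      (g2 p hp).symm⟩) fun p hp q hq e => ?_
    by_contra hne
    obtain ⟨p1, p2, p3⟩ := ok.pr p (mem_filter.1 hp).1
    obtain ⟨q1, q2, q3⟩ := ok.pr q (mem_filter.1 hq).1
    have p0 : (0 : ℝ) < p := Nat.cast_pos.2 p1.pos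
    have q0 : (0 : ℝ) < q := Nat.cast_pos.2 q1.pos
    have pq : (p : ℝ) * q ≤ 4 * π.P ^ 2 :=
      (mul_le_mul p3 q3 q0.le (p0.le.trans p3)).trans_eq (by ring)
    have hr : 0 ≤ r := by
      refine le_trans ?_ (g3 p hp)
      rw [nm, wn]
      exact sum_nonneg fun j _ => mul_nonneg (pow_nonneg hκ.le j) (abs_nonneg _)
    have hy := mul_le_mul_of_nonneg_left (hY x) hκ.le
    have g5 := g3 q hq
    rw [← e] at g5
    refine g4 p hp (hN2.one _ _ _ 1 r _ p q _ _ p1 q1 hne hκ (hB.pos_pos π N x) one_pos (g3 p hp)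
      g5 ?_ ?_)
    · rw [lt_div_iff₀ (mul_pos p0 q0)]
      nlinarith [mul_le_mul_of_nonneg_left pq hr]
    · rw [le_div_iff₀ (mul_pos p0 q0)]
      linarith
  · by_contra h7
    exact h5 (mem_filter.2 ⟨hp, x', h3, h4, z, h6, h7⟩)

end Pool.Agent.Lib.MP_028aa5_nt.U
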