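import Pool.Agent.Lib.MP_028aa5_nt.U.St2

/-! Denominators of the defect of a chain, and the count of the middle primes. -/

namespace Pool.Agent.Lib.MP_028aa5_nt.U

open Finset T
open scoped Classical

namespace ZtJ

theorem den (k : ℕ) (l : List (ℕ × ℕ × ℕ)) : ∀ ζ, (∀ x ∈ l, 0 < x.2.1) → Zt k l ζ →
    EqZ k (dil (pc l) ζ) 0 := by
  induction l with
  | nil =>
    rintro ζ - rfl j -
    exact ⟨0, by simp [dil]⟩
  | cons x ls ih =>
    rintro ζ hp ⟨i, ζ', -, hz, rfl⟩ j hj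
    obtain ⟨n, hn⟩ := ih ζ' (fun y hy => hp y (List.mem_cons_of_mem _ hy)) hz j hj
    have hr : (x.2.1 : ℝ) ≠ 0 := by exact_mod_cast (hp x List.mem_cons_self).ne'
    refine ⟨(pc ls * (pb ls * (x.1 * x.2.2))) ^ j * i j + (x.2.1 * x.1) ^ j * n, ?_⟩
    have h1 : pc (x :: ls) = x.2.1 * pc ls := by simp [pc]
    simp only [dil, Pi.zero_apply, zero_add] at hn
    simp only [dil, lat, Pi.add_apply, Pi.zero_apply, zero_add, h1]
    push_cast
    rw [← hn]
    simp only [mul_pow, one_div, inv_pow]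
    field_simp

theorem cop {α : Type} (l : List α) (f : α → ℕ) {q : ℕ} (hq : q.Prime)
    (h : ∀ x ∈ l, (f x).Prime ∧ f x ≠ q) : Nat.Coprime (l.map f).prod q := by
  refine Nat.coprime_list_prod_left_iff.2 fun n hn => ?_
  obtain ⟨x, hx, rfl⟩ := List.mem_map.1 hn
  exact (Nat.coprime_primes (h x hx).1 hq).2 (h x hx).2

theorem one (k : ℕ) (q : ℕ) (hq : q.Prime) (l : List (ℕ × ℕ × ℕ)) : ∀ ζ (m : ℕ),
    (∀ x ∈ l, x.1.Prime ∧ x.2.1.Prime ∧ x.2.2.Prime) → Zt k l ζ →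
    (∀ x ∈ l, x.1 ≠ q ∧ x.2.2 ≠ q) → (l.map fun x => x.2.1).count q = 1 → Nat.Coprime m q →
    ¬EqZ k (dil m ζ) 0 := by
  induction l with
  | nil =>
    intro ζ m _ _ _ h
    simp at h
  | cons x ls ih =>
    rintro ζ m hp ⟨i, ζ', ⟨j0, hj0, hi⟩, hz, rfl⟩ hne hc hm h
    have hp' : ∀ y ∈ ls, y.1.Prime ∧ y.2.1.Prime ∧ y.2.2.Prime :=
      fun y hy => hp y (List.mem_cons_of_mem _ hy)
    have hne' : ∀ y ∈ ls, y.1 ≠ q ∧ y.2.2 ≠ q := fun y hy => hne y (List.mem_cons_of_mem _ hy)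
    obtain ⟨p1, p2, p3⟩ := hp x List.mem_cons_self
    obtain ⟨n1, n3⟩ := hne x List.mem_cons_self
    have hr : (x.2.1 : ℝ) ≠ 0 := by exact_mod_cast p2.ne_zero
    have c1 : Nat.Coprime x.1 q := (Nat.coprime_primes p1 hq).2 n1
    have c3 : Nat.Coprime x.2.2 q := (Nat.coprime_primes p3 hq).2 n3
    rw [List.map_cons, List.count_cons] at hc
    by_cases e : x.2.1 = q
    · have h0 : q ∉ ls.map fun x => x.2.1 := List.count_eq_zero.1 (by simpa [e] using hc)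
      have c2 : Nat.Coprime (pc ls) q := cop ls _ hq fun y hy =>
        ⟨(hp' y hy).2.1, fun h1 => h0 (List.mem_map.2 ⟨y, hy, h1⟩)⟩
      have c4 : Nat.Coprime (pb ls) q := cop ls _ hq fun y hy => ⟨(hp' y hy).2.2, (hne' y hy).2⟩
      obtain ⟨n, hn⟩ := h j0 hj0
      obtain ⟨n', hn'⟩ := den k ls ζ' (fun y hy => (hp' y hy).2.1.pos) hz j0 hj0
      simp only [dil, Pi.zero_apply, zero_add] at hn'
      simp only [dil, lat, Pi.add_apply, Pi.zero_apply, zero_add] at hn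
      have h2 : ((m * pc ls * (pb ls * (x.1 * x.2.2)) : ℕ) : ℤ) ^ j0 * i j0 =
          (x.2.1 : ℤ) ^ j0 * ((pc ls : ℤ) ^ j0 * n - ((m : ℤ) * x.1) ^ j0 * n') := by
        have h3 : ((m * pc ls * (pb ls * (x.1 * x.2.2)) : ℕ) : ℝ) ^ j0 * i j0 =
            (x.2.1 : ℝ) ^ j0 * ((pc ls : ℝ) ^ j0 * n - ((m : ℝ) * x.1) ^ j0 * n') := by
          rw [← hn, ← hn']
          push_cast
          simp only [mul_pow, one_div, inv_pow]
          field_simp
          ring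
        exact_mod_cast h3
      refine hi (IsCoprime.dvd_of_dvd_mul_left (IsCoprime.pow (Nat.isCoprime_iff_coprime.2 ?_))
        ⟨_, h2⟩)
      rw [e]
      exact ((hm.mul_left c2).mul_left (c4.mul_left (c1.mul_left c3))).symm
    · have c2 : Nat.Coprime x.2.1 q := (Nat.coprime_primes p2 hq).2 e
      refine ih ζ' (m * x.2.1 * x.1) hp' hz hne' (by simpa [e] using hc)
        ((hm.mul_left c2).mul_left c1) fun j hj => ?_
      obtain ⟨n, hn⟩ := h j hj
      simp only [dil, lat, Pi.add_apply, Pi.zero_apply, zero_add] at hn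
      refine ⟨(x.2.1 : ℤ) ^ j * n - ((m : ℤ) * (pb ls * (x.1 * x.2.2))) ^ j * i j, ?_⟩
      simp only [dil, Pi.zero_apply, zero_add]
      push_cast at hn ⊢
      rw [← hn]
      simp only [mul_pow, one_div, inv_pow]
      field_simp
      ring

theorem inj (l : List (ℕ × ℕ × ℕ)) : ∀ l' : List (ℕ × ℕ × ℕ),
    (l.map fun x => (x.1, x.2.2)) = (l'.map fun x => (x.1, x.2.2)) →
    (l.map fun x => x.2.1) = (l'.map fun x => x.2.1) → l = l' := by
  induction l with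
  | nil =>
    intro l' h _
    simpa using h.symm
  | cons x ls ih =>
    intro l' h h'
    cases l' with
    | nil => simp at h
    | cons y ls' =>
      simp only [List.map_cons, List.cons.injEq, Prod.mk.injEq] at h h'
      rw [ih ls' h.2 h'.2, Prod.ext h.1.1 (Prod.ext h'.1 h.1.2)]

end ZtJ

theorem st_Zt : ZtSt where
  den := ZtJ.den
  one := fun k l ζ q m h1 h2 hq => ZtJ.one k q hq l ζ m h1 h2

theorem st_Mid (hD : DenSt) (hZ : ZtSt) (hL : ListSt) : MidSt := by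
  intro k g PP L ζ hne hPP h1 h2
  rcases L.eq_empty_or_nonempty with rfl | ⟨l0, hl0⟩
  · simp
  rw [← card_image_of_injOn (f := fun l : List (ℕ × ℕ × ℕ) => l.map fun x => x.2.1)
    fun l hl l' hl' e => ZtJ.inj l l' (h2 l hl l' hl').1 e]
  refine hL.rep PP ((l0.map fun x => x.1).toFinset ∪ (l0.map fun x => x.2.1).toFinset ∪
    (l0.map fun x => x.2.2).toFinset) g _ hne ?_ fun l' hl' => ?_
  · have h3 : ∀ f : ℕ × ℕ × ℕ → ℕ, #(l0.map f).toFinset ≤ g := fun f =>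
      (List.toFinset_card_le _).trans (by rw [List.length_map, (h1 l0 hl0).1])
    have h4 := h3 fun x => x.1
    have h5 := h3 fun x => x.2.1
    have h6 := h3 fun x => x.2.2
    refine (card_union_le _ _).trans ((Nat.add_le_add_right (card_union_le _ _) _).trans ?_)
    omega
  obtain ⟨l, hl, rfl⟩ := mem_image.1 hl'
  obtain ⟨a1, a2, a3⟩ := h1 l hl
  obtain ⟨-, b2, b3⟩ := h1 l0 hl0
  refine ⟨by rw [List.length_map, a1], fun q hq => ?_⟩
  obtain ⟨x, hx, rfl⟩ := List.mem_map.1 hq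
  refine ⟨(a2 x hx).2.1, fun hc => ?_⟩
  by_contra hB
  simp only [mem_union, List.mem_toFinset, List.mem_map, not_or, not_exists, not_and] at hB
  have hq' := hPP _ (a2 x hx).2.1
  refine hZ.one k l (ζ l) x.2.1 (pc l0) (fun y hy => ⟨hPP _ (a2 y hy).1, hPP _ (a2 y hy).2.1,
    hPP _ (a2 y hy).2.2⟩) a3 hq' (fun y hy => ?_) hc
    (ZtJ.cop l0 _ hq' fun y hy => ⟨hPP _ (b2 y hy).2.1, hB.1.2 y hy⟩)
    (hD.trans _ _ _ _ (hD.dil _ _ _ _ (h2 l hl l0 hl0).2)
      (hZ.den k l0 _ (fun y hy => (hPP _ (b2 y hy).2.1).pos) b3))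
  have h3 : (y.1, y.2.2) ∈ l0.map fun x => (x.1, x.2.2) := by
    rw [← (h2 l hl l0 hl0).1]
    exact List.mem_map.2 ⟨y, hy, rfl⟩
  obtain ⟨y', hy', e⟩ := List.mem_map.1 h3
  rw [Prod.mk.injEq] at e
  exact ⟨e.1 ▸ hB.1.1 y' hy', e.2 ▸ hB.2 y' hy'⟩

end Pool.Agent.Lib.MP_028aa5_nt.U
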