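import Pool.Agent.Lib.MP_028aa5_nt.T.A0
import Pool.Agent.Lib.MP_028aa5_nt.T.A0a
import Pool.Agent.Lib.MP_028aa5_nt.T.A1
import Pool.Agent.Lib.MP_028aa5_nt.T.A2
import Pool.Agent.Lib.MP_028aa5_nt.T.Bas
import Pool.Agent.Lib.MP_028aa5_nt.T.Blk0
import Pool.Agent.Lib.MP_028aa5_nt.T.BlkA
import Pool.Agent.Lib.MP_028aa5_nt.T.Block
import Pool.Agent.Lib.MP_028aa5_nt.T.Box
import Pool.Agent.Lib.MP_028aa5_nt.T.C
import Pool.Agent.Lib.MP_028aa5_nt.T.Cf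
import Pool.Agent.Lib.MP_028aa5_nt.T.Ch
import Pool.Agent.Lib.MP_028aa5_nt.T.Conv
import Pool.Agent.Lib.MP_028aa5_nt.T.Cut
import Pool.Agent.Lib.MP_028aa5_nt.T.Den
import Pool.Agent.Lib.MP_028aa5_nt.T.E
import Pool.Agent.Lib.MP_028aa5_nt.T.Eb
import Pool.Agent.Lib.MP_028aa5_nt.T.Eba
import Pool.Agent.Lib.MP_028aa5_nt.T.End
import Pool.Agent.Lib.MP_028aa5_nt.T.F
import Pool.Agent.Lib.MP_028aa5_nt.T.F1
import Pool.Agent.Lib.MP_028aa5_nt.T.Four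
import Pool.Agent.Lib.MP_028aa5_nt.T.Ft
import Pool.Agent.Lib.MP_028aa5_nt.T.G0
import Pool.Agent.Lib.MP_028aa5_nt.T.Gq
import Pool.Agent.Lib.MP_028aa5_nt.T.Gr
import Pool.Agent.Lib.MP_028aa5_nt.T.HMi
import Pool.Agent.Lib.MP_028aa5_nt.T.HMp
import Pool.Agent.Lib.MP_028aa5_nt.T.Hal
import Pool.Agent.Lib.MP_028aa5_nt.T.Hal1
import Pool.Agent.Lib.MP_028aa5_nt.T.Hal3
import Pool.Agent.Lib.MP_028aa5_nt.T.Hat
import Pool.Agent.Lib.MP_028aa5_nt.T.Inv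
import Pool.Agent.Lib.MP_028aa5_nt.T.Ker1
import Pool.Agent.Lib.MP_028aa5_nt.T.Ker2
import Pool.Agent.Lib.MP_028aa5_nt.T.L
import Pool.Agent.Lib.MP_028aa5_nt.T.L2
import Pool.Agent.Lib.MP_028aa5_nt.T.Lam
import Pool.Agent.Lib.MP_028aa5_nt.T.MD
import Pool.Agent.Lib.MP_028aa5_nt.T.N
import Pool.Agent.Lib.MP_028aa5_nt.T.N2
import Pool.Agent.Lib.MP_028aa5_nt.T.One
import Pool.Agent.Lib.MP_028aa5_nt.T.PF
import Pool.Agent.Lib.MP_028aa5_nt.T.Pr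
import Pool.Agent.Lib.MP_028aa5_nt.T.Reg
import Pool.Agent.Lib.MP_028aa5_nt.T.Seed
import Pool.Agent.Lib.MP_028aa5_nt.T.Sparse
import Pool.Agent.Lib.MP_028aa5_nt.T.Tr
import Pool.Agent.Lib.MP_028aa5_nt.T.W1
import Pool.Agent.Lib.MP_028aa5_nt.T.W2
import Pool.Agent.Lib.MP_028aa5_nt.T.W3
import Pool.Agent.Lib.MP_028aa5_nt.T.Walk
import Pool.Agent.Lib.MP_028aa5_nt.T.Win
import Pool.Agent.Lib.MP_028aa5_nt.U.Blow
import Pool.Agent.Lib.MP_028aa5_nt.U.ChInv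
import Pool.Agent.Lib.MP_028aa5_nt.U.Chain
import Pool.Agent.Lib.MP_028aa5_nt.U.Cnt0
import Pool.Agent.Lib.MP_028aa5_nt.U.Conf
import Pool.Agent.Lib.MP_028aa5_nt.U.ConfA
import Pool.Agent.Lib.MP_028aa5_nt.U.CoreA2
import Pool.Agent.Lib.MP_028aa5_nt.U.CoreB2
import Pool.Agent.Lib.MP_028aa5_nt.U.Count
import Pool.Agent.Lib.MP_028aa5_nt.U.Ent
import Pool.Agent.Lib.MP_028aa5_nt.U.Fin
import Pool.Agent.Lib.MP_028aa5_nt.U.Fol
import Pool.Agent.Lib.MP_028aa5_nt.U.Geo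
import Pool.Agent.Lib.MP_028aa5_nt.U.Init
import Pool.Agent.Lib.MP_028aa5_nt.U.KillC
import Pool.Agent.Lib.MP_028aa5_nt.U.KillEI
import Pool.Agent.Lib.MP_028aa5_nt.U.Lev2
import Pool.Agent.Lib.MP_028aa5_nt.U.LevX2
import Pool.Agent.Lib.MP_028aa5_nt.U.Light
import Pool.Agent.Lib.MP_028aa5_nt.U.List
import Pool.Agent.Lib.MP_028aa5_nt.U.Loop2
import Pool.Agent.Lib.MP_028aa5_nt.U.Main2
import Pool.Agent.Lib.MP_028aa5_nt.U.Merge
import Pool.Agent.Lib.MP_028aa5_nt.U.Net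
import Pool.Agent.Lib.MP_028aa5_nt.U.Next
import Pool.Agent.Lib.MP_028aa5_nt.U.Off
import Pool.Agent.Lib.MP_028aa5_nt.U.Pt
import Pool.Agent.Lib.MP_028aa5_nt.U.Real
import Pool.Agent.Lib.MP_028aa5_nt.U.Same
import Pool.Agent.Lib.MP_028aa5_nt.U.SmI
import Pool.Agent.Lib.MP_028aa5_nt.U.Start
import Pool.Agent.Lib.MP_028aa5_nt.U.State
import Pool.Agent.Lib.MP_028aa5_nt.U.StepAI
import Pool.Agent.Lib.MP_028aa5_nt.U.StepBI
import Pool.Agent.Lib.MP_028aa5_nt.U.Tow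
import Pool.Agent.Lib.MP_028aa5_nt.U.TowX
import Pool.Agent.Lib.MP_028aa5_nt.U.TowY
import Pool.Agent.Lib.MP_028aa5_nt.U.VA
import Pool.Agent.Lib.MP_028aa5_nt.U.Zt

/-! All parts together. -/

namespace Pool.Agent.Lib.MP_028aa5_nt.U

open T

theorem all_N2 : N2St := st_N2 st_N
theorem all_C : CSt := st_C st_N
theorem all_Cf : CfSt := st_Cf st_Bas
theorem all_Ft : FtSt := st_Ft st_Pr
theorem all_W1 : W1St := st_W1 st_N all_N2 st_Ch
theorem all_Ker : KerSt := st_Ker st_Ker1 st_Ker2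
theorem all_Box : BoxSt := st_Box all_Ker

theorem all_A2 : A2St :=
  st_A2 (st_One all_C (st_A1 (st_Match st_N) (st_Desc st_N all_N2 all_C st_Bas)) (st_Win st_Pr))
    (st_W2 st_N all_W1)

theorem all_Block : BlockSt :=
  st_Block (st_BlkA st_N all_N2 st_Bas st_Den st_Lab (st_Blk0 st_Bas st_Den)) st_Den

theorem all_Hal : HalSt :=
  st_Hal st_Conv (st_Hal1 st_Gr) (st_Hal2 st_Gr) (st_Hal3 st_Gr)
    (st_F all_Ft st_F1 (st_L2 (st_L all_Ker))) st_Gr all_Ft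

theorem all_E : ESt :=
  st_E (st_Ec (st_Eb (st_Eba all_Ft st_Gr) (st_HMi all_Box) (st_HMp all_Box) all_Hal st_Pr st_Gr)
    (st_Gq st_N st_Den st_G0 (st_W3 all_W1 all_N2)) st_G0 (st_HMi all_Box) st_Gr all_Ft)
    (st_HMp all_Box) st_G0 all_Ft st_Pr

theorem all_Sm : SmSt := st_Sm st_Ent
theorem all_Pt : PtSt := st_Pt st_N all_N2 st_Den
theorem all_Grid : GridSt := st_Grid st_N
theorem all_Light : LightSt := st_Light st_Ent all_Sm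

theorem all_Tow : TowSt :=
  st_Tow all_Sm (st_KillE st_Ent all_Sm) (st_KillC st_Ent)
    (U.st_Step all_Sm (st_StepA st_Ent all_Sm) (st_StepB st_Ent all_Sm)
      (U.st_Conf st_Ent all_Sm (st_ConfA st_Ent all_Sm st_Chain all_Light)) (st_Next all_Sm) all_Light)
    (st_Start st_Ent all_Sm) (st_Fin st_Ent all_Sm)

theorem all_Count : CountSt :=
  st_Count all_Pt st_Bas (st_ChInv st_N st_Bas all_Pt (st_Rel st_N st_Bas st_Den all_Pt)) st_Zt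
    (st_Same st_N all_N2 st_Bas st_Den all_Pt) st_List (st_Mid st_Den st_Zt st_List)

theorem all_Init : InitSt :=
  st_Init st_N all_N2 st_Bas st_Den all_Pt (st_Drop st_Bas) (st_Col all_N2 st_Bas)
    (st_Blow st_Bas st_Lab) (st_Off st_N all_N2 (st_Fol st_N all_N2 all_Grid)) st_Merge

theorem all_TowY : TowYSt :=
  st_TowY st_N st_Bas all_Sm (st_State st_N all_Pt all_Grid) (st_Geo st_N all_N2 st_Bas all_Pt)
    all_Init (st_Cnt0 st_N st_Bas all_Pt st_VA) all_Tow all_Count st_Num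
    (st_Net st_N st_Bas st_Den all_Pt st_VA (st_Cls st_N st_Bas all_Pt st_VA))

theorem all_LevX : LevX2St :=
  st_LevX2 st_Bas st_Reg2
    (st_Seed2 all_N2 st_Bas (st_Loop2 st_N all_N2 st_Bas all_Cf st_PF (st_Walk st_Bas)
      (st_Inv st_N all_N2 st_Bas) st_Ab) st_Int) (st_Lev2 st_N all_N2 st_Bas (st_Cut st_Bas))

theorem all_CoreB : CoreB2St :=
  st_CoreB2 (st_End st_N all_C st_Bas st_Four st_Ch st_Lam (st_Tr st_N all_C st_Bas st_Den))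
    (st_SparseX2 st_Reg2 (st_Sparse st_Ch st_Ab st_Bas)) (st_Hat st_Ch st_Gr st_G0) all_E all_Ft
    st_Reg2

theorem all_Main : Main2St :=
  st_Main2 all_Ft st_Reg (st_A0 (st_A0a st_Meas) all_Ft) all_A2
    (st_Core2 st_Bas st_VA all_Ft st_Reg2 (st_TowX st_Reg2 all_TowY)
      (st_Real st_N all_C st_Bas st_Den all_Pt st_VA)
      (st_CoreA2 st_Bas st_N st_Den st_Reg2 all_LevX all_Block) all_CoreB) (st_Setup2 st_Pr)

end Pool.Agent.Lib.MP_028aa5_nt.U
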