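import Pool.Agent.Lib.MP_028aa5_nt.U.St2

/-! One conflict and the invariant of a chain of conflicts. -/

namespace Pool.Agent.Lib.MP_028aa5_nt.U

open Finset T
open scoped Classical

namespace ChInvJ

theorem cl_of_nm {k : ℕ} {κ c y ρ : ℝ} {α : Ph} (h : nm k κ y α ≤ ρ) : Cl k κ c y ρ α :=
  ⟨0, by
    have : α - lat c 0 = α := by
      funext j
      simp [lat]
    rwa [this]⟩

theorem pa_pos {l : List (ℕ × ℕ × ℕ)} (h : ∀ x ∈ l, 0 < x.1) : 0 < pa l :=
  List.prod_pos fun a ha => by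
    obtain ⟨x, hx, rfl⟩ := List.mem_map.1 ha
    exact h x hx

theorem pb_pos {l : List (ℕ × ℕ × ℕ)} (h : ∀ x ∈ l, 0 < x.2.2) : 0 < pb l :=
  List.prod_pos fun a ha => by
    obtain ⟨x, hx, rfl⟩ := List.mem_map.1 ha
    exact h x hx

end ChInvJ

open ChInvJ

theorem st_Rel (hN : NSt) (hB : BasSt) (hD : DenSt) (hP : PtSt) : RelSt := by
  rintro π Y S A z z' ⟨p, r, p'⟩ hπ hS hz hz' ⟨-, -, hp, hr, hp', t, t', ht, ht', hc, hn⟩
  change Pt π.k at t t'
  change chd π p t = z at ht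
  change chd π p' t' = z' at ht'
  change S (chd π r t) = S (chd π r t') at hc
  have hκ : 0 < π.κ := (hB.κ1_pos π hπ).trans_le (hB.κ1_le π hπ)
  have p0 : (0 : ℝ) < p := by exact_mod_cast (hπ.pr p hp).1.pos
  have r0 : (0 : ℝ) < r := by exact_mod_cast (hπ.pr r hr).1.pos
  have p0' : (0 : ℝ) < p' := by exact_mod_cast (hπ.pr p' hp').1.pos
  have zy : z.y = t.y / p := by rw [← ht]; rfl
  have zy' : z'.y = t'.y / p' := by rw [← ht']; rfl
  have ty : 0 < t.y := by
    rw [zy] at hz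
    exact (div_pos_iff_of_pos_right p0).1 hz
  have ty' : 0 < t'.y := by
    rw [zy'] at hz'
    exact (div_pos_iff_of_pos_right p0').1 hz'
  have c1 : (S (chd π r t)).1 = ⌊Real.log (t.y / r) / π.κ⌋ := hS.cell _
  have c2 : (S (chd π r t)).1 = ⌊Real.log (t'.y / r) / π.κ⌋ := by
    rw [hc]
    exact hS.cell _
  have hl : |Real.log t.y - Real.log t'.y| ≤ π.κ := by
    have h := hP.cell2 π.κ _ _ hκ (c1.symm.trans c2)
    rw [Real.log_div ty.ne' r0.ne', Real.log_div ty'.ne' r0.ne'] at h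
    simpa using h
  obtain ⟨i, hi⟩ := hP.cl_congr _ _ _ _ _ _ (hP.eqz_sub _ _ _ _ _ (hP.ch π r t) (hP.ch π r t'))
    (hS.near _ _ hc)
  have e1 : lat 1 i = dil r (lat (1 / r) i) := by rw [hN.lat_dil, mul_one_div_cancel r0.ne']
  rw [e1, ← hD.dil_sub, ← hD.dil_sub, hN.nm_dil] at hi
  have key : ∀ y : ℝ, 0 < y → (S (chd π r t)).1 = ⌊Real.log (y / r) / π.κ⌋ →
      nm π.k π.κ y (t.ph - t'.ph - lat (1 / r) i) ≤ 2 * 5 ^ π.k := by
    intro y hy hcy
    have h1 := hP.cell π.κ (y / r) hκ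
    rw [← hcy] at h1
    have h2 := hP.nm5 π.k π.κ (r * Real.exp ((S (chd π r t)).1 * π.κ)) y
      (t.ph - t'.ph - lat (1 / r) i) hκ hπ.κ (by positivity) hy (by
        rw [Real.log_mul r0.ne' (Real.exp_pos _).ne', Real.log_exp, ← sub_sub,
          ← Real.log_div hy.ne' r0.ne']
        exact h1)
    calc _ ≤ _ := h2
      _ ≤ 5 ^ π.k * 2 := mul_le_mul_of_nonneg_left hi (by positivity)
      _ = _ := mul_comm _ _
  refine ⟨?_, i, ?_, ?_⟩
  · change |Real.log z'.y - Real.log (z.y * p / p')| ≤ π.κ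
    rw [zy, zy', div_mul_cancel₀ _ p0.ne', Real.log_div ty.ne' p0'.ne', Real.log_div ty'.ne' p0'.ne',
      abs_sub_comm]
    simpa using hl
  · by_contra hcon
    push Not at hcon
    have e2 : ∀ y, nm π.k π.κ y (t.ph - t'.ph - lat 1 fun j => i j / (r : ℤ) ^ j) =
        nm π.k π.κ y (t.ph - t'.ph - lat (1 / r) i) := fun y => hN.nm_congr _ _ _ _ _ fun j hj => by
      obtain ⟨m, hm⟩ := hcon j hj
      change i j = (r : ℤ) ^ j * m at hm
      have hr0 : ((r : ℤ) ^ j) ≠ 0 := pow_ne_zero _ (by exact_mod_cast r0.ne')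
      simp only [Pi.sub_apply, lat, hm, Int.mul_ediv_cancel_left _ hr0]
      push_cast
      rw [← mul_assoc, ← mul_pow, one_div_mul_cancel r0.ne']
    exact hn ⟨hl, ⟨_, (e2 _).trans_le (key _ ty c1)⟩, ⟨_, (e2 _).trans_le (key _ ty' c2)⟩⟩
  · change Cl π.k π.κ 1 (z.y / p') (2 * 5 ^ π.k)
      (dil p' z.ph - dil p z'.ph - dil (p * p' : ℕ) (lat (1 / r) i))
    have e3 : EqZ π.k (dil p' z.ph - dil p z'.ph - dil (p * p' : ℕ) (lat (1 / r) i))
        (dil p' (dil p t.ph) - dil p (dil p' t'.ph) - dil (p * p' : ℕ) (lat (1 / r) i)) :=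
      hP.eqz_sub _ _ _ _ _ (hP.eqz_sub _ _ _ _ _ (hD.dil _ _ _ p' (ht ▸ hP.ch π p t))
        (hD.dil _ _ _ p (ht' ▸ hP.ch π p' t'))) (hD.refl _ _)
    refine hP.cl_congr _ _ _ _ _ _ (hD.symm _ _ _ e3) (cl_of_nm ?_)
    rw [hD.dil_dil, hD.dil_dil, mul_comm (p' : ℝ), Nat.cast_mul, ← hD.dil_sub, ← hD.dil_sub,
      hN.nm_dil]
    have e4 : (p : ℝ) * p' * (z.y / p') = t.y := by
      rw [zy]
      field_simp
    rw [e4]
    exact key _ ty c1

theorem st_ChInv (hN : NSt) (hB : BasSt) (hP : PtSt) (hR : RelSt) : ChInvSt := by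
  intro π Y S A l z z' hπ hS hA hz h
  have hκ : 0 < π.κ := (hB.κ1_pos π hπ).trans_le (hB.κ1_le π hπ)
  induction l generalizing z with
  | nil =>
    obtain rfl : z = z' := h
    refine ⟨by simp, fun h => absurd rfl h, hz, by simp [pa, pb], 0, rfl, cl_of_nm ?_⟩
    have : dil (pb []) z.ph - dil (pa []) z.ph - 0 = 0 := by simp [pa, pb]
    rw [this, hN.nm_zero]
    positivity
  | cons l ls ih =>
    obtain ⟨z1, h1, h2⟩ := h
    change Pt π.k at z1
    have hz1 : 0 < z1.y := hA z1 h1.2.1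
    obtain ⟨i1, i2, i3, i4, ζ', i5, i6⟩ := ih z1 hz1 h2
    obtain ⟨r1, i, r2, r3⟩ := hR π Y S A z z1 l hπ hS hz hz1 h1
    have hp : l.1 ∈ π.PP := h1.2.2.1
    have hr : l.2.1 ∈ π.PP := h1.2.2.2.1
    have hp' : l.2.2 ∈ π.PP := h1.2.2.2.2.1
    have p0 : (0 : ℝ) < l.1 := by exact_mod_cast (hπ.pr _ hp).1.pos
    have p0' : (0 : ℝ) < l.2.2 := by exact_mod_cast (hπ.pr _ hp').1.pos
    have a0 : (0 : ℝ) < pa ls := by exact_mod_cast pa_pos fun x hx => (hπ.pr _ (i1 x hx).1).1.pos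
    have b0 : (0 : ℝ) < pb ls := by exact_mod_cast pb_pos fun x hx => (hπ.pr _ (i1 x hx).2.2).1.pos
    have ea : (pa (l :: ls) : ℝ) = l.1 * pa ls := by simp [pa]
    have eb : (pb (l :: ls) : ℝ) = l.2.2 * pb ls := by simp [pb]
    rw [Real.log_div (by positivity) p0'.ne', Real.log_mul hz.ne' p0.ne'] at r1
    refine ⟨?_, fun _ => ⟨h1.1, ?_⟩, i3, ?_, _, ⟨i, ζ', r2, i5, rfl⟩, ?_⟩
    · intro x hx
      rcases List.mem_cons.1 hx with rfl | hx
      · exact ⟨hp, hr, hp'⟩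
      · exact i1 x hx
    · cases ls with
      | nil =>
        obtain rfl : z1 = z' := h2
        exact h1.2.1
      | cons a as => exact (i2 (List.cons_ne_nil _ _)).2
    · rw [Real.log_div (by positivity) b0.ne', Real.log_mul hz1.ne' a0.ne'] at i4
      rw [ea, eb, Real.log_div (by positivity) (by positivity), Real.log_mul hz.ne' (by positivity),
        Real.log_mul p0.ne' a0.ne', Real.log_mul p0'.ne' b0.ne', List.length_cons]
      push_cast
      rw [abs_le] at r1 i4 ⊢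
      constructor <;> linarith [r1.1, r1.2, i4.1, i4.2]
    · have s1 := hN.cl_dil π.k π.κ 1 (z.y / (l.2.2 * pb ls)) _ _ (pb ls)
        (by convert r3 using 1; field_simp)
      have s2 := hN.cl_dil π.k π.κ 1 (z1.y / (l.1 * pb ls)) _ _ l.1
        (by convert i6 using 1; field_simp)
      have s3 := hP.cl5 _ _ _ _ (z.y / (l.2.2 * pb ls)) _ _ hκ hπ.κ (by positivity) (by positivity)
        (by
          rw [Real.log_div hz.ne' (by positivity), Real.log_div hz1.ne' (by positivity),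
            Real.log_mul p0.ne' b0.ne', Real.log_mul p0'.ne' b0.ne']
          rw [abs_le] at r1 ⊢
          constructor <;> linarith [r1.1, r1.2]) s2
      have s4 := hN.cl_add _ _ _ _ _ _ _ _ hκ.le s1 s3
      rw [ea, eb]
      refine hN.cl_mono _ _ _ _ _ _ _ ?_ (by
        convert s4 using 1
        funext j
        simp only [Pi.sub_apply, Pi.add_apply, dil]
        push_cast
        ring)
      have f1 : (1 : ℝ) ≤ 5 ^ π.k := one_le_pow₀ (by norm_num)
      have f2 : (2 * 5 ^ π.k : ℝ) ≤ (2 * 5 ^ π.k) ^ (ls.length + 1) :=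
        le_self_pow₀ (by linarith) (Nat.succ_ne_zero _)
      rw [List.length_cons, pow_succ _ (ls.length + 1)]
      nlinarith

end Pool.Agent.Lib.MP_028aa5_nt.U
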