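import Pool.Agent.Lib.MP_028aa5_nt.T.St5

/-! Definitions for the range `(log X) ^ C` of local uniformity for polynomial phases. -/

namespace Pool.Agent.Lib.MP_028aa5_nt.U

open Finset T
open scoped Classical

/-- mass of the value `b` of the variable `f` -/
noncomputable def fm {ι β : Type} (s : Finset ι) (a : ι → ℝ) (f : ι → β) (b : β) : ℝ :=
  ∑ x ∈ s with f x = b, a x

/-- entropy defect of the law of `f` given `g`, compared with the uniform law on `c` points -/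
noncomputable def Dv {ι β γ : Type} (c : ℝ) (s : Finset ι) (a : ι → ℝ) (f : ι → β) (g : ι → γ) :
    ℝ := ∑ x ∈ s, a x * Real.log (c * fm s a f (f x) / fm s a g (g x))

/-- chains of steps; the head of the list is the first step -/
def Chn {Ω Λ : Type} (Rel : Ω → Λ → Ω → Prop) : List Λ → Ω → Ω → Prop
  | [], z, z' => z = z'
  | l :: ls, z, z' => ∃ z1, Rel z l z1 ∧ Chn Rel ls z1 z'

/-- points, children, common parents, states, cells, closeness, levels -/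
structure Sys where
  Ω : Type
  Λ : Type
  PP : Finset ℕ
  ch : ℕ → Ω → Ω
  top : ℕ → ℕ → Ω → Ω → Ω
  S : Ω → Λ
  cl : Λ → ℤ
  Near : Ω → Ω → Prop
  V : ℕ → Ω → Prop

namespace Sys

variable (T : Sys)

/-- iterated child -/
def chL : List ℕ → T.Ω → T.Ω
  | [], t => t
  | r :: R, t => chL R (T.ch r t)

/-- lower end of an edge -/
def lw (e : T.Ω × ℕ) : T.Ω := T.ch e.2 e.1

/-- at most `Mb` states in each cell -/
def Cnt (A : Finset T.Ω) (Mb : ℝ) : Prop := ∀ c : ℤ, (#{σ ∈ A.image T.S | T.cl σ = c} : ℝ) ≤ Mb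

/-- a conflict of type `(p, r, p')` -/
def Rel (A : Finset T.Ω) (z : T.Ω) (l : ℕ × ℕ × ℕ) (z' : T.Ω) : Prop :=
  z ∈ A ∧ z' ∈ A ∧ l.1 ∈ T.PP ∧ l.2.1 ∈ T.PP ∧ l.2.2 ∈ T.PP ∧ ∃ t t', T.ch l.1 t = z ∧
    T.ch l.2.2 t' = z' ∧ T.S (T.ch l.2.1 t) = T.S (T.ch l.2.1 t') ∧ ¬T.Near t t'

/-- few lists of types are carried by chains of conflicts -/
def Few (j : ℕ) (Mb : ℝ) (g : ℕ) (Nl : ℝ) : Prop := ∀ A : Finset T.Ω, (∀ z ∈ A, T.V j z) →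
  T.Cnt A Mb → ∀ (z0 : T.Ω) (L : Finset (List (ℕ × ℕ × ℕ))),
  (∀ l ∈ L, l.length = g ∧ ∃ z, Chn (T.Rel A) l z0 z) → (#L : ℝ) ≤ Nl

structure Ok (C0 : ℝ) : Prop where
  ne : T.PP.Nonempty
  c0 : 0 ≤ C0
  top : ∀ p ∈ T.PP, ∀ r ∈ T.PP, p ≠ r → ∀ y z, T.ch p y = T.ch r z →
    T.ch r (T.top p r y z) = y ∧ T.ch p (T.top p r y z) = z ∧ T.top r p z y = T.top p r y z
  symm : ∀ t u, T.Near t u → T.Near u t
  rig : ∀ j, ∀ r ∈ T.PP, ∀ t t' u, T.V j t → T.V j t' → T.Near t u → T.Near t' u →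
    T.ch r t = T.ch r t' → t = t'
  few : ∀ j u (A : Finset T.Ω), (∀ t ∈ A, T.V j t ∧ T.Near t u) → (#(A.image T.S) : ℝ) ≤ C0
  two : ∀ c : ℤ, ∀ p ∈ T.PP, ∃ c' : ℤ, ∀ j t, T.V j t → T.cl (T.S t) = c →
    T.cl (T.S (T.ch p t)) = c' ∨ T.cl (T.S (T.ch p t)) = c' + 1
  up : ∀ j, ∀ r ∈ T.PP, ∀ t, T.V j (T.ch r t) → T.V (j + 1) t

/-- an exact graph: the edge `(y, p)` joins `y` and its child -/
structure Gr (E : Finset (T.Ω × ℕ)) (F F' : T.Ω → ℝ) (lam : ℝ) : Prop where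
  pr : ∀ e ∈ E, e.2 ∈ T.PP
  pu : ∀ e ∈ E, ∀ e' ∈ E, e.2 = e'.2 → T.lw e = T.lw e' → e.1 = e'.1
  pos : 0 < ∑ y ∈ E.image Prod.fst, F y ^ 2 + ∑ z ∈ E.image T.lw, F' z ^ 2
  ray : lam * (∑ y ∈ E.image Prod.fst, F y ^ 2 + ∑ z ∈ E.image T.lw, F' z ^ 2) ≤
    2 / #T.PP * ∑ e ∈ E, F e.1 * F' (T.lw e)

end Sys

/-- a weighted sample of edges `(y, p)` with a ladder `R` -/
structure Sm (T : Sys) where
  ι : Type
  s : Finset ι
  a : ι → ℝ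
  y : ι → T.Ω
  p : ι → ℕ
  R : ι → List ℕ

namespace Sm

variable {T : Sys} (σ : Sm T)

/-- lower end -/
def w (x : σ.ι) : T.Ω := T.ch (σ.p x) (σ.y x)
/-- total mass -/
noncomputable def Z : ℝ := ∑ x ∈ σ.s, σ.a x
/-- mass of the edge of `x` -/
noncomputable def μ (x : σ.ι) : ℝ := fm σ.s σ.a (fun x => (σ.y x, σ.p x)) (σ.y x, σ.p x)
/-- mass of an upper point -/
noncomputable def mU (t : T.Ω) : ℝ := fm σ.s σ.a σ.y t
/-- mass of a lower point -/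
noncomputable def mL (t : T.Ω) : ℝ := fm σ.s σ.a σ.w t
noncomputable def A : ℝ :=
  Dv #T.PP σ.s σ.a (fun x => ((σ.y x, σ.p x), σ.R x)) fun x => (σ.y x, σ.R x)
noncomputable def B : ℝ :=
  Dv #T.PP σ.s σ.a (fun x => ((σ.y x, σ.p x), σ.R x)) fun x => (σ.w x, σ.R x)
noncomputable def D : ℝ := Dv #T.PP σ.s σ.a (fun x => (σ.y x, σ.p x)) σ.w
/-- the potential -/
noncomputable def Φ (K : ℝ) : ℝ := σ.A + σ.B + σ.D + Real.log K / 2 * (1 - σ.Z)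
/-- the edge of `x` is heavy -/
def hi (K : ℝ) (x : σ.ι) : Prop :=
  K * σ.mU (σ.y x) < #T.PP * σ.μ x ∨ K * σ.mL (σ.w x) < #T.PP * σ.μ x
/-- restriction -/
noncomputable def res (q : σ.ι → Prop) : Sm T := ⟨σ.ι, σ.s.filter q, σ.a, σ.y, σ.p, σ.R⟩
/-- pairs with the same lower end -/
noncomputable def prs : Finset (σ.ι × σ.ι) := {u ∈ σ.s ×ˢ σ.s | σ.w u.1 = σ.w u.2}
/-- weight of a pair -/
noncomputable def pw (u : σ.ι × σ.ι) : ℝ := σ.a u.1 * σ.a u.2 / σ.mL (σ.w u.1)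
/-- common parent of a pair -/
def tp (u : σ.ι × σ.ι) : T.Ω := T.top (σ.p u.1) (σ.p u.2) (σ.y u.1) (σ.y u.2)
/-- the next level -/
noncomputable def nxt (q : σ.ι × σ.ι → Prop) : Sm T :=
  ⟨σ.ι × σ.ι, σ.prs.filter q, σ.pw, σ.tp, fun u => σ.p u.1, fun u => σ.p u.2 :: σ.R u.1⟩

structure Inv (E0 : Finset (T.Ω × ℕ)) (j : ℕ) (Ml : ℝ) : Prop where
  pos : ∀ x ∈ σ.s, 0 < σ.a x
  tot : σ.Z ≤ 1
  pr : ∀ x ∈ σ.s, σ.p x ∈ T.PP
  val : ∀ x ∈ σ.s, T.V j (σ.y x)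
  len : ∀ x ∈ σ.s, (σ.R x).length = j
  mem : ∀ x ∈ σ.s, ∀ r ∈ σ.R x, r ∈ T.PP
  src : ∀ x ∈ σ.s, (T.chL (σ.R x) (σ.y x), σ.p x) ∈ E0
  pu : ∀ x ∈ σ.s, ∀ x' ∈ σ.s, σ.p x = σ.p x' → σ.w x = σ.w x' → σ.y x = σ.y x'
  low : T.Cnt (σ.s.image σ.w) Ml

/-- few pairs of a state and a prime in each cell -/
def Pre (Mp : ℝ) : Prop := ∀ c : ℤ,
  (#{b ∈ σ.s.image fun x => (T.S (σ.y x), σ.p x) | T.cl b.1 = c} : ℝ) ≤ #T.PP * Mp

/-- few states in each cell, few heavy edges -/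
def Post (K Mb : ℝ) : Prop :=
  T.Cnt (σ.s.image σ.y) Mb ∧ ∑ x ∈ σ.s with σ.hi (K ^ 2) x, σ.a x ≤ 2 / K

end Sm

/-- equality modulo integer vectors as a setoid -/
def eqv (k : ℕ) : Setoid Ph where
  r := EqZ k
  iseqv := ⟨fun _ _ _ => ⟨0, by simp⟩,
    fun h j hj => by
      obtain ⟨n, hn⟩ := h j hj
      exact ⟨-n, by rw [hn]; simp⟩,
    fun h h' j hj => by
      obtain ⟨n, hn⟩ := h j hj
      obtain ⟨m, hm⟩ := h' j hj
      exact ⟨m + n, by rw [hn, hm, Int.cast_add, add_assoc]⟩⟩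

/-- an exact point: fine index, position, phase modulo integer vectors -/
structure Pt (k : ℕ) where
  J : ℤ
  y : ℝ
  b : Quotient (eqv k)

/-- a representative of the phase -/
noncomputable def Pt.ph {k : ℕ} (t : Pt k) : Ph := t.b.out

def mkP (k : ℕ) (J : ℤ) (y : ℝ) (α : Ph) : Pt k := ⟨J, y, Quotient.mk (eqv k) α⟩

/-- the child along `p` -/
noncomputable def chd (π : Par) (p : ℕ) (t : Pt π.k) : Pt π.k :=
  mkP π.k (t.J - π.lg p) (t.y / p) (dil p t.ph)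

/-- a map to states: a cell of width `κ` and a point of a separated net -/
structure StMap (k : ℕ) (κ : ℝ) (S : Pt k → ℤ × Ph) : Prop where
  cell : ∀ t, (S t).1 = ⌊Real.log t.y / κ⌋
  near : ∀ t t', S t = S t' → Cl k κ 1 (Real.exp ((S t).1 * κ)) 2 (t.ph - t'.ph)
  few : ∀ (c : ℤ) (α : Ph) (r : ℝ) (A : Finset (Pt k)), 0 ≤ r →
    (∀ t ∈ A, (S t).1 = c ∧ Cl k κ 1 (Real.exp (c * κ)) r (t.ph - α)) →
    (#(A.image S) : ℝ) ≤ (2 * k * (r + 1) + 2) ^ k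

/-- the geometric system -/
noncomputable def geo (π : Par) (Y : ℝ) (S : Pt π.k → ℤ × Ph) : Sys where
  Ω := Pt π.k
  Λ := ℤ × Ph
  PP := π.PP
  ch := chd π
  top p r y z := if h : ∃ t, chd π r t = y ∧ chd π p t = z then h.choose else y
  S := S
  cl := Prod.fst
  Near t u := |Real.log t.y - Real.log u.y| ≤ π.κ ∧ Cl π.k π.κ 1 t.y (2 * 5 ^ π.k) (t.ph - u.ph) ∧
    Cl π.k π.κ 1 u.y (2 * 5 ^ π.k) (t.ph - u.ph)
  V j t := Y * π.P ^ j ≤ t.y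

/-- number of states near a point -/
def cK (k : ℕ) : ℝ := 4 * (2 * k * (2 * 25 ^ k + 1) + 2) ^ k

/-- products of the three kinds of primes of a list of types -/
def pa (l : List (ℕ × ℕ × ℕ)) : ℕ := (l.map fun x => x.1).prod
def pb (l : List (ℕ × ℕ × ℕ)) : ℕ := (l.map fun x => x.2.2).prod
def pc (l : List (ℕ × ℕ × ℕ)) : ℕ := (l.map fun x => x.2.1).prod

/-- the rational defect of a chain of conflicts -/
def Zt (k : ℕ) : List (ℕ × ℕ × ℕ) → Ph → Prop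
  | [], ζ => ζ = 0
  | l :: ls, ζ => ∃ (i : ℕ → ℤ) (ζ' : Ph), (∃ j ∈ Icc 1 k, ¬(l.2.1 : ℤ) ^ j ∣ i j) ∧ Zt k ls ζ' ∧
      ζ = dil (pb ls * (l.1 * l.2.2) : ℕ) (lat (1 / l.2.1) i) + dil l.1 ζ'

/-- the fine view: one fine point per cell -/
def vA (π : Par) (M : ℕ) : Par := { π with Nf := 1, G := π.G * π.Nf, M := M }

/-- a graph with at most one edge of each prime at each vertex -/
structure Fine (N : Net) (E : Finset N.Ed) : Prop where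
  up : ∀ e ∈ E, N.isU (N.up e) = true
  lo : ∀ e ∈ E, N.isU (N.lo e) = false
  iu : ∀ e ∈ E, ∀ e' ∈ E, N.pr e = N.pr e' → N.up e = N.up e' → e = e'
  il : ∀ e ∈ E, ∀ e' ∈ E, N.pr e = N.pr e' → N.lo e = N.lo e' → e = e'

/-- an exact edge lies over an edge of the graph -/
def Lnk (π : Par) (N : Net) (E : Finset N.Ed) (φ : N.W → Ph) (δ : ℝ) (t : Pt π.k) (p : ℕ) : Prop :=
  ∃ e ∈ E, N.pr e = p ∧ t.J = N.fj e ∧ 0 < t.y ∧ |Real.log t.y - N.fj e * π.κ0| ≤ π.κ ∧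
    |Real.log (t.y / p) - (N.fj e - π.lg p : ℕ) * π.κ0| ≤ π.κ ∧
    Cl π.k π.κ 1 t.y δ (t.ph - φ (N.up e)) ∧ Cl π.k π.κ 1 (t.y / p) δ ((chd π p t).ph - φ (N.lo e))

/-- vertices in the same class are close at level `R` -/
def Cla (π : Par) (N : Net) (φ : N.W → Ph) {Λ : Type} (cls : N.W → Λ) (R u r : ℝ) : Prop :=
  ∀ x x', cls x = cls x' → N.isU x = N.isU x' ∧
    |Real.log (N.pos π x) - Real.log (N.pos π x')| ≤ u ∧ Cl π.k π.κ R (N.pos π x) r (φ x - φ x')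

/-- the graph produced by the tower -/
structure Out (π : Par) (N : Net) (E : Finset N.Ed) (φ : N.W → Ph) (δ : ℝ) (R : ℕ) (lam nW : ℝ)
    (N' : Net) (E' : Finset N'.Ed) (φ' : N'.W → Ph) (cls : N'.W → Bool × ℤ × Ph) : Prop where
  is : N'.Is (vA π (Fintype.card N'.W)) E'
  lv : N'.Lv (vA π (Fintype.card N'.W)) R 0 φ' E'
  ray : N'.Ray (vA π (Fintype.card N'.W)).ν E' lam
  ends : ∀ v, ∃ e ∈ E', v = N'.up e ∨ v = N'.lo e
  num : π.κ * #(univ.image cls) ≤ nW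
  cla : Cla (vA π (Fintype.card N'.W)) N' φ' cls R (3 * π.κ) (2 * 9 ^ π.k)
  lnk : ∀ e' ∈ E', ∃ e ∈ E, N.pr e = N'.pr e' ∧ N.fj e = N'.fj e' ∧
    Cl π.k π.κ 1 (π.yy (N.fj e)) δ (φ' (N'.up e') - φ (N.up e)) ∧
    Cl π.k π.κ 1 (π.yy (N.fj e - π.lg (N.pr e))) δ (φ' (N'.lo e') - φ (N.lo e))

/-- the asymptotic regime -/
structure Reg2 (π : Par) (X A C D : ℝ) : Prop where
  ok : π.Ok
  lo : Real.log X ^ A ≤ π.P
  hi : π.P ≤ Real.log X ^ C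
  pp : π.P / (D * Real.log π.P) ≤ #π.PP
  κ0 : π.κ0 = X ^ (-(7 * π.k + 4 : ℝ))
  κlo : 1 / X ≤ π.κ
  κhi : π.κ ≤ X ^ (-(1 / 2 : ℝ))

end Pool.Agent.Lib.MP_028aa5_nt.U
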