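import Pool.Agent.Lib.MP_028aa5_nt.U.St2

/-! The geometric system satisfies the conditions of the abstract tower. -/

namespace Pool.Agent.Lib.MP_028aa5_nt.U

open Finset T
open scoped Classical

namespace GeoJ

lemma floor_two (x a : ℝ) : ⌊x - a⌋ = ⌊(⌊x⌋ : ℝ) - a⌋ ∨ ⌊x - a⌋ = ⌊(⌊x⌋ : ℝ) - a⌋ + 1 := by
  have h1 : ⌊(⌊x⌋ : ℝ) - a⌋ ≤ ⌊x - a⌋ := Int.floor_mono (by linarith [Int.floor_le x])
  have h2 : ⌊x - a⌋ ≤ ⌊(⌊x⌋ : ℝ) - a + 1⌋ := Int.floor_mono (by linarith [Int.lt_floor_add_one x])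
  rw [Int.floor_add_one] at h2
  omega

lemma rig (hN : NSt) (hN2 : N2St) (hP : PtSt) {π : Par} {r : ℕ} {t t' u : Pt π.k} (hκ : 0 < π.κ)
    (hr : 0 < r) (hy : 0 < t.y) (hb : r * (4 * 5 ^ π.k + 1) ≤ π.κ * t.y)
    (h1 : Cl π.k π.κ 1 t.y (2 * 5 ^ π.k) (t.ph - u.ph))
    (h2 : Cl π.k π.κ 1 t'.y (2 * 5 ^ π.k) (t'.ph - u.ph)) (h : chd π r t = chd π r t') : t = t' := by
  have r0 : (0 : ℝ) < r := by exact_mod_cast hr
  have eJ : t.J = t'.J := sub_left_injective (congrArg Pt.J h :)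
  have ey : t.y = t'.y := (div_left_inj' r0.ne').1 (congrArg Pt.y h :)
  have eb : EqZ π.k (dil r t.ph) (dil r t'.ph) := Quotient.exact (congrArg Pt.b h :)
  obtain ⟨i, hi⟩ := hP.root _ r _ _ hr eb
  rw [← ey] at h2
  obtain ⟨z, hz⟩ := hP.cl_sub _ _ _ _ _ _ _ _ hκ.le h1 h2
  have e : ∀ j ∈ Icc 1 π.k, (t.ph - u.ph - (t'.ph - u.ph) - lat 1 z) j =
      lat (1 / r) (fun j => i j - (r : ℤ) ^ j * z j) j := fun j hj => by
    have := hi j hj
    have e1 : (1 / r : ℝ) ^ j * r ^ j = 1 := by rw [← mul_pow, one_div_mul_cancel r0.ne', one_pow]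
    simp only [lat, Pi.sub_apply, one_pow, one_mul] at this ⊢
    push_cast
    linear_combination this + (z j : ℝ) * e1
  rw [hN.nm_congr _ _ _ _ _ e] at hz
  have hb' : 4 * 5 ^ π.k + 1 ≤ π.κ * t.y * (1 / r) := by
    rw [mul_one_div, le_div_iff₀ r0]; linarith
  have p5 : (0 : ℝ) < 5 ^ π.k := by positivity
  have h0 := hN2.rigid _ _ _ _ _ hκ hy (one_div_pos.2 r0) (by linarith) (hz.trans_lt (by linarith))
  refine hP.ext _ _ _ eJ ey fun j hj => ⟨z j, ?_⟩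
  have := e j hj
  simp only [lat, h0 j hj, Pi.sub_apply, one_pow, one_mul, Int.cast_zero, mul_zero] at this
  linarith

lemma few (hP : PtSt) {k : ℕ} {κ : ℝ} {S : Pt k → ℤ × Ph} (hκ : 0 < κ) (hκ1 : κ ≤ 1)
    (hS : StMap k κ S) (u : Pt k) (A : Finset (Pt k))
    (h : ∀ t ∈ A, 0 < t.y ∧ |Real.log t.y - Real.log u.y| ≤ κ ∧
      Cl k κ 1 t.y (2 * 5 ^ k) (t.ph - u.ph)) : (#(A.image S) : ℝ) ≤ cK k := by
  obtain ⟨I, hI, hI'⟩ := hP.cells κ (Real.log u.y) κ hκ hκ.le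
  rw [mul_div_cancel_right₀ _ hκ.ne'] at hI
  refine (card_le_fibers (A.image S) I Prod.fst (L := (2 * k * (2 * 25 ^ k + 1) + 2) ^ k)
    (fun b hb => ?_) fun c _ => ?_).trans (mul_le_mul_of_nonneg_right (by linarith) (by positivity))
  · obtain ⟨t, ht, rfl⟩ := mem_image.1 hb
    rw [hS.cell]
    exact hI' _ (h t ht).2.1
  · rw [filter_image]
    refine hS.few c u.ph (2 * 25 ^ k) _ (by positivity) fun t ht => ?_
    obtain ⟨ht, hc⟩ := mem_filter.1 ht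
    obtain ⟨a1, -, a3⟩ := h t ht
    have a4 := hP.cell κ t.y hκ
    rw [← hS.cell, hc, abs_sub_comm, ← Real.log_exp (c * κ)] at a4
    have a5 := hP.cl5 _ _ _ _ _ _ _ hκ hκ1 a1 (Real.exp_pos _) a4 a3
    rw [mul_left_comm, ← mul_pow, show (5 * 5 : ℝ) = 25 by norm_num] at a5
    exact ⟨hc, a5⟩

end GeoJ

theorem st_Geo (hN : NSt) (hN2 : N2St) (hB : BasSt) (hP : PtSt) : GeoSt := by
  intro π Y S hπ hS hY hb
  have hκ : 0 < π.κ := (hB.κ1_pos π hπ).trans_le (hB.κ1_le π hπ)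
  have P2 := hπ.P
  have le : ∀ (j : ℕ) (t : Pt π.k), Y * π.P ^ j ≤ t.y → Y ≤ t.y := fun j t h =>
    (le_mul_of_one_le_right hY.le (one_le_pow₀ (by linarith))).trans h
  refine ⟨hπ.ne, by unfold cK; positivity, fun p hp r hr hpr y z h => ?_, fun t u h => ?_,
    fun j r hr t t' u hv _ h1 h2 h => ?_, fun j u A h => ?_, fun c p hp => ?_, fun j r hr t h => ?_⟩
  · have h1 := hP.pull π p r y z (hπ.pr p hp).1 (hπ.pr r hr).1 hpr h
    have h2 : ∃ t, chd π p t = z ∧ chd π r t = y := h1.imp fun _ => And.symm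
    have e1 : (geo π Y S).top p r y z = h1.choose := dif_pos h1
    have e2 : (geo π Y S).top r p z y = h2.choose := dif_pos h2
    rw [e1, e2]
    exact ⟨h1.choose_spec.1, h1.choose_spec.2, hP.uniq π p r _ _ (hπ.pr p hp).1 (hπ.pr r hr).1 hpr
      (h2.choose_spec.2.trans h1.choose_spec.1.symm) (h2.choose_spec.1.trans h1.choose_spec.2.symm)⟩
  · exact ⟨(abs_sub_comm _ _).trans_le h.1, neg_sub (Pt.ph t) (Pt.ph u) ▸ hN.cl_neg _ _ _ _ _ _ h.2.2,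
      neg_sub (Pt.ph t) (Pt.ph u) ▸ hN.cl_neg _ _ _ _ _ _ h.2.1⟩
  · have a := le j t hv
    refine GeoJ.rig hN hN2 hP hκ (hπ.pr r hr).1.pos (hY.trans_le a) ?_ h1.2.1 h2.2.1 h
    exact (mul_le_mul_of_nonneg_right (hπ.pr r hr).2.2 (by positivity)).trans
      (hb.trans (mul_le_mul_of_nonneg_left a hκ.le))
  · have := GeoJ.few hP hκ hπ.κ hS u A fun t ht =>
      ⟨hY.trans_le (le j t (h t ht).1), (h t ht).2.1, (h t ht).2.2.1⟩
    refine le_trans (Nat.cast_le.2 (card_le_card fun b hb => ?_)) this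
    obtain ⟨t, ht, rfl⟩ := (@mem_image _ _ (_) _ _ _).1 hb
    exact mem_image_of_mem S ht
  · refine ⟨⌊(c : ℝ) - Real.log p / π.κ⌋, fun j t hv hc => ?_⟩
    have p0 : (p : ℝ) ≠ 0 := Nat.cast_ne_zero.2 (hπ.pr p hp).1.ne_zero
    have e : (geo π Y S).cl ((geo π Y S).S ((geo π Y S).ch p t)) =
        ⌊Real.log (Pt.y t) / π.κ - Real.log p / π.κ⌋ := by
      rw [← sub_div, ← Real.log_div (hY.trans_le (le j t hv)).ne' p0]
      exact hS.cell _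
    rw [e, ← hc.symm.trans (hS.cell t) |>.symm]
    exact GeoJ.floor_two _ _
  · obtain ⟨a1, a2, -⟩ := hπ.pr r hr
    have h' : Y * π.P ^ j ≤ Pt.y t / r := h
    rw [le_div_iff₀ (by linarith)] at h'
    change Y * π.P ^ (j + 1) ≤ Pt.y t
    rw [pow_succ, ← mul_assoc]
    exact (mul_le_mul_of_nonneg_left a2.le (by positivity)).trans h'

end Pool.Agent.Lib.MP_028aa5_nt.U
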