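import Pool.Agent.Lib.MP_028aa5_nt.U.St1

/-! Removing edges: heavy edges pay for themselves. -/

namespace Pool.Agent.Lib.MP_028aa5_nt.U

open Finset T
open scoped Classical

namespace KillEJ

theorem split {ι : Type} (s : Finset ι) (F : ι → ℝ) (q r t : ι → Prop)
    (h : ∀ x, (q x ↔ r x ∨ t x) ∧ ¬(r x ∧ t x)) :
    ∑ x ∈ s with q x, F x = ∑ x ∈ s with r x, F x + ∑ x ∈ s with t x, F x := by
  rw [sum_filter, sum_filter, sum_filter, ← sum_add_distrib]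
  refine sum_congr rfl fun x _ => ?_
  obtain ⟨h1, h2⟩ := h x
  by_cases hr : r x <;> by_cases ht : t x <;> simp_all

theorem drop (hE : EntSt) {ι β γ : Type} {c : ℝ} {s : Finset ι} {a : ι → ℝ} {f : ι → β}
    {g : ι → γ} (hc : 0 < c) (ha : ∀ x ∈ s, 0 < a x)
    (hfg : ∀ x ∈ s, ∀ x' ∈ s, f x = f x' → g x = g x')
    (hf : ∀ b, (#({x ∈ s | g x = b}.image f) : ℝ) ≤ c) (hZ : ∑ x ∈ s, a x ≤ 1)
    (q n r : ι → Prop) (hn : ∀ x, n x ↔ ¬q x) (hr : ∀ x, r x → n x) {L lam : ℝ} (hL : 0 ≤ L)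
    (hg : lam * ∑ x ∈ s with r x, a x ≤
      ∑ x ∈ s with r x, a x * Real.log (c * fm s a f (f x) / fm s a g (g x))) :
    Dv c (s.filter q) a f g ≤ Dv c s a f g - lam * ∑ x ∈ s with r x, a x +
      (L + 1) * ∑ x ∈ s with n x, a x + Real.exp (-L) := by
  have h1 := hE.res c s (s.filter q) a f g hc (filter_subset _ _) ha
  have h2 := hE.kill c s a f g hc ha hfg hf (fun x => if n x ∧ ¬r x then a x else 0) L
    fun x hx => by
      have := (ha x hx).le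
      constructor <;> split_ifs <;> simp [this]
  have e1 : ∀ F : ι → ℝ, ∑ x ∈ s, F x = ∑ x ∈ s with q x, F x + ∑ x ∈ s with n x, F x := by
    intro F
    rw [sum_filter, sum_filter, ← sum_add_distrib]
    refine sum_congr rfl fun x _ => ?_
    by_cases h : q x <;> simp [h, hn x]
  have e2 : ∑ x ∈ s with n x, a x * Real.log (c * fm s a f (f x) / fm s a g (g x)) =
      ∑ x ∈ s with r x, a x * Real.log (c * fm s a f (f x) / fm s a g (g x)) +
      ∑ x ∈ s, (if n x ∧ ¬r x then a x else 0) *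
        Real.log (c * fm s a f (f x) / fm s a g (g x)) := by
    rw [sum_filter, sum_filter, ← sum_add_distrib]
    refine sum_congr rfl fun x _ => ?_
    have := hr x
    by_cases h : r x <;> by_cases h' : n x <;> simp_all
  have e3 : ∑ x ∈ s, (if n x ∧ ¬r x then a x else 0) ≤ ∑ x ∈ s with n x, a x := by
    rw [sum_filter]
    refine sum_le_sum fun x hx => ?_
    have := (ha x hx).le
    by_cases h : r x <;> by_cases h' : n x <;> simp [h, h', this]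
  have e4 := e1 a
  have e5 := e1 fun x => a x * Real.log (c * fm s a f (f x) / fm s a g (g x))
  have e6 := mul_le_mul_of_nonneg_left e3 hL
  have e7 := mul_le_of_le_one_right (Real.exp_pos (-L)).le hZ
  have e8 : Dv c s a f g = ∑ x ∈ s, a x * Real.log (c * fm s a f (f x) / fm s a g (g x)) := rfl
  linarith

theorem heavy {ι : Type} (s : Finset ι) (a u v : ι → ℝ) {K : ℝ} (hK : 1 ≤ K)
    (h : ∀ x ∈ s, 0 < a x ∧ 0 < v x ∧ K * v x < u x) :
    Real.log K * ∑ x ∈ s, a x ≤ ∑ x ∈ s, a x * Real.log (u x / v x) := by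
  rw [mul_sum]
  refine sum_le_sum fun x hx => ?_
  obtain ⟨h1, h2, h3⟩ := h x hx
  rw [mul_comm]
  exact mul_le_mul_of_nonneg_left
    (Real.log_le_log (by linarith) ((le_div_iff₀ h2).2 h3.le)) h1.le

end KillEJ

open KillEJ

theorem st_KillE (hE : EntSt) (hS : SmSt) : KillESt := by
  intro T σ E0 j Ml K L q hne hI hK hL hLK hq
  have hc : (0 : ℝ) < #T.PP := by exact_mod_cast hne.card_pos
  have hp := hS.pos T σ hI.pos
  obtain ⟨n, hn⟩ : ∃ n : σ.ι → Prop, ∀ x, n x ↔ ¬q x := ⟨_, fun _ => Iff.rfl⟩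
  obtain ⟨ra, hra⟩ : ∃ r : σ.ι → Prop, ∀ x, r x ↔ ¬q x ∧ K * σ.mU (σ.y x) < #T.PP * σ.μ x :=
    ⟨_, fun _ => Iff.rfl⟩
  obtain ⟨rb, hrb⟩ : ∃ r : σ.ι → Prop, ∀ x, r x ↔ ¬q x ∧ ¬K * σ.mU (σ.y x) < #T.PP * σ.μ x ∧
      K * σ.mL (σ.w x) < #T.PP * σ.μ x := ⟨_, fun _ => Iff.rfl⟩
  obtain ⟨rc, hrc⟩ : ∃ r : σ.ι → Prop, ∀ x, r x ↔ ¬q x ∧ ¬σ.hi K x := ⟨_, fun _ => Iff.rfl⟩
  obtain ⟨rd, hrd⟩ : ∃ r : σ.ι → Prop, ∀ x, r x ↔ rb x ∨ rc x := ⟨_, fun _ => Iff.rfl⟩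
  obtain ⟨r0, hr0⟩ : ∃ r : σ.ι → Prop, ∀ x, ¬r x := ⟨fun _ => False, fun _ => id⟩
  have hA : (σ.res q).A ≤ σ.A - Real.log K * ∑ x ∈ σ.s with ra x, σ.a x +
      (L + 1) * ∑ x ∈ σ.s with n x, σ.a x + Real.exp (-L) := by
    refine drop hE (f := fun x => ((σ.y x, σ.p x), σ.R x)) (g := fun x => (σ.y x, σ.R x)) hc hI.pos
      (fun x _ x' _ h => ?_) (fun b => by convert hS.fibA T σ E0 j Ml hI b) hI.tot q n ra hn
      (fun x h => (hn x).2 ((hra x).1 h).1) hL ?_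
    · simp only [Prod.mk.injEq] at h ⊢
      exact ⟨h.1.1, h.2⟩
    · refine le_trans ?_ (hE.gain #T.PP σ.s (σ.s.filter ra) σ.a (fun x => (σ.y x, σ.p x)) Prod.fst
        σ.R hc hI.pos (filter_subset _ _) fun x hx x' hx' h => ?_)
      · refine heavy _ σ.a (fun x => #T.PP * σ.μ x) (fun x => σ.mU (σ.y x)) hK fun x hx => ?_
        obtain ⟨h1, h2⟩ := mem_filter.1 hx
        exact ⟨hI.pos x h1, (hp x h1).1.trans_le (hp x h1).2.1, ((hra x).1 h2).2⟩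
      · obtain ⟨h1, h2⟩ := mem_filter.1 hx
        obtain ⟨h3, h4⟩ := (hra x).1 h2
        obtain ⟨h5, h6⟩ := Prod.mk.inj h
        refine mem_filter.2 ⟨hx', (hra x').2 ⟨fun h7 => h3 ((hq x' hx' x h1 h5 h6).1 h7), ?_⟩⟩
        have e : σ.μ x' = σ.μ x := by unfold Sm.μ; rw [h5, h6]
        rw [e, h5]
        exact h4
  have e0 : σ.s.filter r0 = ∅ := filter_eq_empty_iff.2 fun x _ => hr0 x
  have hB : (σ.res q).B ≤ σ.B - 0 * ∑ x ∈ σ.s with r0 x, σ.a x +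
      (L + 1) * ∑ x ∈ σ.s with n x, σ.a x + Real.exp (-L) := by
    refine drop hE (f := fun x => ((σ.y x, σ.p x), σ.R x)) (g := fun x => (σ.w x, σ.R x)) hc hI.pos
      (fun x _ x' _ h => ?_) (fun b => by convert hS.fibB T σ E0 j Ml hI b) hI.tot q n r0 hn
      (fun x h => (hr0 x h).elim) hL ?_
    · simp only [Prod.mk.injEq] at h ⊢
      exact ⟨by unfold Sm.w; rw [h.1.1, h.1.2], h.2⟩
    · rw [e0]
      simp
  have hD : (σ.res q).D ≤ σ.D - Real.log K * ∑ x ∈ σ.s with rb x, σ.a x +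
      (L + 1) * ∑ x ∈ σ.s with n x, σ.a x + Real.exp (-L) := by
    refine drop hE (f := fun x => (σ.y x, σ.p x)) (g := σ.w) hc hI.pos
      (fun x _ x' _ h => ?_) (fun b => by convert hS.fibD T σ E0 j Ml hI b) hI.tot q n rb hn
      (fun x h => (hn x).2 ((hrb x).1 h).1) hL ?_
    · obtain ⟨h5, h6⟩ := Prod.mk.inj h
      unfold Sm.w
      rw [h5, h6]
    · refine heavy _ σ.a (fun x => #T.PP * σ.μ x) (fun x => σ.mL (σ.w x)) hK fun x hx => ?_
      obtain ⟨h1, h2⟩ := mem_filter.1 hx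
      exact ⟨hI.pos x h1, (hp x h1).1.trans_le (hp x h1).2.2, ((hrb x).1 h2).2.2⟩
  have s1 := split σ.s σ.a n ra rd fun x => by
    rw [hn, hra, hrd, hrb, hrc, Sm.hi]
    tauto
  have s2 := split σ.s σ.a rd rb rc fun x => by
    rw [hrd, hrb, hrc, Sm.hi]
    tauto
  have s3 : σ.Z = (σ.res q).Z + ∑ x ∈ σ.s with n x, σ.a x := by
    show ∑ x ∈ σ.s, σ.a x = ∑ x ∈ σ.s with q x, σ.a x + _
    rw [sum_filter, sum_filter, ← sum_add_distrib]
    refine sum_congr rfl fun x _ => ?_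
    by_cases h : q x <;> simp [h, hn x]
  have s4 : ∑ x ∈ σ.s with ¬q x ∧ ¬σ.hi K x, σ.a x = ∑ x ∈ σ.s with rc x, σ.a x :=
    sum_congr (filter_congr fun x _ => (hrc x).symm) fun _ _ => rfl
  have s5 : 0 ≤ ∑ x ∈ σ.s with n x, σ.a x :=
    sum_nonneg fun x hx => (hI.pos x (mem_filter.1 hx).1).le
  have s6 := mul_le_mul_of_nonneg_right hLK s5
  unfold Sm.Φ
  rw [s4, s3]
  rw [s2] at s1
  have s7 := congrArg (Real.log K * ·) s1
  simp only [mul_add] at s7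
  linarith

end Pool.Agent.Lib.MP_028aa5_nt.U
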