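import Pool.Agent.Lib.MP_028aa5_nt.U.St1

/-! Basic facts on samples. -/

namespace Pool.Agent.Lib.MP_028aa5_nt.U

open Finset T
open scoped Classical

namespace SmJ

theorem cnt (T : Sys) (A A' : Finset T.Ω) (Mb Mb' : ℝ) (h : A' ⊆ A) (hM : Mb ≤ Mb')
    (hc : T.Cnt A Mb) : T.Cnt A' Mb' := by
  intro c
  refine le_trans ?_ ((hc c).trans hM)
  exact_mod_cast card_le_card (filter_subset_filter _ (image_subset_image h))

theorem inv_mono (T : Sys) (σ : Sm T) (E0 : Finset (T.Ω × ℕ)) (j : ℕ) (Ml Ml' : ℝ) (h : Ml ≤ Ml')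
    (hi : σ.Inv E0 j Ml) : σ.Inv E0 j Ml' :=
  ⟨hi.pos, hi.tot, hi.pr, hi.val, hi.len, hi.mem, hi.src, hi.pu,
    cnt T _ _ _ _ Subset.rfl h hi.low⟩

theorem res (T : Sys) (σ : Sm T) (E0 : Finset (T.Ω × ℕ)) (j : ℕ) (Ml : ℝ) (q : σ.ι → Prop)
    (hi : σ.Inv E0 j Ml) : (σ.res q).Inv E0 j Ml := by
  have hs : ∀ x, x ∈ (σ.res q).s → x ∈ σ.s := fun x hx => (mem_filter.1 hx).1
  refine ⟨fun x hx => hi.pos x (hs x hx), ?_, fun x hx => hi.pr x (hs x hx),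
    fun x hx => hi.val x (hs x hx), fun x hx => hi.len x (hs x hx),
    fun x hx => hi.mem x (hs x hx), fun x hx => hi.src x (hs x hx),
    fun x hx x' hx' => hi.pu x (hs x hx) x' (hs x' hx'), ?_⟩
  · refine le_trans ?_ hi.tot
    show ∑ x ∈ σ.s.filter q, σ.a x ≤ ∑ x ∈ σ.s, σ.a x
    exact sum_le_sum_of_subset_of_nonneg (filter_subset _ _) fun x hx _ => (hi.pos x hx).le
  · exact cnt T _ _ _ _ (image_subset_image (filter_subset _ _)) le_rfl hi.low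

theorem fibA (T : Sys) (σ : Sm T) (E0 : Finset (T.Ω × ℕ)) (j : ℕ) (Ml : ℝ) (hi : σ.Inv E0 j Ml)
    (b : T.Ω × List ℕ) :
    (#({x ∈ σ.s | (σ.y x, σ.R x) = b}.image fun x => ((σ.y x, σ.p x), σ.R x)) : ℝ) ≤ #T.PP := by
  refine Nat.cast_le.2 (card_le_card_of_injOn (fun c => c.1.2) ?_ ?_)
  · intro c hc
    obtain ⟨x, hx, rfl⟩ := mem_image.1 (mem_coe.1 hc)
    exact mem_coe.2 (hi.pr x (mem_filter.1 hx).1)
  · intro c hc c' hc' h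
    obtain ⟨x, hx, rfl⟩ := mem_image.1 (mem_coe.1 hc)
    obtain ⟨x', hx', rfl⟩ := mem_image.1 (mem_coe.1 hc')
    have e := (mem_filter.1 hx).2.trans (mem_filter.1 hx').2.symm
    have e1 : σ.y x = σ.y x' := congrArg Prod.fst e
    have e2 : σ.R x = σ.R x' := congrArg Prod.snd e
    have e3 : σ.p x = σ.p x' := h
    rw [e1, e2, e3]

theorem fibB (T : Sys) (σ : Sm T) (E0 : Finset (T.Ω × ℕ)) (j : ℕ) (Ml : ℝ) (hi : σ.Inv E0 j Ml)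
    (b : T.Ω × List ℕ) :
    (#({x ∈ σ.s | (σ.w x, σ.R x) = b}.image fun x => ((σ.y x, σ.p x), σ.R x)) : ℝ) ≤ #T.PP := by
  refine Nat.cast_le.2 (card_le_card_of_injOn (fun c => c.1.2) ?_ ?_)
  · intro c hc
    obtain ⟨x, hx, rfl⟩ := mem_image.1 (mem_coe.1 hc)
    exact mem_coe.2 (hi.pr x (mem_filter.1 hx).1)
  · intro c hc c' hc' h
    obtain ⟨x, hx, rfl⟩ := mem_image.1 (mem_coe.1 hc)
    obtain ⟨x', hx', rfl⟩ := mem_image.1 (mem_coe.1 hc')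
    have e := (mem_filter.1 hx).2.trans (mem_filter.1 hx').2.symm
    have e0 : σ.w x = σ.w x' := congrArg Prod.fst e
    have e2 : σ.R x = σ.R x' := congrArg Prod.snd e
    have e3 : σ.p x = σ.p x' := h
    have e1 : σ.y x = σ.y x' := hi.pu x (mem_filter.1 hx).1 x' (mem_filter.1 hx').1 e3 e0
    rw [e1, e2, e3]

theorem fibD (T : Sys) (σ : Sm T) (E0 : Finset (T.Ω × ℕ)) (j : ℕ) (Ml : ℝ) (hi : σ.Inv E0 j Ml)
    (b : T.Ω) :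
    (#({x ∈ σ.s | σ.w x = b}.image fun x => (σ.y x, σ.p x)) : ℝ) ≤ #T.PP := by
  refine Nat.cast_le.2 (card_le_card_of_injOn (fun c => c.2) ?_ ?_)
  · intro c hc
    obtain ⟨x, hx, rfl⟩ := mem_image.1 (mem_coe.1 hc)
    exact mem_coe.2 (hi.pr x (mem_filter.1 hx).1)
  · intro c hc c' hc' h
    obtain ⟨x, hx, rfl⟩ := mem_image.1 (mem_coe.1 hc)
    obtain ⟨x', hx', rfl⟩ := mem_image.1 (mem_coe.1 hc')
    have e0 : σ.w x = σ.w x' := (mem_filter.1 hx).2.trans (mem_filter.1 hx').2.symm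
    have e3 : σ.p x = σ.p x' := h
    have e1 : σ.y x = σ.y x' := hi.pu x (mem_filter.1 hx).1 x' (mem_filter.1 hx').1 e3 e0
    rw [e1, e3]

theorem w_eq {T : Sys} (σ : Sm T) {x x' : σ.ι} (h1 : σ.y x = σ.y x') (h2 : σ.p x = σ.p x') :
    σ.w x = σ.w x' := by
  unfold Sm.w
  rw [h1, h2]

theorem nonneg (hE : EntSt) (T : Sys) (σ : Sm T) (E0 : Finset (T.Ω × ℕ)) (j : ℕ) (Ml : ℝ)
    (hne : T.PP.Nonempty) (hi : σ.Inv E0 j Ml) : 0 ≤ σ.A ∧ 0 ≤ σ.B ∧ 0 ≤ σ.D := by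
  have hp : (0 : ℝ) < #T.PP := Nat.cast_pos.2 (card_pos.2 hne)
  refine ⟨hE.dv_nonneg _ _ _ _ _ hp hi.pos ?_ ?_, hE.dv_nonneg _ _ _ _ _ hp hi.pos ?_ ?_,
    hE.dv_nonneg _ _ _ _ _ hp hi.pos ?_ ?_⟩
  · intro x _ x' _ h
    have e1 : σ.y x = σ.y x' := congrArg (fun c => c.1.1) h
    have e2 : σ.R x = σ.R x' := congrArg Prod.snd h
    show (σ.y x, σ.R x) = (σ.y x', σ.R x')
    rw [e1, e2]
  · intro b
    convert fibA T σ E0 j Ml hi b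
  · intro x _ x' _ h
    have e1 : σ.y x = σ.y x' := congrArg (fun c => c.1.1) h
    have e3 : σ.p x = σ.p x' := congrArg (fun c => c.1.2) h
    have e2 : σ.R x = σ.R x' := congrArg Prod.snd h
    show (σ.w x, σ.R x) = (σ.w x', σ.R x')
    rw [w_eq σ e1 e3, e2]
  · intro b
    convert fibB T σ E0 j Ml hi b
  · intro x _ x' _ h
    have e1 : σ.y x = σ.y x' := congrArg Prod.fst h
    have e3 : σ.p x = σ.p x' := congrArg Prod.snd h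
    exact w_eq σ e1 e3
  · intro b
    convert fibD T σ E0 j Ml hi b

theorem pos (hE : EntSt) (T : Sys) (σ : Sm T) (hp : ∀ x ∈ σ.s, 0 < σ.a x) (x : σ.ι)
    (hx : x ∈ σ.s) : 0 < σ.μ x ∧ σ.μ x ≤ σ.mU (σ.y x) ∧ σ.μ x ≤ σ.mL (σ.w x) := by
  have hn : ∀ x ∈ σ.s, 0 ≤ σ.a x := fun x hx => (hp x hx).le
  refine ⟨(hp x hx).trans_le (hE.self σ.s σ.a (fun x => (σ.y x, σ.p x)) hn x hx), ?_, ?_⟩
  · exact hE.ref σ.s σ.a (fun x => (σ.y x, σ.p x)) σ.y _ _ hn fun x' _ h => congrArg Prod.fst h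
  · exact hE.ref σ.s σ.a (fun x => (σ.y x, σ.p x)) σ.w _ _ hn fun x' _ h =>
      w_eq σ (congrArg Prod.fst h) (congrArg Prod.snd h)

theorem par (T : Sys) (σ : Sm T) (E0 : Finset (T.Ω × ℕ)) (j : ℕ) (Ml : ℝ) (hi : σ.Inv E0 j Ml)
    (x : σ.ι) (hx : x ∈ σ.s) :
    ∑ x' ∈ σ.s with σ.w x' = σ.w x ∧ σ.p x' = σ.p x, σ.a x' = σ.μ x := by
  unfold Sm.μ fm
  refine sum_congr ?_ fun _ _ => rfl
  ext x'
  simp only [mem_filter, Prod.mk.injEq]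
  constructor
  · rintro ⟨h, h1, h2⟩
    exact ⟨h, hi.pu x' h x hx h2 h1, h2⟩
  · rintro ⟨h, h1, h2⟩
    exact ⟨h, w_eq σ h1 h2, h2⟩

theorem mem_prs {T : Sys} (σ : Sm T) (u : σ.ι × σ.ι) :
    u ∈ σ.prs ↔ u.1 ∈ σ.s ∧ u.2 ∈ σ.s ∧ σ.w u.1 = σ.w u.2 := by
  unfold Sm.prs
  rw [mem_filter, mem_product, and_assoc]

theorem mL_pos (hE : EntSt) {T : Sys} (σ : Sm T) (hp : ∀ x ∈ σ.s, 0 < σ.a x) (x : σ.ι)
    (hx : x ∈ σ.s) : 0 < σ.mL (σ.w x) :=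
  (pos hE T σ hp x hx).1.trans_le (pos hE T σ hp x hx).2.2

theorem pw_pos (hE : EntSt) (T : Sys) (σ : Sm T) (hp : ∀ x ∈ σ.s, 0 < σ.a x) (u : σ.ι × σ.ι)
    (hu : u ∈ σ.prs) : 0 < σ.pw u := by
  obtain ⟨h1, h2, _⟩ := (mem_prs σ u).1 hu
  exact div_pos (mul_pos (hp _ h1) (hp _ h2)) (mL_pos hE σ hp _ h1)

theorem swap_mem (T : Sys) (σ : Sm T) (u : σ.ι × σ.ι) (hu : u ∈ σ.prs) :
    u.swap ∈ σ.prs ∧ σ.pw u.swap = σ.pw u := by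
  obtain ⟨h1, h2, h3⟩ := (mem_prs σ u).1 hu
  refine ⟨(mem_prs σ _).2 ⟨h2, h1, h3.symm⟩, ?_⟩
  show σ.a u.2 * σ.a u.1 / σ.mL (σ.w u.2) = σ.a u.1 * σ.a u.2 / σ.mL (σ.w u.1)
  rw [h3, mul_comm]

theorem swap (T : Sys) (σ : Sm T) (H : σ.ι × σ.ι → ℝ) :
    ∑ u ∈ σ.prs, σ.pw u * H u = ∑ u ∈ σ.prs, σ.pw u * H u.swap := by
  refine sum_nbij' Prod.swap Prod.swap (fun u hu => (swap_mem T σ u hu).1)
    (fun u hu => (swap_mem T σ u hu).1) (fun u _ => Prod.swap_swap u)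
    (fun u _ => Prod.swap_swap u) fun u hu => ?_
  rw [(swap_mem T σ u hu).2, Prod.swap_swap]

theorem sum1 (hE : EntSt) (T : Sys) (σ : Sm T) (h : σ.ι → ℝ) (hp : ∀ x ∈ σ.s, 0 < σ.a x) :
    ∑ u ∈ σ.prs, σ.pw u * h u.1 = ∑ x ∈ σ.s, σ.a x * h x := by
  unfold Sm.prs
  rw [sum_filter, sum_product]
  refine sum_congr rfl fun x hx => ?_
  have hm := mL_pos hE σ hp x hx
  have e : ∑ x' ∈ σ.s, (if σ.w x = σ.w x' then σ.a x' else 0) = σ.mL (σ.w x) := by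
    unfold Sm.mL fm
    rw [sum_filter]
    refine sum_congr rfl fun x' _ => ?_
    by_cases hw : σ.w x = σ.w x'
    · rw [if_pos hw, if_pos hw.symm]
    · rw [if_neg hw, if_neg fun h' => hw h'.symm]
  calc ∑ x' ∈ σ.s, (if σ.w (x, x').1 = σ.w (x, x').2 then σ.pw (x, x') * h (x, x').1 else 0)
      = ∑ x' ∈ σ.s, σ.a x * h x / σ.mL (σ.w x) * (if σ.w x = σ.w x' then σ.a x' else 0) := by
        refine sum_congr rfl fun x' _ => ?_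
        by_cases hw : σ.w x = σ.w x'
        · rw [if_pos hw, if_pos hw]
          show σ.a x * σ.a x' / σ.mL (σ.w x) * h x = _
          ring
        · rw [if_neg hw, if_neg hw, mul_zero]
    _ = σ.a x * h x := by
        rw [← mul_sum, e, div_mul_cancel₀ _ hm.ne']

theorem sum2 (hE : EntSt) (T : Sys) (σ : Sm T) (h : σ.ι → ℝ) (hp : ∀ x ∈ σ.s, 0 < σ.a x) :
    ∑ u ∈ σ.prs, σ.pw u * h u.2 = ∑ x ∈ σ.s, σ.a x * h x := by
  rw [swap T σ fun u => h u.2]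
  exact sum1 hE T σ h hp

theorem row (hE : EntSt) (T : Sys) (σ : Sm T) (hp : ∀ x ∈ σ.s, 0 < σ.a x) (x : σ.ι)
    (hx : x ∈ σ.s) :
    ∑ u ∈ σ.prs with u.1 = x, σ.pw u = σ.a x ∧ ∑ u ∈ σ.prs with u.2 = x, σ.pw u = σ.a x := by
  have e : ∑ x' ∈ σ.s, σ.a x' * (if x' = x then (1 : ℝ) else 0) = σ.a x := by
    rw [sum_eq_single x]
    · rw [if_pos rfl, mul_one]
    · intro b _ hb
      rw [if_neg hb, mul_zero]
    · intro h
      exact absurd hx h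
  constructor
  · rw [← e, ← sum1 hE T σ (fun x' => if x' = x then (1 : ℝ) else 0) hp, sum_filter]
    refine sum_congr rfl fun u _ => ?_
    by_cases h : u.1 = x
    · simp only [h, if_true, mul_one]
    · simp only [h, if_false, mul_zero]
  · rw [← e, ← sum2 hE T σ (fun x' => if x' = x then (1 : ℝ) else 0) hp, sum_filter]
    refine sum_congr rfl fun u _ => ?_
    by_cases h : u.2 = x
    · simp only [h, if_true, mul_one]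
    · simp only [h, if_false, mul_zero]

theorem prod (hE : EntSt) (T : Sys) (σ : Sm T) (q1 q2 : σ.ι → Prop) (z : T.Ω)
    (B : Finset (σ.ι × σ.ι)) (hp : ∀ x ∈ σ.s, 0 < σ.a x) (hB : B ⊆ σ.prs)
    (hq : ∀ u ∈ B, q1 u.1 ∧ q2 u.2 ∧ σ.w u.1 = z) :
    ∑ u ∈ B, σ.pw u ≤ (∑ x ∈ σ.s with q1 x, σ.a x) * (∑ x ∈ σ.s with q2 x, σ.a x) / σ.mL z := by
  have hn : ∀ x ∈ σ.s, 0 ≤ σ.a x := fun x hx => (hp x hx).le
  have hm : 0 ≤ σ.mL z := hE.nonneg σ.s σ.a σ.w z hn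
  have e : ∑ u ∈ B, σ.pw u = (∑ u ∈ B, σ.a u.1 * σ.a u.2) / σ.mL z := by
    rw [sum_div]
    refine sum_congr rfl fun u hu => ?_
    show σ.a u.1 * σ.a u.2 / σ.mL (σ.w u.1) = _
    rw [(hq u hu).2.2]
  rw [e]
  refine div_le_div_of_nonneg_right ?_ hm
  rw [sum_mul_sum, ← sum_product']
  refine sum_le_sum_of_subset_of_nonneg ?_ ?_
  · intro u hu
    obtain ⟨h1, h2, _⟩ := (mem_prs σ u).1 (hB hu)
    exact mem_product.2 ⟨mem_filter.2 ⟨h1, (hq u hu).1⟩, mem_filter.2 ⟨h2, (hq u hu).2.1⟩⟩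
  · intro u hu _
    obtain ⟨h1, h2⟩ := mem_product.1 hu
    exact mul_nonneg (hn _ (mem_filter.1 h1).1) (hn _ (mem_filter.1 h2).1)

theorem tp (T : Sys) (C0 : ℝ) (σ : Sm T) (E0 : Finset (T.Ω × ℕ)) (j : ℕ) (Ml : ℝ) (hO : T.Ok C0)
    (hi : σ.Inv E0 j Ml) (u : σ.ι × σ.ι) (hu : u ∈ σ.prs) (hne : σ.p u.1 ≠ σ.p u.2) :
    T.ch (σ.p u.2) (σ.tp u) = σ.y u.1 ∧ T.ch (σ.p u.1) (σ.tp u) = σ.y u.2 ∧
      σ.tp u.swap = σ.tp u := by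
  obtain ⟨h1, h2, h3⟩ := (mem_prs σ u).1 hu
  exact hO.top _ (hi.pr _ h1) _ (hi.pr _ h2) hne _ _ h3

end SmJ

theorem st_Sm (hE : EntSt) : SmSt where
  cnt := SmJ.cnt
  inv_mono := SmJ.inv_mono
  res := SmJ.res
  fibA := SmJ.fibA
  fibB := SmJ.fibB
  fibD := SmJ.fibD
  nonneg := SmJ.nonneg hE
  pos := SmJ.pos hE
  par := SmJ.par
  pw_pos := SmJ.pw_pos hE
  swap_mem := SmJ.swap_mem
  swap := SmJ.swap
  sum1 := SmJ.sum1 hE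
  sum2 := SmJ.sum2 hE
  row := SmJ.row hE
  prod := SmJ.prod hE
  tp := SmJ.tp

end Pool.Agent.Lib.MP_028aa5_nt.U
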