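import Pool.Agent.Lib.MP_028aa5_nt.U.Defs

/-! Statements, part 1: entropy and the abstract tower. -/

namespace Pool.Agent.Lib.MP_028aa5_nt.U

open Finset T
open scoped Classical

structure EntSt : Prop where
  nonneg : ∀ {ι β : Type} (s : Finset ι) (a : ι → ℝ) (f : ι → β) (b : β), (∀ x ∈ s, 0 ≤ a x) →
    0 ≤ fm s a f b
  self : ∀ {ι β : Type} (s : Finset ι) (a : ι → ℝ) (f : ι → β), (∀ x ∈ s, 0 ≤ a x) →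
    ∀ x ∈ s, a x ≤ fm s a f (f x)
  mono : ∀ {ι β : Type} (s s' : Finset ι) (a : ι → ℝ) (f : ι → β) (b : β), s' ⊆ s →
    (∀ x ∈ s, 0 ≤ a x) → fm s' a f b ≤ fm s a f b
  ref : ∀ {ι β γ : Type} (s : Finset ι) (a : ι → ℝ) (f : ι → β) (g : ι → γ) (b : β) (b' : γ),
    (∀ x ∈ s, 0 ≤ a x) → (∀ x ∈ s, f x = b → g x = b') → fm s a f b ≤ fm s a g b'
  congr : ∀ {ι β γ : Type} (s : Finset ι) (a : ι → ℝ) (f : ι → β) (g : ι → γ) (b : β) (b' : γ),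
    (∀ x ∈ s, f x = b ↔ g x = b') → fm s a f b = fm s a g b'
  push : ∀ {ι β : Type} (s : Finset ι) (a : ι → ℝ) (f : ι → β) (G : β → ℝ),
    ∑ x ∈ s, a x * G (f x) = ∑ b ∈ s.image f, fm s a f b * G b
  val : ∀ {ι β : Type} (s : Finset ι) (a : ι → ℝ) (f : ι → β) (G : β → ℝ), (∀ x ∈ s, 0 < a x) →
    ∑ x ∈ s, a x * (G (f x) / fm s a f (f x)) = ∑ b ∈ s.image f, G b
  tot : ∀ {ι β : Type} (s : Finset ι) (a : ι → ℝ) (f : ι → β) (B : Finset β), (∀ x ∈ s, 0 ≤ a x) →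
    ∑ b ∈ B, fm s a f b ≤ ∑ x ∈ s, a x
  fib : ∀ {ι β γ : Type} (s : Finset ι) (a : ι → ℝ) (f : ι → β) (Γ : β → γ) (B : Finset β) (c : γ),
    (∀ x ∈ s, 0 ≤ a x) → (∀ b ∈ B, Γ b = c) → ∑ b ∈ B, fm s a f b ≤ fm s a (fun x => Γ (f x)) c
  marg : ∀ {ι β γ : Type} (s : Finset ι) (a : ι → ℝ) (f : ι → β) (g : ι → γ) (B : Finset γ) (b : β),
    (∀ x ∈ s, 0 ≤ a x) → ∑ h ∈ B, fm s a (fun x => (f x, g x)) (b, h) ≤ fm s a f b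
  tail : ∀ {ι β γ : Type} (c : ℝ) (s : Finset ι) (a : ι → ℝ) (f : ι → β) (g : ι → γ), 0 < c →
    (∀ x ∈ s, 0 < a x) → (∀ x ∈ s, ∀ x' ∈ s, f x = f x' → g x = g x') →
    (∀ b, (#({x ∈ s | g x = b}.image f) : ℝ) ≤ c) →
    ∑ x ∈ s, a x * (fm s a g (g x) / (c * fm s a f (f x))) ≤ ∑ x ∈ s, a x
  dv_nonneg : ∀ {ι β γ : Type} (c : ℝ) (s : Finset ι) (a : ι → ℝ) (f : ι → β) (g : ι → γ), 0 < c →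
    (∀ x ∈ s, 0 < a x) → (∀ x ∈ s, ∀ x' ∈ s, f x = f x' → g x = g x') →
    (∀ b, (#({x ∈ s | g x = b}.image f) : ℝ) ≤ c) → 0 ≤ Dv c s a f g
  kill : ∀ {ι β γ : Type} (c : ℝ) (s : Finset ι) (a : ι → ℝ) (f : ι → β) (g : ι → γ), 0 < c →
    (∀ x ∈ s, 0 < a x) → (∀ x ∈ s, ∀ x' ∈ s, f x = f x' → g x = g x') →
    (∀ b, (#({x ∈ s | g x = b}.image f) : ℝ) ≤ c) → ∀ (b : ι → ℝ) (L : ℝ),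
    (∀ x ∈ s, 0 ≤ b x ∧ b x ≤ a x) →
    -∑ x ∈ s, b x * Real.log (c * fm s a f (f x) / fm s a g (g x)) ≤
      L * ∑ x ∈ s, b x + Real.exp (-L) * ∑ x ∈ s, a x
  res : ∀ {ι β γ : Type} (c : ℝ) (s s' : Finset ι) (a : ι → ℝ) (f : ι → β) (g : ι → γ), 0 < c →
    s' ⊆ s → (∀ x ∈ s, 0 < a x) → Dv c s' a f g ≤
      ∑ x ∈ s', a x * Real.log (c * fm s a f (f x) / fm s a g (g x)) + (∑ x ∈ s, a x - ∑ x ∈ s', a x)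
  gain : ∀ {ι β γ δ : Type} (c : ℝ) (s s' : Finset ι) (a : ι → ℝ) (f : ι → β) (Γ : β → γ) (h : ι → δ),
    0 < c → (∀ x ∈ s, 0 < a x) → s' ⊆ s → (∀ x ∈ s', ∀ x' ∈ s, f x' = f x → x' ∈ s') →
    ∑ x ∈ s', a x * Real.log (c * fm s a f (f x) / fm s a (fun x => Γ (f x)) (Γ (f x))) ≤
      ∑ x ∈ s', a x * Real.log (c * fm s a (fun x => (f x, h x)) (f x, h x) /
        fm s a (fun x => (Γ (f x), h x)) (Γ (f x), h x))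

/-- basic facts on samples -/
structure SmSt : Prop where
  cnt : ∀ (T : Sys) (A A' : Finset T.Ω) (Mb Mb' : ℝ), A' ⊆ A → Mb ≤ Mb' → T.Cnt A Mb → T.Cnt A' Mb'
  inv_mono : ∀ (T : Sys) (σ : Sm T) E0 j Ml Ml', Ml ≤ Ml' → σ.Inv E0 j Ml → σ.Inv E0 j Ml'
  res : ∀ (T : Sys) (σ : Sm T) E0 j Ml q, σ.Inv E0 j Ml → (σ.res q).Inv E0 j Ml
  fibA : ∀ (T : Sys) (σ : Sm T) E0 j Ml, σ.Inv E0 j Ml → ∀ b,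
    (#({x ∈ σ.s | (σ.y x, σ.R x) = b}.image fun x => ((σ.y x, σ.p x), σ.R x)) : ℝ) ≤ #T.PP
  fibB : ∀ (T : Sys) (σ : Sm T) E0 j Ml, σ.Inv E0 j Ml → ∀ b,
    (#({x ∈ σ.s | (σ.w x, σ.R x) = b}.image fun x => ((σ.y x, σ.p x), σ.R x)) : ℝ) ≤ #T.PP
  fibD : ∀ (T : Sys) (σ : Sm T) E0 j Ml, σ.Inv E0 j Ml → ∀ b,
    (#({x ∈ σ.s | σ.w x = b}.image fun x => (σ.y x, σ.p x)) : ℝ) ≤ #T.PP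
  nonneg : ∀ (T : Sys) (σ : Sm T) E0 j Ml, T.PP.Nonempty → σ.Inv E0 j Ml →
    0 ≤ σ.A ∧ 0 ≤ σ.B ∧ 0 ≤ σ.D
  pos : ∀ (T : Sys) (σ : Sm T), (∀ x ∈ σ.s, 0 < σ.a x) → ∀ x ∈ σ.s,
    0 < σ.μ x ∧ σ.μ x ≤ σ.mU (σ.y x) ∧ σ.μ x ≤ σ.mL (σ.w x)
  /-- the mass of the edges with given lower end and prime -/
  par : ∀ (T : Sys) (σ : Sm T) E0 j Ml, σ.Inv E0 j Ml → ∀ x ∈ σ.s,
    ∑ x' ∈ σ.s with σ.w x' = σ.w x ∧ σ.p x' = σ.p x, σ.a x' = σ.μ x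
  pw_pos : ∀ (T : Sys) (σ : Sm T), (∀ x ∈ σ.s, 0 < σ.a x) → ∀ u ∈ σ.prs, 0 < σ.pw u
  swap_mem : ∀ (T : Sys) (σ : Sm T) u, u ∈ σ.prs → u.swap ∈ σ.prs ∧ σ.pw u.swap = σ.pw u
  swap : ∀ (T : Sys) (σ : Sm T) (H : σ.ι × σ.ι → ℝ),
    ∑ u ∈ σ.prs, σ.pw u * H u = ∑ u ∈ σ.prs, σ.pw u * H u.swap
  sum1 : ∀ (T : Sys) (σ : Sm T) (h : σ.ι → ℝ), (∀ x ∈ σ.s, 0 < σ.a x) →
    ∑ u ∈ σ.prs, σ.pw u * h u.1 = ∑ x ∈ σ.s, σ.a x * h x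
  sum2 : ∀ (T : Sys) (σ : Sm T) (h : σ.ι → ℝ), (∀ x ∈ σ.s, 0 < σ.a x) →
    ∑ u ∈ σ.prs, σ.pw u * h u.2 = ∑ x ∈ σ.s, σ.a x * h x
  row : ∀ (T : Sys) (σ : Sm T), (∀ x ∈ σ.s, 0 < σ.a x) → ∀ x ∈ σ.s,
    ∑ u ∈ σ.prs with u.1 = x, σ.pw u = σ.a x ∧ ∑ u ∈ σ.prs with u.2 = x, σ.pw u = σ.a x
  prod : ∀ (T : Sys) (σ : Sm T) (q1 q2 : σ.ι → Prop) (z : T.Ω) (B : Finset (σ.ι × σ.ι)),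
    (∀ x ∈ σ.s, 0 < σ.a x) → B ⊆ σ.prs → (∀ u ∈ B, q1 u.1 ∧ q2 u.2 ∧ σ.w u.1 = z) →
    ∑ u ∈ B, σ.pw u ≤ (∑ x ∈ σ.s with q1 x, σ.a x) * (∑ x ∈ σ.s with q2 x, σ.a x) / σ.mL z
  tp : ∀ (T : Sys) (C0 : ℝ) (σ : Sm T) E0 j Ml, T.Ok C0 → σ.Inv E0 j Ml → ∀ u ∈ σ.prs,
    σ.p u.1 ≠ σ.p u.2 → T.ch (σ.p u.2) (σ.tp u) = σ.y u.1 ∧ T.ch (σ.p u.1) (σ.tp u) = σ.y u.2 ∧
      σ.tp u.swap = σ.tp u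

/-- removing edges: heavy edges pay for themselves -/
def KillESt : Prop := ∀ (T : Sys) (σ : Sm T) (E0 : Finset (T.Ω × ℕ)) (j : ℕ) (Ml K L : ℝ)
  (q : σ.ι → Prop), T.PP.Nonempty → σ.Inv E0 j Ml → 1 ≤ K → 0 ≤ L → 6 * L + 6 ≤ Real.log K →
  (∀ x ∈ σ.s, ∀ x' ∈ σ.s, σ.y x = σ.y x' → σ.p x = σ.p x' → (q x ↔ q x')) →
  (σ.res q).Φ K ≤ σ.Φ K + Real.log K * ∑ x ∈ σ.s with ¬q x ∧ ¬σ.hi K x, σ.a x + 3 * Real.exp (-L)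

/-- removing heavy edges and small states -/
def KillCSt : Prop := ∀ (T : Sys) (σ : Sm T) (E0 : Finset (T.Ω × ℕ)) (j : ℕ) (Ml Mp K : ℝ),
  T.PP.Nonempty → σ.Inv E0 j Ml → σ.Pre Mp → 0 < Mp → 1 ≤ K → ∃ q : σ.ι → Prop,
  (∀ x ∈ σ.s, ∀ x' ∈ σ.s, σ.y x = σ.y x' → σ.p x = σ.p x' → (q x ↔ q x')) ∧
  ∑ x ∈ σ.s with ¬q x ∧ ¬σ.hi K x, σ.a x ≤ 1 / K ∧ (σ.res q).Post K (K ^ 2 * Mp)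

/-- the first and the third entropy at the next level -/
def StepASt : Prop := ∀ (T : Sys) (C0 : ℝ) (σ : Sm T) (E0 : Finset (T.Ω × ℕ)) (j : ℕ) (Ml L : ℝ)
  (q : σ.ι × σ.ι → Prop), T.Ok C0 → σ.Inv E0 j Ml → (∀ u ∈ σ.prs, q u → q u.swap) →
  (∀ u ∈ σ.prs, q u → σ.p u.1 ≠ σ.p u.2) →
  (σ.nxt q).A + (σ.nxt q).D ≤ σ.A + σ.D + (2 * L + 1) * ∑ u ∈ σ.prs with ¬q u, σ.pw u +
    2 * Real.exp (-L)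

/-- the second entropy at the next level -/
def StepBSt : Prop := ∀ (T : Sys) (C0 : ℝ) (σ : Sm T) (E0 : Finset (T.Ω × ℕ)) (j : ℕ) (Ml L : ℝ)
  (q : σ.ι × σ.ι → Prop), T.Ok C0 → σ.Inv E0 j Ml → (∀ u ∈ σ.prs, q u → σ.p u.1 ≠ σ.p u.2) →
  (σ.nxt q).B ≤ σ.B + (L + 1) * ∑ u ∈ σ.prs with ¬q u, σ.pw u + Real.exp (-L)

/-- powers of a symmetric kernel -/
def ChainSt : Prop := ∀ (Ω Λ ι : Type) (A : Finset Ω) (m : Ω → ℝ) (C : Finset ι) (c : ι → ℝ)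
  (fr tg : ι → Ω) (ty : ι → Λ) (Rel : Ω → Λ → Ω → Prop) (θ Nl : ℝ) (a : ℕ),
  (∀ z ∈ A, 0 < m z) → ∑ z ∈ A, m z ≤ 1 →
  (∀ i ∈ C, 0 ≤ c i ∧ fr i ∈ A ∧ tg i ∈ A ∧ Rel (fr i) (ty i) (tg i)) →
  (∀ f g : Ω → ℝ, ∑ i ∈ C, c i * (f (fr i) * g (tg i)) = ∑ i ∈ C, c i * (g (fr i) * f (tg i))) →
  0 ≤ θ → 0 ≤ Nl → (∀ z ∈ A, ∀ l, ∑ i ∈ C with fr i = z ∧ ty i = l, c i ≤ θ * m z) →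
  (∀ z ∈ A, ∀ L : Finset (List Λ), (∀ l ∈ L, l.length = 2 ^ a ∧ ∃ z', Chn Rel l z z') →
    (#L : ℝ) ≤ Nl) →
  (∑ i ∈ C, c i) ^ 2 ^ a ≤ θ ^ 2 ^ a * Nl

/-- pairs of light edges: bounds for a prescribed pair of primes -/
structure LightSt : Prop where
  pt : ∀ (T : Sys) (σ : Sm T) E0 j Ml (K : ℝ) (z : T.Ω) (p r : ℕ) (B : Finset (σ.ι × σ.ι)),
    T.PP.Nonempty → σ.Inv E0 j Ml → B ⊆ σ.prs → (∀ u ∈ B, ¬σ.hi (K ^ 2) u.1 ∧ ¬σ.hi (K ^ 2) u.2 ∧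
      σ.y u.2 = z ∧ σ.p u.1 = p ∧ σ.p u.2 = r) → ∑ u ∈ B, σ.pw u ≤ K ^ 4 / #T.PP ^ 2 * σ.mU z
  st : ∀ (T : Sys) (σ : Sm T) E0 j Ml (K : ℝ) (b : T.Λ) (p r : ℕ) (B : Finset (σ.ι × σ.ι)),
    T.PP.Nonempty → σ.Inv E0 j Ml → B ⊆ σ.prs → (∀ u ∈ B, ¬σ.hi (K ^ 2) u.1 ∧ ¬σ.hi (K ^ 2) u.2 ∧
      T.S (σ.y u.1) = b ∧ σ.p u.1 = p ∧ σ.p u.2 = r) →
    ∑ u ∈ B, σ.pw u ≤ K ^ 4 / #T.PP ^ 2 * fm σ.s σ.a (fun x => T.S (σ.y x)) b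
  diag : ∀ (T : Sys) (σ : Sm T) E0 j Ml (K Mb : ℝ), T.PP.Nonempty → σ.Inv E0 j Ml → σ.Post K Mb →
    1 ≤ K → K ^ 3 ≤ #T.PP → ∑ u ∈ σ.prs with σ.p u.1 = σ.p u.2, σ.pw u ≤ 3 / K

/-- the weight of the conflicts is small -/
def ConfASt : Prop := ∀ (T : Sys) (C0 : ℝ) (σ : Sm T) (E0 : Finset (T.Ω × ℕ)) (j a : ℕ)
  (Ml Mb K Nl : ℝ) (B : Finset (σ.ι × σ.ι)), T.Ok C0 → σ.Inv E0 j Ml → T.Cnt (σ.s.image σ.y) Mb →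
  1 ≤ K → T.Few j Mb (2 ^ a) Nl → 0 ≤ Nl → (K ^ 10 / #T.PP ^ 3) ^ 2 ^ a * Nl ≤ 1 → B ⊆ σ.prs →
  (∀ u ∈ B, ¬σ.hi (K ^ 2) u.1 ∧ ¬σ.hi (K ^ 2) u.2 ∧ σ.p u.1 ≠ σ.p u.2 ∧
    fm σ.s σ.a (fun x => T.S (σ.y x)) (T.S (σ.y u.1)) ≤ K * #T.PP *
      fm B σ.pw (fun v => (T.S (σ.y v.1), σ.p v.2)) (T.S (σ.y u.1), σ.p u.2)) →
  ∑ u ∈ B, ∑ v ∈ B with (T.S (σ.y v.1), σ.p v.2) = (T.S (σ.y u.1), σ.p u.2) ∧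
    ¬T.Near (σ.tp u) (σ.tp v), σ.pw u * σ.pw v /
      fm B σ.pw (fun v => (T.S (σ.y v.1), σ.p v.2)) (T.S (σ.y u.1), σ.p u.2) ≤ 1 / K

/-- most common parents are near a point that depends only on the state of a child -/
def ConfSt : Prop := ∀ (T : Sys) (C0 : ℝ) (σ : Sm T) (E0 : Finset (T.Ω × ℕ)) (j a : ℕ)
  (Ml Mb K Nl : ℝ), Nonempty T.Ω → T.Ok C0 → σ.Inv E0 j Ml → σ.Post K Mb → 1 ≤ K →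
  T.Few j Mb (2 ^ a) Nl → 0 ≤ Nl → (K ^ 10 / #T.PP ^ 3) ^ 2 ^ a * Nl ≤ 1 → ∃ ts : T.Λ → ℕ → T.Ω,
  ∑ u ∈ σ.prs with σ.p u.1 ≠ σ.p u.2 ∧ ¬T.Near (σ.tp u) (ts (T.S (σ.y u.1)) (σ.p u.2)), σ.pw u ≤ 6 / K

/-- the structure of the next level -/
def NextSt : Prop := ∀ (T : Sys) (C0 : ℝ) (σ : Sm T) (E0 : Finset (T.Ω × ℕ)) (j : ℕ) (Ml Mb : ℝ)
  (ts : T.Λ → ℕ → T.Ω) (q : σ.ι × σ.ι → Prop), T.Ok C0 → σ.Inv E0 j Ml → T.Cnt (σ.s.image σ.y) Mb →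
  (∀ u ∈ σ.prs, q u → σ.p u.1 ≠ σ.p u.2 ∧ T.Near (σ.tp u) (ts (T.S (σ.y u.2)) (σ.p u.1))) →
  (σ.nxt q).Inv E0 (j + 1) Mb ∧ (σ.nxt q).Pre (2 * C0 * Mb) ∧
    (σ.nxt q).Z = σ.Z - ∑ u ∈ σ.prs with ¬q u, σ.pw u

/-- one level of the tower -/
def StepSt : Prop := ∀ (T : Sys) (C0 : ℝ) (σ : Sm T) (E0 : Finset (T.Ω × ℕ)) (j a : ℕ)
  (Ml Mb K L Nl : ℝ), Nonempty T.Ω → T.Ok C0 → σ.Inv E0 j Ml → σ.Post K Mb → 1 ≤ K → K ^ 3 ≤ #T.PP →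
  0 ≤ L → 6 * L + 6 ≤ Real.log K → T.Few j Mb (2 ^ a) Nl → 0 ≤ Nl →
  (K ^ 10 / #T.PP ^ 3) ^ 2 ^ a * Nl ≤ 1 → ∃ σ' : Sm T, σ'.Inv E0 (j + 1) Mb ∧ σ'.Pre (2 * C0 * Mb) ∧
    σ'.Φ K ≤ σ.Φ K + 15 * (Real.log K / K) + 3 * Real.exp (-L)

/-- the first sample -/
def StartSt : Prop := ∀ (T : Sys) (E0 : Finset (T.Ω × ℕ)) (F F' : T.Ω → ℝ) (lam Mp Ml : ℝ),
  T.PP.Nonempty → T.Gr E0 F F' lam → 0 < lam → (∀ e ∈ E0, T.V 0 e.1) →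
  T.Cnt (E0.image Prod.fst) Mp → T.Cnt (E0.image T.lw) Ml →
  ∃ σ : Sm T, σ.Inv E0 0 Ml ∧ σ.Pre Mp ∧ ∀ K, σ.Φ K ≤ 4 * Real.log (1 / lam)

/-- from the last sample to a graph -/
def FinSt : Prop := ∀ (T : Sys) (σ : Sm T) (E0 : Finset (T.Ω × ℕ)) (j : ℕ) (Ml Mb : ℝ),
  T.PP.Nonempty → σ.Inv E0 j Ml → 0 < σ.Z → T.Cnt (σ.s.image σ.y) Mb →
  ∃ (R : List ℕ) (E : Finset (T.Ω × ℕ)) (F F' : T.Ω → ℝ), R.length = j ∧ (∀ r ∈ R, r ∈ T.PP) ∧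
    T.Gr E F F' (1 - (σ.A + σ.B) / (2 * σ.Z)) ∧ (∀ e ∈ E, (T.chL R e.1, e.2) ∈ E0) ∧
    T.Cnt (E.image Prod.fst) Mb ∧ T.Cnt (E.image T.lw) Ml

/-- the tower -/
def TowSt : Prop := ∀ (T : Sys) (C0 K L ε : ℝ) (s : ℕ) (E0 : Finset (T.Ω × ℕ)) (F F' : T.Ω → ℝ),
  T.Ok C0 → T.Gr E0 F F' (1 - ε) → 0 < ε → ε ≤ 1 / 16 → (∀ e ∈ E0, T.V 0 e.1) →
  T.Cnt (E0.image Prod.fst) K → T.Cnt (E0.image T.lw) K → 1 ≤ K → 2 * C0 ≤ K → K ^ 3 ≤ #T.PP →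
  0 ≤ L → 6 * L + 6 ≤ Real.log K → (s + 1) * (16 * (Real.log K / K) + 6 * Real.exp (-L)) ≤ 8 * ε →
  (∀ j < s, ∃ (a : ℕ) (Nl : ℝ), T.Few j (K ^ (3 * (j + 1))) (2 ^ a) Nl ∧ 0 ≤ Nl ∧
    (K ^ 10 / #T.PP ^ 3) ^ 2 ^ a * Nl ≤ 1) →
  ∃ (R : List ℕ) (E : Finset (T.Ω × ℕ)) (G G' : T.Ω → ℝ), R.length = s ∧ (∀ r ∈ R, r ∈ T.PP) ∧
    T.Gr E G G' (1 - 16 * ε) ∧ (∀ e ∈ E, (T.chL R e.1, e.2) ∈ E0) ∧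
    T.Cnt (E.image Prod.fst) (K ^ (3 * (s + 1))) ∧ T.Cnt (E.image T.lw) (K ^ (3 * (s + 1)))

end Pool.Agent.Lib.MP_028aa5_nt.U
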