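import Pool.Agent.Lib.MP_028aa5_nt.U.St1

/-! Statements, part 2: the geometric system and the count of chains. -/

namespace Pool.Agent.Lib.MP_028aa5_nt.U

open Finset T
open scoped Classical

/-- exact points -/
structure PtSt : Prop where
  mkp : ∀ k J y α, EqZ k (mkP k J y α).ph α
  ext : ∀ k (t t' : Pt k), t.J = t'.J → t.y = t'.y → EqZ k t.ph t'.ph → t = t'
  ch : ∀ (π : Par) p t, EqZ π.k (chd π p t).ph (dil p t.ph)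
  comm : ∀ (π : Par) p r t, chd π p (chd π r t) = chd π r (chd π p t)
  pull : ∀ (π : Par) (p r : ℕ) y z, p.Prime → r.Prime → p ≠ r → chd π p y = chd π r z →
    ∃ t, chd π r t = y ∧ chd π p t = z
  uniq : ∀ (π : Par) (p r : ℕ) t t', p.Prime → r.Prime → p ≠ r → chd π r t = chd π r t' →
    chd π p t = chd π p t' → t = t'
  root : ∀ k (p : ℕ) (α β : Ph), 0 < p → EqZ k (dil p α) (dil p β) →
    ∃ i : ℕ → ℤ, ∀ j ∈ Icc 1 k, α j - β j = lat (1 / p) i j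
  chL_y : ∀ (π : Par) Y S (R : List ℕ) (t : Pt π.k), Pt.y ((geo π Y S).chL R t) = t.y / R.prod
  chL_ph : ∀ (π : Par) Y S (R : List ℕ) (t : Pt π.k),
    EqZ π.k (Pt.ph ((geo π Y S).chL R t)) (dil (R.prod : ℕ) t.ph)
  chL_ch : ∀ (π : Par) Y S (R : List ℕ) (p : ℕ) (t : Pt π.k),
    (geo π Y S).chL R (chd π p t) = chd π p ((geo π Y S).chL R t)
  cl_congr : ∀ k κ y r α β, EqZ k α β → Cl k κ 1 y r α → Cl k κ 1 y r β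
  cl_sub : ∀ k κ c y r r' α β, 0 ≤ κ → Cl k κ c y r α → Cl k κ c y r' β → Cl k κ c y (r + r') (α - β)
  eqz_sub : ∀ k α β α' β', EqZ k α β → EqZ k α' β' → EqZ k (α - α') (β - β')
  eqz_lat : ∀ k α (z : ℕ → ℤ), EqZ k (α + lat 1 z) α
  cl_lift : ∀ k κ y r α (R : ℕ), Cl k κ 1 (R * y) r α → Cl k κ R y r (dil R α)
  cell : ∀ κ y : ℝ, 0 < κ → |Real.log y - ⌊Real.log y / κ⌋ * κ| ≤ κ
  cell2 : ∀ κ y y' : ℝ, 0 < κ → ⌊Real.log y / κ⌋ = ⌊Real.log y' / κ⌋ →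
    |Real.log y - Real.log y'| ≤ κ
  /-- the cells met by an interval -/
  cells : ∀ (κ s l : ℝ), 0 < κ → 0 ≤ l → ∃ I : Finset ℤ, (#I : ℝ) ≤ 2 * l / κ + 2 ∧
    ∀ v : ℝ, |v - s| ≤ l → ⌊v / κ⌋ ∈ I
  nm5 : ∀ k κ y y' α, 0 < κ → κ ≤ 1 → 0 < y → 0 < y' → |Real.log y' - Real.log y| ≤ κ →
    nm k κ y' α ≤ 5 ^ k * nm k κ y α
  nm9 : ∀ k κ y y' α, 0 < κ → 2 * κ ≤ 1 → 0 < y → 0 < y' → |Real.log y' - Real.log y| ≤ 2 * κ →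
    nm k κ y' α ≤ 9 ^ k * nm k κ y α
  cl5 : ∀ k κ c y y' r α, 0 < κ → κ ≤ 1 → 0 < y → 0 < y' → |Real.log y' - Real.log y| ≤ κ →
    Cl k κ c y r α → Cl k κ c y' (5 ^ k * r) α
  cl9 : ∀ k κ c y y' r α, 0 < κ → 2 * κ ≤ 1 → 0 < y → 0 < y' →
    |Real.log y' - Real.log y| ≤ 2 * κ → Cl k κ c y r α → Cl k κ c y' (9 ^ k * r) α

/-- covering a ball by small boxes -/
def GridSt : Prop := ∀ (ι : Type) (k : ℕ) (κ y r δ L : ℝ) (A : Finset ι) (v : ι → Ph), 1 ≤ k →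
  0 ≤ κ → 0 ≤ r → 0 < δ → (∀ x ∈ A, nm k κ y (v x) ≤ r) →
  (∀ B ⊆ A, (∀ x ∈ B, ∀ x' ∈ B, nm k κ y (v x - v x') ≤ δ) → (#B : ℝ) ≤ L) →
  (#A : ℝ) ≤ (2 * k * r / δ + 2) ^ k * L

/-- existence of states -/
def StateSt : Prop := ∀ (k : ℕ) (κ : ℝ), 1 ≤ k → 0 ≤ κ → ∃ S : Pt k → ℤ × Ph, StMap k κ S

def GeoSt : Prop := ∀ (π : Par) (Y : ℝ) (S : Pt π.k → ℤ × Ph), π.Ok → StMap π.k π.κ S → 0 < Y →
  2 * π.P * (4 * 5 ^ π.k + 1) ≤ π.κ * Y → (geo π Y S).Ok (cK π.k)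

/-- one conflict -/
def RelSt : Prop := ∀ (π : Par) (Y : ℝ) (S : Pt π.k → ℤ × Ph) (A : Finset (Pt π.k)) (z z' : Pt π.k)
  (l : ℕ × ℕ × ℕ), π.Ok → StMap π.k π.κ S → 0 < z.y → 0 < z'.y → (geo π Y S).Rel A z l z' →
  |Real.log z'.y - Real.log (z.y * l.1 / l.2.2)| ≤ π.κ ∧ ∃ i : ℕ → ℤ,
    (∃ j ∈ Icc 1 π.k, ¬(l.2.1 : ℤ) ^ j ∣ i j) ∧ Cl π.k π.κ 1 (z.y / l.2.2) (2 * 5 ^ π.k)
      (dil l.2.2 z.ph - dil l.1 z'.ph - dil (l.1 * l.2.2 : ℕ) (lat (1 / l.2.1) i))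

/-- the invariant of a chain -/
def ChInvSt : Prop := ∀ (π : Par) (Y : ℝ) (S : Pt π.k → ℤ × Ph) (A : Finset (Pt π.k))
  (l : List (ℕ × ℕ × ℕ)) (z z' : Pt π.k), π.Ok → StMap π.k π.κ S → (∀ t ∈ A, 0 < t.y) → 0 < z.y →
  Chn ((geo π Y S).Rel A) l z z' →
  (∀ x ∈ l, x.1 ∈ π.PP ∧ x.2.1 ∈ π.PP ∧ x.2.2 ∈ π.PP) ∧ (l ≠ [] → z ∈ A ∧ z' ∈ A) ∧ 0 < z'.y ∧
  |Real.log z'.y - Real.log (z.y * pa l / pb l)| ≤ l.length * π.κ ∧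
  ∃ ζ, Zt π.k l ζ ∧ Cl π.k π.κ 1 (z.y / pb l) ((2 * 5 ^ π.k) ^ (l.length + 1))
    (dil (pb l) z.ph - dil (pa l) z'.ph - ζ)

/-- denominators of the defect -/
structure ZtSt : Prop where
  den : ∀ k l ζ, (∀ x ∈ l, 0 < x.2.1) → Zt k l ζ → EqZ k (dil (pc l) ζ) 0
  one : ∀ k l ζ (q m : ℕ), (∀ x ∈ l, x.1.Prime ∧ x.2.1.Prime ∧ x.2.2.Prime) → Zt k l ζ → q.Prime →
    (∀ x ∈ l, x.1 ≠ q ∧ x.2.2 ≠ q) → (l.map fun x => x.2.1).count q = 1 → Nat.Coprime m q →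
    ¬EqZ k (dil m ζ) 0

/-- two chains with the same outer primes and the same final state have the same defect -/
def SameSt : Prop := ∀ (π : Par) (S : Pt π.k → ℤ × Ph) (z0 z z' : Pt π.k) (ζ ζ' : Ph)
  (a b c c' g : ℕ), π.Ok → StMap π.k π.κ S → 0 < z0.y → 0 < z.y → S z = S z' → 0 < a → 0 < b →
  0 < c → 0 < c' → (b : ℝ) ≤ (2 * π.P) ^ g → (c : ℝ) ≤ (2 * π.P) ^ g → (c' : ℝ) ≤ (2 * π.P) ^ g →
  1 ≤ g → (g + 1) * π.κ ≤ 1 → 16 * 9 ^ π.k ≤ π.P → π.P ^ (4 * g + 1) ≤ π.κ * z0.y →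
  |Real.log z.y - Real.log (z0.y * a / b)| ≤ g * π.κ →
  EqZ π.k (dil c ζ) 0 → EqZ π.k (dil c' ζ') 0 →
  Cl π.k π.κ 1 (z0.y / b) ((2 * 5 ^ π.k) ^ (g + 1)) (dil b z0.ph - dil a z.ph - ζ) →
  Cl π.k π.κ 1 (z0.y / b) ((2 * 5 ^ π.k) ^ (g + 1)) (dil b z0.ph - dil a z'.ph - ζ') →
  EqZ π.k ζ ζ'

/-- counting lists -/
structure ListSt : Prop where
  all : ∀ (α : Type) (B : Finset α) (g : ℕ) (L : Finset (List α)),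
    (∀ l ∈ L, l.length = g ∧ ∀ x ∈ l, x ∈ B) → #L ≤ #B ^ g
  rep : ∀ (PP B : Finset ℕ) (g : ℕ) (L : Finset (List ℕ)), PP.Nonempty → #B ≤ 3 * g →
    (∀ l ∈ L, l.length = g ∧ ∀ q ∈ l, q ∈ PP ∧ (l.count q = 1 → q ∈ B)) →
    #L ≤ #PP ^ (g / 2) * (4 * g) ^ g

/-- the middle primes of chains with the same defect -/
def MidSt : Prop := ∀ (k g : ℕ) (PP : Finset ℕ) (L : Finset (List (ℕ × ℕ × ℕ)))
  (ζ : List (ℕ × ℕ × ℕ) → Ph), PP.Nonempty → (∀ p ∈ PP, p.Prime) →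
  (∀ l ∈ L, l.length = g ∧ (∀ x ∈ l, x.1 ∈ PP ∧ x.2.1 ∈ PP ∧ x.2.2 ∈ PP) ∧ Zt k l (ζ l)) →
  (∀ l ∈ L, ∀ l' ∈ L, (l.map fun x => (x.1, x.2.2)) = (l'.map fun x => (x.1, x.2.2)) ∧
    EqZ k (ζ l) (ζ l')) → #L ≤ #PP ^ (g / 2) * (4 * g) ^ g

/-- the number of chains -/
def CountSt : Prop := ∀ (π : Par) (Y Mb : ℝ) (S : Pt π.k → ℤ × Ph) (j g : ℕ), π.Ok →
  StMap π.k π.κ S → 0 < Y → 1 ≤ g → (g + 1) * π.κ ≤ 1 → 16 * 9 ^ π.k ≤ π.P →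
  π.P ^ (4 * g + 1) ≤ π.κ * (Y * π.P ^ j) →
  (geo π Y S).Few j Mb g
    (#π.PP ^ (2 * g) * ((2 * g + 2) * Mb) * (#π.PP ^ (g / 2) * (4 * g) ^ g))

/-- the choice of the length of the chains -/
def NumSt : Prop := ∀ (K pp : ℝ) (j : ℕ), 1 ≤ K → K ^ 70 ≤ pp → 4 * (8 + j) ≤ K → ∃ a g : ℕ,
  g = 2 ^ a ∧ 1 ≤ g ∧ 4 * g + 1 ≤ 9 + j ∧ (K ^ 10 / pp ^ 3) ^ g *
    (pp ^ (2 * g) * ((2 * g + 2) * K ^ (3 * (j + 1))) * (pp ^ (g / 2) * (4 * g) ^ g)) ≤ 1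

end Pool.Agent.Lib.MP_028aa5_nt.U
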