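import Pool.Agent.Lib.MP_028aa5_nt.U.St2

/-! Statements, part 3: from the graph to exact points and back. -/

namespace Pool.Agent.Lib.MP_028aa5_nt.U

open Finset T
open scoped Classical

/-- the fine view -/
structure VASt : Prop where
  κ : ∀ π M, (vA π M).κ = π.κ
  κ1 : ∀ π M, (vA π M).κ1 = π.κ0
  ps : ∀ π M c, (vA π M).ps c = π.yy c
  ps' : ∀ (π : Par) M c, (vA π M).ps (c * π.Nf) = π.ps c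
  ν : ∀ π M, (vA π M).ν = 1 / #π.PP
  ok : ∀ π M, π.Ok → (vA π M).Ok
  reg : ∀ π M X A C D, Reg2 π X A C D → Reg2 (vA π M) X A C D
  κ_le : ∀ π : Par, π.Ok → π.κ ≤ 2 * π.G * π.κ1
  ps_le : ∀ (π : Par) j, π.Ok → π.ps (j / π.Nf) ≤ π.yy j

/-- removing few primes at each upper vertex -/
def DropSt : Prop := ∀ (π : Par) (N : Net) (E : Finset N.Ed) (lam ω : ℝ) (Col : N.W → Finset ℕ),
  π.Ok → N.Is π E → (∀ x, (#(Col x) : ℝ) ≤ ω) → N.Ray π.ν E lam →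
  N.Ray π.ν {e ∈ E | N.pr e ∉ Col (N.up e)} (lam - 2 * √(ω / #π.PP))

/-- colliding primes -/
def ColSt : Prop := ∀ (π : Par) (N : Net) (E : Finset N.Ed) (φ : N.W → Ph) (r Y : ℝ), π.Ok →
  N.Is π E → (∀ x, Y ≤ N.pos π x) → 8 * r * π.P ^ 2 < π.κ * Y → 4 * π.P ^ 2 ≤ π.κ * Y →
  ∃ Col : N.W → Finset ℕ, (∀ x, #(Col x) ≤ π.M) ∧ ∀ x x', ∀ p ∈ π.PP, ∀ z : ℕ → ℤ,
    N.isU x = N.isU x' → N.cell x = N.cell x' → p ∉ Col x →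
    nm π.k π.κ (N.pos π x) (φ x - φ x' - lat (1 / p) z) ≤ r → ∀ j ∈ Icc 1 π.k, (p : ℤ) ^ j ∣ z j

/-- exactly multiplicative positions -/
def BlowSt : Prop := ∀ (π : Par) (N : Net) (E : Finset N.Ed) (lam : ℝ) (L : ℕ), π.Ok → N.Is π E →
  N.Ray π.ν E lam → ∃ (N1 : Net) (E1 : Finset N1.Ed) (bx : N1.W → N.W) (be : N1.Ed → N.Ed)
    (nn : N1.W → ℕ) (γ : ℝ), 0 < γ ∧ Fine N1 E1 ∧ N1.Ray (1 / #π.PP) E1 (lam * (L / (L + 1))) ∧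
    ∀ e ∈ E1, be e ∈ E ∧ N.pr (be e) = N1.pr e ∧ bx (N1.up e) = N.up (be e) ∧
      bx (N1.lo e) = N.lo (be e) ∧ N1.cell (N1.up e) = N.fj (be e) ∧
      N1.cell (N1.lo e) = N.fj (be e) - π.lg (N1.pr e) ∧ nn (N1.up e) = N1.pr e * nn (N1.lo e) ∧
      0 < nn (N1.lo e) ∧
      |Real.log (γ * nn (N1.up e)) - N1.cell (N1.up e) * π.κ0| ≤ L * #π.PP * π.κ0 ∧
      |Real.log (γ * nn (N1.lo e)) - N1.cell (N1.lo e) * π.κ0| ≤ L * #π.PP * π.κ0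

/-- nearly invariant sets of lattice points -/
def FolSt : Prop := ∀ (k : ℕ) (ε : ℝ), 1 ≤ k → 0 < ε → ∃ Nn : ℝ, 1 ≤ Nn ∧ ∀ κ g r : ℝ, 0 < κ →
  κ ≤ 1 → 0 < g → 0 < r → ∃ D : Finset (ℕ → ℤ), D.Nonempty ∧
    (∀ d ∈ D, nm k κ g (lat 1 d) ≤ Nn * r) ∧ ∀ s : ℕ → ℤ, (∀ j ∉ Icc 1 k, s j = 0) →
      nm k κ g (lat 1 s) ≤ r → (1 - ε) * #D ≤ #{d ∈ D | d + s ∈ D}

/-- exact phases -/
def OffSt : Prop := ∀ (k : ℕ) (ε : ℝ), 1 ≤ k → 0 < ε → ε ≤ 1 → ∃ Nn : ℝ, 1 ≤ Nn ∧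
  ∀ (κ γ r ν lam : ℝ) (N1 : Net) (E1 : Finset N1.Ed) (φ : N1.W → Ph) (nn : N1.W → ℕ), 0 < κ →
  κ ≤ 1 → 0 < γ → 0 < r → 0 ≤ ν → Fine N1 E1 → N1.Ray ν E1 lam →
  (∀ e ∈ E1, 0 < N1.pr e ∧ nn (N1.up e) = N1.pr e * nn (N1.lo e) ∧ 0 < nn (N1.lo e) ∧
    Cl k κ 1 (γ * nn (N1.lo e)) r (φ (N1.lo e) - dil (N1.pr e) (φ (N1.up e)))) →
  ∃ (N2 : Net) (E2 : Finset N2.Ed) (bx : N2.W → N1.W) (be : N2.Ed → N1.Ed) (ψ : N2.W → Ph),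
    Fine N2 E2 ∧ N2.Ray ν E2 (lam * (1 - ε)) ∧ ∀ e ∈ E2, be e ∈ E1 ∧ N1.pr (be e) = N2.pr e ∧
      bx (N2.up e) = N1.up (be e) ∧ bx (N2.lo e) = N1.lo (be e) ∧
      EqZ k (ψ (N2.lo e)) (dil (N2.pr e) (ψ (N2.up e))) ∧
      nm k κ (γ * nn (N1.up (be e))) (ψ (N2.up e) - φ (N1.up (be e))) ≤ Nn * r ∧
      nm k κ (γ * nn (N1.lo (be e))) (ψ (N2.lo e) - φ (N1.lo (be e))) ≤ Nn * r

/-- merging the vertices over the same point -/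
def MergeSt : Prop := ∀ (T : Sys) (N : Net) (E : Finset N.Ed) (Ψ : N.W → T.Ω) (lam : ℝ),
  Fine N E → N.Ray (1 / #T.PP) E lam → 0 < lam →
  (∀ e ∈ E, N.pr e ∈ T.PP ∧ Ψ (N.lo e) = T.ch (N.pr e) (Ψ (N.up e))) →
  (∀ e ∈ E, ∀ e' ∈ E, N.pr e = N.pr e' → Ψ (N.lo e) = Ψ (N.lo e') → Ψ (N.up e) = Ψ (N.up e')) →
  ∃ F F' : T.Ω → ℝ, T.Gr (E.image fun e => (Ψ (N.up e), N.pr e)) F F' lam

/-- the exact graph at the bottom of the tower -/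
def InitSt : Prop := ∀ (k : ℕ) (ε δ : ℝ), 1 ≤ k → 0 < ε → ε ≤ 1 / 8 → 0 < δ → δ ≤ 1 → ∃ ρ : ℝ,
  0 < ρ ∧ ρ ≤ 1 ∧ ∀ (π : Par) (N : Net) (E : Finset N.Ed) (φ : N.W → Ph) (Y : ℝ)
  (S : Pt π.k → ℤ × Ph), π.k = k → π.Ok → N.Is π E → N.Lv π 1 ρ φ E → N.Ray π.ν E (1 - ε) →
  (∀ x, Y ≤ N.pos π x) → 2 * π.κ ≤ 1 → 16 * 9 ^ k ≤ π.P → π.P ^ 4 ≤ π.κ * Y →
  2 * √(π.M / #π.PP) ≤ ε → (1 / ε + 1) * #π.PP * π.κ0 ≤ π.κ →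
  ∃ (E0 : Finset (Pt π.k × ℕ)) (F F' : Pt π.k → ℝ), (geo π Y S).Gr E0 F F' (1 - 4 * ε) ∧
    ∀ e ∈ E0, Lnk π N E φ δ e.1 e.2

/-- states at the bottom of the tower -/
def Cnt0St : Prop := ∀ (π : Par) (N : Net) (E : Finset N.Ed) (φ : N.W → Ph) (Y δ : ℝ)
  (S : Pt π.k → ℤ × Ph) (E0 : Finset (Pt π.k × ℕ)), π.Ok → N.Is π E → StMap π.k π.κ S → δ ≤ 1 →
  8 ≤ π.P → (∀ x, Y ≤ N.pos π x) → (∀ e ∈ E0, Lnk π N E φ δ e.1 e.2) →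
  (∀ e ∈ E0, (geo π Y S).V 0 e.1) ∧
    (geo π Y S).Cnt (E0.image Prod.fst) (2 * π.M * (12 * π.G + 1) * cK π.k) ∧
    (geo π Y S).Cnt (E0.image (geo π Y S).lw) (2 * π.M * (12 * π.G + 1) * cK π.k)

/-- the number of states at the top of the tower -/
def ClsSt : Prop := ∀ (π : Par) (Y Mb s0 : ℝ) (S : Pt π.k → ℤ × Ph) (A : Finset (Pt π.k)), π.Ok →
  StMap π.k π.κ S → (geo π Y S).Cnt A Mb → (∀ t ∈ A, |Real.log t.y - s0| ≤ 1 + π.κ) →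
  π.κ * #(A.image S) ≤ 6 * Mb

/-- the graph at the top of the tower -/
def NetSt : Prop := ∀ (π : Par) (N : Net) (E : Finset N.Ed) (φ : N.W → Ph) (Y δ lam Mb : ℝ)
  (S : Pt π.k → ℤ × Ph) (R : List ℕ) (E1 : Finset (Pt π.k × ℕ)) (F F' : Pt π.k → ℝ)
  (cL cU Nc : ℕ), π.Ok → N.Is π E → StMap π.k π.κ S → 2 * π.κ ≤ 1 →
  (geo π Y S).Gr E1 F F' lam → (∀ r ∈ R, r ∈ π.PP) →
  (∀ e ∈ E1, Lnk π N E φ δ ((geo π Y S).chL R e.1) e.2) →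
  (geo π Y S).Cnt (E1.image Prod.fst) Mb → (geo π Y S).Cnt (E1.image (geo π Y S).lw) Mb →
  (∀ x, N.isU x = true → N.cell x ∈ Ico cU (cU + Nc)) →
  (∀ x, N.isU x = false → N.cell x ∈ Ico cL (cL + Nc)) → Nc * π.κ1 ≤ 2 →
  ∃ (N' : Net) (E' : Finset N'.Ed) (φ' : N'.W → Ph) (cls : N'.W → Bool × ℤ × Ph),
    Out π N E φ (5 ^ π.k * δ) R.prod lam (12 * Mb) N' E' φ' cls

/-- the properties that come from `f` pass to the new graph -/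
def RealSt : Prop := ∀ (π : Par) (f : ℕ → ℂ) (η ε2 δ lam nW K er : ℝ) (cL cU Nc R : ℕ) (N : Net)
  (E : Finset N.Ed) (φ : N.W → Ph) (N' : Net) (E' : Finset N'.Ed) (φ' : N'.W → Ph)
  (cls : N'.W → Bool × ℤ × Ph), π.Ok → N.Is π E → (∀ n, ‖f n‖ ≤ 1) →
  Real0 π f η ε2 cL cU Nc N E φ → cL ≤ cU → 2 * π.κ ≤ 1 → 1 ≤ K → 2 * π.P * K ≤ π.κ * π.ps cL →
  28 * δ + 40 / π.G + 40 / K ≤ er → Out π N E φ δ R lam nW N' E' φ' cls →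
  Real0 (vA π (Fintype.card N'.W)) f (η - er) (ε2 + er) (cL * π.Nf) (cU * π.Nf) (Nc * π.Nf) N' E' φ'

/-- the tower over a graph, with explicit conditions -/
def TowYSt : Prop := ∀ (k : ℕ) (ε δ : ℝ), 1 ≤ k → 0 < ε → ε ≤ 1 / 64 → 0 < δ → ∃ ρ : ℝ,
  0 < ρ ∧ ρ ≤ 1 ∧ ∀ (π : Par) (N : Net) (E : Finset N.Ed) (φ : N.W → Ph) (cL cU Nc s : ℕ)
  (K L : ℝ), π.k = k → π.Ok → N.Is π E → N.Lv π 1 ρ φ E → N.Ray π.ν E (1 - ε) →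
  (∀ x, N.isU x = true → N.cell x ∈ Ico cU (cU + Nc)) →
  (∀ x, N.isU x = false → N.cell x ∈ Ico cL (cL + Nc)) → cL ≤ cU → Nc * π.κ1 ≤ 2 →
  π.P ^ 9 ≤ π.κ * π.ps cL → 16 * 9 ^ k ≤ π.P → 2 * √(π.M / #π.PP) ≤ ε →
  (1 / ε + 1) * #π.PP * π.κ0 ≤ π.κ → (s + 9) * π.κ ≤ 1 → 2 * π.M * (12 * π.G + 1) * cK k ≤ K →
  2 * cK k ≤ K → K ^ 70 ≤ #π.PP → 4 * (8 + s) ≤ K → 0 ≤ L → 6 * L + 6 ≤ Real.log K →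
  (s + 1) * (16 * (Real.log K / K) + 6 * Real.exp (-L)) ≤ 32 * ε →
  ∃ R : ℕ, π.P ^ s ≤ R ∧ ∃ (N' : Net) (E' : Finset N'.Ed) (φ' : N'.W → Ph)
    (cls : N'.W → Bool × ℤ × Ph),
    Out π N E φ δ R (1 - 64 * ε) (12 * K ^ (3 * (s + 1))) N' E' φ' cls

end Pool.Agent.Lib.MP_028aa5_nt.U
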