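import Pool.Agent.Lib.MP_028aa5_nt.U.St3

/-! Statements, part 4: loops in classes, the asymptotic regime and the assembly. -/

namespace Pool.Agent.Lib.MP_028aa5_nt.U

open Finset T
open scoped Classical

/-- a graph with a large eigenvalue has a vertex with many walks back to its class -/
def Loop2St : Prop := ∀ (π : Par) (N : Net) (E : Finset N.Ed) (φ : N.W → Ph) (Λ : Type)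
  (cls : N.W → Λ) (R ρ r u nW : ℝ) (n : ℕ), π.Ok → N.Is π E → 0 ≤ ρ → ρ ≤ 1 → 0 ≤ r → 0 < R →
  N.Lv π R ρ φ E → N.Ray π.ν E (1 / 2) → #(univ.image cls) ≤ nW → Cla π N φ cls R u r → 1 ≤ n →
  2 * (2 * n + 2) * π.κ1 ≤ 1 →
  ∃ e ∈ E, ∃ x, (x = N.up e ∨ x = N.lo e) ∧ ∃ (b : ℕ) (A : Finset ℕ),
    (#π.PP : ℝ) ^ n / (4 ^ n * nW * n.factorial ^ 2) ≤ #A ∧ 0 < b ∧ b ≤ (2 * π.P) ^ n ∧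
    ∀ a ∈ A, 0 < a ∧ |Real.log a - Real.log b| ≤ u + (4 * n + 2) * π.κ1 ∧ ∀ j ∈ Icc 1 π.k,
      Nr (((a : ℝ) ^ j - b ^ j) * (φ x j / R ^ j))
        ((2 / π.κ) ^ π.k * ((2 * n + r) * (16 * n + 17) ^ π.k) * (2 * π.P) ^ (n * π.k) / R ^ j)

/-- such a vertex is near a rational point -/
def Seed2St : Prop := ∀ (π : Par) (N : Net) (E : Finset N.Ed) (φ : N.W → Ph) (Λ : Type)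
  (cls : N.W → Λ) (ρ r u u' nW Y' Na e0 : ℝ) (R n Wd : ℕ), π.Ok → N.Is π E → 0 ≤ ρ → ρ ≤ 1 →
  0 ≤ r → 0 < R → N.Lv π R ρ φ E → N.Ray π.ν E (1 / 2) → #(univ.image cls) ≤ nW →
  Cla π N φ cls R u r → 1 ≤ n → 2 * (2 * n + 2) * π.κ1 ≤ 1 → u + (4 * n + 2) * π.κ1 ≤ u' → u' ≤ 1 →
  (∀ x, N.pos π x ≤ Y') → Na ≤ (#π.PP : ℝ) ^ n / (4 ^ n * nW * n.factorial ^ 2) → 2 * π.k < Na →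
  2 * π.k * (4 * u' * (2 * π.P) ^ n) / Na + 1 ≤ Wd →
  (2 / π.κ) ^ π.k * ((2 * n + r) * (16 * n + 17) ^ π.k) * (2 * π.P) ^ (n * π.k) ≤ e0 →
  ∃ e ∈ E, ∃ x, (x = N.up e ∨ x = N.lo e) ∧ Cls π.k π.κ (N.pos π x) R ((Wd : ℝ) ^ (π.k ^ 3))
    (2 ^ π.k * π.k * Y' ^ π.k * (2 * Wd ^ π.k) ^ π.k * e0) (φ x)

/-- propagation of the rational approximation from seeds -/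
def Lev2St : Prop := ∀ (π : Par) (N : Net) (E : Finset N.Ed) (φ : N.W → Ph)
  (ρ ε Y Q0 T0 Q Tm : ℝ) (R tm : ℕ), π.Ok → N.Is π E → ρ ≤ 1 → 0 < R → N.Lv π R ρ φ E →
  N.Ray π.ν E (1 - ε) → 1 ≤ tm → ε + 1 / tm < 1 / 2 → 2 * π.κ1 ≤ 1 → (∀ x, Y ≤ N.pos π x) →
  0 ≤ Q0 → 1 ≤ T0 → (∀ E' ⊆ E, N.Ray π.ν E' (1 / 2) → ∃ e ∈ E', ∃ x, (x = N.up e ∨ x = N.lo e) ∧
    Cls π.k π.κ (N.pos π x) R Q0 T0 (φ x)) →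
  Q0 * (2 * π.P) ^ (π.k * tm) ≤ Q → (2 * 9 ^ π.k) ^ tm * T0 ≤ Tm →
  (2 * 9 ^ π.k * Tm + 1) * Q ^ 2 < π.κ * Y * R →
  ∃ (E' : Finset N.Ed) (γ τ : N.W → Ph), E' ⊆ E ∧ (∀ x, φ x = γ x + τ x) ∧
    Dec π Q Tm ρ N E' γ τ ∧ N.Ray π.ν E' (1 - 2 * ε - 2 / tm)

/-- growth comparisons in the regime -/
structure Reg2St : Prop where
  mono : ∀ (π : Par) (X A A' C D : ℝ), 1 ≤ Real.log X → A' ≤ A → Reg2 π X A C D → Reg2 π X A' C D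
  base : ∀ (C D K : ℝ), 0 < D → ∃ X0 : ℝ, ∀ X ≥ X0, ∀ (π : Par) (A : ℝ), 1 ≤ A → Reg2 π X A C D →
    K ≤ X ∧ K ≤ Real.log X ∧ K ≤ Real.log π.P ∧ K ≤ π.P ∧ Real.log X ≤ π.P ∧
      K * Real.log π.P ≤ Real.log X ^ (1 / 2 : ℝ) ∧ π.P ^ (9 / 10 : ℝ) ≤ #π.PP ∧
      (#π.PP : ℝ) ≤ π.P + 1 ∧ K * Real.log X * π.κ ≤ 1
  pw : ∀ (C D c : ℝ) (d : ℕ), 0 < c → ∃ X0 : ℝ, ∀ X ≥ X0, ∀ (π : Par) (A : ℝ), Reg2 π X A C D →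
    (2 * π.P) ^ d ≤ X ^ c
  fact : ∀ (K' c : ℝ), 0 ≤ K' → 0 < c → ∃ A : ℝ, 1 ≤ A ∧ ∀ C D K : ℝ, 0 < D → 0 ≤ K → ∃ X0 : ℝ,
    ∀ X ≥ X0, ∀ π : Par, Reg2 π X A C D → ∀ n : ℕ, n * Real.log π.P ≤ K' * Real.log X →
      (K * (n + 1) * π.P / #π.PP) ^ n ≤ X ^ c ∧ (K * (n + 1) ^ 2) ^ n ≤ X ^ c

/-- the tower in the regime -/
def TowXSt : Prop := ∀ (k : ℕ) (ε δ c : ℝ), 1 ≤ k → 0 < ε → ε ≤ 1 / 64 → 0 < δ → 0 < c →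
  ∃ ρ A : ℝ, 0 < ρ ∧ ρ ≤ 1 ∧ 1 ≤ A ∧ ∀ (G M : ℕ) (C D : ℝ), 0 < D → ∃ X0 : ℝ, ∀ X ≥ X0,
  ∀ (π : Par) (N : Net) (E : Finset N.Ed) (φ : N.W → Ph) (cL cU Nc : ℕ), π.k = k → π.G = G →
  π.M = M → Reg2 π X A C D → N.Is π E → N.Lv π 1 ρ φ E → N.Ray π.ν E (1 - ε) →
  (∀ x, N.isU x = true → N.cell x ∈ Ico cU (cU + Nc)) →
  (∀ x, N.isU x = false → N.cell x ∈ Ico cL (cL + Nc)) → cL ≤ cU → Nc * π.κ1 ≤ 2 →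
  π.P ^ 9 ≤ π.κ * π.ps cL →
  ∃ R : ℕ, X ^ (7 * k + 2) ≤ R ∧ ∃ (N' : Net) (E' : Finset N'.Ed) (φ' : N'.W → Ph)
    (cls : N'.W → Bool × ℤ × Ph), Out π N E φ δ R (1 - 64 * ε) (X ^ c) N' E' φ' cls

def LevX2St : Prop := ∀ (k : ℕ) (c : ℝ), 1 ≤ k → 0 < c → ∃ c1 A : ℝ, 0 < c1 ∧ 1 ≤ A ∧
  ∀ (tm : ℕ) (C D : ℝ), 1 ≤ tm → 0 < D → ∃ X0 : ℝ, ∀ X ≥ X0,
  ∀ (π : Par) (N : Net) (E : Finset N.Ed) (φ : N.W → Ph) (Λ : Type) (cls : N.W → Λ) (ρ Y ε : ℝ)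
  (R : ℕ), π.k = k → π.Nf = 1 → Reg2 π X A C D → N.Is π E → 0 ≤ ρ → ρ ≤ 1 → N.Lv π R ρ φ E →
  N.Ray π.ν E (1 - ε) → ε + 1 / tm < 1 / 2 → X ^ (7 * k + 2) ≤ R →
  π.κ * #(univ.image cls) ≤ X ^ c1 → Cla π N φ cls R (3 * π.κ) (2 * 9 ^ π.k) → 1 ≤ π.κ * Y →
  (∀ x, Y ≤ N.pos π x ∧ N.pos π x ≤ 4 * X) →
  ∃ (E' : Finset N.Ed) (γ τ : N.W → Ph), E' ⊆ E ∧ (∀ x, φ x = γ x + τ x) ∧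
    Dec π (X ^ c) (X ^ (7 * k)) ρ N E' γ τ ∧ N.Ray π.ν E' (1 - 2 * ε - 2 / tm)

/-- from the top of the tower to one component -/
def CoreA2St : Prop := ∀ (k : ℕ) (ε1 ρ2 c : ℝ), 1 ≤ k → 0 < ε1 → 0 < ρ2 → 0 < c → ∃ ε c1 A : ℝ,
  0 < ε ∧ 0 < c1 ∧ 1 ≤ A ∧ ∀ C D : ℝ, 0 < D → ∃ X0 : ℝ, ∀ X ≥ X0,
  ∀ (π : Par) (N : Net) (E : Finset N.Ed) (φ : N.W → Ph) (Λ : Type) (cls : N.W → Λ) (Y : ℝ)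
  (R Jm : ℕ), π.k = k → π.Nf = 1 → Reg2 π X A C D → N.Is π E → N.Lv π R 0 φ E →
  N.Ray π.ν E (1 - ε) → X ^ (7 * k + 2) ≤ R → π.κ * #(univ.image cls) ≤ X ^ c1 →
  Cla π N φ cls R (3 * π.κ) (2 * 9 ^ π.k) → 1 ≤ π.κ * Y →
  (∀ x, Y ≤ N.pos π x ∧ N.pos π x ≤ 4 * X) → (∀ x, (N.cell x + 1) * π.Nf ≤ Jm) →
  ∃ (E' : Finset N.Ed) (γ τ : N.W → Ph) (q : ℕ) (_ : NeZero q) (γ0 t : Ph)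
    (vU vL : ℕ → (ZMod q)ˣ → ℝ) (Gd : Finset (ℕ × (ZMod q)ˣ × ℕ)), E' ⊆ E ∧
    (∀ x, EqZ π.k (φ x) (γ x + τ x)) ∧ q ≤ X ^ c ∧ wn π.k π.κ t ≤ X ^ (7 * k + 1) ∧
    Blk π N E' γ τ q γ0 t vU vL Gd Jm (1 - ε1) ρ2

def SparseX2St : Prop := ∀ (k : ℕ) (c : ℝ), 1 ≤ k → 0 < c → ∃ A : ℝ, 1 ≤ A ∧ ∀ C D : ℝ, 0 < D →
  ∃ X0 : ℝ, ∀ X ≥ X0, ∀ (π : Par) (N0 q : ℕ) [NeZero N0] [NeZero q], π.k = k → Reg2 π X A C D →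
  8 ≤ N0 * π.κ0 → N0 * π.κ0 ≤ 9 → q ≤ X ^ (c / 4) → (#(spec π N0 q) : ℝ) ≤ X ^ c

/-- one component is impossible -/
def CoreB2St : Prop := ∀ (k : ℕ) (η a : ℝ), 1 ≤ k → 0 < η → η ≤ 1 → 0 < a →
  ∃ (ε1 ε2 ρ2 : ℝ) (G0 : ℕ) (c A : ℝ), 0 < ε1 ∧ 0 < ε2 ∧ 0 < ρ2 ∧ 0 < c ∧ 1 ≤ A ∧ ∀ C D : ℝ, 0 < D →
  ∃ X0 : ℝ, ∀ X ≥ X0, ∀ (π : Par) (i0 i1 B cL cU Nc Jm : ℕ) (N : Net) (E : Finset N.Ed)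
  (φ γ τ : N.W → Ph) (q : ℕ) [NeZero q] (γ0 t : Ph) (vU vL : ℕ → (ZMod q)ˣ → ℝ)
  (Gd : Finset (ℕ × (ZMod q)ˣ × ℕ)), π.k = k → G0 ≤ π.G → Reg2 π X A C D →
  X ^ a ≤ (2 : ℝ) ^ i0 → (2 : ℝ) ^ i1 ≤ X ^ (1 / 10 : ℝ) → 2 ≤ a * B → N.Is π E →
  Real0 π (fw (SS i0 i1) B) η ε2 cL cU Nc N E φ → cL ≤ cU → Nc * π.κ1 ≤ Real.log 4 →
  X ^ (9 / 10 : ℝ) ≤ π.ps cL → π.ps cL ≤ X → π.P ≤ π.κ * π.ps cL →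
  (∀ x, (N.cell x + 1) * π.Nf ≤ Jm) → (∀ x, EqZ π.k (φ x) (γ x + τ x)) → q ≤ X ^ c →
  wn π.k π.κ t ≤ X ^ (7 * k + 1) → Blk π N E γ τ q γ0 t vU vL Gd Jm (1 - ε1) ρ2 → False

/-- no graph at the stable scale -/
def Core2St : Prop := ∀ (k : ℕ) (η a : ℝ), 1 ≤ k → 0 < η → η ≤ 1 → 0 < a →
  ∃ (ε ε2 ρ : ℝ) (G0 : ℕ) (A : ℝ), 0 < ε ∧ 0 < ε2 ∧ 0 < ρ ∧ ρ ≤ 1 ∧ 1 ≤ A ∧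
  ∀ (G M : ℕ) (C D : ℝ), G0 ≤ G → 0 < D →
  ∃ X0 : ℝ, ∀ X ≥ X0, ∀ (π : Par) (i0 i1 B cL cU Nc : ℕ) (N : Net) (E : Finset N.Ed)
  (φ : N.W → Ph), π.k = k → π.M = M → π.G = G → Reg2 π X A C D →
  X ^ a ≤ (2 : ℝ) ^ i0 → (2 : ℝ) ^ i1 ≤ X ^ (1 / 10 : ℝ) → 2 ≤ a * B → N.Is π E →
  N.Lv π 1 ρ φ E → N.Ray π.ν E (1 - ε) → Real0 π (fw (SS i0 i1) B) η ε2 cL cU Nc N E φ →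
  cL ≤ cU → Nc * π.κ1 ≤ Real.log 4 → X ^ (9 / 10 : ℝ) ≤ π.ps cL →
  π.ps cU ≤ X → π.P ^ 9 ≤ π.κ * π.ps cL → False

/-- the grid and the prime range at height `X` -/
def Setup2St : Prop := ∀ L : ℝ, ∃ a : ℝ, 0 < a ∧ ∀ (k G : ℕ) (C1 K : ℝ), 1 ≤ G → 0 < C1 →
  ∃ X0 : ℝ, ∀ X ≥ X0, ∃ (Nf c0 Nc i0 i1 : ℕ), 1 ≤ Nf ∧ X ^ a ≤ (2 : ℝ) ^ i0 ∧
    (2 : ℝ) ^ i1 ≤ X ^ (1 / 10 : ℝ) ∧ L ≤ LL (SS i0 i1) ∧ ∀ π : Par, π.k = k → π.G = G →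
    π.Nf = Nf → π.κ0 = X ^ (-(7 * k + 4 : ℝ)) →
    Real.log X ^ C1 ≤ π.κ * π.ps c0 ∧ π.κ * X ≤ 8 * Real.log X ^ C1 ∧ π.κ * K ≤ 1 ∧
    π.κ ≤ X ^ (-(1 / 2 : ℝ)) ∧ X / 2 ≤ π.ps c0 ∧ π.ps c0 ≤ X ∧ 3 * X ≤ π.ps (c0 + Nc) ∧
    π.ps (c0 + Nc) ≤ 4 * X ∧ 1 ≤ Nc * π.κ1 ∧ Nc * π.κ1 ≤ Real.log 4

def Main2St : Prop := ∀ (k : ℕ) (η : ℝ), 1 ≤ k → 0 < η → ∃ C X0 : ℝ, ∀ X ≥ X0, ∀ H : ℝ,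
  Real.log X ^ C ≤ H → H ≤ X → ∫ x in X..2 * X, supS k H x ≤ η * (H * X)

end Pool.Agent.Lib.MP_028aa5_nt.U
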