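import Pool.Agent.Lib.MP_028aa5_nt.U.St1

/-! The second entropy at the next level of the tower. -/

namespace Pool.Agent.Lib.MP_028aa5_nt.U

open Finset T
open scoped Classical

namespace StepBJ

theorem log_step {c F1 G1 F G m M : ℝ} (hc : 0 < c) (hF1 : 0 < F1) (hG1 : 0 < G1) (hF : 0 < F)
    (hG : 0 < G) (hm : 0 < m) (hM : 0 < M) (h : F1 ≤ F * m / M) :
    Real.log (c * F1 / G1) ≤ Real.log (c * F / G) + (G * m / M / G1 - 1) := by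
  have h1 : c * F1 / G1 ≤ (c * F / G) * (G * m / M / G1) := by
    have e : (c * F / G) * (G * m / M / G1) = c * (F * m / M) / G1 := by
      field_simp
    rw [e]
    gcongr
  have h2 : 0 < c * F / G := by positivity
  have h3 : 0 < G * m / M / G1 := by positivity
  have h4 := Real.log_le_log (by positivity) h1
  rw [Real.log_mul h2.ne' h3.ne'] at h4
  have h5 := Real.log_le_sub_one_of_pos h3
  linarith

variable {T : Sys}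

theorem mem_prs (σ : Sm T) (u : σ.ι × σ.ι) :
    u ∈ σ.prs ↔ (u.1 ∈ σ.s ∧ u.2 ∈ σ.s) ∧ σ.w u.1 = σ.w u.2 := by
  unfold Sm.prs
  rw [mem_filter, mem_product]

/-- the law of the finest variable at the next level -/
theorem fine_le (hS : SmSt) {C0 : ℝ} (σ : Sm T) {E0 : Finset (T.Ω × ℕ)} {j : ℕ} {Ml : ℝ}
    (hT : T.Ok C0) (hI : σ.Inv E0 j Ml) (s1 : Finset (σ.ι × σ.ι)) (hs : s1 ⊆ σ.prs)
    (hq : ∀ u ∈ s1, σ.p u.1 ≠ σ.p u.2) (u : σ.ι × σ.ι) (hu : u ∈ s1) :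
    fm s1 σ.pw (fun v => ((σ.tp v, σ.p v.1), σ.p v.2 :: σ.R v.1))
        ((σ.tp u, σ.p u.1), σ.p u.2 :: σ.R u.1) ≤
      fm σ.s σ.a (fun x => ((σ.y x, σ.p x), σ.R x)) ((σ.y u.1, σ.p u.1), σ.R u.1) * σ.μ u.2 /
        σ.mL (σ.w u.1) := by
  refine hS.prod T σ (fun x => ((σ.y x, σ.p x), σ.R x) = ((σ.y u.1, σ.p u.1), σ.R u.1))
    (fun x => (σ.y x, σ.p x) = (σ.y u.2, σ.p u.2)) (σ.w u.1) _ hI.pos ?_ ?_
  · intro v hv
    simp only [mem_filter] at hv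
    exact hs hv.1
  · intro v hv
    simp only [mem_filter, Prod.mk.injEq, List.cons.injEq] at hv
    obtain ⟨hv1, hv2⟩ := hv
    obtain ⟨⟨e1, e2⟩, e3, e4⟩ := hv2
    obtain ⟨a1, a2, -⟩ := hS.tp T C0 σ E0 j Ml hT hI v (hs hv1) (hq v hv1)
    obtain ⟨b1, b2, -⟩ := hS.tp T C0 σ E0 j Ml hT hI u (hs hu) (hq u hu)
    have y1 : σ.y v.1 = σ.y u.1 := by rw [← a1, ← b1, e1, e3]
    have y2 : σ.y v.2 = σ.y u.2 := by rw [← a2, ← b2, e1, e2]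
    refine ⟨by rw [y1, e2, e4], by rw [y2, e3], ?_⟩
    unfold Sm.w
    rw [y1, e2]

/-- the numerator of the correction -/
noncomputable def Gf (σ : Sm T) (b : T.Ω × List ℕ) : ℝ :=
  fm σ.s σ.a (fun x => (σ.w x, σ.R x)) (T.ch b.2.headI b.1, b.2.tail) *
    fm σ.s σ.a (fun x => (σ.y x, σ.p x)) (b.1, b.2.headI) / σ.mL (T.ch b.2.headI b.1)

theorem Gf_sum (hE : EntSt) (σ : Sm T) (ha : ∀ x ∈ σ.s, 0 < σ.a x) (B : Finset (T.Ω × List ℕ))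
    (hB : ∀ b ∈ B, ∃ x ∈ σ.s, ∃ x' ∈ σ.s, b = (σ.y x', σ.p x' :: σ.R x)) :
    ∑ b ∈ B, Gf σ b ≤ σ.Z := by
  have ha0 : ∀ x ∈ σ.s, 0 ≤ σ.a x := fun x hx => (ha x hx).le
  have hG : ∀ b, 0 ≤ Gf σ b := fun b =>
    div_nonneg (mul_nonneg (hE.nonneg _ _ _ _ ha0) (hE.nonneg _ _ _ _ ha0)) (hE.nonneg _ _ _ _ ha0)
  set P1 : Finset (T.Ω × ℕ) := σ.s.image fun x => (σ.y x, σ.p x) with hP1
  set P2 : Finset (List ℕ) := σ.s.image σ.R with hP2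
  have hsub : B ⊆ (P1 ×ˢ P2).image fun e => (e.1.1, e.1.2 :: e.2) := by
    intro b hb
    obtain ⟨x, hx, x', hx', rfl⟩ := hB b hb
    exact mem_image.2 ⟨((σ.y x', σ.p x'), σ.R x),
      mem_product.2 ⟨mem_image_of_mem _ hx', mem_image_of_mem _ hx⟩, rfl⟩
  refine (sum_le_sum_of_subset_of_nonneg hsub fun b _ _ => hG b).trans ?_
  rw [sum_image, sum_product]
  · refine le_trans (sum_le_sum fun e _ => ?_) (hE.tot σ.s σ.a (fun x => (σ.y x, σ.p x)) P1 ha0)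
    have h1 := hE.marg σ.s σ.a σ.w σ.R P2 (T.ch e.2 e.1) ha0
    have h2 : 0 ≤ fm σ.s σ.a (fun x => (σ.y x, σ.p x)) e := hE.nonneg _ _ _ _ ha0
    have h3 : 0 ≤ fm σ.s σ.a σ.w (T.ch e.2 e.1) := hE.nonneg _ _ _ _ ha0
    have e1 : ∑ R ∈ P2, Gf σ (e.1, e.2 :: R) =
        (∑ R ∈ P2, fm σ.s σ.a (fun x => (σ.w x, σ.R x)) (T.ch e.2 e.1, R)) *
          fm σ.s σ.a (fun x => (σ.y x, σ.p x)) e / fm σ.s σ.a σ.w (T.ch e.2 e.1) := by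
      rw [sum_mul, sum_div]
      rfl
    rw [e1]
    refine div_le_of_le_mul₀ h3 h2 ?_
    rw [mul_comm]
    exact mul_le_mul_of_nonneg_left h1 h2
  · rintro ⟨⟨a1, a2⟩, a3⟩ - ⟨⟨b1, b2⟩, b3⟩ - h
    simp only [Prod.mk.injEq, List.cons.injEq] at h
    obtain ⟨rfl, rfl, rfl⟩ := h
    rfl

theorem sum_fst {ι : Type} (s : Finset ι) (B : Finset (ι × ι)) (W : ι × ι → ℝ) (h : ι → ℝ)
    (hB : ∀ u ∈ B, u.1 ∈ s) : ∑ x ∈ s, fm B W Prod.fst x * h x = ∑ u ∈ B, W u * h u.1 := by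
  rw [← sum_fiberwise_of_maps_to hB]
  refine sum_congr rfl fun x _ => ?_
  unfold fm
  rw [sum_mul]
  refine sum_congr rfl fun u hu => ?_
  rw [(mem_filter.1 hu).2]

/-- the removed pairs -/
theorem removed (hE : EntSt) (hS : SmSt) (σ : Sm T) {E0 : Finset (T.Ω × ℕ)} {j : ℕ} {Ml : ℝ}
    (hne : T.PP.Nonempty) (hI : σ.Inv E0 j Ml) (L : ℝ) (B : Finset (σ.ι × σ.ι)) (hB : B ⊆ σ.prs) :
    -∑ u ∈ B, σ.pw u * Real.log (#T.PP *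
      fm σ.s σ.a (fun x => ((σ.y x, σ.p x), σ.R x)) ((σ.y u.1, σ.p u.1), σ.R u.1) /
        fm σ.s σ.a (fun x => (σ.w x, σ.R x)) (σ.w u.1, σ.R u.1)) ≤
      L * ∑ u ∈ B, σ.pw u + Real.exp (-L) := by
  have hc : (0 : ℝ) < #T.PP := by exact_mod_cast hne.card_pos
  have hB1 : ∀ u ∈ B, u.1 ∈ σ.s := fun u hu => ((mem_prs σ u).1 (hB hu)).1.1
  have hW : ∀ u ∈ σ.prs, 0 ≤ σ.pw u := fun u hu => (hS.pw_pos T σ hI.pos u hu).le
  have hk := hE.kill (#T.PP) σ.s σ.a (fun x => ((σ.y x, σ.p x), σ.R x)) (fun x => (σ.w x, σ.R x))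
    hc hI.pos ?_ ?_ (fm B σ.pw Prod.fst) L ?_
  · rw [sum_fst σ.s B σ.pw _ hB1] at hk
    have e1 : ∑ x ∈ σ.s, fm B σ.pw Prod.fst x = ∑ u ∈ B, σ.pw u := by
      have := sum_fst σ.s B σ.pw (fun _ => 1) hB1
      simpa only [mul_one] using this
    rw [e1] at hk
    have h2 : Real.exp (-L) * ∑ x ∈ σ.s, σ.a x ≤ Real.exp (-L) :=
      mul_le_of_le_one_right (Real.exp_pos _).le hI.tot
    linarith
  · intro x _ x' _ h
    simp only [Prod.mk.injEq] at h ⊢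
    obtain ⟨⟨e1, e2⟩, e3⟩ := h
    refine ⟨?_, e3⟩
    unfold Sm.w
    rw [e1, e2]
  · intro b
    convert hS.fibB T σ E0 j Ml hI b
  · intro x hx
    refine ⟨hE.nonneg _ _ _ _ fun u hu => hW u (hB hu), ?_⟩
    refine (hE.mono σ.prs B σ.pw Prod.fst x hB hW).trans (le_of_eq ?_)
    rw [← (hS.row T σ hI.pos x hx).1]
    unfold fm
    convert rfl

theorem main (hE : EntSt) (hS : SmSt) {C0 : ℝ} (σ : Sm T) {E0 : Finset (T.Ω × ℕ)} {j : ℕ} {Ml : ℝ}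
    (hT : T.Ok C0) (hI : σ.Inv E0 j Ml) (s1 : Finset (σ.ι × σ.ι)) (hs : s1 ⊆ σ.prs)
    (hq : ∀ u ∈ s1, σ.p u.1 ≠ σ.p u.2) :
    Dv #T.PP s1 σ.pw (fun v => ((σ.tp v, σ.p v.1), σ.p v.2 :: σ.R v.1))
        (fun v => (T.ch (σ.p v.1) (σ.tp v), σ.p v.2 :: σ.R v.1)) ≤
      ∑ u ∈ s1, σ.pw u * Real.log (#T.PP *
        fm σ.s σ.a (fun x => ((σ.y x, σ.p x), σ.R x)) ((σ.y u.1, σ.p u.1), σ.R u.1) /
          fm σ.s σ.a (fun x => (σ.w x, σ.R x)) (σ.w u.1, σ.R u.1)) + (σ.Z - ∑ u ∈ s1, σ.pw u) := by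
  have hc : (0 : ℝ) < #T.PP := by exact_mod_cast hT.ne.card_pos
  have ha0 : ∀ x ∈ σ.s, 0 ≤ σ.a x := fun x hx => (hI.pos x hx).le
  have hW : ∀ u ∈ s1, 0 < σ.pw u := fun u hu => hS.pw_pos T σ hI.pos u (hs hu)
  have hW0 : ∀ u ∈ s1, 0 ≤ σ.pw u := fun u hu => (hW u hu).le
  have hy : ∀ u ∈ s1, T.ch (σ.p u.1) (σ.tp u) = σ.y u.2 := fun u hu =>
    (hS.tp T C0 σ E0 j Ml hT hI u (hs hu) (hq u hu)).2.1
  generalize hg : (fun v : σ.ι × σ.ι => (T.ch (σ.p v.1) (σ.tp v), σ.p v.2 :: σ.R v.1)) = g1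
  have hg1 : ∀ u ∈ s1, g1 u = (σ.y u.2, σ.p u.2 :: σ.R u.1) := fun u hu => by
    rw [← hg, ← hy u hu]
  have hv := hE.val s1 σ.pw g1 (Gf σ) hW
  have hz : ∑ u ∈ s1, σ.pw u * (Gf σ (g1 u) / fm s1 σ.pw g1 (g1 u)) ≤ σ.Z := by
    rw [hv]
    refine Gf_sum hE σ hI.pos _ fun b hb => ?_
    simp only [mem_image] at hb
    obtain ⟨u, hu, rfl⟩ := hb
    have hm := ((mem_prs σ u).1 (hs hu)).1
    exact ⟨u.1, hm.1, u.2, hm.2, hg1 u hu⟩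
  refine le_trans ?_ (add_le_add le_rfl (sub_le_sub_right hz _))
  rw [← sum_sub_distrib, ← sum_add_distrib]
  unfold Dv
  refine sum_le_sum fun u hu => ?_
  obtain ⟨hm, hw⟩ := (mem_prs σ u).1 (hs hu)
  have hGf : Gf σ (g1 u) = fm σ.s σ.a (fun x => (σ.w x, σ.R x)) (σ.w u.1, σ.R u.1) * σ.μ u.2 /
      σ.mL (σ.w u.1) := by
    rw [hg1 u hu, hw]
    rfl
  have hp2 := hS.pos T σ hI.pos u.2 hm.2
  have hp1 := hS.pos T σ hI.pos u.1 hm.1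
  have hl := log_step hc
    ((hW u hu).trans_le (hE.self s1 σ.pw
      (fun v => ((σ.tp v, σ.p v.1), σ.p v.2 :: σ.R v.1)) hW0 u hu))
    ((hW u hu).trans_le (hE.self s1 σ.pw g1 hW0 u hu))
    ((hI.pos _ hm.1).trans_le (hE.self σ.s σ.a (fun x => ((σ.y x, σ.p x), σ.R x)) ha0 u.1 hm.1))
    ((hI.pos _ hm.1).trans_le (hE.self σ.s σ.a (fun x => (σ.w x, σ.R x)) ha0 u.1 hm.1))
    hp2.1 (hp1.1.trans_le hp1.2.2) (fine_le hS σ hT hI s1 hs hq u hu)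
  rw [← hGf] at hl
  have := mul_le_mul_of_nonneg_left hl (hW0 u hu)
  rw [mul_add, mul_sub, mul_one] at this
  exact this

end StepBJ

theorem st_StepB (hE : EntSt) (hS : SmSt) : StepBSt := by
  intro T C0 σ E0 j Ml L q hT hI hq
  have h1 := StepBJ.main hE hS σ hT hI (σ.prs.filter q) (filter_subset _ _)
    fun u hu => hq u (mem_filter.1 hu).1 (mem_filter.1 hu).2
  have h2 := StepBJ.removed hE hS σ hT.ne hI L (σ.prs.filter fun u => ¬q u) (filter_subset _ _)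
  have h3 := hS.sum1 T σ (fun x => Real.log (#T.PP *
    fm σ.s σ.a (fun x => ((σ.y x, σ.p x), σ.R x)) ((σ.y x, σ.p x), σ.R x) /
      fm σ.s σ.a (fun x => (σ.w x, σ.R x)) (σ.w x, σ.R x))) hI.pos
  have h4 := hS.sum1 T σ (fun _ => 1) hI.pos
  simp only [mul_one] at h4
  rw [← sum_filter_add_sum_filter_not σ.prs q] at h3 h4
  have e1 : (σ.nxt q).B = Dv #T.PP (σ.prs.filter q) σ.pw
      (fun v => ((σ.tp v, σ.p v.1), σ.p v.2 :: σ.R v.1))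
      (fun v => (T.ch (σ.p v.1) (σ.tp v), σ.p v.2 :: σ.R v.1)) := rfl
  have e2 : σ.B = ∑ x ∈ σ.s, σ.a x * Real.log (#T.PP *
      fm σ.s σ.a (fun x => ((σ.y x, σ.p x), σ.R x)) ((σ.y x, σ.p x), σ.R x) /
        fm σ.s σ.a (fun x => (σ.w x, σ.R x)) (σ.w x, σ.R x)) := rfl
  have e3 : σ.Z = ∑ x ∈ σ.s, σ.a x := rfl
  rw [e1, e2]
  rw [e3] at h1
  linarith

end Pool.Agent.Lib.MP_028aa5_nt.U
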