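import Pool.Agent.Lib.MP_028aa5_nt.U.St1

/-! One level of the tower, and the tower. -/

namespace Pool.Agent.Lib.MP_028aa5_nt.U

open Finset T
open scoped Classical

theorem st_Step (hS : SmSt) (hA : StepASt) (hB : StepBSt) (hC : ConfSt) (hN : NextSt)
    (hL : LightSt) : StepSt := by
  intro T C0 σ E0 j a Ml Mb K L Nl hne ok inv post K1 K3 L0 hK few N0 hN1
  obtain ⟨ts, hts⟩ := hC T C0 σ E0 j a Ml Mb K Nl hne ok inv post K1 few N0 hN1
  obtain ⟨q, hq⟩ : ∃ q : σ.ι × σ.ι → Prop, ∀ u, q u ↔ σ.p u.1 ≠ σ.p u.2 ∧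
      T.Near (σ.tp u) (ts (T.S (σ.y u.1)) (σ.p u.2)) ∧
      T.Near (σ.tp u) (ts (T.S (σ.y u.2)) (σ.p u.1)) := ⟨_, fun _ => Iff.rfl⟩
  have sw : ∀ u ∈ σ.prs, q u → q u.swap := fun u hu h => by
    rw [hq] at h ⊢
    have e := (hS.tp T C0 σ E0 j Ml ok inv u hu h.1).2.2
    refine ⟨h.1.symm, ?_, ?_⟩
    · rw [e]; exact h.2.2
    · rw [e]; exact h.2.1
  obtain ⟨i1, i2, i3⟩ := hN T C0 σ E0 j Ml Mb ts q ok inv post.1 fun u _ h =>
    ⟨((hq u).1 h).1, ((hq u).1 h).2.2⟩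
  have a1 := hA T C0 σ E0 j Ml L q ok inv sw fun u _ h => ((hq u).1 h).1
  have b1 := hB T C0 σ E0 j Ml L q ok inv fun u _ h => ((hq u).1 h).1
  have d1 := hL.diag T σ E0 j Ml K Mb ok.ne inv post K1 K3
  have w0 : ∀ u ∈ σ.prs, 0 ≤ σ.pw u := fun u hu => (hS.pw_pos T σ inv.pos u hu).le
  have d2 : ∑ u ∈ σ.prs with σ.p u.1 ≠ σ.p u.2 ∧
      ¬T.Near (σ.tp u) (ts (T.S (σ.y u.2)) (σ.p u.1)), σ.pw u ≤ 6 / K := by
    refine le_of_eq_of_le ?_ hts
    have e := hS.swap T σ fun u => if σ.p u.1 ≠ σ.p u.2 ∧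
      ¬T.Near (σ.tp u) (ts (T.S (σ.y u.2)) (σ.p u.1)) then 1 else 0
    simp only [mul_ite, mul_one, mul_zero] at e
    rw [sum_filter, sum_filter, e]
    refine sum_congr rfl fun u hu => if_congr ?_ rfl rfl
    by_cases h : σ.p u.1 = σ.p u.2
    · simp [h]
    · rw [(hS.tp T C0 σ E0 j Ml ok inv u hu h).2.2]
      simp [h, Ne.symm h]
  have k1 : ∑ u ∈ σ.prs with ¬q u, σ.pw u ≤ 15 / K := by
    refine le_trans ?_ ((add_le_add (add_le_add d1 hts) d2).trans_eq (by ring))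
    simp only [sum_filter, ← sum_add_distrib]
    refine sum_le_sum fun u hu => ?_
    have := w0 u hu
    by_cases h1 : σ.p u.1 = σ.p u.2 <;>
      by_cases h2 : T.Near (σ.tp u) (ts (T.S (σ.y u.1)) (σ.p u.2)) <;>
      by_cases h3 : T.Near (σ.tp u) (ts (T.S (σ.y u.2)) (σ.p u.1)) <;>
      simp [hq, h1, h2, h3, this]
  have k0 : 0 ≤ ∑ u ∈ σ.prs with ¬q u, σ.pw u :=
    sum_nonneg fun u hu => w0 u (mem_filter.1 hu).1
  refine ⟨σ.nxt q, i1, i2, ?_⟩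
  unfold Sm.Φ
  rw [i3]
  generalize ∑ u ∈ σ.prs with ¬q u, σ.pw u = k at *
  have l0 : 0 ≤ Real.log K := by linarith
  have m1 := mul_le_mul_of_nonneg_left k1 l0
  have m2 := mul_le_mul_of_nonneg_right hK k0
  have e1 : Real.log K * (15 / K) = 15 * (Real.log K / K) := by ring
  nlinarith

theorem st_Tow (hS : SmSt) (hE : KillESt) (hC : KillCSt) (hP : StepSt) (h0 : StartSt)
    (hF : FinSt) : TowSt := by
  intro T C0 K L ε s E0 F F' ok gr e0 e1 hV c1 c2 K1 KC K3 L0 hK hβ few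
  have K0 : 0 < K := by linarith
  have l0 : 0 ≤ Real.log K := by linarith
  have pp0 : (0 : ℝ) ≤ #T.PP := Nat.cast_nonneg _
  have hne : Nonempty T.Ω := by
    by_contra h
    rw [not_nonempty_iff] at h
    have := gr.pos
    simp [eq_empty_of_isEmpty] at this
  have kill : ∀ (σ : Sm T) (j : ℕ) (Ml : ℝ), σ.Inv E0 j Ml → σ.Pre (K ^ (3 * j + 1)) →
      ∃ σ' : Sm T, σ'.Inv E0 j Ml ∧ σ'.Post K (K ^ (3 * (j + 1))) ∧
        σ'.Φ K ≤ σ.Φ K + Real.log K / K + 3 * Real.exp (-L) := by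
    intro σ j Ml inv pre
    obtain ⟨q, q1, q2, q3⟩ := hC T σ E0 j Ml _ K ok.ne inv pre (by positivity) K1
    refine ⟨σ.res q, hS.res T σ E0 j Ml q inv, ?_, (hE T σ E0 j Ml K L q ok.ne inv K1 L0 hK q1).trans ?_⟩
    · rwa [← pow_add, show 2 + (3 * j + 1) = 3 * (j + 1) by ring] at q3
    · have := mul_le_mul_of_nonneg_left q2 l0
      rw [mul_one_div] at this
      linarith
  have β0 : 0 ≤ Real.log K / K := by positivity
  have β1 : 0 < Real.exp (-L) := Real.exp_pos _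
  have ind : ∀ j ≤ s, ∃ σ : Sm T, σ.Inv E0 j (K ^ (3 * (j + 1))) ∧ σ.Post K (K ^ (3 * (j + 1))) ∧
      σ.Φ K ≤ 8 * ε + (j + 1) * (16 * (Real.log K / K) + 6 * Real.exp (-L)) := by
    intro j
    induction j with
    | zero =>
      intro _
      obtain ⟨σ, i1, i2, i3⟩ := h0 T E0 F F' (1 - ε) K K ok.ne gr (by linarith) hV c1 c2
      obtain ⟨σ', j1, j2, j3⟩ := kill σ 0 K i1 (by simpa using i2)
      refine ⟨σ', hS.inv_mono T σ' E0 0 _ _ (le_self_pow₀ K1 (by norm_num)) j1, j2, ?_⟩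
      have h1 : Real.log (1 / (1 - ε)) ≤ 2 * ε := by
        refine (Real.log_le_sub_one_of_pos (by apply one_div_pos.2; linarith)).trans ?_
        rw [sub_le_iff_le_add, div_le_iff₀ (by linarith)]
        nlinarith
      have := i3 K
      push_cast
      linarith
    | succ j ih =>
      intro hj
      obtain ⟨σ, i1, i2, i3⟩ := ih (by omega)
      obtain ⟨a, Nl, f1, f2, f3⟩ := few j (by omega)
      obtain ⟨σ1, j1, j2, j3⟩ := hP T C0 σ E0 j a _ _ K L Nl hne ok i1 i2 K1 K3 L0 hK f1 f2 f3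
      obtain ⟨σ2, m1, m2, m3⟩ := kill σ1 (j + 1) _ j1 fun c => (j2 c).trans
        (mul_le_mul_of_nonneg_left (by
          rw [pow_succ' K (3 * (j + 1))]
          exact mul_le_mul_of_nonneg_right KC (by positivity)) pp0)
      refine ⟨σ2, hS.inv_mono T σ2 E0 _ _ _ (pow_le_pow_right₀ K1 (by omega)) m1, m2, ?_⟩
      push_cast
      linarith
  obtain ⟨σ, i1, i2, i3⟩ := ind s le_rfl
  obtain ⟨n1, n2, n3⟩ := hS.nonneg T σ E0 s _ ok.ne i1
  have z1 := i1.tot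
  unfold Sm.Φ at i3
  have z2 : 0 ≤ Real.log K / 2 * (1 - σ.Z) := mul_nonneg (by linarith) (by linarith)
  have z3 : 2 / 3 ≤ σ.Z := by
    have := mul_le_mul_of_nonneg_right (show 3 ≤ Real.log K / 2 by linarith)
      (show 0 ≤ 1 - σ.Z by linarith)
    linarith
  obtain ⟨R, E, G, G', r1, r2, r3, r4, r5, r6⟩ := hF T σ E0 s _ _ ok.ne i1 (by linarith) i2.1
  refine ⟨R, E, G, G', r1, r2, ⟨r3.pr, r3.pu, r3.pos,
    le_trans (mul_le_mul_of_nonneg_right ?_ r3.pos.le) r3.ray⟩, r4, r5, r6⟩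
  have : (σ.A + σ.B) / (2 * σ.Z) ≤ 16 * ε := by
    rw [div_le_iff₀ (by linarith)]
    nlinarith
  linarith

end Pool.Agent.Lib.MP_028aa5_nt.U
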